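import Mathlib

/-!
# Representations of the quiver `A ⇉ B ← C`

Basic notions: homomorphisms, the vanishing of `Ext¹` (`E0`) and of `Hom` (`H0`), the Euler form,
short exact sequences.
-/

set_option autoImplicit false

namespace Pool.Agent.L7h86

inductive Vx
  | A | B | C
  deriving DecidableEq

instance : Fintype Vx := ⟨{.A, .B, .C}, by intro i; cases i <;> decide⟩

inductive Ed
  | x | y | z
  deriving DecidableEq

instance : Fintype Ed := ⟨{.x, .y, .z}, by intro i; cases i <;> decide⟩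

theorem sum_Vx {M : Type*} [AddCommMonoid M] (F : Vx → M) :
    ∑ i, F i = F .A + F .B + F .C := by
  have h : (Finset.univ : Finset Vx) = {.A, .B, .C} := rfl
  rw [h, Finset.sum_insert (by decide), Finset.sum_insert (by decide), Finset.sum_singleton,
    add_assoc]

theorem sum_Ed {M : Type*} [AddCommMonoid M] (F : Ed → M) :
    ∑ i, F i = F .x + F .y + F .z := by
  have h : (Finset.univ : Finset Ed) = {.x, .y, .z} := rfl
  rw [h, Finset.sum_insert (by decide), Finset.sum_insert (by decide), Finset.sum_singleton,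
    add_assoc]

/-- the source of an arrow; the target is always `B` -/
def Ed.s : Ed → Vx
  | .x => .A
  | .y => .A
  | .z => .C

structure Rep where
  V : Vx → Type
  [ag : ∀ i, AddCommGroup (V i)]
  [md : ∀ i, Module ℂ (V i)]
  [fd : ∀ i, FiniteDimensional ℂ (V i)]
  f : ∀ e : Ed, V e.s →ₗ[ℂ] V Vx.B

attribute [instance] Rep.ag Rep.md Rep.fd

structure Hm (M N : Rep) where
  g : ∀ i, M.V i →ₗ[ℂ] N.V i
  h : ∀ e v, N.f e (g e.s v) = g .B (M.f e v)

/-- `Ext¹(M, N) = 0` -/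
def E0 (M N : Rep) : Prop :=
  ∀ ξ : ∀ e : Ed, M.V e.s →ₗ[ℂ] N.V .B, ∃ g : ∀ i, M.V i →ₗ[ℂ] N.V i,
    ∀ e v, N.f e (g e.s v) - g .B (M.f e v) = ξ e v

/-- `Hom(M, N) = 0` -/
def H0 (M N : Rep) : Prop := ∀ g : Hm M N, ∀ i v, g.g i v = 0

abbrev Cls := Vx → ℤ

noncomputable def Rep.cl (M : Rep) : Cls := fun i => (Module.finrank ℂ (M.V i) : ℤ)

theorem Rep.cl_nonneg (M : Rep) (i : Vx) : 0 ≤ M.cl i := Int.natCast_nonneg _

def chi (u w : Cls) : ℤ :=
  u .A * w .A + u .B * w .B + u .C * w .C - 2 * (u .A * w .B) - u .C * w .B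

theorem chi_add_left (u v w : Cls) : chi (u + v) w = chi u w + chi v w := by
  simp only [chi, Pi.add_apply]; ring

theorem chi_add_right (u v w : Cls) : chi u (v + w) = chi u v + chi u w := by
  simp only [chi, Pi.add_apply]; ring

theorem chi_sub_left (u v w : Cls) : chi (u - v) w = chi u w - chi v w := by
  simp only [chi, Pi.sub_apply]; ring

theorem chi_sub_right (u v w : Cls) : chi u (v - w) = chi u v - chi u w := by
  simp only [chi, Pi.sub_apply]; ring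

/-- the complex computing `Hom` and `Ext¹` -/
noncomputable def dl (M N : Rep) :
    (∀ i, M.V i →ₗ[ℂ] N.V i) →ₗ[ℂ] (∀ e : Ed, M.V e.s →ₗ[ℂ] N.V .B) where
  toFun g := fun e => (N.f e) ∘ₗ (g e.s) - (g .B) ∘ₗ (M.f e)
  map_add' a b := by
    funext e; ext v; simp; abel
  map_smul' c a := by
    funext e; ext v; simp [smul_sub]

theorem dl_apply (M N : Rep) (g : ∀ i, M.V i →ₗ[ℂ] N.V i) (e : Ed) (v : M.V e.s) :
    dl M N g e v = N.f e (g e.s v) - g .B (M.f e v) := rfl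

theorem E0_iff (M N : Rep) : E0 M N ↔ Function.Surjective (dl M N) := by
  constructor
  · intro h ξ
    obtain ⟨g, hg⟩ := h ξ
    exact ⟨g, by funext e; ext v; exact hg e v⟩
  · intro h ξ
    obtain ⟨g, hg⟩ := h ξ
    exact ⟨g, fun e v => by rw [← hg]; rfl⟩

theorem mem_ker_dl {M N : Rep} {g : ∀ i, M.V i →ₗ[ℂ] N.V i} :
    g ∈ LinearMap.ker (dl M N) ↔ ∀ e v, N.f e (g e.s v) = g .B (M.f e v) := by
  rw [LinearMap.mem_ker]
  constructor
  · intro h e v
    have := congrFun h e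
    have := LinearMap.congr_fun this v
    rw [dl_apply] at this
    exact sub_eq_zero.1 this
  · intro h
    funext e; ext v
    rw [dl_apply, h, sub_self]; rfl

theorem H0_iff (M N : Rep) : H0 M N ↔ LinearMap.ker (dl M N) = ⊥ := by
  rw [LinearMap.ker_eq_bot']
  constructor
  · intro h g hg
    funext i; ext v
    exact h ⟨g, mem_ker_dl.1 (LinearMap.mem_ker.2 hg)⟩ i v
  · intro h g i v
    have := h g.g (LinearMap.mem_ker.1 (mem_ker_dl.2 g.h))
    rw [this]; rfl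

theorem finrank_dom (M N : Rep) :
    (Module.finrank ℂ (∀ i, M.V i →ₗ[ℂ] N.V i) : ℤ) =
      M.cl .A * N.cl .A + M.cl .B * N.cl .B + M.cl .C * N.cl .C := by
  rw [Module.finrank_pi_fintype, sum_Vx]
  simp only [Module.finrank_linearMap, Rep.cl]
  push_cast
  ring

theorem finrank_cod (M N : Rep) :
    (Module.finrank ℂ (∀ e : Ed, M.V e.s →ₗ[ℂ] N.V .B) : ℤ) =
      2 * (M.cl .A * N.cl .B) + M.cl .C * N.cl .B := by
  rw [Module.finrank_pi_fintype, sum_Ed]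
  have h : ∀ e : Ed, Module.finrank ℂ (M.V e.s →ₗ[ℂ] N.V .B) =
      Module.finrank ℂ (M.V e.s) * Module.finrank ℂ (N.V .B) := fun e =>
    Module.finrank_linearMap ℂ ℂ (M.V e.s) (N.V .B)
  have hx : Module.finrank ℂ (M.V Ed.x.s) = Module.finrank ℂ (M.V .A) := rfl
  have hy : Module.finrank ℂ (M.V Ed.y.s) = Module.finrank ℂ (M.V .A) := rfl
  have hz : Module.finrank ℂ (M.V Ed.z.s) = Module.finrank ℂ (M.V .C) := rfl
  rw [h, h, h, hx, hy, hz]
  simp only [Rep.cl]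
  push_cast
  ring

theorem chi_eq (M N : Rep) : chi M.cl N.cl =
    (Module.finrank ℂ (∀ i, M.V i →ₗ[ℂ] N.V i) : ℤ) -
      (Module.finrank ℂ (∀ e : Ed, M.V e.s →ₗ[ℂ] N.V .B) : ℤ) := by
  rw [finrank_dom, finrank_cod, chi]; ring

/-- dimension of `Hom` -/
noncomputable def hom (M N : Rep) : ℕ := Module.finrank ℂ (LinearMap.ker (dl M N))

/-- dimension of `Ext¹` -/
noncomputable def ext1 (M N : Rep) : ℕ :=
  Module.finrank ℂ ((∀ e : Ed, M.V e.s →ₗ[ℂ] N.V .B) ⧸ LinearMap.range (dl M N))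

theorem chi_hom_ext (M N : Rep) : chi M.cl N.cl = (hom M N : ℤ) - (ext1 M N : ℤ) := by
  rw [chi_eq]
  have h1 := LinearMap.finrank_range_add_finrank_ker (dl M N)
  have h2 := Submodule.finrank_quotient_add_finrank (LinearMap.range (dl M N))
  unfold hom ext1
  omega

theorem H0_iff_hom (M N : Rep) : H0 M N ↔ hom M N = 0 := by
  rw [H0_iff, hom, Submodule.finrank_eq_zero]

theorem E0_iff_ext (M N : Rep) : E0 M N ↔ ext1 M N = 0 := by
  rw [E0_iff, ext1, ← LinearMap.range_eq_top]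
  have h2 := Submodule.finrank_quotient_add_finrank (LinearMap.range (dl M N))
  constructor
  · intro h
    have h3 : Module.finrank ℂ (LinearMap.range (dl M N)) =
        Module.finrank ℂ (∀ e : Ed, M.V e.s →ₗ[ℂ] N.V .B) := by rw [h, finrank_top]
    omega
  · intro h
    apply Submodule.eq_top_of_finrank_eq
    omega

theorem chi_pos_of {M N : Rep} (h : E0 M N) (h' : ¬ H0 M N) : 0 < chi M.cl N.cl := by
  rw [chi_hom_ext]
  rw [E0_iff_ext] at h
  rw [H0_iff_hom] at h'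
  omega

theorem chi_nonneg_of {M N : Rep} (h : E0 M N) : 0 ≤ chi M.cl N.cl := by
  rw [chi_hom_ext]
  rw [E0_iff_ext] at h
  omega

theorem chi_nonpos_of {M N : Rep} (h : H0 M N) : chi M.cl N.cl ≤ 0 := by
  rw [chi_hom_ext]
  rw [H0_iff_hom] at h
  omega

theorem chi_neg_of {M N : Rep} (h : H0 M N) (h' : ¬ E0 M N) : chi M.cl N.cl < 0 := by
  rw [chi_hom_ext]
  rw [H0_iff_hom] at h
  rw [E0_iff_ext] at h'
  omega

theorem not_H0_of_chi {M N : Rep} (h : 0 < chi M.cl N.cl) : ¬ H0 M N := fun h' =>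
  absurd (chi_nonpos_of h') (not_le.2 h)

theorem not_E0_of_chi {M N : Rep} (h : chi M.cl N.cl < 0) : ¬ E0 M N := fun h' =>
  absurd (chi_nonneg_of h') (not_le.2 h)

theorem E0_of_H0 {M N : Rep} (h : H0 M N) (h' : chi M.cl N.cl = 0) : E0 M N := by
  by_contra h2
  exact absurd (chi_neg_of h h2) (by omega)

theorem H0_of_E0 {M N : Rep} (h : E0 M N) (h' : chi M.cl N.cl = 0) : H0 M N := by
  by_contra h2
  exact absurd (chi_pos_of h h2) (by omega)

theorem exists_of_not_H0 {M N : Rep} (h : ¬ H0 M N) : ∃ g : Hm M N, ∃ i v, g.g i v ≠ 0 := by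
  unfold H0 at h
  push Not at h
  exact h

/-! ### homomorphisms -/

def Hm.id (M : Rep) : Hm M M := ⟨fun _ => LinearMap.id, fun _ _ => rfl⟩

def Hm.comp {L M N : Rep} (b : Hm M N) (a : Hm L M) : Hm L N :=
  ⟨fun i => (b.g i) ∘ₗ (a.g i), fun e v => by
    simp only [LinearMap.comp_apply]
    rw [b.h, a.h]⟩

@[simp] theorem Hm.id_g (M : Rep) (i : Vx) (v : M.V i) : (Hm.id M).g i v = v := rfl

@[simp] theorem Hm.comp_g {L M N : Rep} (b : Hm M N) (a : Hm L M) (i : Vx) (v : L.V i) :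
    (b.comp a).g i v = b.g i (a.g i v) := rfl

def Hm.Inj {M N : Rep} (a : Hm M N) : Prop := ∀ i, Function.Injective (a.g i)
def Hm.Sur {M N : Rep} (a : Hm M N) : Prop := ∀ i, Function.Surjective (a.g i)
def Hm.NZ {M N : Rep} (a : Hm M N) : Prop := ∃ i v, a.g i v ≠ 0

theorem Hm.inj_iff {M N : Rep} (a : Hm M N) : a.Inj ↔ ∀ i v, a.g i v = 0 → v = 0 := by
  constructor
  · intro h i v hv
    exact h i (by rw [hv, map_zero])
  · intro h i
    rw [injective_iff_map_eq_zero]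
    exact h i

theorem Hm.Inj.comp {L M N : Rep} {b : Hm M N} {a : Hm L M} (hb : b.Inj) (ha : a.Inj) :
    (b.comp a).Inj := fun i => (hb i).comp (ha i)

theorem Hm.Sur.comp {L M N : Rep} {b : Hm M N} {a : Hm L M} (hb : b.Sur) (ha : a.Sur) :
    (b.comp a).Sur := fun i => (hb i).comp (ha i)

theorem Hm.id_inj (M : Rep) : (Hm.id M).Inj := fun _ _ _ h => h
theorem Hm.id_sur (M : Rep) : (Hm.id M).Sur := fun _ v => ⟨v, rfl⟩

/-- the inverse of a bijective homomorphism -/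
noncomputable def Hm.inv {M N : Rep} (a : Hm M N) (h1 : a.Inj) (h2 : a.Sur) : Hm N M :=
  ⟨fun i => (LinearEquiv.ofBijective (a.g i) ⟨h1 i, h2 i⟩).symm.toLinearMap, fun e v => by
    apply h1 .B
    rw [← a.h]
    simp only [LinearEquiv.coe_coe]
    have h3 : ∀ i (w : N.V i), a.g i ((LinearEquiv.ofBijective (a.g i) ⟨h1 i, h2 i⟩).symm w) = w :=
      fun i w => LinearEquiv.apply_symm_apply (LinearEquiv.ofBijective (a.g i) ⟨h1 i, h2 i⟩) w
    rw [h3, h3]⟩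

theorem Hm.inv_right {M N : Rep} (a : Hm M N) (h1 : a.Inj) (h2 : a.Sur) (i : Vx) (v : N.V i) :
    a.g i ((a.inv h1 h2).g i v) = v :=
  LinearEquiv.apply_symm_apply (LinearEquiv.ofBijective (a.g i) ⟨h1 i, h2 i⟩) v

theorem Hm.inv_left {M N : Rep} (a : Hm M N) (h1 : a.Inj) (h2 : a.Sur) (i : Vx) (v : M.V i) :
    (a.inv h1 h2).g i (a.g i v) = v :=
  LinearEquiv.symm_apply_apply (LinearEquiv.ofBijective (a.g i) ⟨h1 i, h2 i⟩) v

theorem Hm.inv_inj {M N : Rep} (a : Hm M N) (h1 : a.Inj) (h2 : a.Sur) : (a.inv h1 h2).Inj :=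
  fun i => (LinearEquiv.ofBijective (a.g i) ⟨h1 i, h2 i⟩).symm.injective

theorem Hm.inv_sur {M N : Rep} (a : Hm M N) (h1 : a.Inj) (h2 : a.Sur) : (a.inv h1 h2).Sur :=
  fun i => (LinearEquiv.ofBijective (a.g i) ⟨h1 i, h2 i⟩).symm.surjective

theorem cl_eq_of_bij {M N : Rep} (a : Hm M N) (h1 : a.Inj) (h2 : a.Sur) : M.cl = N.cl := by
  funext i
  simp only [Rep.cl]
  rw [LinearEquiv.finrank_eq (LinearEquiv.ofBijective (a.g i) ⟨h1 i, h2 i⟩)]

theorem cl_le_of_inj {M N : Rep} (a : Hm M N) (h1 : a.Inj) (i : Vx) : M.cl i ≤ N.cl i := by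
  simp only [Rep.cl]
  exact_mod_cast LinearMap.finrank_le_finrank_of_injective (h1 i)

theorem cl_le_of_sur {M N : Rep} (a : Hm M N) (h1 : a.Sur) (i : Vx) : N.cl i ≤ M.cl i := by
  simp only [Rep.cl]
  exact_mod_cast LinearMap.finrank_le_finrank_of_surjective (h1 i)

theorem sur_of_inj_cl {M N : Rep} (a : Hm M N) (h1 : a.Inj) (h : ∀ i, N.cl i ≤ M.cl i) :
    a.Sur := by
  intro i
  have h2 : Module.finrank ℂ (M.V i) = Module.finrank ℂ (N.V i) := by
    have h3 := cl_le_of_inj a h1 i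
    have h4 := h i
    simp only [Rep.cl] at h3 h4
    omega
  exact (LinearMap.injective_iff_surjective_of_finrank_eq_finrank h2).1 (h1 i)

theorem inj_of_sur_cl {M N : Rep} (a : Hm M N) (h1 : a.Sur) (h : ∀ i, M.cl i ≤ N.cl i) :
    a.Inj := by
  intro i
  have h2 : Module.finrank ℂ (M.V i) = Module.finrank ℂ (N.V i) := by
    have h3 := cl_le_of_sur a h1 i
    have h4 := h i
    simp only [Rep.cl] at h3 h4
    omega
  exact (LinearMap.injective_iff_surjective_of_finrank_eq_finrank h2).2 (h1 i)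

/-! ### short exact sequences -/

structure Ses {K L Q : Rep} (i : Hm K L) (p : Hm L Q) : Prop where
  inj : i.Inj
  sur : p.Sur
  ex : ∀ j v, p.g j v = 0 ↔ ∃ w, i.g j w = v

theorem Ses.zero {K L Q : Rep} {i : Hm K L} {p : Hm L Q} (h : Ses i p) (j : Vx) (w : K.V j) :
    p.g j (i.g j w) = 0 := (h.ex j _).2 ⟨w, rfl⟩

theorem Ses.cl {K L Q : Rep} {i : Hm K L} {p : Hm L Q} (h : Ses i p) : L.cl = K.cl + Q.cl := by
  funext j
  simp only [Rep.cl, Pi.add_apply]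
  have h1 := LinearMap.finrank_range_add_finrank_ker (p.g j)
  have h2 : LinearMap.range (p.g j) = ⊤ := LinearMap.range_eq_top.2 (h.sur j)
  have h3 : LinearMap.ker (p.g j) = LinearMap.range (i.g j) := by
    ext v
    rw [LinearMap.mem_ker, h.ex, LinearMap.mem_range]
  have h4 : Module.finrank ℂ (LinearMap.range (i.g j)) = Module.finrank ℂ (K.V j) :=
    LinearMap.finrank_range_of_inj (h.inj j)
  rw [h2, h3, h4, finrank_top] at h1
  omega

theorem E0.subl {K L N : Rep} (i : Hm K L) (hi : i.Inj) (h : E0 L N) : E0 K N := by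
  intro ξ
  have hr : ∀ j, ∃ r : L.V j →ₗ[ℂ] K.V j, r ∘ₗ (i.g j) = LinearMap.id := fun j =>
    LinearMap.exists_leftInverse_of_injective (i.g j) (LinearMap.ker_eq_bot.2 (hi j))
  choose r hr using hr
  obtain ⟨g, hg⟩ := h (fun e => (ξ e) ∘ₗ (r e.s))
  refine ⟨fun j => (g j) ∘ₗ (i.g j), fun e v => ?_⟩
  have h1 := hg e (i.g e.s v)
  have h2 : r e.s (i.g e.s v) = v := LinearMap.congr_fun (hr e.s) v
  simp only [LinearMap.comp_apply] at h1 ⊢
  rw [h2, i.h] at h1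
  exact h1

theorem E0.quor {M L Q : Rep} (p : Hm L Q) (hp : p.Sur) (h : E0 M L) : E0 M Q := by
  intro ξ
  obtain ⟨r, hr⟩ := LinearMap.exists_rightInverse_of_surjective (p.g .B)
    (LinearMap.range_eq_top.2 (hp .B))
  obtain ⟨g, hg⟩ := h (fun e => r ∘ₗ (ξ e))
  refine ⟨fun j => (p.g j) ∘ₗ (g j), fun e v => ?_⟩
  have h1 := congrArg (p.g .B) (hg e v)
  have h2 : p.g .B (r (ξ e v)) = ξ e v := LinearMap.congr_fun hr (ξ e v)
  simp only [LinearMap.comp_apply, map_sub] at h1 ⊢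
  rw [h2] at h1
  rw [p.h]
  exact h1

/-- lifting of a map into the kernel -/
theorem Ses.lift {K L Q : Rep} {i : Hm K L} {p : Hm L Q} (h : Ses i p) (j : Vx)
    {W : Type} [AddCommGroup W] [Module ℂ W] (φ : W →ₗ[ℂ] L.V j) (hφ : ∀ w, p.g j (φ w) = 0) :
    ∃ ψ : W →ₗ[ℂ] K.V j, ∀ w, i.g j (ψ w) = φ w := by
  have hr : ∀ w, φ w ∈ LinearMap.range (i.g j) := fun w => (h.ex j _).1 (hφ w)
  let e := LinearEquiv.ofInjective (i.g j) (h.inj j)
  refine ⟨e.symm.toLinearMap ∘ₗ (φ.codRestrict _ hr), fun w => ?_⟩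
  have h1 : ((e (e.symm (φ.codRestrict _ hr w)) : LinearMap.range (i.g j)) : L.V j) = φ w := by
    rw [LinearEquiv.apply_symm_apply]; rfl
  exact h1

/-- descent of a map to the quotient -/
theorem Ses.desc {K L Q : Rep} {i : Hm K L} {p : Hm L Q} (h : Ses i p) (j : Vx)
    {W : Type} [AddCommGroup W] [Module ℂ W] (φ : L.V j →ₗ[ℂ] W) (hφ : ∀ w, φ (i.g j w) = 0) :
    ∃ ψ : Q.V j →ₗ[ℂ] W, ∀ v, ψ (p.g j v) = φ v := by
  obtain ⟨r, hr⟩ := LinearMap.exists_rightInverse_of_surjective (p.g j)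
    (LinearMap.range_eq_top.2 (h.sur j))
  refine ⟨φ ∘ₗ r, fun v => ?_⟩
  have h1 : p.g j (r (p.g j v) - v) = 0 := by
    rw [map_sub, sub_eq_zero]
    exact LinearMap.congr_fun hr (p.g j v)
  obtain ⟨w, hw⟩ := (h.ex j _).1 h1
  have h2 := hφ w
  rw [hw, map_sub, sub_eq_zero] at h2
  exact h2

theorem E0.extr {M K L Q : Rep} {i : Hm K L} {p : Hm L Q} (h : Ses i p) (h1 : E0 M K)
    (h2 : E0 M Q) : E0 M L := by
  intro ξ
  obtain ⟨g, hg⟩ := h2 (fun e => (p.g .B) ∘ₗ (ξ e))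
  have hr : ∀ j, ∃ r : Q.V j →ₗ[ℂ] L.V j, (p.g j) ∘ₗ r = LinearMap.id := fun j =>
    LinearMap.exists_rightInverse_of_surjective (p.g j) (LinearMap.range_eq_top.2 (h.sur j))
  choose r hr using hr
  have hr' : ∀ j v, p.g j (r j v) = v := fun j v => LinearMap.congr_fun (hr j) v
  have h3 : ∀ e : Ed, ∃ ψ : M.V e.s →ₗ[ℂ] K.V .B, ∀ w, i.g .B (ψ w) =
      (ξ e - ((L.f e) ∘ₗ (r e.s) ∘ₗ (g e.s) - (r .B) ∘ₗ (g .B) ∘ₗ (M.f e))) w := by
    intro e
    apply h.lift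
    intro w
    simp only [LinearMap.sub_apply, LinearMap.comp_apply, map_sub]
    rw [← p.h, hr', hr', hg]
    simp
  choose ψ hψ using h3
  obtain ⟨k, hk⟩ := h1 ψ
  refine ⟨fun j => (r j) ∘ₗ (g j) + (i.g j) ∘ₗ (k j), fun e v => ?_⟩
  have h4 := congrArg (i.g .B) (hk e v)
  rw [hψ] at h4
  simp only [LinearMap.sub_apply, LinearMap.comp_apply, map_sub, LinearMap.add_apply,
    map_add] at h4 ⊢
  rw [i.h]
  rw [sub_eq_iff_eq_add] at h4
  rw [h4]
  abel

theorem E0.extl {K L Q N : Rep} {i : Hm K L} {p : Hm L Q} (h : Ses i p) (h1 : E0 K N)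
    (h2 : E0 Q N) : E0 L N := by
  intro ξ
  obtain ⟨g, hg⟩ := h1 (fun e => (ξ e) ∘ₗ (i.g e.s))
  have hr : ∀ j, ∃ r : L.V j →ₗ[ℂ] K.V j, r ∘ₗ (i.g j) = LinearMap.id := fun j =>
    LinearMap.exists_leftInverse_of_injective (i.g j) (LinearMap.ker_eq_bot.2 (h.inj j))
  choose r hr using hr
  have hr' : ∀ j v, r j (i.g j v) = v := fun j v => LinearMap.congr_fun (hr j) v
  have h3 : ∀ e : Ed, ∃ ψ : Q.V e.s →ₗ[ℂ] N.V .B, ∀ w, ψ (p.g e.s w) =
      (ξ e - ((N.f e) ∘ₗ (g e.s) ∘ₗ (r e.s) - (g .B) ∘ₗ (r .B) ∘ₗ (L.f e))) w := by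
    intro e
    apply h.desc
    intro w
    simp only [LinearMap.sub_apply, LinearMap.comp_apply]
    rw [i.h, hr', hr', hg]
    simp
  choose ψ hψ using h3
  obtain ⟨k, hk⟩ := h2 ψ
  refine ⟨fun j => (g j) ∘ₗ (r j) + (k j) ∘ₗ (p.g j), fun e v => ?_⟩
  have h4 := hk e (p.g e.s v)
  rw [hψ] at h4
  simp only [LinearMap.sub_apply, LinearMap.comp_apply, LinearMap.add_apply, map_add] at h4 ⊢
  rw [← p.h]
  rw [sub_eq_iff_eq_add] at h4
  rw [h4]
  abel

theorem E0.conn1 {M K L Q : Rep} {i : Hm K L} {p : Hm L Q} (h : Ses i p) (h1 : E0 M L)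
    (h2 : H0 M Q) : E0 M K := by
  intro ξ
  obtain ⟨g, hg⟩ := h1 (fun e => (i.g .B) ∘ₗ (ξ e))
  have h3 : ∀ j v, p.g j (g j v) = 0 := by
    refine h2 ⟨fun j => (p.g j) ∘ₗ (g j), fun e v => ?_⟩
    have h4 := congrArg (p.g .B) (hg e v)
    simp only [LinearMap.comp_apply, map_sub] at h4 ⊢
    rw [h.zero, sub_eq_zero] at h4
    rw [p.h, h4]
  have h5 : ∀ j, ∃ ψ : M.V j →ₗ[ℂ] K.V j, ∀ w, i.g j (ψ w) = g j w := fun j =>
    h.lift j (g j) (h3 j)
  choose ψ hψ using h5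
  refine ⟨ψ, fun e v => ?_⟩
  apply h.inj .B
  rw [map_sub, ← i.h, hψ, hψ]
  exact hg e v

theorem H0.conn2 {K L Q N : Rep} {i : Hm K L} {p : Hm L Q} (h : Ses i p) (h1 : H0 L N)
    (h2 : E0 Q N) : H0 K N := by
  intro g j v
  have hr : ∀ j, ∃ r : L.V j →ₗ[ℂ] K.V j, r ∘ₗ (i.g j) = LinearMap.id := fun j =>
    LinearMap.exists_leftInverse_of_injective (i.g j) (LinearMap.ker_eq_bot.2 (h.inj j))
  choose r hr using hr
  have hr' : ∀ j v, r j (i.g j v) = v := fun j v => LinearMap.congr_fun (hr j) v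
  have h3 : ∀ e : Ed, ∃ ψ : Q.V e.s →ₗ[ℂ] N.V .B, ∀ w, ψ (p.g e.s w) =
      ((N.f e) ∘ₗ (g.g e.s) ∘ₗ (r e.s) - (g.g .B) ∘ₗ (r .B) ∘ₗ (L.f e)) w := by
    intro e
    apply h.desc
    intro w
    simp only [LinearMap.sub_apply, LinearMap.comp_apply]
    rw [i.h, hr', hr', g.h, sub_self]
  choose ψ hψ using h3
  obtain ⟨k, hk⟩ := h2 ψ
  have h4 : ∀ j v, (g.g j) (r j v) - k j (p.g j v) = 0 := by
    refine h1 ⟨fun j => (g.g j) ∘ₗ (r j) - (k j) ∘ₗ (p.g j), fun e v => ?_⟩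
    have h5 := hk e (p.g e.s v)
    rw [hψ, p.h] at h5
    simp only [LinearMap.sub_apply, LinearMap.comp_apply, map_sub] at h5 ⊢
    rw [sub_eq_sub_iff_add_eq_add] at h5 ⊢
    rw [← h5, add_comm]
  have h6 := h4 j (i.g j v)
  rw [h.zero, hr', map_zero, sub_zero] at h6
  exact h6

theorem H0.subr {M K L : Rep} (i : Hm K L) (hi : i.Inj) (h : H0 M L) : H0 M K := by
  intro g j v
  apply hi j
  rw [map_zero]
  exact h (i.comp g) j v

theorem H0.quol {L Q N : Rep} (p : Hm L Q) (hp : p.Sur) (h : H0 L N) : H0 Q N := by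
  intro g j v
  obtain ⟨w, rfl⟩ := hp j v
  exact h (g.comp p) j w

/-- `0 → K → L → Q → 0`, `Hom(M, L) = 0`, `Ext¹(M, K) = 0` imply `Hom(M, Q) = 0` -/
theorem H0.conn3 {M K L Q : Rep} {i : Hm K L} {p : Hm L Q} (h : Ses i p) (h1 : H0 M L)
    (h2 : E0 M K) : H0 M Q := by
  intro g j v
  have hr : ∀ j, ∃ r : Q.V j →ₗ[ℂ] L.V j, (p.g j) ∘ₗ r = LinearMap.id := fun j =>
    LinearMap.exists_rightInverse_of_surjective (p.g j) (LinearMap.range_eq_top.2 (h.sur j))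
  choose r hr using hr
  have hr' : ∀ j v, p.g j (r j v) = v := fun j v => LinearMap.congr_fun (hr j) v
  have h3 : ∀ e : Ed, ∃ ψ : M.V e.s →ₗ[ℂ] K.V .B, ∀ w, i.g .B (ψ w) =
      ((L.f e) ∘ₗ (r e.s) ∘ₗ (g.g e.s) - (r .B) ∘ₗ (g.g .B) ∘ₗ (M.f e)) w := by
    intro e
    apply h.lift
    intro w
    simp only [LinearMap.sub_apply, LinearMap.comp_apply, map_sub]
    rw [← p.h, hr', hr', g.h, sub_self]
  choose ψ hψ using h3
  obtain ⟨k, hk⟩ := h2 ψ
  have h4 : ∀ j v, r j (g.g j v) - i.g j (k j v) = 0 := by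
    refine h1 ⟨fun j => (r j) ∘ₗ (g.g j) - (i.g j) ∘ₗ (k j), fun e v => ?_⟩
    have h5 := congrArg (i.g .B) (hk e v)
    rw [hψ, map_sub, ← i.h] at h5
    simp only [LinearMap.sub_apply, LinearMap.comp_apply, map_sub] at h5 ⊢
    rw [sub_eq_sub_iff_add_eq_add] at h5 ⊢
    rw [← h5, add_comm]
  have h6 := congrArg (p.g j) (h4 j v)
  rw [map_sub, h.zero, hr', map_zero, sub_zero] at h6
  exact h6

end Pool.Agent.L7h86
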