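import Mathlib
import Pool.Agent.L7h86.Rep

/-!
# Subrepresentations, stability, bricks
-/

set_option autoImplicit false

namespace Pool.Agent.L7h86

structure SubR (M : Rep) where
  U : ∀ i, Submodule ℂ (M.V i)
  h : ∀ (e : Ed) (v : M.V e.s), v ∈ U e.s → M.f e v ∈ U .B

def SubR.rep {M : Rep} (S : SubR M) : Rep where
  V i := S.U i
  f e := (M.f e).restrict (S.h e)

def SubR.quo {M : Rep} (S : SubR M) : Rep where
  V i := M.V i ⧸ S.U i
  f e := Submodule.mapQ (S.U e.s) (S.U .B) (M.f e) (fun v hv => S.h e v hv)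

def SubR.i {M : Rep} (S : SubR M) : Hm S.rep M := ⟨fun i => (S.U i).subtype, fun _ _ => rfl⟩

def SubR.p {M : Rep} (S : SubR M) : Hm M S.quo := ⟨fun i => (S.U i).mkQ, fun _ _ => rfl⟩

theorem SubR.ses {M : Rep} (S : SubR M) : Ses S.i S.p where
  inj := fun _ => Subtype.val_injective
  sur := fun i => Submodule.mkQ_surjective _
  ex := fun j v => by
    constructor
    · intro h
      have h' : (Submodule.mkQ (S.U j)) v = 0 := h
      rw [Submodule.mkQ_apply, Submodule.Quotient.mk_eq_zero] at h'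
      exact ⟨⟨v, h'⟩, rfl⟩
    · rintro ⟨w, rfl⟩
      change (Submodule.mkQ (S.U j)) w.1 = 0
      rw [Submodule.mkQ_apply, Submodule.Quotient.mk_eq_zero]
      exact w.2

def Hm.ker {M N : Rep} (a : Hm M N) : SubR M := ⟨fun i => LinearMap.ker (a.g i), fun e v hv => by
  rw [LinearMap.mem_ker] at hv ⊢
  rw [← a.h, hv, map_zero]⟩

def Hm.ran {M N : Rep} (a : Hm M N) : SubR N := ⟨fun i => LinearMap.range (a.g i), by
  rintro e _ ⟨w, rfl⟩
  rw [a.h]
  exact ⟨_, rfl⟩⟩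

def Hm.toRan {M N : Rep} (a : Hm M N) : Hm M a.ran.rep :=
  ⟨fun i => (a.g i).rangeRestrict, fun e v => Subtype.ext (a.h e v)⟩

theorem Hm.toRan_sur {M N : Rep} (a : Hm M N) : a.toRan.Sur := fun i =>
  LinearMap.surjective_rangeRestrict (a.g i)

theorem Hm.i_toRan {M N : Rep} (a : Hm M N) (j : Vx) (v : M.V j) :
    a.ran.i.g j (a.toRan.g j v) = a.g j v := rfl

theorem Hm.toRan_inj {M N : Rep} (a : Hm M N) (h : a.Inj) : a.toRan.Inj := fun i x y hxy =>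
  h i (congrArg Subtype.val hxy)

theorem Hm.ses_ker {M N : Rep} (a : Hm M N) : Ses a.ker.i a.toRan where
  inj := a.ker.ses.inj
  sur := a.toRan_sur
  ex := fun j v => by
    constructor
    · intro h
      exact ⟨⟨v, LinearMap.mem_ker.2 (congrArg Subtype.val h)⟩, rfl⟩
    · rintro ⟨w, rfl⟩
      exact Subtype.ext (LinearMap.mem_ker.1 w.2)

/-- a surjective homomorphism and its kernel -/
theorem Hm.ses_of_sur {M N : Rep} (a : Hm M N) (h : a.Sur) : Ses a.ker.i a where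
  inj := a.ker.ses.inj
  sur := h
  ex := fun j v => by
    constructor
    · intro h
      exact ⟨⟨v, LinearMap.mem_ker.2 h⟩, rfl⟩
    · rintro ⟨w, rfl⟩
      exact LinearMap.mem_ker.1 w.2

/-- an injective homomorphism and its cokernel -/
theorem Hm.ses_of_inj {M N : Rep} (a : Hm M N) (h : a.Inj) : Ses a a.ran.p where
  inj := h
  sur := a.ran.ses.sur
  ex := fun j v => by
    rw [a.ran.ses.ex]
    constructor
    · rintro ⟨⟨_, w, rfl⟩, rfl⟩
      exact ⟨w, rfl⟩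
    · rintro ⟨w, rfl⟩
      exact ⟨⟨_, w, rfl⟩, rfl⟩

/-- the generic representations: `Ext¹(U, M/U) = 0` for all subrepresentations -/
def G (M : Rep) : Prop := ∀ S : SubR M, E0 S.rep S.quo

theorem G.ses {M K Q : Rep} (hM : G M) {i : Hm K M} {p : Hm M Q} (h : Ses i p) : E0 K Q := by
  have h1 := hM i.ran
  have h2 : E0 K i.ran.quo := E0.subl i.toRan (i.toRan_inj h.inj) h1
  have h3 : ∀ j, ∃ ψ : i.ran.quo.V j →ₗ[ℂ] Q.V j, ∀ v, ψ (i.ran.p.g j v) = p.g j v := by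
    intro j
    apply (i.ses_of_inj h.inj).desc
    intro w
    exact h.zero j w
  choose ψ hψ using h3
  refine E0.quor ⟨ψ, fun e v => ?_⟩ ?_ h2
  · obtain ⟨w, rfl⟩ := i.ran.ses.sur e.s v
    rw [hψ, p.h, i.ran.p.h, hψ]
  · intro j v
    obtain ⟨w, rfl⟩ := h.sur j v
    exact ⟨_, hψ j w⟩

/-- the zero representation test -/
def Rep.Nz (M : Rep) : Prop := ∃ i, ∃ v : M.V i, v ≠ 0

noncomputable def Rep.dim (M : Rep) : ℤ := M.cl .A + M.cl .B + M.cl .C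

theorem Rep.cl_pos_iff {M : Rep} (i : Vx) : 0 < M.cl i ↔ ∃ v : M.V i, v ≠ 0 := by
  simp only [Rep.cl]
  rw [Int.natCast_pos, Module.finrank_pos_iff_exists_ne_zero]

theorem Rep.nz_iff_cl {M : Rep} : M.Nz ↔ ∃ i, 0 < M.cl i := by
  unfold Rep.Nz
  simp only [Rep.cl_pos_iff]

theorem Rep.nz_iff_dim {M : Rep} : M.Nz ↔ 0 < M.dim := by
  rw [Rep.nz_iff_cl]
  have hA := M.cl_nonneg .A
  have hB := M.cl_nonneg .B
  have hC := M.cl_nonneg .C
  unfold Rep.dim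
  constructor
  · rintro ⟨i, hi⟩
    cases i <;> omega
  · intro h
    by_contra h2
    push Not at h2
    have := h2 .A
    have := h2 .B
    have := h2 .C
    omega

theorem Rep.nz_iff_ne {M : Rep} : M.Nz ↔ M.cl ≠ 0 := by
  rw [Rep.nz_iff_cl]
  constructor
  · rintro ⟨i, hi⟩ h
    rw [h] at hi
    exact absurd hi (lt_irrefl _)
  · intro h
    by_contra h2
    push Not at h2
    apply h
    funext i
    exact le_antisymm (h2 i) (M.cl_nonneg i)

theorem Rep.dim_nonneg (M : Rep) : 0 ≤ M.dim := by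
  have hA := M.cl_nonneg .A
  have hB := M.cl_nonneg .B
  have hC := M.cl_nonneg .C
  unfold Rep.dim
  omega

theorem Ses.dim {K L Q : Rep} {i : Hm K L} {p : Hm L Q} (h : Ses i p) :
    L.dim = K.dim + Q.dim := by
  have := h.cl
  simp only [Rep.dim, this, Pi.add_apply]
  ring

theorem Hm.not_inj {M N : Rep} {a : Hm M N} (h : ¬ a.Inj) : a.ker.rep.Nz := by
  rw [Hm.inj_iff] at h
  push Not at h
  obtain ⟨i, v, h1, h2⟩ := h
  exact ⟨i, ⟨v, LinearMap.mem_ker.2 h1⟩, fun h3 => h2 (congrArg Subtype.val h3)⟩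

theorem Hm.ran_nz {M N : Rep} {a : Hm M N} (h : a.NZ) : a.ran.rep.Nz := by
  obtain ⟨i, v, h1⟩ := h
  exact ⟨i, ⟨a.g i v, v, rfl⟩, fun h3 => h1 (congrArg Subtype.val h3)⟩

theorem Hm.sur_of_ran {M N : Rep} {a : Hm M N} (h : a.ran.rep.cl = N.cl) : a.Sur := by
  have h1 := sur_of_inj_cl a.ran.i a.ran.ses.inj (fun i => by rw [h])
  intro i v
  obtain ⟨⟨_, w, rfl⟩, h2⟩ := h1 i v
  exact ⟨w, h2⟩

theorem NZ_of_sur {M N : Rep} (a : Hm M N) (h : a.Sur) (hN : N.Nz) : a.NZ := by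
  obtain ⟨i, v, hv⟩ := hN
  obtain ⟨w, rfl⟩ := h i v
  exact ⟨i, w, hv⟩

theorem NZ_of_inj {M N : Rep} (a : Hm M N) (h : a.Inj) (hN : M.Nz) : a.NZ := by
  obtain ⟨i, v, hv⟩ := hN
  exact ⟨i, v, fun h2 => hv (h i (by rw [h2, map_zero]))⟩

theorem not_H0_of_NZ {M N : Rep} {a : Hm M N} (h : a.NZ) : ¬ H0 M N := by
  intro h2
  obtain ⟨i, v, hv⟩ := h
  exact hv (h2 a i v)

theorem NZ_of_not_H0 {M N : Rep} (h : ¬ H0 M N) : ∃ a : Hm M N, a.NZ := exists_of_not_H0 h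

/-! ### bricks -/

structure Brick (M : Rep) : Prop where
  nz : M.Nz
  sc : ∀ g : Hm M M, ∃ c : ℂ, ∀ i v, g.g i v = c • v

theorem brick_of {M : Rep} (h : M.Nz) (h1 : ∀ g : Hm M M, g.NZ → g.Inj) : Brick M := by
  refine ⟨h, fun g => ?_⟩
  obtain ⟨i, v, hv⟩ := h
  have : Nontrivial (M.V i) := ⟨v, 0, hv⟩
  obtain ⟨c, hc⟩ := Module.End.exists_eigenvalue (g.g i)
  obtain ⟨w, hw⟩ := hc.exists_hasEigenvector
  refine ⟨c, ?_⟩
  let g' : Hm M M := ⟨fun i => g.g i - c • LinearMap.id, fun e v => by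
    simp only [LinearMap.sub_apply, LinearMap.smul_apply, LinearMap.id_apply, map_sub, map_smul]
    rw [g.h]⟩
  have h2 : ¬ g'.NZ := by
    intro h3
    have h4 := h1 g' h3
    rw [Hm.inj_iff] at h4
    apply hw.2
    apply h4 i
    have h5 := hw.apply_eq_smul
    simp only [g', LinearMap.sub_apply, LinearMap.smul_apply, LinearMap.id_apply]
    rw [h5, sub_self]
  unfold Hm.NZ at h2
  push Not at h2
  intro j u
  have h3 := h2 j u
  simp only [g', LinearMap.sub_apply, LinearMap.smul_apply, LinearMap.id_apply] at h3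
  exact sub_eq_zero.1 h3

theorem Brick.inj {M : Rep} (hM : Brick M) (g : Hm M M) (hg : g.NZ) : g.Inj := by
  obtain ⟨c, hc⟩ := hM.sc g
  obtain ⟨i, v, hv⟩ := hg
  have hc0 : c ≠ 0 := by
    rintro rfl
    apply hv
    rw [hc, zero_smul]
  rw [Hm.inj_iff]
  intro j w hw
  rw [hc] at hw
  exact (smul_eq_zero.1 hw).resolve_left hc0

theorem Brick.hom_eq {M : Rep} (hM : Brick M) : hom M M = 1 := by
  rw [hom, finrank_eq_one_iff']
  have hid : (fun i => LinearMap.id : ∀ i, M.V i →ₗ[ℂ] M.V i) ∈ LinearMap.ker (dl M M) :=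
    mem_ker_dl.2 (fun _ _ => rfl)
  refine ⟨⟨_, hid⟩, ?_, ?_⟩
  · intro h
    obtain ⟨i, v, hv⟩ := hM.nz
    apply hv
    have h1 := congrArg Subtype.val h
    have h2 := congrFun h1 i
    exact LinearMap.congr_fun h2 v
  · rintro ⟨g, hg⟩
    obtain ⟨c, hc⟩ := hM.sc ⟨g, mem_ker_dl.1 hg⟩
    refine ⟨c, ?_⟩
    apply Subtype.ext
    funext i
    ext v
    exact (hc i v).symm

theorem Brick.q_le {M : Rep} (hM : Brick M) : chi M.cl M.cl ≤ 1 := by
  rw [chi_hom_ext, hM.hom_eq]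
  omega

theorem Brick.rigid {M : Rep} (hM : Brick M) (h : 0 < chi M.cl M.cl) : E0 M M := by
  rw [E0_iff_ext]
  rw [chi_hom_ext, hM.hom_eq] at h
  omega

/-! ### stability -/

/-- `σ α u w < 0` iff the slope of `u` is smaller than the slope of `w` -/
noncomputable def sg (α : ℝ) (u w : Cls) : ℝ :=
  ((w .B - w .A : ℤ) : ℝ) * (u .A + α * u .C) - ((u .B - u .A : ℤ) : ℝ) * (w .A + α * w .C)

noncomputable def rk (α : ℝ) (u : Cls) : ℝ := u .A + u .B + 2 * α * u .C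

theorem sg_self (α : ℝ) (u : Cls) : sg α u u = 0 := by
  unfold sg; ring

theorem sg_swap (α : ℝ) (u w : Cls) : sg α u w = - sg α w u := by
  unfold sg; ring

theorem sg_add_left (α : ℝ) (u v w : Cls) : sg α (u + v) w = sg α u w + sg α v w := by
  unfold sg; simp only [Pi.add_apply]; push_cast; ring

theorem sg_add_right (α : ℝ) (u v w : Cls) : sg α u (v + w) = sg α u v + sg α u w := by
  unfold sg; simp only [Pi.add_apply]; push_cast; ring

theorem sg_trans (α : ℝ) (u v w : Cls) :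
    rk α v * sg α u w = rk α w * sg α u v + rk α u * sg α v w := by
  unfold sg rk; push_cast; ring

theorem rk_pos {α : ℝ} (hα : 0 < α) {M : Rep} (h : M.Nz) : 0 < rk α M.cl := by
  obtain ⟨i, hi⟩ := Rep.nz_iff_cl.1 h
  have hA : (0 : ℝ) ≤ M.cl .A := by exact_mod_cast M.cl_nonneg .A
  have hB : (0 : ℝ) ≤ M.cl .B := by exact_mod_cast M.cl_nonneg .B
  have hC : (0 : ℝ) ≤ M.cl .C := by exact_mod_cast M.cl_nonneg .C
  have hi' : (0 : ℝ) < M.cl i := by exact_mod_cast hi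
  unfold rk
  have h1 : 0 ≤ α * M.cl .C := mul_nonneg hα.le hC
  cases i
  · nlinarith
  · nlinarith
  · have : 0 < α * M.cl .C := mul_pos hα hi'
    nlinarith

theorem sg_le_trans {α : ℝ} {u v w : Cls} (hu : 0 < rk α u) (hv : 0 < rk α v) (hw : 0 < rk α w)
    (h1 : sg α u v ≤ 0) (h2 : sg α v w ≤ 0) : sg α u w ≤ 0 := by
  have h := sg_trans α u v w
  have h3 : rk α v * sg α u w ≤ 0 := by
    rw [h]
    have := mul_nonpos_of_nonneg_of_nonpos hw.le h1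
    have := mul_nonpos_of_nonneg_of_nonpos hu.le h2
    linarith
  exact nonpos_of_mul_nonpos_right h3 hv

theorem sg_lt_trans {α : ℝ} {u v w : Cls} (hu : 0 < rk α u) (hv : 0 < rk α v) (hw : 0 < rk α w)
    (h1 : sg α u v ≤ 0) (h2 : sg α v w < 0) : sg α u w < 0 := by
  have h := sg_trans α u v w
  have h3 : rk α v * sg α u w < 0 := by
    rw [h]
    have := mul_nonpos_of_nonneg_of_nonpos hw.le h1
    have := mul_neg_of_pos_of_neg hu h2
    linarith
  exact neg_of_mul_neg_right h3 hv.le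

theorem sg_lt_trans' {α : ℝ} {u v w : Cls} (hu : 0 < rk α u) (hv : 0 < rk α v) (hw : 0 < rk α w)
    (h1 : sg α u v < 0) (h2 : sg α v w ≤ 0) : sg α u w < 0 := by
  have h := sg_trans α u v w
  have h3 : rk α v * sg α u w < 0 := by
    rw [h]
    have := mul_neg_of_pos_of_neg hw h1
    have := mul_nonpos_of_nonneg_of_nonpos hu.le h2
    linarith
  exact neg_of_mul_neg_right h3 hv.le

def Sb (X M : Rep) : Prop := ∃ a : Hm X M, a.Inj
def Qt (X M : Rep) : Prop := ∃ a : Hm M X, a.Sur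

theorem Sb.cl_le {X M : Rep} (h : Sb X M) (i : Vx) : X.cl i ≤ M.cl i := by
  obtain ⟨a, ha⟩ := h
  exact cl_le_of_inj a ha i

theorem Qt.cl_le {X M : Rep} (h : Qt X M) (i : Vx) : X.cl i ≤ M.cl i := by
  obtain ⟨a, ha⟩ := h
  exact cl_le_of_sur a ha i

structure Stable (α : ℝ) (M : Rep) : Prop where
  nz : M.Nz
  st : ∀ X : Rep, X.Nz → Sb X M → X.cl ≠ M.cl → sg α X.cl M.cl < 0

theorem Stable.le {α : ℝ} {M : Rep} (h : Stable α M) {X : Rep} (hX : X.Nz) (h1 : Sb X M) :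
    sg α X.cl M.cl ≤ 0 := by
  by_cases h2 : X.cl = M.cl
  · rw [h2, sg_self]
  · exact (h.st X hX h1 h2).le

/-- quotients of stable representations -/
theorem Stable.qt {α : ℝ} {M : Rep} (h : Stable α M) {X : Rep} (hX : X.Nz) (h1 : Qt X M)
    (h2 : X.cl ≠ M.cl) : sg α M.cl X.cl < 0 := by
  obtain ⟨a, ha⟩ := h1
  have h3 := a.ses_of_sur ha
  have h4 := h3.cl
  have h5 : a.ker.rep.Nz := by
    rw [Rep.nz_iff_ne]
    intro h6
    rw [h6, zero_add] at h4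
    exact h2 h4.symm
  have h6 : a.ker.rep.cl ≠ M.cl := by
    intro h7
    rw [h7] at h4
    rw [Rep.nz_iff_ne] at hX
    apply hX
    have := congrArg (fun t => t - M.cl) h4
    simpa using this.symm
  have h7 := h.st _ h5 ⟨a.ker.i, a.ker.ses.inj⟩ h6
  have h8 : sg α M.cl M.cl = sg α M.cl a.ker.rep.cl + sg α M.cl X.cl := by
    rw [← sg_add_right, ← h4]
  rw [sg_self] at h8
  rw [sg_swap] at h7
  linarith

theorem Stable.qt_le {α : ℝ} {M : Rep} (h : Stable α M) {X : Rep} (hX : X.Nz) (h1 : Qt X M) :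
    sg α M.cl X.cl ≤ 0 := by
  by_cases h2 : X.cl = M.cl
  · rw [h2, sg_self]
  · exact (h.qt hX h1 h2).le

/-- Schur's lemma -/
theorem schur {α : ℝ} (hα : 0 < α) {S T : Rep} (hS : Stable α S) (hT : Stable α T)
    (h : 0 ≤ sg α S.cl T.cl) (g : Hm S T) (hg : g.NZ) : g.Inj ∧ g.Sur := by
  have hJ := Hm.ran_nz hg
  have rS := rk_pos hα hS.nz
  have rT := rk_pos hα hT.nz
  have rJ := rk_pos hα hJ
  have hJq : Qt g.ran.rep S := ⟨g.toRan, g.toRan_sur⟩
  have hJs : Sb g.ran.rep T := ⟨g.ran.i, g.ran.ses.inj⟩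
  have h1 : g.ran.rep.cl = S.cl := by
    by_contra h2
    have h3 := hS.qt hJ hJq h2
    have h4 := hT.le hJ hJs
    have h5 := sg_lt_trans' rS rJ rT h3 h4
    linarith
  have h2 : g.ran.rep.cl = T.cl := by
    by_contra h2
    have h3 := hS.qt_le hJ hJq
    have h4 := hT.st _ hJ hJs h2
    have h5 := sg_lt_trans rS rJ rT h3 h4
    linarith
  refine ⟨?_, Hm.sur_of_ran h2⟩
  exact inj_of_sur_cl g (Hm.sur_of_ran h2) (fun i => by rw [← h1, h2])

theorem H0_of_slope {α : ℝ} (hα : 0 < α) {S T : Rep} (hS : Stable α S) (hT : Stable α T)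
    (h : 0 ≤ sg α S.cl T.cl) (h' : S.cl ≠ T.cl) : H0 S T := by
  by_contra h1
  obtain ⟨a, ha⟩ := NZ_of_not_H0 h1
  obtain ⟨h2, h3⟩ := schur hα hS hT h a ha
  exact h' (cl_eq_of_bij a h2 h3)

theorem Stable.brick {α : ℝ} (hα : 0 < α) {S : Rep} (hS : Stable α S) : Brick S :=
  brick_of hS.nz (fun g hg => (schur hα hS hS (by rw [sg_self]) g hg).1)

/-! ### destabilizing sub- and quotient representations -/

noncomputable def sl (α : ℝ) (u : Cls) : ℝ := (u .A + α * u .C) / rk α u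

theorem sl_le_iff {α : ℝ} {u w : Cls} (hu : 0 < rk α u) (hw : 0 < rk α w) :
    sl α u ≤ sl α w ↔ sg α u w ≤ 0 := by
  unfold sl
  rw [div_le_div_iff₀ hu hw]
  unfold sg rk
  constructor
  · intro h; push_cast; nlinarith
  · intro h; push_cast at h; nlinarith

theorem finite_cls (M : Rep) : {u : Cls | ∀ i, 0 ≤ u i ∧ u i ≤ M.cl i}.Finite := by
  have h : {u : Cls | ∀ i, 0 ≤ u i ∧ u i ≤ M.cl i} = Set.Icc 0 M.cl := by
    ext u
    simp only [Set.mem_ofPred_eq, Set.mem_Icc, Pi.le_def, Pi.zero_apply]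
    exact forall_and
  rw [h]
  exact Set.finite_Icc _ _

theorem exists_max_sub {α : ℝ} (hα : 0 < α) {M : Rep} (hM : M.Nz) :
    ∃ S : Rep, Sb S M ∧ Stable α S ∧ ∀ X : Rep, X.Nz → Sb X M → sg α X.cl S.cl ≤ 0 := by
  let 𝒞 : Set Cls := {u | ∃ X : Rep, X.Nz ∧ Sb X M ∧ X.cl = u}
  have hfin : 𝒞.Finite := by
    apply (finite_cls M).subset
    rintro u ⟨X, _, hX, rfl⟩ i
    exact ⟨X.cl_nonneg i, hX.cl_le i⟩
  have hne : 𝒞.Nonempty := ⟨M.cl, M, hM, ⟨Hm.id M, Hm.id_inj M⟩, rfl⟩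
  obtain ⟨u, hu, hmax⟩ := Set.exists_max_image 𝒞 (sl α) hfin hne
  let 𝒟 : Set Cls := {w | w ∈ 𝒞 ∧ sl α u ≤ sl α w}
  have hfin2 : 𝒟.Finite := hfin.subset (fun w hw => hw.1)
  obtain ⟨w, hw, hmin⟩ := Set.exists_min_image 𝒟 (fun w => w .A + w .B + w .C) hfin2
    ⟨u, hu, le_refl _⟩
  obtain ⟨⟨S, hSn, hSM, rfl⟩, hw2⟩ := hw
  have key : ∀ X : Rep, X.Nz → Sb X M → sg α X.cl S.cl ≤ 0 := by
    intro X hX hXM
    rw [← sl_le_iff (rk_pos hα hX) (rk_pos hα hSn)]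
    exact (hmax _ ⟨X, hX, hXM, rfl⟩).trans hw2
  refine ⟨S, hSM, ⟨hSn, ?_⟩, key⟩
  intro X hX hXS hne2
  obtain ⟨a, ha⟩ := hSM
  obtain ⟨b, hb⟩ := hXS
  have hXM : Sb X M := ⟨a.comp b, ha.comp hb⟩
  by_contra hcon
  push Not at hcon
  have h1 : sl α S.cl ≤ sl α X.cl := by
    rw [sl_le_iff (rk_pos hα hSn) (rk_pos hα hX), sg_swap]
    linarith
  have h2 := hmin X.cl ⟨⟨X, hX, hXM, rfl⟩, hw2.trans h1⟩
  apply hne2
  funext i
  have hA := cl_le_of_inj b hb .A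
  have hB := cl_le_of_inj b hb .B
  have hC := cl_le_of_inj b hb .C
  cases i <;> omega

theorem exists_min_quo {α : ℝ} (hα : 0 < α) {M : Rep} (hM : M.Nz) :
    ∃ T : Rep, Qt T M ∧ Stable α T ∧ ∀ X : Rep, X.Nz → Qt X M → sg α T.cl X.cl ≤ 0 := by
  let 𝒞 : Set Cls := {u | ∃ X : Rep, X.Nz ∧ Qt X M ∧ X.cl = u}
  have hfin : 𝒞.Finite := by
    apply (finite_cls M).subset
    rintro u ⟨X, _, hX, rfl⟩ i
    exact ⟨X.cl_nonneg i, hX.cl_le i⟩
  have hne : 𝒞.Nonempty := ⟨M.cl, M, hM, ⟨Hm.id M, Hm.id_sur M⟩, rfl⟩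
  obtain ⟨u, hu, hmax⟩ := Set.exists_min_image 𝒞 (sl α) hfin hne
  let 𝒟 : Set Cls := {w | w ∈ 𝒞 ∧ sl α w ≤ sl α u}
  have hfin2 : 𝒟.Finite := hfin.subset (fun w hw => hw.1)
  obtain ⟨w, hw, hmin⟩ := Set.exists_min_image 𝒟 (fun w => w .A + w .B + w .C) hfin2
    ⟨u, hu, le_refl _⟩
  obtain ⟨⟨T, hTn, hTM, rfl⟩, hw2⟩ := hw
  have key : ∀ X : Rep, X.Nz → Qt X M → sg α T.cl X.cl ≤ 0 := by
    intro X hX hXM
    rw [← sl_le_iff (rk_pos hα hTn) (rk_pos hα hX)]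
    exact hw2.trans (hmax _ ⟨X, hX, hXM, rfl⟩)
  refine ⟨T, hTM, ⟨hTn, ?_⟩, key⟩
  intro X hX hXT hne2
  obtain ⟨a, ha⟩ := hTM
  obtain ⟨b, hb⟩ := hXT
  have hs := b.ses_of_inj hb
  have hcl := hs.cl
  have hQn : b.ran.quo.Nz := by
    rw [Rep.nz_iff_ne]
    intro h
    rw [h, add_zero] at hcl
    exact hne2 hcl.symm
  have hQM : Qt b.ran.quo M := ⟨b.ran.p.comp a, hs.sur.comp ha⟩
  have h0 := key _ hQn hQM
  have h3 : sg α T.cl T.cl = sg α T.cl X.cl + sg α T.cl b.ran.quo.cl := by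
    rw [← sg_add_right, ← hcl]
  rw [sg_self] at h3
  by_contra hcon
  push Not at hcon
  rw [sg_swap] at hcon
  have h4 : sg α T.cl b.ran.quo.cl = 0 ∨ 0 < sg α T.cl b.ran.quo.cl := by
    rcases lt_trichotomy (sg α T.cl b.ran.quo.cl) 0 with h | h | h
    · exfalso; linarith
    · exact Or.inl h
    · exact Or.inr h
  have h1 : sl α b.ran.quo.cl ≤ sl α T.cl := by
    rw [sl_le_iff (rk_pos hα hQn) (rk_pos hα hTn), sg_swap]
    rcases h4 with h | h <;> linarith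
  have h2 := hmin b.ran.quo.cl ⟨⟨_, hQn, hQM, rfl⟩, h1.trans hw2⟩
  simp only [hcl, Pi.add_apply] at h2
  have hd := Rep.nz_iff_dim.1 hX
  unfold Rep.dim at hd
  omega

end Pool.Agent.L7h86
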