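import Mathlib
import Pool.Agent.L7h86.Sub

/-!
# Rigid bricks inside of generic representations with positive form
-/

set_option autoImplicit false

namespace Pool.Agent.L7h86

theorem Ses.desc_hm {K L Q W : Rep} {i : Hm K L} {p : Hm L Q} (h : Ses i p) (φ : Hm L W)
    (hφ : ∀ j w, φ.g j (i.g j w) = 0) : ∃ ψ : Hm Q W, ∀ j v, ψ.g j (p.g j v) = φ.g j v := by
  have h3 : ∀ j, ∃ ψ : Q.V j →ₗ[ℂ] W.V j, ∀ v, ψ (p.g j v) = φ.g j v := fun j =>
    h.desc j (φ.g j) (hφ j)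
  choose ψ hψ using h3
  refine ⟨⟨ψ, fun e v => ?_⟩, hψ⟩
  obtain ⟨w, rfl⟩ := h.sur e.s v
  rw [hψ, p.h, φ.h, hψ]

theorem G.retract {Z X : Rep} (hZ : G Z) (i : Hm X Z) (r : Hm Z X)
    (h : ∀ j v, r.g j (i.g j v) = v) : G X := by
  intro S
  have hi : i.Inj := fun j x y hxy => by
    have := congrArg (r.g j) hxy
    rwa [h, h] at this
  have hr : r.Sur := fun j v => ⟨_, h j v⟩
  have ha : (i.comp S.i).Inj := hi.comp S.ses.inj
  have hs := (i.comp S.i).ses_of_inj ha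
  have h1 := hZ.ses hs
  obtain ⟨ψ, hψ⟩ := hs.desc_hm (S.p.comp r) (fun j w => by
    simp only [Hm.comp_g]
    rw [h]
    exact S.ses.zero j w)
  refine E0.quor ψ ?_ h1
  intro j v
  obtain ⟨w, rfl⟩ := S.ses.sur j v
  obtain ⟨u, rfl⟩ := hr j w
  exact ⟨_, hψ j u⟩

/-- direct sum decompositions -/
structure Dec (Z X Y : Rep) where
  i1 : Hm X Z
  r1 : Hm Z X
  i2 : Hm Y Z
  r2 : Hm Z Y
  h1 : ∀ j v, r1.g j (i1.g j v) = v
  h2 : ∀ j v, r2.g j (i2.g j v) = v
  h3 : ∀ j v, i1.g j (r1.g j v) + i2.g j (r2.g j v) = v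

def Dec.symm {Z X Y : Rep} (d : Dec Z X Y) : Dec Z Y X where
  i1 := d.i2
  r1 := d.r2
  i2 := d.i1
  r2 := d.r1
  h1 := d.h2
  h2 := d.h1
  h3 := fun j v => by rw [add_comm]; exact d.h3 j v

theorem Dec.ses {Z X Y : Rep} (d : Dec Z X Y) : Ses d.i1 d.r2 := by
  have h0 : ∀ j v, d.r2.g j (d.i1.g j v) = 0 := by
    intro j v
    have h := d.h3 j (d.i1.g j v)
    rw [d.h1] at h
    have h' : d.i2.g j (d.r2.g j (d.i1.g j v)) = 0 := by simpa using h
    have h'' := congrArg (d.r2.g j) h'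
    rwa [d.h2, map_zero] at h''
  refine ⟨fun j x y hxy => ?_, fun j v => ⟨_, d.h2 j v⟩, fun j v => ⟨fun h => ?_, ?_⟩⟩
  · have := congrArg (d.r1.g j) hxy
    rwa [d.h1, d.h1] at this
  · refine ⟨d.r1.g j v, ?_⟩
    have h4 := d.h3 j v
    rw [h, map_zero, add_zero] at h4
    exact h4
  · rintro ⟨w, rfl⟩
    exact h0 j w

theorem Dec.G1 {Z X Y : Rep} (d : Dec Z X Y) (hZ : G Z) : G X := hZ.retract d.i1 d.r1 d.h1

structure RP (R Z : Rep) : Prop where
  nz : R.Nz
  sb : Sb R Z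
  qt : Qt R Z
  e1 : E0 R Z
  e2 : E0 Z R

theorem Dec.rp {Z X Y R : Rep} (d : Dec Z X Y) (hZ : G Z) (h : RP R X) : RP R Z := by
  have hXY : E0 X Y := hZ.ses d.ses
  have hYX : E0 Y X := hZ.ses d.symm.ses
  obtain ⟨a, ha⟩ := h.sb
  obtain ⟨b, hb⟩ := h.qt
  refine ⟨h.nz, ⟨d.i1.comp a, d.ses.inj.comp ha⟩, ⟨b.comp d.r1, hb.comp d.symm.ses.sur⟩, ?_, ?_⟩
  · exact E0.extr d.ses h.e1 (E0.subl a ha hXY)
  · exact E0.extl d.ses h.e2 (E0.quor b hb hYX)

theorem cone_m {u : Cls} (h0 : ∀ i, 0 ≤ u i) (h : chi u u ≤ 0) : 0 ≤ u .B - u .C := by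
  have hC := h0 .C
  have hA := h0 .A
  have hB := h0 .B
  unfold chi at h
  by_contra h1
  push Not at h1
  nlinarith [sq_nonneg (u .B - u .A), mul_nonneg hC (by linarith : (0 : ℤ) ≤ u .C - u .B)]

theorem cone_le {u w : Cls} (h0 : ∀ i, 0 ≤ u i) (h0' : ∀ i, 0 ≤ w i) (h : chi u u ≤ 0)
    (h' : chi w w ≤ 0) : chi u w + chi w u ≤ 0 := by
  have hm := cone_m h0 h
  have hm' := cone_m h0' h'
  have hC := h0 .C
  have hC' := h0' .C
  have h1 : (u .B - u .A) ^ 2 ≤ u .C * (u .B - u .C) := by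
    unfold chi at h; nlinarith
  have h2 : (w .B - w .A) ^ 2 ≤ w .C * (w .B - w .C) := by
    unfold chi at h'; nlinarith
  have h3 : chi u w + chi w u = 2 * ((u .B - u .A) * (w .B - w .A)) -
      (u .C * (w .B - w .C) + w .C * (u .B - u .C)) := by
    unfold chi; ring
  rw [h3]
  have h4 : (2 * ((u .B - u .A) * (w .B - w .A))) ^ 2 ≤
      (u .C * (w .B - w .C) + w .C * (u .B - u .C)) ^ 2 := by
    have h5 : ((u .B - u .A) * (w .B - w .A)) ^ 2 ≤
        (u .C * (u .B - u .C)) * (w .C * (w .B - w .C)) := by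
      rw [mul_pow]
      exact mul_le_mul h1 h2 (sq_nonneg _) (mul_nonneg hC hm)
    nlinarith [sq_nonneg (u .C * (w .B - w .C) - w .C * (u .B - u .C))]
  have h5 : 0 ≤ u .C * (w .B - w .C) + w .C * (u .B - u .C) :=
    add_nonneg (mul_nonneg hC hm') (mul_nonneg hC' hm)
  have h6 := (abs_le.1 (abs_le_of_sq_le_sq h4 h5)).2
  linarith

theorem Dec.pos {Z X Y : Rep} (d : Dec Z X Y) (h : 0 < chi Z.cl Z.cl) :
    0 < chi X.cl X.cl ∨ 0 < chi Y.cl Y.cl := by
  by_contra h1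
  push Not at h1
  have h2 := cone_le X.cl_nonneg Y.cl_nonneg h1.1 h1.2
  rw [d.ses.cl, chi_add_left, chi_add_right, chi_add_right] at h
  omega

/-- an endomorphism injective on its image splits the representation -/
theorem exists_dec {Z : Rep} (f : Hm Z Z) (h : (f.toRan.comp f.ran.i).Inj) :
    Nonempty (Dec Z f.ran.rep f.ker.rep) := by
  have hs : (f.toRan.comp f.ran.i).Sur := sur_of_inj_cl _ h (fun _ => le_refl _)
  let k := (f.toRan.comp f.ran.i).inv h hs
  let r1 : Hm Z f.ran.rep := k.comp f.toRan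
  have hr1 : ∀ j v, f.toRan.g j (f.ran.i.g j (r1.g j v)) = f.toRan.g j v := fun j v =>
    (f.toRan.comp f.ran.i).inv_right h hs j (f.toRan.g j v)
  have hr2 : ∀ j v, f.g j (f.ran.i.g j (r1.g j v)) = f.g j v := fun j v =>
    congrArg Subtype.val (hr1 j v)
  let s2 : ∀ j, Z.V j →ₗ[ℂ] f.ker.rep.V j := fun j =>
    (LinearMap.id - (f.ran.i.g j) ∘ₗ (r1.g j)).codRestrict (LinearMap.ker (f.g j)) (fun v => by
      rw [LinearMap.mem_ker, LinearMap.sub_apply, map_sub]
      simp only [LinearMap.id_apply, LinearMap.comp_apply]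
      rw [hr2, sub_self])
  have hs2 : ∀ j v, (s2 j v).1 = v - f.ran.i.g j (r1.g j v) := fun _ _ => rfl
  let r2 : Hm Z f.ker.rep := ⟨s2, fun e v => by
    apply Subtype.ext
    change Z.f e (s2 e.s v).1 = (s2 .B (Z.f e v)).1
    rw [hs2, hs2, map_sub, f.ran.i.h, r1.h]⟩
  refine ⟨⟨f.ran.i, r1, f.ker.i, r2, ?_, ?_, ?_⟩⟩
  · intro j v
    exact (f.toRan.comp f.ran.i).inv_left h hs j v
  · intro j v
    apply Subtype.ext
    change v.1 - f.ran.i.g j (r1.g j v.1) = v.1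
    have h1 : f.toRan.g j v.1 = 0 := Subtype.ext (LinearMap.mem_ker.1 v.2)
    have h2 : r1.g j v.1 = 0 := by
      change k.g j (f.toRan.g j v.1) = 0
      rw [h1, map_zero]
    rw [h2, map_zero, sub_zero]
  · intro j v
    change f.ran.i.g j (r1.g j v) + (v - f.ran.i.g j (r1.g j v)) = v
    abel

theorem exists_RP_aux (n : ℕ) : ∀ Z : Rep, Z.dim ≤ n → G Z → 0 < chi Z.cl Z.cl →
    ∃ R : Rep, RP R Z := by
  induction n with
  | zero =>
    intro Z hd _ hq
    exfalso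
    have h : Z.Nz := by
      rw [Rep.nz_iff_ne]
      intro h
      rw [h] at hq
      simp [chi] at hq
    rw [Rep.nz_iff_dim] at h
    have : Z.dim ≤ 0 := by exact_mod_cast hd
    omega
  | succ n ih =>
    intro Z hd hZ hq
    have hnz : Z.Nz := by
      rw [Rep.nz_iff_ne]
      intro h
      rw [h] at hq
      simp [chi] at hq
    by_cases hE : E0 Z Z
    · exact ⟨Z, hnz, ⟨Hm.id Z, Hm.id_inj Z⟩, ⟨Hm.id Z, Hm.id_sur Z⟩, hE, hE⟩
    have hex : {f : Hm Z Z | f.NZ ∧ ¬ f.Inj}.Nonempty := by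
      by_contra h
      rw [Set.not_nonempty_iff_eq_empty] at h
      apply hE
      refine (brick_of hnz (fun g hg => ?_)).rigid hq
      by_contra h2
      have : g ∈ {f : Hm Z Z | f.NZ ∧ ¬ f.Inj} := ⟨hg, h2⟩
      rw [h] at this
      exact this
    obtain ⟨f, ⟨hf1, hf2⟩, hmin⟩ := WellFounded.has_min
      (measure (fun f : Hm Z Z => f.ran.rep.dim.toNat)).wf _ hex
    have hKI : E0 f.ker.rep f.ran.rep := hZ.ses f.ses_ker
    by_cases hff : (f.comp f).NZ
    · have hff2 : ¬ (f.comp f).Inj := by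
        intro h
        apply hf2
        intro i x y hxy
        apply h i
        simp only [Hm.comp_g]
        rw [hxy]
      have h1 := hmin (f.comp f) ⟨hff, hff2⟩
      have h1' : ¬ ((f.comp f).ran.rep.dim.toNat < f.ran.rep.dim.toNat) := h1
      let a : Hm f.ran.rep (f.comp f).ran.rep := ⟨fun i =>
        ((f.g i) ∘ₗ (f.ran.i.g i)).codRestrict (LinearMap.range ((f.comp f).g i)) (by
          rintro ⟨_, w, rfl⟩
          exact ⟨w, rfl⟩), fun e v => Subtype.ext (by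
            change Z.f e (f.g e.s v.1) = f.g .B (Z.f e v.1)
            exact f.h e v.1)⟩
      have ha : a.Sur := by
        rintro i ⟨_, w, rfl⟩
        exact ⟨⟨_, w, rfl⟩, rfl⟩
      have ha2 : a.Inj := by
        apply inj_of_sur_cl a ha
        have hA := cl_le_of_sur a ha .A
        have hB := cl_le_of_sur a ha .B
        have hC := cl_le_of_sur a ha .C
        have d1 := (f.comp f).ran.rep.dim_nonneg
        have d2 := f.ran.rep.dim_nonneg
        unfold Rep.dim at h1' d1 d2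
        intro i
        cases i <;> omega
      have h3 : (f.toRan.comp f.ran.i).Inj := by
        intro i x y hxy
        have h5 : ((f.toRan.comp f.ran.i).g i x).1 = ((f.toRan.comp f.ran.i).g i y).1 :=
          congrArg Subtype.val hxy
        exact ha2 i (Subtype.ext h5)
      obtain ⟨d⟩ := exists_dec f h3
      have hI : f.ran.rep.Nz := Hm.ran_nz hf1
      have hK : f.ker.rep.Nz := Hm.not_inj hf2
      have hdim := d.ses.dim
      rw [Rep.nz_iff_dim] at hI hK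
      push_cast at hd
      rcases d.pos hq with h | h
      · obtain ⟨R, hR⟩ := ih f.ran.rep (by omega) (d.G1 hZ) h
        exact ⟨R, d.rp hZ hR⟩
      · obtain ⟨R, hR⟩ := ih f.ker.rep (by omega) (d.symm.G1 hZ) h
        exact ⟨R, d.symm.rp hZ hR⟩
    · have hff' : ∀ i v, f.g i (f.g i v) = 0 := by
        unfold Hm.NZ at hff
        push Not at hff
        exact hff
      let a : Hm f.ran.rep f.ker.rep := ⟨fun i => Submodule.inclusion (by
        rintro _ ⟨w, rfl⟩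
        exact LinearMap.mem_ker.2 (hff' i w)), fun e v => rfl⟩
      have ha : a.Inj := fun i x y hxy => by
        have h5 : (a.g i x).1 = (a.g i y).1 := congrArg Subtype.val hxy
        exact Subtype.ext h5
      have hII : E0 f.ran.rep f.ran.rep := E0.subl a ha hKI
      refine ⟨f.ran.rep, Hm.ran_nz hf1, ⟨f.ran.i, f.ran.ses.inj⟩, ⟨f.toRan, f.toRan_sur⟩, ?_, ?_⟩
      · exact E0.extr f.ran.ses hII (hZ f.ran)
      · exact E0.extl f.ses_ker hKI hII

/-- A generic representation with positive form has a rigid brick as a sub- and quotient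
representation. -/
theorem exists_RP {Z : Rep} (hZ : G Z) (hq : 0 < chi Z.cl Z.cl) :
    ∃ R : Rep, RP R Z ∧ Brick R := by
  obtain ⟨R0, hR0⟩ := exists_RP_aux Z.dim.toNat Z (by have := Z.dim_nonneg; omega) hZ hq
  obtain ⟨R, hR, hmin⟩ := WellFounded.has_min
      (measure (fun R : Rep => R.dim.toNat)).wf {R | RP R Z} ⟨R0, hR0⟩
  refine ⟨R, hR, brick_of hR.nz (fun g hg => ?_)⟩
  by_contra hni
  obtain ⟨a, ha⟩ := hR.sb
  obtain ⟨b, hb⟩ := hR.qt
  have h1 : RP g.ran.rep Z := ⟨Hm.ran_nz hg, ⟨a.comp g.ran.i, ha.comp g.ran.ses.inj⟩,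
    ⟨g.toRan.comp b, g.toRan_sur.comp hb⟩, E0.subl g.ran.i g.ran.ses.inj hR.e1,
    E0.quor g.toRan g.toRan_sur hR.e2⟩
  have h2 := hmin g.ran.rep h1
  have h2' : ¬ (g.ran.rep.dim.toNat < R.dim.toNat) := h2
  have h3 := g.ses_ker.dim
  have h4 := Rep.nz_iff_dim.1 (Hm.not_inj hni)
  have h5 := g.ran.rep.dim_nonneg
  omega

end Pool.Agent.L7h86
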