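import Mathlib
import Pool.Agent.L7h86.RL

/-!
# Perpendicular categories of rigid bricks, first case of the numerical lemma
-/

set_option autoImplicit false

namespace Pool.Agent.L7h86

/-! ### explicit representations -/

def V3 (A B C : Type) : Vx → Type
  | .A => A
  | .B => B
  | .C => C

instance V3ag (A B C : Type) [AddCommGroup A] [AddCommGroup B] [AddCommGroup C] :
    ∀ i, AddCommGroup (V3 A B C i)
  | .A => inferInstanceAs (AddCommGroup A)
  | .B => inferInstanceAs (AddCommGroup B)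
  | .C => inferInstanceAs (AddCommGroup C)

instance V3md (A B C : Type) [AddCommGroup A] [AddCommGroup B] [AddCommGroup C]
    [Module ℂ A] [Module ℂ B] [Module ℂ C] : ∀ i, Module ℂ (V3 A B C i)
  | .A => inferInstanceAs (Module ℂ A)
  | .B => inferInstanceAs (Module ℂ B)
  | .C => inferInstanceAs (Module ℂ C)

instance V3fd (A B C : Type) [AddCommGroup A] [AddCommGroup B] [AddCommGroup C]
    [Module ℂ A] [Module ℂ B] [Module ℂ C] [FiniteDimensional ℂ A] [FiniteDimensional ℂ B]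
    [FiniteDimensional ℂ C] : ∀ i, FiniteDimensional ℂ (V3 A B C i)
  | .A => inferInstanceAs (FiniteDimensional ℂ A)
  | .B => inferInstanceAs (FiniteDimensional ℂ B)
  | .C => inferInstanceAs (FiniteDimensional ℂ C)

def mk3 {A B C : Type} [AddCommGroup A] [AddCommGroup B] [AddCommGroup C]
    [Module ℂ A] [Module ℂ B] [Module ℂ C] [FiniteDimensional ℂ A] [FiniteDimensional ℂ B]
    [FiniteDimensional ℂ C] (x y : A →ₗ[ℂ] B) (z : C →ₗ[ℂ] B) : Rep where
  V := V3 A B C
  f e := match e with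
    | .x => x
    | .y => y
    | .z => z

theorem Rep.ext_cl {M : Rep} {u : Cls} (hA : M.cl .A = u .A) (hB : M.cl .B = u .B)
    (hC : M.cl .C = u .C) : M.cl = u := by
  funext i
  cases i
  · exact hA
  · exact hB
  · exact hC

/-- the three simple representations -/
def sA : Rep := mk3 (A := ℂ) (B := PUnit) (C := PUnit) 0 0 0
def sB : Rep := mk3 (A := PUnit) (B := ℂ) (C := PUnit) 0 0 0
def sC : Rep := mk3 (A := PUnit) (B := PUnit) (C := ℂ) 0 0 0

theorem sA_cl : sA.cl .A = 1 ∧ sA.cl .B = 0 ∧ sA.cl .C = 0 := by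
  refine ⟨?_, ?_, ?_⟩
  · change ((Module.finrank ℂ ℂ : ℕ) : ℤ) = 1
    simp
  · change ((Module.finrank ℂ PUnit : ℕ) : ℤ) = 0
    rw [Module.finrank_zero_of_subsingleton]; rfl
  · change ((Module.finrank ℂ PUnit : ℕ) : ℤ) = 0
    rw [Module.finrank_zero_of_subsingleton]; rfl

theorem sB_cl : sB.cl .A = 0 ∧ sB.cl .B = 1 ∧ sB.cl .C = 0 := by
  refine ⟨?_, ?_, ?_⟩
  · change ((Module.finrank ℂ PUnit : ℕ) : ℤ) = 0
    rw [Module.finrank_zero_of_subsingleton]; rfl
  · change ((Module.finrank ℂ ℂ : ℕ) : ℤ) = 1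
    simp
  · change ((Module.finrank ℂ PUnit : ℕ) : ℤ) = 0
    rw [Module.finrank_zero_of_subsingleton]; rfl

theorem sC_cl : sC.cl .A = 0 ∧ sC.cl .B = 0 ∧ sC.cl .C = 1 := by
  refine ⟨?_, ?_, ?_⟩
  · change ((Module.finrank ℂ PUnit : ℕ) : ℤ) = 0
    rw [Module.finrank_zero_of_subsingleton]; rfl
  · change ((Module.finrank ℂ PUnit : ℕ) : ℤ) = 0
    rw [Module.finrank_zero_of_subsingleton]; rfl
  · change ((Module.finrank ℂ ℂ : ℕ) : ℤ) = 1
    simp

theorem exists_functional {V : Type} [AddCommGroup V] [Module ℂ V]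
    (h : ∃ v : V, v ≠ 0) : ∃ φ : V →ₗ[ℂ] ℂ, Function.Surjective φ := by
  obtain ⟨v, hv⟩ := h
  have h1 : ∃ φ : Module.Dual ℂ V, φ v ≠ 0 := by
    by_contra h2
    push Not at h2
    exact hv ((Module.forall_dual_apply_eq_zero_iff ℂ v).1 h2)
  obtain ⟨φ, hφ⟩ := h1
  refine ⟨φ, fun c => ⟨(c / φ v) • v, ?_⟩⟩
  rw [map_smul, smul_eq_mul, div_mul_cancel₀ _ hφ]

/-! ### stability for integral functionals -/

def St (φ : Cls → ℤ) (S : Rep) : Prop :=
  ∀ X : Rep, X.Nz → Sb X S → X.cl ≠ S.cl → φ X.cl < 0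

theorem St.qt {z : Cls} {S : Rep} (h : St (chi z) S) (h0 : chi z S.cl = 0) {X : Rep} (hX : X.Nz)
    (h1 : Qt X S) (h2 : X.cl ≠ S.cl) : 0 < chi z X.cl := by
  obtain ⟨a, ha⟩ := h1
  have h3 := a.ses_of_sur ha
  have h4 := h3.cl
  have h5 : a.ker.rep.Nz := by
    rw [Rep.nz_iff_ne]
    intro h6
    rw [h6, zero_add] at h4
    exact h2 h4.symm
  have h6 : a.ker.rep.cl ≠ S.cl := by
    intro h7
    rw [h7] at h4
    rw [Rep.nz_iff_ne] at hX
    apply hX
    have := congrArg (fun t => t - S.cl) h4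
    simpa using this.symm
  have h7 := h _ h5 ⟨a.ker.i, a.ker.ses.inj⟩ h6
  rw [h4, chi_add_right] at h0
  omega

theorem E0_of_not_nz {R C : Rep} (h : ¬ C.Nz) : E0 R C := by
  intro ξ
  unfold Rep.Nz at h
  push Not at h
  refine ⟨fun _ => 0, fun e v => ?_⟩
  rw [h .B (ξ e v)]
  simp

theorem perp {R S Z : Rep} (hR : RP R Z) (hS : St (chi Z.cl) S)
    (h0 : chi Z.cl S.cl = 0) : H0 R S ∧ E0 R S := by
  obtain ⟨a, ha⟩ := hR.sb
  obtain ⟨b, hb⟩ := hR.qt
  constructor
  · by_contra h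
    obtain ⟨g, hg⟩ := NZ_of_not_H0 h
    have hJ := Hm.ran_nz hg
    have h1 : E0 Z g.ran.rep := E0.quor g.toRan g.toRan_sur hR.e2
    have h2 : ¬ H0 Z g.ran.rep :=
      not_H0_of_NZ (NZ_of_sur (g.toRan.comp b) (g.toRan_sur.comp hb) hJ)
    have h3 := chi_pos_of h1 h2
    by_cases h4 : g.ran.rep.cl = S.cl
    · rw [h4] at h3; omega
    · have := hS _ hJ ⟨g.ran.i, g.ran.ses.inj⟩ h4
      omega
  · have key : ∀ n : ℕ, ∀ C : Rep, C.dim ≤ n → Qt C S → E0 R C := by
      intro n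
      induction n with
      | zero =>
        intro C hC _
        apply E0_of_not_nz
        rw [Rep.nz_iff_dim]
        push_cast at hC
        omega
      | succ n ih =>
        intro C hC hCS
        by_contra hE
        have hCn : C.Nz := by
          by_contra h
          exact hE (E0_of_not_nz h)
        have h1 : H0 Z C := by
          by_contra h
          obtain ⟨g, hg⟩ := NZ_of_not_H0 h
          have hJ := Hm.ran_nz hg
          have h2 : E0 R g.ran.rep := E0.quor g.toRan g.toRan_sur hR.e1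
          have h3 := g.ran.ses.dim
          rw [Rep.nz_iff_dim] at hJ
          obtain ⟨c, hc⟩ := hCS
          push_cast at hC
          have h4 := ih g.ran.quo (by omega) ⟨g.ran.p.comp c, g.ran.ses.sur.comp hc⟩
          exact hE (E0.extr g.ran.ses h2 h4)
        have h2 : ¬ E0 Z C := fun h => hE (E0.subl a ha h)
        have h3 := chi_neg_of h1 h2
        by_cases h4 : C.cl = S.cl
        · rw [h4] at h3; omega
        · have := hS.qt h0 hCn hCS h4
          omega
    exact key S.dim.toNat S (by have := S.dim_nonneg; omega) ⟨Hm.id S, Hm.id_sur S⟩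

/-! ### universal extensions -/

section Univ

variable (P R : Rep) (m : ℕ) (ξ : Fin m → ∀ e : Ed, R.V e.s →ₗ[ℂ] P.V .B)

noncomputable def uext : Rep where
  V i := P.V i × (Fin m → R.V i)
  f e := LinearMap.prod ((P.f e) ∘ₗ (LinearMap.fst ℂ _ _) +
      ∑ j, (ξ j e) ∘ₗ (LinearMap.proj j) ∘ₗ (LinearMap.snd ℂ _ _))
    (LinearMap.pi (fun j => (R.f e) ∘ₗ (LinearMap.proj j) ∘ₗ (LinearMap.snd ℂ _ _)))

noncomputable def uP (i : Vx) : (uext P R m ξ).V i →ₗ[ℂ] P.V i :=
  LinearMap.fst ℂ (P.V i) (Fin m → R.V i)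

noncomputable def uR (j : Fin m) (i : Vx) : (uext P R m ξ).V i →ₗ[ℂ] R.V i :=
  (LinearMap.proj j) ∘ₗ (LinearMap.snd ℂ (P.V i) (Fin m → R.V i))

noncomputable def uMk {W : Type} [AddCommGroup W] [Module ℂ W] (i : Vx) (a : W →ₗ[ℂ] P.V i)
    (b : ∀ _ : Fin m, W →ₗ[ℂ] R.V i) : W →ₗ[ℂ] (uext P R m ξ).V i :=
  LinearMap.prod a (LinearMap.pi b)

theorem uP_uMk {W : Type} [AddCommGroup W] [Module ℂ W] (i : Vx) (a : W →ₗ[ℂ] P.V i)
    (b : ∀ _ : Fin m, W →ₗ[ℂ] R.V i) (w : W) :
    uP P R m ξ i (uMk P R m ξ i a b w) = a w := rfl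

theorem uR_uMk {W : Type} [AddCommGroup W] [Module ℂ W] (i : Vx) (a : W →ₗ[ℂ] P.V i)
    (b : ∀ _ : Fin m, W →ₗ[ℂ] R.V i) (w : W) (j : Fin m) :
    uR P R m ξ j i (uMk P R m ξ i a b w) = b j w := rfl

theorem uext_ext {i : Vx} {v w : (uext P R m ξ).V i} (h1 : uP P R m ξ i v = uP P R m ξ i w)
    (h2 : ∀ j, uR P R m ξ j i v = uR P R m ξ j i w) : v = w :=
  Prod.ext h1 (funext h2)

theorem uP_f (e : Ed) (v : (uext P R m ξ).V e.s) :
    uP P R m ξ .B ((uext P R m ξ).f e v) =
      P.f e (uP P R m ξ e.s v) + ∑ j, ξ j e (uR P R m ξ j e.s v) := by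
  have h : uP P R m ξ .B ((uext P R m ξ).f e v) = ((P.f e) ∘ₗ (uP P R m ξ e.s) +
      ∑ j, (ξ j e) ∘ₗ (uR P R m ξ j e.s)) v := rfl
  rw [h, LinearMap.add_apply, LinearMap.sum_apply]
  rfl

theorem uR_f (e : Ed) (v : (uext P R m ξ).V e.s) (j : Fin m) :
    uR P R m ξ j .B ((uext P R m ξ).f e v) = R.f e (uR P R m ξ j e.s v) := rfl

theorem uext_cl (i : Vx) : (uext P R m ξ).cl i = P.cl i + m * R.cl i := by
  change ((Module.finrank ℂ (P.V i × (Fin m → R.V i)) : ℕ) : ℤ) = _
  rw [Module.finrank_prod, Module.finrank_pi_fintype]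
  simp [Rep.cl]

end Univ

theorem univ_ext {P R : Rep} (hR : Brick R) (hRR : E0 R R) (hP : H0 R P) :
    ∃ (L : Rep) (m : ℕ), E0 R L ∧ H0 R L ∧ ∀ i, L.cl i = P.cl i + m * R.cl i := by
  let Q := (∀ e : Ed, R.V e.s →ₗ[ℂ] P.V .B) ⧸ LinearMap.range (dl R P)
  let m := Module.finrank ℂ Q
  let b : Module.Basis (Fin m) ℂ Q := Module.finBasis ℂ Q
  have hξ : ∀ j : Fin m, ∃ ξ : (∀ e : Ed, R.V e.s →ₗ[ℂ] P.V .B),
      (LinearMap.range (dl R P)).mkQ ξ = b j := fun j => Submodule.mkQ_surjective _ _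
  choose ξ hξ using hξ
  refine ⟨uext P R m ξ, m, ?_, ?_, uext_cl P R m ξ⟩
  · intro η
    have h1 : ∀ j : Fin m, ∃ g : ∀ i, R.V i →ₗ[ℂ] R.V i, ∀ e v,
        R.f e (g e.s v) - g .B (R.f e v) = uR P R m ξ j .B (η e v) := fun j =>
      hRR (fun e => (uR P R m ξ j .B) ∘ₗ (η e))
    choose g hg using h1
    let ζ : ∀ e : Ed, R.V e.s →ₗ[ℂ] P.V .B := fun e =>
      (uP P R m ξ .B) ∘ₗ (η e) - ∑ j, (ξ j e) ∘ₗ (g j e.s)
    let c : Fin m → ℂ := fun j => b.repr ((LinearMap.range (dl R P)).mkQ ζ) j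
    have h2 : (LinearMap.range (dl R P)).mkQ (ζ - ∑ j, c j • ξ j) = 0 := by
      rw [map_sub, map_sum]
      simp only [map_smul, hξ]
      rw [b.sum_repr, sub_self]
    rw [Submodule.mkQ_apply, Submodule.Quotient.mk_eq_zero] at h2
    obtain ⟨k, hk⟩ := h2
    have hk' : ∀ e v, P.f e (k e.s v) - k .B (R.f e v) =
        uP P R m ξ .B (η e v) - ∑ j, ξ j e (g j e.s v) - ∑ j, c j • ξ j e v := by
      intro e v
      have h3 := LinearMap.congr_fun (congrFun hk e) v
      rw [dl_apply] at h3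
      rw [h3]
      simp only [ζ, Pi.sub_apply, Finset.sum_apply, Pi.smul_apply, LinearMap.sub_apply,
        LinearMap.sum_apply, LinearMap.smul_apply, LinearMap.comp_apply]
    refine ⟨fun i => uMk P R m ξ i (k i) (fun j => g j i + c j • LinearMap.id), fun e v => ?_⟩
    apply uext_ext
    · rw [map_sub, uP_f]
      simp only [uP_uMk, uR_uMk]
      simp only [LinearMap.add_apply, LinearMap.smul_apply, LinearMap.id_apply, map_add,
        map_smul, Finset.sum_add_distrib]
      have h4 := hk' e v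
      rw [sub_eq_iff_eq_add] at h4
      rw [h4]
      abel
    · intro j
      rw [map_sub, uR_f]
      simp only [uR_uMk]
      simp only [LinearMap.add_apply, LinearMap.smul_apply, LinearMap.id_apply, map_add,
        map_smul]
      rw [← hg j e v]
      abel
  · intro g
    have h1 : ∀ j : Fin m, ∃ c : ℂ, ∀ i v, uR P R m ξ j i (g.g i v) = c • v := by
      intro j
      obtain ⟨c, hc⟩ := hR.sc ⟨fun i => (uR P R m ξ j i) ∘ₗ (g.g i),
        fun e v => by
          simp only [LinearMap.comp_apply]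
          rw [← g.h, uR_f]⟩
      exact ⟨c, hc⟩
    choose c hc using h1
    have h2 : ∀ e v, P.f e (uP P R m ξ e.s (g.g e.s v)) + ∑ j, c j • ξ j e v =
        uP P R m ξ .B (g.g .B (R.f e v)) := by
      intro e v
      rw [← g.h, uP_f]
      simp only [hc, map_smul]
    have h3 : ∑ j, c j • b j = 0 := by
      have h4 : (LinearMap.range (dl R P)).mkQ (∑ j, c j • ξ j) = 0 := by
        rw [Submodule.mkQ_apply, Submodule.Quotient.mk_eq_zero]
        refine ⟨fun i => - ((uP P R m ξ i) ∘ₗ (g.g i)), ?_⟩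
        funext e
        ext v
        rw [dl_apply]
        have h5 := h2 e v
        simp only [LinearMap.neg_apply, LinearMap.comp_apply, map_neg,
          Finset.sum_apply, LinearMap.sum_apply, Pi.smul_apply, LinearMap.smul_apply]
        rw [← h5]
        abel
      rw [map_sum] at h4
      simp only [map_smul, hξ] at h4
      exact h4
    have h4 : ∀ j, c j = 0 := by
      have := Fintype.linearIndependent_iff.1 b.linearIndependent c h3
      exact this
    have h5 : ∀ i v, uP P R m ξ i (g.g i v) = 0 := by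
      have := hP ⟨fun i => (uP P R m ξ i) ∘ₗ (g.g i), fun e v => by
        simp only [LinearMap.comp_apply]
        rw [← h2 e v]
        simp [h4]⟩
      exact this
    intro i v
    apply uext_ext
    · rw [h5, map_zero]
    · intro j
      rw [hc, h4, zero_smul, map_zero]

theorem descent {R S : Rep} (hRS : H0 R S) (hst : St (chi R.cl) S) (hS : S.Nz)
    (hq : chi S.cl S.cl ≤ 0) (n : ℕ) :
    ∀ N : Rep, N.dim ≤ n → E0 R N → H0 R N → 0 < chi N.cl S.cl → False := by
  induction n with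
  | zero =>
    intro N hN _ _ h
    have : N.Nz := by
      rw [Rep.nz_iff_ne]
      intro h1
      rw [h1] at h
      simp [chi] at h
    rw [Rep.nz_iff_dim] at this
    push_cast at hN
    omega
  | succ n ih =>
    intro N hN hE hH h
    obtain ⟨g, hg⟩ := NZ_of_not_H0 (not_H0_of_chi h)
    have hJ := Hm.ran_nz hg
    have h1 : E0 R g.ran.rep := E0.quor g.toRan g.toRan_sur hE
    have h2 := chi_nonneg_of h1
    have h3 : g.ran.rep.cl = S.cl := by
      by_contra h3
      have := hst _ hJ ⟨g.ran.i, g.ran.ses.inj⟩ h3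
      omega
    have h4 := Hm.sur_of_ran h3
    have hs := g.ses_of_sur h4
    have hd := hs.dim
    rw [Rep.nz_iff_dim] at hS
    push_cast at hN
    refine ih g.ker.rep (by omega) (E0.conn1 hs hE hRS) (H0.subr g.ker.i hs.inj hH) ?_
    have h5 := h
    rw [hs.cl, chi_add_left] at h5
    omega

end Pool.Agent.L7h86
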