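import Mathlib
import Pool.Agent.L7h86.NL1

/-!
# Linear algebra of the Euler form, first case of the numerical lemma
-/

set_option autoImplicit false

namespace Pool.Agent.L7h86

/-- proportional vectors -/
def Par (x y : Cls) : Prop := ∀ i j, x i * y j = x j * y i

def dot (f u : Cls) : ℤ := f .A * u .A + f .B * u .B + f .C * u .C

/-- the functional `chi z` -/
def lft (z : Cls) : Cls
  | .A => z .A
  | .B => z .B - 2 * z .A - z .C
  | .C => z .C

/-- the functional `fun u => chi u y` -/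
def rgt (y : Cls) : Cls
  | .A => y .A - 2 * y .B
  | .B => y .B
  | .C => y .C - y .B

theorem dot_lft (z u : Cls) : dot (lft z) u = chi z u := by
  simp only [dot, lft, chi]; ring

theorem dot_rgt (y u : Cls) : dot (rgt y) u = chi u y := by
  simp only [dot, rgt, chi]; ring

def crs (x y : Cls) : Cls
  | .A => x .B * y .C - x .C * y .B
  | .B => x .C * y .A - x .A * y .C
  | .C => x .A * y .B - x .B * y .A

theorem exists_crs {x y : Cls} (h : ¬ Par x y) : ∃ i, crs x y i ≠ 0 := by
  by_contra h1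
  push Not at h1
  apply h
  have hA := h1 .A
  have hB := h1 .B
  have hC := h1 .C
  simp only [crs] at hA hB hC
  intro i j
  cases i <;> cases j <;> first | ring1 | linarith

theorem par_crs {f x y : Cls} (hx : dot f x = 0) (hy : dot f y = 0) :
    Par f (crs x y) := by
  unfold dot at hx hy
  have h1 : f .A * crs x y .B = f .B * crs x y .A := by
    simp only [crs]; linear_combination (x .C) * hy - (y .C) * hx
  have h2 : f .A * crs x y .C = f .C * crs x y .A := by
    simp only [crs]; linear_combination (y .B) * hx - (x .B) * hy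
  have h3 : f .B * crs x y .C = f .C * crs x y .B := by
    simp only [crs]; linear_combination (x .A) * hy - (y .A) * hx
  intro i j
  cases i <;> cases j <;> first | ring1 | linarith

theorem par_fun {f g x y : Cls} (h : ¬ Par x y) (h1 : dot f x = 0) (h2 : dot f y = 0)
    (h3 : dot g x = 0) (h4 : dot g y = 0) : Par f g := by
  obtain ⟨k, hk⟩ := exists_crs h
  have hf := par_crs h1 h2
  have hg := par_crs h3 h4
  intro i j
  have h5 := hf i k
  have h6 := hf j k
  have h7 := hg i k
  have h8 := hg j k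
  have h9 : crs x y k * (crs x y k) * (f i * g j - f j * g i) = 0 := by
    have e1 : crs x y k * (crs x y k) * (f i * g j - f j * g i) =
        (f i * crs x y k) * (g j * crs x y k) - (f j * crs x y k) * (g i * crs x y k) := by ring
    rw [e1, h5, h6, h7, h8]
    ring
  have h10 := (mul_eq_zero.1 h9).resolve_left (mul_ne_zero hk hk)
  linarith

theorem par_dot {f g : Cls} (h : Par f g) (i : Vx) (u : Cls) : dot f u * g i = f i * dot g u := by
  unfold dot
  have hA := h .A i
  have hB := h .B i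
  have hC := h .C i
  linear_combination (u .A) * hA + (u .B) * hB + (u .C) * hC

theorem par_lft {r z : Cls} (h : Par (lft r) (lft z)) : Par r z := by
  have h1 := h .A .C
  have h2 := h .A .B
  have h3 := h .C .B
  simp only [lft] at h1 h2 h3
  intro i j
  cases i <;> cases j <;> first | ring1 | linarith

/-- the vector `z` with `chi z u = det (y, u, x)` -/
def z0 (x y : Cls) : Cls
  | .A => y .C * x .B - y .B * x .C
  | .B => (y .A * x .C - y .C * x .A) + 2 * (y .C * x .B - y .B * x .C) +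
      (y .B * x .A - y .A * x .B)
  | .C => y .B * x .A - y .A * x .B

theorem chi_z0_x (x y : Cls) : chi (z0 x y) x = 0 := by
  simp only [chi, z0]; ring

theorem chi_z0_y (x y : Cls) : chi (z0 x y) y = 0 := by
  simp only [chi, z0]; ring

theorem chi_z0_z0 (x y : Cls) :
    chi (z0 x y) (z0 x y) = chi x x * chi y y - chi x y * chi y x := by
  simp only [chi, z0]; ring

/-- the functional appearing in the comparison -/
noncomputable def PP (α : ℝ) (u : Cls) : ℝ :=
  (1 - 2 * α) * ((u .B : ℝ) - u .A) + u .A + α * u .C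

noncomputable def om (u w : Cls) : ℝ := ((chi u w - chi w u : ℤ) : ℝ)

theorem id1 (α : ℝ) (u x y : Cls) :
    - om y x * sg α u x - (- sg α y x) * om u x = PP α x * ((chi (z0 x y) u : ℤ) : ℝ) := by
  simp only [chi, z0, om, sg, PP]; push_cast; ring

theorem id2 (α : ℝ) (u x y : Cls) :
    - om y x * sg α u y - (- sg α y x) * om u y = PP α y * ((chi (z0 x y) u : ℤ) : ℝ) := by
  simp only [chi, z0, om, sg, PP]; push_cast; ring

theorem id3 (α : ℝ) (x y : Cls) :
    (om y x) ^ 2 * (1 + α) + om y x * sg α y x * (4 + 2 * α) + 5 * (sg α y x) ^ 2 =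
      (PP α y) ^ 2 * ((chi x x : ℤ) : ℝ) - PP α x * PP α y * ((chi x y + chi y x : ℤ) : ℝ)
        + (PP α x) ^ 2 * ((chi y y : ℤ) : ℝ) := by
  simp only [chi, om, sg, PP]; push_cast; ring

theorem num_lemma {α : ℝ} (hα : 0 < α) {x y : Cls} (hq : chi x x ≤ 0) (hq' : chi y y ≤ 0)
    (h0 : chi x y = 0) (hs : 0 < sg α x y) (hle : chi y x ≤ 0) :
    chi y x < 0 ∧ ∃ z : Cls, chi z x = 0 ∧ chi z y = 0 ∧ chi z z = chi x x * chi y y ∧
      (∀ u, sg α u x < 0 → 0 < chi u x - chi x u → chi z u < 0) ∧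
      (∀ u, sg α u y < 0 → 0 < chi u y - chi y u → chi z u < 0) := by
  have e3 := id3 α x y
  have hB : sg α y x < 0 := by rw [sg_swap]; linarith
  have hA : om y x ≤ 0 := by
    unfold om
    rw [h0, sub_zero]
    exact_mod_cast hle
  have hAe : om y x = ((chi y x : ℤ) : ℝ) := by
    unfold om
    rw [h0, sub_zero]
  have hqr : ((chi x x : ℤ) : ℝ) ≤ 0 := by exact_mod_cast hq
  have hqr' : ((chi y y : ℤ) : ℝ) ≤ 0 := by exact_mod_cast hq'
  have h1 : 0 < PP α x * PP α y * (- om y x) := by
    have e4 : PP α x * PP α y * (((chi x y + chi y x : ℤ)) : ℝ) = PP α x * PP α y * om y x := by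
      rw [hAe, h0, zero_add]
    rw [e4] at e3
    have t1 : 0 ≤ (om y x) ^ 2 * (1 + α) := mul_nonneg (sq_nonneg _) (by linarith)
    have t2 : 0 ≤ om y x * sg α y x := mul_nonneg_of_nonpos_of_nonpos hA hB.le
    have t3 : 0 ≤ om y x * sg α y x * (4 + 2 * α) := mul_nonneg t2 (by linarith)
    have t4 : 0 < (sg α y x) ^ 2 := by
      have := mul_pos_of_neg_of_neg hB hB
      nlinarith
    have t5 : (PP α y) ^ 2 * ((chi x x : ℤ) : ℝ) ≤ 0 :=
      mul_nonpos_of_nonneg_of_nonpos (sq_nonneg _) hqr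
    have t6 : (PP α x) ^ 2 * ((chi y y : ℤ) : ℝ) ≤ 0 :=
      mul_nonpos_of_nonneg_of_nonpos (sq_nonneg _) hqr'
    nlinarith
  have h2 : 0 < PP α x * PP α y := by
    by_contra h
    push Not at h
    have := mul_nonpos_of_nonpos_of_nonneg h (by linarith : 0 ≤ - om y x)
    linarith
  have hlt : chi y x < 0 := by
    have h3 : 0 < - om y x := by
      by_contra h
      push Not at h
      have := mul_nonpos_of_nonneg_of_nonpos h2.le h
      linarith
    rw [hAe] at h3
    have h4 : ((chi y x : ℤ) : ℝ) < 0 := by linarith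
    exact_mod_cast h4
  refine ⟨hlt, ?_⟩
  have hTS : ∀ u, sg α u x < 0 → 0 < chi u x - chi x u → PP α x * ((chi (z0 x y) u : ℤ) : ℝ) < 0 := by
    intro u h3 h4
    rw [← id1]
    have h4' : 0 < om u x := by unfold om; exact_mod_cast h4
    have t1 : - om y x * sg α u x ≤ 0 :=
      mul_nonpos_of_nonneg_of_nonpos (by linarith) h3.le
    have t2 : 0 < (- sg α y x) * om u x := mul_pos (by linarith) h4'
    linarith
  have hTT : ∀ u, sg α u y < 0 → 0 < chi u y - chi y u → PP α y * ((chi (z0 x y) u : ℤ) : ℝ) < 0 := by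
    intro u h3 h4
    rw [← id2]
    have h4' : 0 < om u y := by unfold om; exact_mod_cast h4
    have t1 : - om y x * sg α u y ≤ 0 :=
      mul_nonpos_of_nonneg_of_nonpos (by linarith) h3.le
    have t2 : 0 < (- sg α y x) * om u y := mul_pos (by linarith) h4'
    linarith
  rcases pos_and_pos_or_neg_and_neg_of_mul_pos h2 with ⟨hx, hy⟩ | ⟨hx, hy⟩
  · refine ⟨z0 x y, chi_z0_x x y, chi_z0_y x y, by rw [chi_z0_z0, h0]; ring, ?_, ?_⟩
    · intro u h3 h4
      have h5 := hTS u h3 h4
      have h6 : ((chi (z0 x y) u : ℤ) : ℝ) < 0 := neg_of_mul_neg_right h5 hx.le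
      exact_mod_cast h6
    · intro u h3 h4
      have h5 := hTT u h3 h4
      have h6 : ((chi (z0 x y) u : ℤ) : ℝ) < 0 := neg_of_mul_neg_right h5 hy.le
      exact_mod_cast h6
  · have hneg : ∀ u, chi (- z0 x y) u = - chi (z0 x y) u := by
      intro u
      simp only [chi, Pi.neg_apply]; ring
    have hneg2 : chi (- z0 x y) (- z0 x y) = chi (z0 x y) (z0 x y) := by
      simp only [chi, Pi.neg_apply]; ring
    refine ⟨- z0 x y, by rw [hneg, chi_z0_x, neg_zero], by rw [hneg, chi_z0_y, neg_zero],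
      by rw [hneg2, chi_z0_z0, h0]; ring, ?_, ?_⟩
    · intro u h3 h4
      have h5 := hTS u h3 h4
      have h6 : 0 < ((chi (z0 x y) u : ℤ) : ℝ) := by
        by_contra h
        push Not at h
        have := mul_nonneg_of_nonpos_of_nonpos hx.le h
        linarith
      rw [hneg]
      have h7 : 0 < chi (z0 x y) u := by exact_mod_cast h6
      omega
    · intro u h3 h4
      have h5 := hTT u h3 h4
      have h6 : 0 < ((chi (z0 x y) u : ℤ) : ℝ) := by
        by_contra h
        push Not at h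
        have := mul_nonneg_of_nonpos_of_nonpos hy.le h
        linarith
      rw [hneg]
      have h7 : 0 < chi (z0 x y) u := by exact_mod_cast h6
      omega

/-- canonical stability of generic bricks -/
theorem om_pos {S X : Rep} (hG : G S) (hB : Brick S) (hX : X.Nz) (hs : Sb X S)
    (hne : X.cl ≠ S.cl) : 0 < chi X.cl S.cl - chi S.cl X.cl := by
  obtain ⟨a, ha⟩ := hs
  have hses := a.ses_of_inj ha
  have h1 : E0 X a.ran.quo := hG.ses hses
  have h2 : H0 a.ran.quo X := by
    by_contra h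
    obtain ⟨g, j, v, hv⟩ := NZ_of_not_H0 h
    obtain ⟨w, rfl⟩ := hses.sur j v
    have h3 : (a.comp (g.comp a.ran.p)).NZ := ⟨j, w, fun h4 => hv (ha j (by
      rw [map_zero]; exact h4))⟩
    have h4 := hB.inj _ h3
    obtain ⟨i, u, hu⟩ := hX
    apply hu
    apply ha i
    rw [map_zero]
    apply h4 i
    simp only [Hm.comp_g, map_zero]
    rw [hses.zero, map_zero, map_zero]
  have c1 := chi_nonneg_of h1
  have c2 := chi_nonpos_of h2
  have e1 : chi X.cl S.cl - chi S.cl X.cl = chi X.cl a.ran.quo.cl - chi a.ran.quo.cl X.cl := by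
    rw [hses.cl, chi_add_left, chi_add_right]; ring
  rw [e1]
  by_contra h
  push Not at h
  have c3 : chi a.ran.quo.cl X.cl = 0 := by omega
  have h3 : E0 a.ran.quo X := E0_of_H0 h2 c3
  have h4 : ¬ H0 X X := not_H0_of_NZ (NZ_of_inj (Hm.id X) (Hm.id_inj X) hX)
  have h5 : ¬ H0 S X := fun h6 => h4 (H0.conn2 hses h6 h3)
  obtain ⟨g, hg⟩ := NZ_of_not_H0 h5
  have h6 : (a.comp g).NZ := by
    obtain ⟨j, v, hv⟩ := hg
    exact ⟨j, v, fun h7 => hv (ha j (by rw [map_zero]; exact h7))⟩
  have h7 := hB.inj _ h6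
  have h8 : g.Inj := by
    intro j v w hvw
    apply h7 j
    simp only [Hm.comp_g]
    rw [hvw]
  apply hne
  funext i
  exact le_antisymm (cl_le_of_inj a ha i) (cl_le_of_inj g h8 i)

theorem chi_zero_of {M N : Rep} (h : H0 M N) (h' : E0 M N) : chi M.cl N.cl = 0 :=
  le_antisymm (chi_nonpos_of h) (chi_nonneg_of h')

/-- homomorphisms from the simple projective -/
def fromB (R : Rep) (v : R.V .B) : Hm sB R where
  g i := match i with
    | .A => (0 : PUnit →ₗ[ℂ] R.V .A)
    | .B => (LinearMap.toSpanSingleton ℂ (R.V .B) v : ℂ →ₗ[ℂ] R.V .B)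
    | .C => (0 : PUnit →ₗ[ℂ] R.V .C)
  h e w := by
    cases e
    · exact (map_zero (R.f .x)).trans (map_zero (LinearMap.toSpanSingleton ℂ (R.V .B) v)).symm
    · exact (map_zero (R.f .y)).trans (map_zero (LinearMap.toSpanSingleton ℂ (R.V .B) v)).symm
    · exact (map_zero (R.f .z)).trans (map_zero (LinearMap.toSpanSingleton ℂ (R.V .B) v)).symm

theorem H0_sB {R : Rep} (hR : Brick R) (h : 0 < R.cl .A) : H0 R sB := by
  by_contra h1
  obtain ⟨g, j, v, hv⟩ := NZ_of_not_H0 h1
  have hj : ∃ w : R.V .B, g.g .B w ≠ 0 := by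
    cases j
    · exact absurd (Subsingleton.elim (α := PUnit) _ _) hv
    · exact ⟨v, hv⟩
    · exact absurd (Subsingleton.elim (α := PUnit) _ _) hv
  obtain ⟨w, hw⟩ := hj
  have hw0 : w ≠ 0 := fun h2 => hw (by rw [h2, map_zero])
  have h2 : ((fromB R w).comp g).NZ := by
    refine ⟨.B, w, ?_⟩
    have hw' : (show ℂ from g.g .B w) ≠ 0 := hw
    exact smul_ne_zero hw' hw0
  have h3 := hR.inj _ h2
  have h4 : g.Inj := by
    intro j v w hvw
    apply h3 j
    simp only [Hm.comp_g]
    rw [hvw]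
  have h5 := cl_le_of_inj g h4 .A
  rw [sB_cl.1] at h5
  omega

theorem St_of_par {r z : Cls} {S : Rep} (hz : 0 < z .A) (hr : 0 < r .A) (hp : Par r z)
    (h : St (chi z) S) : St (chi r) S := by
  intro X hX hXS hne
  have h1 := h X hX hXS hne
  have h2 : z .A * chi r X.cl = r .A * chi z X.cl := by
    have hB := hp .B .A
    have hC := hp .C .A
    simp only [chi]
    linear_combination (X.cl .B) * hB + (X.cl .C) * hC - (X.cl .B) * hC
  have h3 : z .A * chi r X.cl < 0 := by rw [h2]; exact mul_neg_of_pos_of_neg hr h1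
  exact neg_of_mul_neg_right h3 hz.le

theorem caseI {S T : Rep} {z : Cls} (hz : ∀ i, 0 < z i) (hq : 0 < chi z z)
    (hzx : chi z S.cl = 0) (hzy : chi z T.cl = 0) (hS : St (chi z) S) (hT : St (chi z) T)
    (hnp : ¬ Par S.cl T.cl) (hSn : S.Nz) (hqS : chi S.cl S.cl ≤ 0) (hB : 0 < S.cl .B)
    (hex : ∃ Z : Rep, G Z ∧ Z.cl = z) : False := by
  obtain ⟨Z, hZG, rfl⟩ := hex
  obtain ⟨R, hR, hRb⟩ := exists_RP hZG hq
  obtain ⟨h1, h2⟩ := perp hR hS hzx
  obtain ⟨h3, h4⟩ := perp hR hT hzy
  have c1 := chi_zero_of h1 h2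
  have c2 := chi_zero_of h3 h4
  have hpar : Par (lft R.cl) (lft Z.cl) := by
    apply par_fun hnp <;> rw [dot_lft] <;> assumption
  have hpar2 := par_lft hpar
  have hRA : 0 < R.cl .A := by
    rcases lt_or_eq_of_le (R.cl_nonneg .A) with h | h
    · exact h
    · exfalso
      apply Rep.nz_iff_ne.1 hR.nz
      funext i
      have h5 := hpar2 i .A
      rw [← h, zero_mul] at h5
      exact (mul_eq_zero.1 h5).resolve_right (hz .A).ne'
  have hst : St (chi R.cl) S := St_of_par (hz .A) hRA hpar2 hS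
  have hRR : E0 R R := by
    obtain ⟨b, hb⟩ := hR.qt
    exact E0.quor b hb hR.e1
  obtain ⟨L, m, hL1, hL2, hL3⟩ := univ_ext hRb hRR (H0_sB hRb hRA)
  have hLcl : chi L.cl S.cl = S.cl .B := by
    have e1 : L.cl = sB.cl + (fun i => (m : ℤ) * R.cl i) := funext hL3
    obtain ⟨b1, b2, b3⟩ := sB_cl
    have e2 : chi (fun i => (m : ℤ) * R.cl i) S.cl = m * chi R.cl S.cl := by
      simp only [chi]; ring
    rw [e1, chi_add_left, e2, c1]
    simp only [chi, b1, b2, b3]; ring
  exact descent h1 hst hSn hqS L.dim.toNat L (by have := L.dim_nonneg; omega) hL1 hL2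
    (by rw [hLcl]; exact hB)

end Pool.Agent.L7h86
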