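import Mathlib
import Pool.Agent.L7h86.NL2

/-!
# The dual of `Ext¹`
-/

set_option autoImplicit false

namespace Pool.Agent.L7h86

def Rep.fx (M : Rep) : M.V .A →ₗ[ℂ] M.V .B := M.f .x
def Rep.fy (M : Rep) : M.V .A →ₗ[ℂ] M.V .B := M.f .y
def Rep.fz (M : Rep) : M.V .C →ₗ[ℂ] M.V .B := M.f .z

theorem Hm.hx {M N : Rep} (a : Hm M N) (v : M.V .A) : N.fx (a.g .A v) = a.g .B (M.fx v) :=
  a.h .x v
theorem Hm.hy {M N : Rep} (a : Hm M N) (v : M.V .A) : N.fy (a.g .A v) = a.g .B (M.fy v) :=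
  a.h .y v
theorem Hm.hz {M N : Rep} (a : Hm M N) (v : M.V .C) : N.fz (a.g .C v) = a.g .B (M.fz v) :=
  a.h .z v

/-- typed construction of homomorphisms -/
def Hm.mk3 {M N : Rep} (gA : M.V .A →ₗ[ℂ] N.V .A) (gB : M.V .B →ₗ[ℂ] N.V .B)
    (gC : M.V .C →ₗ[ℂ] N.V .C) (hx : ∀ v, N.fx (gA v) = gB (M.fx v))
    (hy : ∀ v, N.fy (gA v) = gB (M.fy v)) (hz : ∀ v, N.fz (gC v) = gB (M.fz v)) : Hm M N where
  g i := match i with
    | .A => gA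
    | .B => gB
    | .C => gC
  h e v := by
    cases e
    · exact hx v
    · exact hy v
    · exact hz v

abbrev Dom3 (M N : Rep) : Type :=
  (M.V .A →ₗ[ℂ] N.V .A) × (M.V .B →ₗ[ℂ] N.V .B) × (M.V .C →ₗ[ℂ] N.V .C)

abbrev Cod3 (M N : Rep) : Type :=
  (M.V .A →ₗ[ℂ] N.V .B) × (M.V .A →ₗ[ℂ] N.V .B) × (M.V .C →ₗ[ℂ] N.V .B)

noncomputable def d3 (M N : Rep) : Dom3 M N →ₗ[ℂ] Cod3 M N where
  toFun g := (N.fx ∘ₗ g.1 - g.2.1 ∘ₗ M.fx, N.fy ∘ₗ g.1 - g.2.1 ∘ₗ M.fy,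
    N.fz ∘ₗ g.2.2 - g.2.1 ∘ₗ M.fz)
  map_add' a b := by
    refine Prod.ext ?_ (Prod.ext ?_ ?_)
    all_goals
      ext v
      simp only [Prod.fst_add, Prod.snd_add, LinearMap.sub_apply, LinearMap.comp_apply,
        LinearMap.add_apply, map_add]
      abel
  map_smul' c a := by
    refine Prod.ext ?_ (Prod.ext ?_ ?_)
    all_goals
      ext v
      simp only [Prod.smul_fst, Prod.smul_snd, LinearMap.sub_apply, LinearMap.comp_apply,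
        LinearMap.smul_apply, map_smul, RingHom.id_apply, smul_sub]

theorem E0_iff3 (M N : Rep) : E0 M N ↔ Function.Surjective (d3 M N) := by
  constructor
  · rintro h ⟨ξx, ξy, ξz⟩
    obtain ⟨g, hg⟩ := h (fun e => match e with
      | .x => ξx
      | .y => ξy
      | .z => ξz)
    refine ⟨(g .A, g .B, g .C), ?_⟩
    refine Prod.ext ?_ (Prod.ext ?_ ?_)
    · exact LinearMap.ext (hg .x)
    · exact LinearMap.ext (hg .y)
    · exact LinearMap.ext (hg .z)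
  · intro h ξ
    obtain ⟨⟨gA, gB, gC⟩, hg⟩ := h (ξ .x, ξ .y, ξ .z)
    refine ⟨fun i => match i with
      | .A => gA
      | .B => gB
      | .C => gC, fun e v => ?_⟩
    cases e
    · exact LinearMap.congr_fun (congrArg Prod.fst hg) v
    · exact LinearMap.congr_fun (congrArg (fun p => p.2.1) hg) v
    · exact LinearMap.congr_fun (congrArg (fun p => p.2.2) hg) v

/-- the elements of the dual of `Ext¹(X, T)` -/
structure Dx (X T : Rep) where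
  px : T.V .B →ₗ[ℂ] X.V .A
  py : T.V .B →ₗ[ℂ] X.V .A
  pz : T.V .B →ₗ[ℂ] X.V .C
  hA : ∀ v : T.V .A, px (T.fx v) + py (T.fy v) = 0
  hC : ∀ v : T.V .C, pz (T.fz v) = 0
  hB : ∀ v : T.V .B, X.fx (px v) + X.fy (py v) + X.fz (pz v) = 0

def Dx.NZ {X T : Rep} (d : Dx X T) : Prop :=
  (∃ v, d.px v ≠ 0) ∨ (∃ v, d.py v ≠ 0) ∨ (∃ v, d.pz v ≠ 0)

/-- a representation of functionals on spaces of linear maps -/
theorem exists_rep_dual {V W : Type} [AddCommGroup V] [Module ℂ V] [FiniteDimensional ℂ V]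
    [AddCommGroup W] [Module ℂ W] [FiniteDimensional ℂ W] (L : (V →ₗ[ℂ] W) →ₗ[ℂ] ℂ) :
    ∃ φ : W →ₗ[ℂ] V, ∀ (ψ : V →ₗ[ℂ] ℂ) (w : W), ψ (φ w) = L (ψ.smulRight w) := by
  let A : W →ₗ[ℂ] Module.Dual ℂ (Module.Dual ℂ V) :=
    LinearMap.mk₂ ℂ (fun w ψ => L (LinearMap.smulRight ψ w))
      (fun w w' ψ => by
        rw [← map_add]; congr 1; ext v; simp)
      (fun c w ψ => by
        rw [← map_smul]; congr 1; ext v
        simp only [LinearMap.smulRight_apply, LinearMap.smul_apply]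
        rw [smul_comm])
      (fun w ψ ψ' => by
        rw [← map_add]; congr 1; ext v
        simp only [LinearMap.smulRight_apply, LinearMap.add_apply, add_smul])
      (fun c w ψ => by
        rw [← map_smul]; congr 1; ext v
        simp only [LinearMap.smulRight_apply, LinearMap.smul_apply, smul_assoc])
  refine ⟨(Module.evalEquiv ℂ V).symm.toLinearMap ∘ₗ A, fun ψ w => ?_⟩
  have h1 : (Module.evalEquiv ℂ V) ((Module.evalEquiv ℂ V).symm (A w)) = A w :=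
    LinearEquiv.apply_symm_apply _ _
  have h2 := LinearMap.congr_fun h1 ψ
  exact h2

theorem span_smulRight {V W : Type} [AddCommGroup V] [Module ℂ V] [FiniteDimensional ℂ V]
    [AddCommGroup W] [Module ℂ W] (L : (V →ₗ[ℂ] W) →ₗ[ℂ] ℂ)
    (h : ∀ (ψ : V →ₗ[ℂ] ℂ) (w : W), L (ψ.smulRight w) = 0) : L = 0 := by
  let b := Module.finBasis ℂ V
  ext ξ
  have h1 : ξ = ∑ i, LinearMap.smulRight (b.coord i) (ξ (b i)) := by
    apply b.ext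
    intro j
    simp [LinearMap.sum_apply, Finsupp.single_apply]
  rw [h1, map_sum]
  simp [h]

theorem eq_zero_of_dual {V : Type} [AddCommGroup V] [Module ℂ V] {v : V}
    (h : ∀ ψ : V →ₗ[ℂ] ℂ, ψ v = 0) : v = 0 :=
  (Module.forall_dual_apply_eq_zero_iff ℂ v).1 h

theorem exists_Dx {X T : Rep} (h : ¬ E0 X T) : ∃ d : Dx X T, d.NZ := by
  rw [E0_iff3, ← LinearMap.range_eq_top] at h
  obtain ⟨L, hL0, hL⟩ := Submodule.exists_le_ker_of_lt_top _ (lt_top_iff_ne_top.2 h)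
  have hL' : ∀ g, L (d3 X T g) = 0 := fun g => LinearMap.mem_ker.1 (hL ⟨g, rfl⟩)
  obtain ⟨px, hx⟩ := exists_rep_dual (L ∘ₗ LinearMap.inl ℂ (X.V .A →ₗ[ℂ] T.V .B)
    ((X.V .A →ₗ[ℂ] T.V .B) × (X.V .C →ₗ[ℂ] T.V .B)))
  obtain ⟨py, hy⟩ := exists_rep_dual (L ∘ₗ LinearMap.inr ℂ (X.V .A →ₗ[ℂ] T.V .B)
    ((X.V .A →ₗ[ℂ] T.V .B) × (X.V .C →ₗ[ℂ] T.V .B)) ∘ₗ
    LinearMap.inl ℂ (X.V .A →ₗ[ℂ] T.V .B) (X.V .C →ₗ[ℂ] T.V .B))
  obtain ⟨pz, hz⟩ := exists_rep_dual (L ∘ₗ LinearMap.inr ℂ (X.V .A →ₗ[ℂ] T.V .B)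
    ((X.V .A →ₗ[ℂ] T.V .B) × (X.V .C →ₗ[ℂ] T.V .B)) ∘ₗ
    LinearMap.inr ℂ (X.V .A →ₗ[ℂ] T.V .B) (X.V .C →ₗ[ℂ] T.V .B))
  have hx' : ∀ ψ w, ψ (px w) = L (LinearMap.smulRight ψ w, 0, 0) := hx
  have hy' : ∀ ψ w, ψ (py w) = L (0, LinearMap.smulRight ψ w, 0) := hy
  have hz' : ∀ ψ w, ψ (pz w) = L (0, 0, LinearMap.smulRight ψ w) := hz
  refine ⟨⟨px, py, pz, ?_, ?_, ?_⟩, ?_⟩
  · intro v
    apply eq_zero_of_dual
    intro ψ
    rw [map_add, hx', hy', ← map_add, ← hL' (LinearMap.smulRight ψ v, 0, 0)]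
    congr 1
    refine Prod.ext ?_ (Prod.ext ?_ ?_)
    all_goals
      ext w
      simp [d3]
  · intro v
    apply eq_zero_of_dual
    intro ψ
    rw [hz', ← hL' (0, 0, LinearMap.smulRight ψ v)]
    congr 1
    refine Prod.ext ?_ (Prod.ext ?_ ?_)
    all_goals
      ext w
      simp [d3]
  · intro v
    apply eq_zero_of_dual
    intro ψ
    have f1 := hx' (ψ ∘ₗ X.fx) v
    have f2 := hy' (ψ ∘ₗ X.fy) v
    have f3 := hz' (ψ ∘ₗ X.fz) v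
    rw [LinearMap.comp_apply] at f1 f2 f3
    rw [map_add, map_add, f1, f2, f3, ← map_add, ← map_add,
      ← hL' (0, - LinearMap.smulRight ψ v, 0)]
    congr 1
    refine Prod.ext ?_ (Prod.ext ?_ ?_)
    all_goals
      ext w
      simp [d3]
  · by_contra hcon
    unfold Dx.NZ at hcon
    push Not at hcon
    obtain ⟨c1, c2, c3⟩ := hcon
    apply hL0
    have z1 := span_smulRight (L ∘ₗ LinearMap.inl ℂ (X.V .A →ₗ[ℂ] T.V .B)
      ((X.V .A →ₗ[ℂ] T.V .B) × (X.V .C →ₗ[ℂ] T.V .B))) (fun ψ w => by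
        rw [← hx, c1, map_zero])
    have z2 := span_smulRight (L ∘ₗ LinearMap.inr ℂ (X.V .A →ₗ[ℂ] T.V .B)
      ((X.V .A →ₗ[ℂ] T.V .B) × (X.V .C →ₗ[ℂ] T.V .B)) ∘ₗ
      LinearMap.inl ℂ (X.V .A →ₗ[ℂ] T.V .B) (X.V .C →ₗ[ℂ] T.V .B)) (fun ψ w => by
        rw [← hy, c2, map_zero])
    have z3 := span_smulRight (L ∘ₗ LinearMap.inr ℂ (X.V .A →ₗ[ℂ] T.V .B)
      ((X.V .A →ₗ[ℂ] T.V .B) × (X.V .C →ₗ[ℂ] T.V .B)) ∘ₗ
      LinearMap.inr ℂ (X.V .A →ₗ[ℂ] T.V .B) (X.V .C →ₗ[ℂ] T.V .B)) (fun ψ w => by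
        rw [← hz, c3, map_zero])
    apply LinearMap.ext
    rintro ⟨a, b, c⟩
    have w1 : L (a, 0, 0) = 0 := LinearMap.congr_fun z1 a
    have w2 : L (0, b, 0) = 0 := LinearMap.congr_fun z2 b
    have w3 : L (0, 0, c) = 0 := LinearMap.congr_fun z3 c
    have e1 : ((a, b, c) : Cod3 X T) = (a, 0, 0) + ((0, b, 0) + (0, 0, c)) := by simp
    rw [e1, map_add, map_add, w1, w2, w3]
    simp

/-- the trace of a composition with a map of rank one -/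
theorem trace_rank_one {V W : Type} [AddCommGroup V] [Module ℂ V] [FiniteDimensional ℂ V]
    [AddCommGroup W] [Module ℂ W] [FiniteDimensional ℂ W] (φ : W →ₗ[ℂ] V) (ψ : V →ₗ[ℂ] ℂ)
    (w : W) : LinearMap.trace ℂ V (φ ∘ₗ (LinearMap.smulRight ψ w)) = ψ (φ w) := by
  have h : φ ∘ₗ (LinearMap.smulRight ψ w) = (LinearMap.toSpanSingleton ℂ V (φ w)) ∘ₗ ψ := by
    ext v
    simp
  rw [h, LinearMap.trace_comp_comm']
  have h2 : ψ ∘ₗ (LinearMap.toSpanSingleton ℂ V (φ w)) = (ψ (φ w)) • LinearMap.id := by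
    ext
    simp
  rw [h2, map_smul, LinearMap.trace_id]
  simp

theorem Dx.zero {X T : Rep} (h : E0 X T) (d : Dx X T) : ¬ d.NZ := by
  rw [E0_iff3] at h
  have h1 : ∀ ξ : Cod3 X T, LinearMap.trace ℂ _ (d.px ∘ₗ ξ.1) +
      LinearMap.trace ℂ _ (d.py ∘ₗ ξ.2.1) + LinearMap.trace ℂ _ (d.pz ∘ₗ ξ.2.2) = 0 := by
    intro ξ
    obtain ⟨⟨gA, gB, gC⟩, rfl⟩ := h ξ
    have e1 : d.px ∘ₗ (d3 X T (gA, gB, gC)).1 =
        (d.px ∘ₗ T.fx) ∘ₗ gA - (d.px ∘ₗ gB) ∘ₗ X.fx := by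
      ext v; simp [d3]
    have e2 : d.py ∘ₗ (d3 X T (gA, gB, gC)).2.1 =
        (d.py ∘ₗ T.fy) ∘ₗ gA - (d.py ∘ₗ gB) ∘ₗ X.fy := by
      ext v; simp [d3]
    have e3 : d.pz ∘ₗ (d3 X T (gA, gB, gC)).2.2 =
        (d.pz ∘ₗ T.fz) ∘ₗ gC - (d.pz ∘ₗ gB) ∘ₗ X.fz := by
      ext v; simp [d3]
    rw [e1, e2, e3, map_sub, map_sub, map_sub, LinearMap.trace_comp_comm' (X.fx),
      LinearMap.trace_comp_comm' (X.fy), LinearMap.trace_comp_comm' (X.fz)]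
    have e4 : d.px ∘ₗ T.fx + d.py ∘ₗ T.fy = 0 := LinearMap.ext d.hA
    have e5 : d.pz ∘ₗ T.fz = 0 := LinearMap.ext d.hC
    have e6 : X.fx ∘ₗ d.px + X.fy ∘ₗ d.py + X.fz ∘ₗ d.pz = 0 := LinearMap.ext d.hB
    have t1 : LinearMap.trace ℂ _ ((d.px ∘ₗ T.fx) ∘ₗ gA) +
        LinearMap.trace ℂ _ ((d.py ∘ₗ T.fy) ∘ₗ gA) = 0 := by
      rw [← map_add, ← LinearMap.add_comp, e4, LinearMap.zero_comp, map_zero]
    have t2 : LinearMap.trace ℂ _ ((d.pz ∘ₗ T.fz) ∘ₗ gC) = 0 := by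
      rw [e5, LinearMap.zero_comp, map_zero]
    have t3 : LinearMap.trace ℂ _ (X.fx ∘ₗ d.px ∘ₗ gB) +
        LinearMap.trace ℂ _ (X.fy ∘ₗ d.py ∘ₗ gB) +
        LinearMap.trace ℂ _ (X.fz ∘ₗ d.pz ∘ₗ gB) = 0 := by
      rw [← map_add, ← map_add]
      have : X.fx ∘ₗ d.px ∘ₗ gB + X.fy ∘ₗ d.py ∘ₗ gB + X.fz ∘ₗ d.pz ∘ₗ gB =
          (X.fx ∘ₗ d.px + X.fy ∘ₗ d.py + X.fz ∘ₗ d.pz) ∘ₗ gB := by
        ext v; simp
      rw [this, e6, LinearMap.zero_comp, map_zero]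
    linear_combination t1 + t2 - t3
  rintro (⟨v, hv⟩ | ⟨v, hv⟩ | ⟨v, hv⟩)
  · apply hv
    apply eq_zero_of_dual
    intro ψ
    have := h1 (LinearMap.smulRight ψ v, 0, 0)
    simp only [LinearMap.comp_zero, map_zero, add_zero] at this
    rwa [trace_rank_one] at this
  · apply hv
    apply eq_zero_of_dual
    intro ψ
    have := h1 (0, LinearMap.smulRight ψ v, 0)
    simp only [LinearMap.comp_zero, map_zero, add_zero, zero_add] at this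
    rwa [trace_rank_one] at this
  · apply hv
    apply eq_zero_of_dual
    intro ψ
    have := h1 (0, 0, LinearMap.smulRight ψ v)
    simp only [LinearMap.comp_zero, map_zero, add_zero, zero_add] at this
    rwa [trace_rank_one] at this

end Pool.Agent.L7h86
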