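import Mathlib

/-!
# Coherent systems on the projective line

The definitions are those of `Pool/Agent/Results/MP_3738f3_ag/StabilityInterval.lean`.
-/

set_option autoImplicit false

namespace Pool.Agent.L7h86.Coh

open MvPolynomial

abbrev RR := MvPolynomial (Fin 2) ℂ

/-- homogeneous forms of integer degree d -/
def Hd (d : ℤ) : Submodule ℂ RR where
  carrier := {p | p.IsHomogeneous d.toNat ∧ (d < 0 → p = 0)}
  add_mem' := by
    rintro a b ⟨ha, ha'⟩ ⟨hb, hb'⟩
    exact ⟨ha.add hb, fun h => by rw [ha' h, hb' h, add_zero]⟩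
  zero_mem' := ⟨isHomogeneous_zero _ _ _, fun _ => rfl⟩
  smul_mem' := by
    rintro c a ⟨ha, ha'⟩
    refine ⟨?_, fun h => by rw [ha' h, smul_zero]⟩
    rw [MvPolynomial.smul_eq_C_mul]
    exact ha.C_mul c

theorem mem_Hd {d : ℤ} {p : RR} : p ∈ Hd d ↔ (p.IsHomogeneous d.toNat ∧ (d < 0 → p = 0)) := Iff.rfl

theorem Hd_mul {a b : ℤ} {p q : RR} (hp : p ∈ Hd a) (hq : q ∈ Hd b) : p * q ∈ Hd (a + b) := by
  rw [mem_Hd] at *
  by_cases ha : a < 0
  · rw [hp.2 ha, zero_mul]; exact ⟨isHomogeneous_zero _ _ _, fun _ => rfl⟩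
  by_cases hb : b < 0
  · rw [hq.2 hb, mul_zero]; exact ⟨isHomogeneous_zero _ _ _, fun _ => rfl⟩
  push Not at ha hb
  rw [Int.toNat_add ha hb]
  exact ⟨hp.1.mul hq.1, fun h => by omega⟩

noncomputable def degEquiv (n : ℕ) : {d : Fin 2 →₀ ℕ | d.degree = n} ≃ Fin (n + 1) where
  toFun d := ⟨d.1 0, by
    have h := d.2
    simp only [Set.mem_ofPred_eq, Finsupp.degree_eq_sum, Fin.sum_univ_two] at h
    omega⟩
  invFun i := ⟨Finsupp.single 0 i.1 + Finsupp.single 1 (n - i.1), by
    have := i.2
    simp only [Set.mem_ofPred_eq, Finsupp.degree_eq_sum, Fin.sum_univ_two, Finsupp.add_apply]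
    simp
    omega⟩
  left_inv d := by
    have h := d.2
    simp only [Set.mem_ofPred_eq, Finsupp.degree_eq_sum, Fin.sum_univ_two] at h
    ext i
    fin_cases i
    · simp
    · simp; omega
  right_inv i := by
    ext
    simp

theorem finrank_hom (n : ℕ) : Module.finrank ℂ (homogeneousSubmodule (Fin 2) ℂ n) = n + 1 := by
  have h : homogeneousSubmodule (Fin 2) ℂ n = restrictSupport ℂ {d : Fin 2 →₀ ℕ | d.degree = n} :=
    homogeneousSubmodule_eq_finsupp_supported _ _ _
  rw [h]
  rw [Module.finrank_eq_nat_card_basis (basisRestrictSupport ℂ {d : Fin 2 →₀ ℕ | d.degree = n})]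
  rw [Nat.card_congr (degEquiv n)]
  simp

theorem Hd_neg {d : ℤ} (hd : d < 0) : Hd d = ⊥ := by
  ext p
  rw [mem_Hd, Submodule.mem_bot]
  constructor
  · intro h; exact h.2 hd
  · rintro rfl; exact ⟨isHomogeneous_zero _ _ _, fun _ => rfl⟩

theorem Hd_nonneg {d : ℤ} (hd : 0 ≤ d) : Hd d = homogeneousSubmodule (Fin 2) ℂ d.toNat := by
  ext p
  rw [mem_Hd, mem_homogeneousSubmodule]
  constructor
  · intro h; exact h.1
  · intro h; exact ⟨h, fun h' => by omega⟩

instance finHd (d : ℤ) : FiniteDimensional ℂ (Hd d) := by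
  by_cases hd : d < 0
  · rw [Hd_neg hd]; infer_instance
  · push Not at hd
    rw [Hd_nonneg hd]
    exact Module.finite_of_finrank_pos (by rw [finrank_hom]; omega)

theorem finrank_Hd (d : ℤ) : Module.finrank ℂ (Hd d) = (d + 1).toNat := by
  by_cases hd : d < 0
  · rw [Hd_neg hd]; simp; omega
  · push Not at hd
    rw [Hd_nonneg hd, finrank_hom]; omega

/-- sections of a sum of line bundles -/
def HE {ι : Type} (e : ι → ℤ) : Submodule ℂ (ι → RR) where
  carrier := {s | ∀ i, s i ∈ Hd (e i)}
  add_mem' := fun ha hb i => (Hd _).add_mem (ha i) (hb i)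
  zero_mem' := fun i => (Hd _).zero_mem
  smul_mem' := fun c _ ha i => (Hd _).smul_mem c (ha i)

theorem mem_HE {ι : Type} {e : ι → ℤ} {s : ι → RR} : s ∈ HE e ↔ ∀ i, s i ∈ Hd (e i) := Iff.rfl

def HEequiv {ι : Type} (e : ι → ℤ) : HE e ≃ₗ[ℂ] (∀ i, Hd (e i)) where
  toFun s := fun i => ⟨s.1 i, s.2 i⟩
  map_add' _ _ := rfl
  map_smul' _ _ := rfl
  invFun t := ⟨fun i => (t i).1, fun i => (t i).2⟩
  left_inv _ := rfl
  right_inv _ := rfl

instance finHE {ι : Type} [Fintype ι] (e : ι → ℤ) : FiniteDimensional ℂ (HE e) :=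
  Module.Finite.equiv (HEequiv e).symm

theorem finrank_HE {ι : Type} [Fintype ι] (e : ι → ℤ) :
    Module.finrank ℂ (HE e) = ∑ i, (e i + 1).toNat := by
  rw [LinearEquiv.finrank_eq (HEequiv e), Module.finrank_pi_fintype]
  simp [finrank_Hd]




/-- multiplication by a matrix -/
noncomputable def mulMap {n m : Type} [Fintype m] (M : n → m → RR) : (m → RR) →ₗ[ℂ] (n → RR) where
  toFun u := fun i => ∑ j, M i j * u j
  map_add' u v := by
    funext i
    simp only [Pi.add_apply, mul_add, Finset.sum_add_distrib]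
  map_smul' c u := by
    funext i
    simp only [Pi.smul_apply, RingHom.id_apply, Finset.smul_sum, mul_smul_comm]

/-- A coherent system `(E, V)` of type `(n, d, k)` on the complex projective line. By Grothendieck's
theorem every vector bundle of rank `n` on `ℙ¹` is `E = O(e 0) ⊕ ... ⊕ O(e (n-1))`; its space of
sections is `HE e`; `V` is a `k`-dimensional subspace of it. -/
structure CohSys (n : ℕ) (d : ℤ) (k : ℕ) where
  /-- the splitting type of the bundle -/
  e : Fin n → ℤ
  /-- the degree of the bundle is `d` -/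
  degE : ∑ i, e i = d
  /-- the space of sections -/
  V : Submodule ℂ (Fin n → RR)
  /-- `V` consists of sections of `E` -/
  le : V ≤ HE e
  /-- `V` has dimension `k` -/
  dim : Module.finrank ℂ V = k

/-- A subsystem `(E', V')` of a coherent system `(E, V)` on `ℙ¹` with `E' ≠ 0`. A nonzero coherent
subsheaf `E'` of `E` is a vector bundle, so `E' = O(b 0) ⊕ ... ⊕ O(b (m-1))` with `1 ≤ m`, embedded
by a matrix `M` of forms, `M i j` of degree `e i - b j`, whose columns are linearly independent over
the polynomial ring; the sections of `E'` inside those of `E` are the image of `HE b` under `M`; and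
`V'` is any subspace of `V` contained in `H⁰(E')`. -/
structure SubSys {n : ℕ} {d : ℤ} {k : ℕ} (S : CohSys n d k) where
  /-- the rank of `E'` -/
  m : ℕ
  /-- the splitting type of `E'` -/
  b : Fin m → ℤ
  /-- the inclusion `E' → E` -/
  M : Fin n → Fin m → RR
  /-- `E'` is not zero -/
  pos : 1 ≤ m
  /-- the entries of `M` are forms of the right degree -/
  degM : ∀ i j, M i j ∈ Hd (S.e i - b j)
  /-- `M` is injective -/
  inj : LinearIndependent RR (fun j : Fin m => fun i : Fin n => M i j)
  /-- the space of sections of the subsystem -/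
  V' : Submodule ℂ (Fin n → RR)
  /-- `V'` lies in `V` and in `H⁰(E')` -/
  le : V' ≤ S.V ⊓ (HE b).map (mulMap M)

/-- The degree of `E'`. -/
def SubSys.deg {n : ℕ} {d : ℤ} {k : ℕ} {S : CohSys n d k} (T : SubSys S) : ℤ := ∑ j, T.b j

/-- The subsystem is the whole system: `(E', V') = (E, V)`. A subsheaf of the same rank and degree as
`E` is `E` itself. -/
def SubSys.IsWhole {n : ℕ} {d : ℤ} {k : ℕ} {S : CohSys n d k} (T : SubSys S) : Prop :=
  T.m = n ∧ T.deg = d ∧ T.V' = S.V

/-- `α`-stability: `μ_α(E', V') < μ_α(E, V)` for all subsystems with `E' ≠ 0` and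
`(E', V') ≠ (E, V)`, where `μ_α = (degree + α * dimension) / rank`. -/
def CohSys.IsStable {n : ℕ} {d : ℤ} {k : ℕ} (S : CohSys n d k) (α : ℝ) : Prop :=
  ∀ T : SubSys S, ¬ T.IsWhole →
    ((T.deg : ℝ) + α * (Module.finrank ℂ T.V' : ℝ)) / (T.m : ℝ) < ((d : ℝ) + α * (k : ℝ)) / (n : ℝ)

/-- The set `I(n, d, k)` of the real `α` for which an `α`-stable coherent system of type `(n, d, k)`
exists on `ℙ¹`. -/
def stabilitySet (n : ℕ) (d : ℤ) (k : ℕ) : Set ℝ :=
  {α | ∃ S : CohSys n d k, S.IsStable α}

theorem mulMap_inj {n m : Type} [Fintype m] (M : n → m → RR)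
    (hM : LinearIndependent RR (fun j : m => fun i : n => M i j)) :
    Function.Injective (mulMap M) := by
  rw [← LinearMap.ker_eq_bot, LinearMap.ker_eq_bot']
  intro u hu
  rw [Fintype.linearIndependent_iff] at hM
  have := hM u (by
    funext i
    have h := congrFun hu i
    simp only [mulMap, LinearMap.coe_mk, AddHom.coe_mk, Pi.zero_apply] at h
    simp only [Finset.sum_apply, Pi.smul_apply, smul_eq_mul, Pi.zero_apply]
    rw [← h]
    exact Finset.sum_congr rfl (fun j _ => mul_comm _ _))
  funext j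
  exact this j

/-- the sections of the subsheaf -/
noncomputable def Phi : RR →ₐ[ℂ] Polynomial RR :=
  MvPolynomial.aeval (fun i => Polynomial.C (X i) * Polynomial.X)

theorem Phi_monomial (d : Fin 2 →₀ ℕ) (c : ℂ) :
    Phi (monomial d c) = Polynomial.C (monomial d c) * Polynomial.X ^ d.degree := by
  rw [Phi, aeval_monomial, Finsupp.prod_fintype _ _ (by intro i; simp), Finsupp.degree_eq_sum]
  simp only [mul_pow]
  rw [Finset.prod_mul_distrib, Finset.prod_pow_eq_pow_sum, ← mul_assoc]
  congr 1
  rw [monomial_eq, Finsupp.prod_fintype _ _ (by intro i; simp), map_mul, map_prod]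
  simp only [map_pow]
  rfl

theorem Phi_coeff (f : RR) (k : ℕ) : (Phi f).coeff k = homogeneousComponent k f := by
  induction f using MvPolynomial.induction_on' with
  | monomial u a =>
    rw [Phi_monomial, Polynomial.coeff_C_mul_X_pow]
    split_ifs with h
    · rw [homogeneousComponent_of_mem (n := k) (m := k) (isHomogeneous_monomial a h.symm)]
      simp
    · rw [homogeneousComponent_of_mem (n := u.degree) (m := k) (isHomogeneous_monomial a rfl)]
      simp [h]
  | add p q hp hq => rw [map_add, Polynomial.coeff_add, hp, hq, map_add]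

theorem hom_of_mul {f g : RR} {n : ℕ} (hfg : (f * g).IsHomogeneous n) (hne : f * g ≠ 0) :
    ∃ a b, a + b = n ∧ f.IsHomogeneous a ∧ g.IsHomogeneous b := by
  have key : ∀ f : RR, (Phi f).natDegree = (Phi f).natTrailingDegree →
      f.IsHomogeneous (Phi f).natDegree := by
    intro f hf
    have h1 : homogeneousComponent (Phi f).natDegree f = f := by
      conv_rhs => rw [← sum_homogeneousComponent (φ := f)]
      symm
      by_cases h0 : f = 0
      · subst h0; simp
      rw [Finset.sum_eq_single (Phi f).natDegree]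
      · intro k _ hk
        rw [← Phi_coeff]
        rcases lt_or_gt_of_ne hk with h | h
        · exact Polynomial.coeff_eq_zero_of_lt_natTrailingDegree (by omega)
        · exact Polynomial.coeff_eq_zero_of_natDegree_lt h
      · intro hk
        apply homogeneousComponent_eq_zero
        simpa using hk
    have h2 := homogeneousComponent_isHomogeneous (Phi f).natDegree f
    rwa [h1] at h2
  have hPhi : Phi f * Phi g = Polynomial.C (f * g) * Polynomial.X ^ n := by
    rw [← map_mul]
    refine Polynomial.ext (fun k => ?_)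
    rw [Phi_coeff, Polynomial.coeff_C_mul_X_pow]
    exact homogeneousComponent_of_mem hfg
  have hne' : Phi f * Phi g ≠ 0 := by
    rw [hPhi]
    exact mul_ne_zero (by simpa using hne) (pow_ne_zero _ Polynomial.X_ne_zero)
  have hf0 : Phi f ≠ 0 := left_ne_zero_of_mul hne'
  have hg0 : Phi g ≠ 0 := right_ne_zero_of_mul hne'
  have e1 : (Phi f).natDegree + (Phi g).natDegree = n := by
    rw [← Polynomial.natDegree_mul hf0 hg0, hPhi, Polynomial.natDegree_C_mul_X_pow n _ hne]
  have e2 : (Phi f).natTrailingDegree + (Phi g).natTrailingDegree = n := by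
    rw [← Polynomial.natTrailingDegree_mul hf0 hg0, hPhi,
      Polynomial.natTrailingDegree_mul_X_pow (by simpa using hne), Polynomial.natTrailingDegree_C,
      zero_add]
  have l1 := Polynomial.natTrailingDegree_le_natDegree (Phi f)
  have l2 := Polynomial.natTrailingDegree_le_natDegree (Phi g)
  exact ⟨_, _, e1, key f (by omega), key g (by omega)⟩




end Pool.Agent.L7h86.Coh
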