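import Mathlib
import Pool.Agent.L7h86.Coh

/-!
# Forms in two variables
-/

set_option autoImplicit false

namespace Pool.Agent.L7h86.Coh

open MvPolynomial

theorem aeval_hmul {A : Type} [CommRing A] [Algebra ℂ A] {f : RR} {s : ℕ}
    (hf : f.IsHomogeneous s) (a : Fin 2 → A) (t : A) :
    aeval (fun i => a i * t) f = aeval a f * t ^ s := by
  rw [aeval_def, aeval_def, eval₂_eq', eval₂_eq', Finset.sum_mul]
  apply Finset.sum_congr rfl
  intro d hd
  have h1 : d.degree = s := by
    by_contra h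
    exact mem_support_iff.1 hd (hf.coeff_eq_zero h)
  rw [Finsupp.degree_eq_sum] at h1
  simp only [mul_pow, Finset.prod_mul_distrib]
  rw [Finset.prod_pow_eq_pow_sum, h1, mul_assoc]

theorem eval_hmul {f : RR} {s : ℕ} (hf : f.IsHomogeneous s) (a : Fin 2 → ℂ) (t : ℂ) :
    eval (fun i => a i * t) f = eval a f * t ^ s := by
  have := aeval_hmul hf a t
  simpa [aeval_eq_eval] using this

/-- the linear form vanishing at `p` -/
noncomputable def ell (p : Fin 2 → ℂ) : RR := C (p 1) * X 0 - C (p 0) * X 1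

theorem ell_hom (p : Fin 2 → ℂ) : (ell p).IsHomogeneous 1 :=
  (isHomogeneous_C_mul_X (p 1) 0).sub (isHomogeneous_C_mul_X (p 0) 1)

theorem ell_mem (p : Fin 2 → ℂ) : ell p ∈ Hd 1 := ⟨ell_hom p, fun h => absurd h (by norm_num)⟩

theorem eval_ell (p q : Fin 2 → ℂ) : eval q (ell p) = p 1 * q 0 - p 0 * q 1 := by
  simp [ell]

theorem ell_ne {p : Fin 2 → ℂ} (hp : p ≠ 0) : ell p ≠ 0 := by
  intro h
  apply hp
  have h1 := eval_ell p ![1, 0]
  have h2 := eval_ell p ![0, 1]
  rw [h, map_zero] at h1 h2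
  funext i
  fin_cases i
  · simpa using h2.symm
  · simpa using h1.symm

theorem exists_coord {p : Fin 2 → ℂ} (hp : p ≠ 0) : ∃ j, p j ≠ 0 := by
  by_contra h
  push Not at h
  exact hp (funext h)

theorem dvd_of_eval {f : RR} {s : ℕ} (hf : f.IsHomogeneous s) {p : Fin 2 → ℂ} (hp : p ≠ 0)
    (h0 : eval p f = 0) : ell p ∣ f := by
  obtain ⟨j, hj⟩ := exists_coord hp
  have key : ∀ i, ell p ∣ X i - C (p i / p j) * X j := by
    intro i
    have e : ∀ i j : Fin 2, p j ≠ 0 → ∃ c : RR, X i - C (p i / p j) * X j = ell p * c := by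
      intro i j hj
      have hc : ∀ z : ℂ, (C (z / p j) : RR) = C z * C (p j)⁻¹ := by
        intro z; rw [← C_mul, div_eq_mul_inv]
      have hu : (C (p j) : RR) * C (p j)⁻¹ = 1 := by
        rw [← C_mul, mul_inv_cancel₀ hj, C_1]
      by_cases hij : i = j
      · subst hij
        refine ⟨0, ?_⟩
        rw [div_self hj, C_1]; ring
      · fin_cases i <;> fin_cases j
        · exact absurd rfl hij
        · refine ⟨C (p 1)⁻¹, ?_⟩
          simp only [Fin.zero_eta, Fin.isValue, Fin.mk_one] at hc hu ⊢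
          rw [hc, ell]
          linear_combination (-X 0 : RR) * hu
        · refine ⟨- C (p 0)⁻¹, ?_⟩
          simp only [Fin.zero_eta, Fin.isValue, Fin.mk_one] at hc hu ⊢
          rw [hc, ell]
          linear_combination (-X 1 : RR) * hu
        · exact absurd rfl hij
    obtain ⟨c, hc⟩ := e i j hj
    exact ⟨c, hc⟩
  have h1 : (Ideal.Quotient.mkₐ ℂ (Ideal.span {ell p})) =
      (Ideal.Quotient.mkₐ ℂ (Ideal.span {ell p})).comp
        (aeval (fun i => (C (p i / p j) : RR) * X j)) := by
    apply MvPolynomial.algHom_ext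
    intro i
    rw [AlgHom.comp_apply, aeval_X]
    rw [Ideal.Quotient.mkₐ_eq_mk, Ideal.Quotient.eq, Ideal.mem_span_singleton]
    exact key i
  have h2 : aeval (fun i => (C (p i / p j) : RR) * X j) f = 0 := by
    rw [aeval_hmul hf (fun i => (C (p i / p j) : RR)) (X j)]
    have h3 : aeval (fun i => (C (p i / p j) : RR)) f = C (eval (fun i => p i / p j) f) := by
      have := aeval_algebraMap_apply (B := RR) (fun i => p i / p j) f
      rw [aeval_eq_eval] at this
      exact this
    have h4 : eval p f = eval (fun i => p i / p j) f * (p j) ^ s := by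
      rw [← eval_hmul hf]
      congr 2
      funext i
      field_simp
    rw [h0] at h4
    have h5 : eval (fun i => p i / p j) f = 0 := by
      rcases mul_eq_zero.1 h4.symm with h | h
      · exact h
      · exact absurd h (pow_ne_zero _ hj)
    rw [h3, h5, C_0, zero_mul]
  have h3 := congrArg (fun φ => φ f) h1
  simp only [AlgHom.comp_apply] at h3
  rw [h2, map_zero, Ideal.Quotient.mkₐ_eq_mk, Ideal.Quotient.eq_zero_iff_mem,
    Ideal.mem_span_singleton] at h3
  exact h3

theorem div_ell {f : RR} {s : ℤ} (hf : f ∈ Hd s) {p : Fin 2 → ℂ} (hp : p ≠ 0)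
    (h0 : eval p f = 0) : ∃ g ∈ Hd (s - 1), f = ell p * g := by
  by_cases hf0 : f = 0
  · exact ⟨0, Submodule.zero_mem _, by rw [hf0, mul_zero]⟩
  obtain ⟨g, hg⟩ := dvd_of_eval hf.1 hp h0
  have hs : 0 ≤ s := by
    by_contra h
    push Not at h
    exact hf0 (hf.2 h)
  have h1 := hf.1
  rw [hg] at h1 hf0
  obtain ⟨a, b, hab, ha, hb⟩ := hom_of_mul h1 hf0
  have ha1 : a = 1 := ha.inj_right (ell_hom p) (ell_ne hp)
  refine ⟨g, ⟨?_, fun h => ?_⟩, hg⟩
  · have : (s - 1).toNat = b := by omega
    rw [this]; exact hb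
  · omega

theorem exists_zero {q : RR} {m : ℕ} (hq : q.IsHomogeneous m) (hm : 1 ≤ m) :
    ∃ p : Fin 2 → ℂ, p ≠ 0 ∧ eval p q = 0 := by
  have hev : ∀ (w : Fin 2 → Polynomial ℂ) (x : ℂ),
      Polynomial.eval x (aeval w q) = eval (fun i => Polynomial.eval x (w i)) q := by
    intro w x
    have h1 : (Polynomial.aeval x).comp (aeval w) =
        (aeval (fun i => Polynomial.eval x (w i)) : RR →ₐ[ℂ] ℂ) := by
      apply MvPolynomial.algHom_ext
      intro i
      simp [AlgHom.comp_apply]
    have h2 := congrArg (fun φ => φ q) h1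
    simp only [AlgHom.comp_apply, Polynomial.coe_aeval_eq_eval, aeval_eq_eval] at h2
    exact h2
  by_cases hdeg : (aeval ![(1 : Polynomial ℂ), Polynomial.X] q).degree = 0
  swap
  · obtain ⟨x, hx⟩ := IsAlgClosed.exists_root _ hdeg
    refine ⟨![1, x], ?_, ?_⟩
    · intro h
      have := congrFun h 0
      simp at this
    · have h1 := hev ![(1 : Polynomial ℂ), Polynomial.X] x
      rw [hx] at h1
      rw [h1]
      congr 2
      funext i
      fin_cases i <;> simp
  · set c := (aeval ![(1 : Polynomial ℂ), Polynomial.X] q).coeff 0 with hc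
    have hF : aeval ![(1 : Polynomial ℂ), Polynomial.X] q = Polynomial.C c :=
      Polynomial.eq_C_of_degree_eq_zero hdeg
    have h1 : ∀ t : ℂ, eval ![1, t] q = c := by
      intro t
      have h2 := hev ![(1 : Polynomial ℂ), Polynomial.X] t
      rw [hF, Polynomial.eval_C] at h2
      rw [h2]
      congr 2
      funext i
      fin_cases i <;> simp
    set H := aeval ![Polynomial.X, (1 : Polynomial ℂ)] q with hH
    have h3 : ∀ s : ℂ, s ≠ 0 → Polynomial.eval s H = c * s ^ m := by
      intro s hs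
      rw [hH, hev, ← h1 s⁻¹, ← eval_hmul hq]
      congr 2
      funext i
      fin_cases i <;> simp [hs]
    have h4 : Polynomial.X * (H - Polynomial.C c * Polynomial.X ^ m) = 0 := by
      apply Polynomial.funext
      intro s
      by_cases hs : s = 0
      · simp [hs]
      · simp [h3 s hs]
    have h5 : H = Polynomial.C c * Polynomial.X ^ m :=
      sub_eq_zero.1 ((mul_eq_zero.1 h4).resolve_left Polynomial.X_ne_zero)
    refine ⟨![0, 1], ?_, ?_⟩
    · intro h
      have := congrFun h 1
      simp at this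
    · have h6 := hev ![Polynomial.X, (1 : Polynomial ℂ)] 0
      rw [← hH, h5] at h6
      have h7 : Polynomial.eval 0 (Polynomial.C c * Polynomial.X ^ m) = 0 := by
        simp; right; omega
      rw [h7] at h6
      refine Eq.trans ?_ h6.symm
      congr 2
      funext i
      fin_cases i <;> simp

theorem exists_nonzero {q : RR} (hq : q ≠ 0) : ∃ p : Fin 2 → ℂ, p ≠ 0 ∧ eval p q ≠ 0 := by
  by_contra h
  push Not at h
  have h1 : (X 0 * q : RR) = 0 := by
    apply MvPolynomial.funext
    intro p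
    by_cases hp : p = 0
    · simp [hp]
    · simp [h p hp]
  exact hq ((mul_eq_zero.1 h1).resolve_left (X_ne_zero 0))

theorem hd0 {p : RR} (h : p ∈ Hd 0) : ∃ c : ℂ, p = C c := by
  have h1 : p.IsHomogeneous 0 := h.1
  refine ⟨coeff 0 p, ?_⟩
  have h2 := (totalDegree_zero_iff_isHomogeneous _).mpr h1
  exact totalDegree_eq_zero_iff_eq_C.mp h2

/-- the homogeneous component of integer degree `t` -/
noncomputable def hc (t : ℤ) : RR →ₗ[ℂ] RR := if t < 0 then 0 else homogeneousComponent t.toNat

theorem hc_neg {t : ℤ} (ht : t < 0) (f : RR) : hc t f = 0 := by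
  unfold hc; rw [if_pos ht]; rfl

theorem hc_nonneg {t : ℤ} (ht : 0 ≤ t) (f : RR) : hc t f = homogeneousComponent t.toNat f := by
  unfold hc; rw [if_neg (not_lt.2 ht)]

theorem hc_mem (t : ℤ) (f : RR) : hc t f ∈ Hd t := by
  by_cases ht : t < 0
  · rw [hc_neg ht]; exact Submodule.zero_mem _
  · push Not at ht
    rw [hc_nonneg ht]
    exact ⟨homogeneousComponent_isHomogeneous _ _, fun h => absurd h (not_lt.2 ht)⟩

theorem Phi_hom {a : RR} {s : ℕ} (ha : a.IsHomogeneous s) :
    Phi a = Polynomial.C a * Polynomial.X ^ s := by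
  refine Polynomial.ext (fun k => ?_)
  rw [Phi_coeff, Polynomial.coeff_C_mul_X_pow]
  exact homogeneousComponent_of_mem ha

theorem hc_mul {a : RR} {s : ℤ} (ha : a ∈ Hd s) (t : ℤ) (f : RR) :
    hc (t + s) (f * a) = hc t f * a := by
  by_cases ha0 : a = 0
  · rw [ha0, mul_zero, map_zero, mul_zero]
  have hs : 0 ≤ s := by
    by_contra h
    push Not at h
    exact ha0 (ha.2 h)
  by_cases hts : t + s < 0
  · rw [hc_neg hts, hc_neg (by omega), zero_mul]
  push Not at hts
  rw [hc_nonneg hts, ← Phi_coeff, map_mul, Phi_hom ha.1, ← mul_assoc,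
    Polynomial.coeff_mul_X_pow']
  by_cases ht : t < 0
  · rw [hc_neg ht, zero_mul, if_neg (by omega)]
  · push Not at ht
    rw [if_pos (by omega), Polynomial.coeff_mul_C, Phi_coeff, hc_nonneg ht]
    congr 3
    omega

theorem hc_self {f : RR} {t : ℤ} (hf : f ∈ Hd t) : hc t f = f := by
  by_cases ht : t < 0
  · rw [hc_neg ht, hf.2 ht]
  · push Not at ht
    rw [hc_nonneg ht]
    exact homogeneousComponent_eq_self hf.1

theorem exists_hc {q : RR} (hq : q ≠ 0) : ∃ m : ℕ, hc m q ≠ 0 := by
  by_contra h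
  push Not at h
  apply hq
  rw [← sum_homogeneousComponent (φ := q)]
  apply Finset.sum_eq_zero
  intro i _
  have := h i
  rw [hc_nonneg (Int.natCast_nonneg i)] at this
  simpa using this

end Pool.Agent.L7h86.Coh
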