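import Mathlib
import Pool.Agent.L7h86.Br1

/-!
# Subsheaves generated by sections
-/

set_option autoImplicit false

namespace Pool.Agent.L7h86.Coh

open MvPolynomial

/-- evaluation of vectors of forms -/
noncomputable def evp {n : ℕ} (p : Fin 2 → ℂ) : (Fin n → RR) →ₗ[ℂ] (Fin n → ℂ) where
  toFun v := fun i => eval p (v i)
  map_add' u v := by funext i; simp
  map_smul' c u := by funext i; simp [smul_eval]

theorem evp_apply {n : ℕ} (p : Fin 2 → ℂ) (v : Fin n → RR) (i : Fin n) :
    evp p v i = eval p (v i) := rfl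

def Good {n r : ℕ} (g : Fin r → Fin n → RR) : Prop :=
  ∀ p : Fin 2 → ℂ, p ≠ 0 → LinearIndependent ℂ (fun j => evp p (g j))

theorem claimB_hom {n r : ℕ} {g : Fin r → Fin n → RR} (hgood : Good g) (b : Fin r → ℤ) (s : ℤ)
    (v : Fin n → RR) (m : ℕ) : ∀ (q : RR) (u : Fin r → RR), q ∈ Hd m → q ≠ 0 →
    (∀ j, u j ∈ Hd (m + b j - s)) → (∀ i, q * v i = ∑ j, u j * g j i) →
    ∃ u' : Fin r → RR, (∀ j, u' j ∈ Hd (b j - s)) ∧ ∀ i, v i = ∑ j, u' j * g j i := by
  induction m with
  | zero =>
    intro q u hq hq0 hu h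
    obtain ⟨c, rfl⟩ := hd0 hq
    have hc : c ≠ 0 := by
      rintro rfl
      exact hq0 C_0
    refine ⟨fun j => c⁻¹ • u j, fun j => ?_, fun i => ?_⟩
    · have := hu j
      rw [Nat.cast_zero, zero_add] at this
      exact Submodule.smul_mem _ _ this
    · have h1 := congrArg (fun t => c⁻¹ • t) (h i)
      simp only [Finset.smul_sum] at h1
      rw [← smul_eq_C_mul, smul_smul, inv_mul_cancel₀ hc, one_smul] at h1
      rw [h1]
      apply Finset.sum_congr rfl
      intro j _
      rw [smul_mul_assoc]
  | succ m ih =>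
    intro q u hq hq0 hu h
    have hqh : q.IsHomogeneous (m + 1) := by
      have := hq.1
      simpa using this
    obtain ⟨p, hp, hpq⟩ := exists_zero hqh (by omega)
    have h1 : ∀ j, eval p (u j) = 0 := by
      have h2 := hgood p hp
      rw [Fintype.linearIndependent_iff] at h2
      apply h2 (fun j => eval p (u j))
      funext i
      have h3 := congrArg (eval p) (h i)
      rw [map_mul, hpq, zero_mul, map_sum] at h3
      simp only [map_mul] at h3
      simp only [Finset.sum_apply, Pi.smul_apply, evp_apply, smul_eq_mul, Pi.zero_apply]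
      exact h3.symm
    obtain ⟨q', hq', rfl⟩ := div_ell hq hp hpq
    choose u' hu' hu'' using fun j => div_ell (hu j) hp (h1 j)
    have hq'0 : q' ≠ 0 := right_ne_zero_of_mul hq0
    refine ih q' u' ?_ hq'0 (fun j => ?_) (fun i => ?_)
    · have e1 : ((m + 1 : ℕ) : ℤ) - 1 = m := by push_cast; ring
      rw [e1] at hq'
      exact hq'
    · have e1 : ((m + 1 : ℕ) : ℤ) + b j - s - 1 = m + b j - s := by push_cast; ring
      have := hu' j
      rw [e1] at this
      exact this
    · apply mul_left_cancel₀ (ell_ne hp)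
      rw [← mul_assoc, h i, Finset.mul_sum]
      apply Finset.sum_congr rfl
      intro j _
      rw [hu'' j, mul_assoc]

theorem claimB {n r : ℕ} {e : Fin n → ℤ} {b : Fin r → ℤ} {g : Fin r → Fin n → RR}
    (hgood : Good g) (hg : ∀ j, g j ∈ HE (fun i => e i - b j)) {s : ℤ} {v : Fin n → RR}
    (hv : v ∈ HE (fun i => e i - s)) {q : RR} (hq : q ≠ 0) {u : Fin r → RR}
    (h : ∀ i, q * v i = ∑ j, u j * g j i) :
    ∃ u' : Fin r → RR, (∀ j, u' j ∈ Hd (b j - s)) ∧ ∀ i, v i = ∑ j, u' j * g j i := by
  obtain ⟨m, hm⟩ := exists_hc hq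
  refine claimB_hom hgood b s v m (hc m q) (fun j => hc (m + b j - s) (u j)) (hc_mem _ _) hm
    (fun j => hc_mem _ _) (fun i => ?_)
  have h1 := congrArg (hc (m + (e i - s))) (h i)
  rw [hc_mul (hv i), map_sum] at h1
  rw [h1]
  apply Finset.sum_congr rfl
  intro j _
  have h2 : (m : ℤ) + (e i - s) = (m + b j - s) + (e i - b j) := by ring
  rw [h2, hc_mul (hg j i)]

abbrev KK := FractionRing RR

noncomputable def io {n : ℕ} : (Fin n → RR) →ₗ[RR] (Fin n → KK) :=
  (Algebra.linearMap RR KK).compLeft (Fin n)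

theorem io_apply {n : ℕ} (v : Fin n → RR) (i : Fin n) : io v i = algebraMap RR KK (v i) := rfl

theorem io_inj {n : ℕ} : Function.Injective (io : (Fin n → RR) →ₗ[RR] (Fin n → KK)) := by
  intro v w h
  funext i
  exact IsFractionRing.injective RR KK (congrFun h i)

theorem io_smul {n : ℕ} (a : RR) (v : Fin n → RR) : io (a • v) = (algebraMap RR KK a) • io v := by
  rw [map_smul, algebraMap_smul]

theorem exists_rel {n r : ℕ} {g : Fin r → Fin n → RR} {v : Fin n → RR}
    (h : io v ∈ Submodule.span KK (Set.range (fun j => io (g j)))) :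
    ∃ q : RR, q ≠ 0 ∧ ∃ u : Fin r → RR, ∀ i, q * v i = ∑ j, u j * g j i := by
  rw [Submodule.mem_span_range_iff_exists_fun] at h
  obtain ⟨c, hc⟩ := h
  obtain ⟨q, hq⟩ := IsLocalization.exist_integer_multiples_of_finite (nonZeroDivisors RR) c
  choose u hu using hq
  refine ⟨q, nonZeroDivisors.ne_zero q.2, u, fun i => ?_⟩
  apply IsFractionRing.injective RR KK
  have h1 := congrFun hc i
  simp only [Finset.sum_apply, Pi.smul_apply, io_apply, smul_eq_mul] at h1
  rw [map_mul, map_sum, ← h1, Finset.mul_sum]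
  apply Finset.sum_congr rfl
  intro j _
  rw [map_mul, hu j, Algebra.smul_def, mul_assoc]

def Fam {n r : ℕ} (e : Fin n → ℤ) (W : Submodule KK (Fin n → KK)) (b : Fin r → ℕ)
    (g : Fin r → Fin n → RR) : Prop :=
  (∀ j, g j ∈ HE (fun i => e i - b j)) ∧
    Submodule.span KK (Set.range (fun j => io (g j))) = W

theorem Fam.li {n r : ℕ} {e : Fin n → ℤ} {W : Submodule KK (Fin n → KK)} {b : Fin r → ℕ}
    {g : Fin r → Fin n → RR} (h : Fam e W b g) (hr : Module.finrank KK W = r) :
    LinearIndependent KK (fun j => io (g j)) := by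
  rw [linearIndependent_iff_card_eq_finrank_span, Set.finrank, h.2, Fintype.card_fin, hr]

theorem Fam.bound {n r : ℕ} {e : Fin n → ℤ} {W : Submodule KK (Fin n → KK)} {b : Fin r → ℕ}
    {g : Fin r → Fin n → RR} (h : Fam e W b g) (hr : Module.finrank KK W = r) :
    ∑ j, b j ≤ r * ∑ i, (e i).natAbs := by
  have h1 : ∀ j, b j ≤ ∑ i, (e i).natAbs := by
    intro j
    have h2 := (h.li hr).ne_zero j
    have h3 : g j ≠ 0 := by
      intro h4
      apply h2
      rw [h4, map_zero]
    have h4 : ∃ i, g j i ≠ 0 := by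
      by_contra hcon
      push Not at hcon
      exact h3 (funext hcon)
    obtain ⟨i, hi⟩ := h4
    have h5 : 0 ≤ e i - b j := by
      by_contra hcon
      push Not at hcon
      exact hi ((h.1 j i).2 hcon)
    have h6 : (e i).natAbs ≤ ∑ i, (e i).natAbs :=
      Finset.single_le_sum (f := fun i => (e i).natAbs) (fun _ _ => Nat.zero_le _)
        (Finset.mem_univ i)
    omega
  calc ∑ j, b j ≤ ∑ _j : Fin r, ∑ i, (e i).natAbs := Finset.sum_le_sum (fun j _ => h1 j)
    _ = r * ∑ i, (e i).natAbs := by simp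

theorem Hd_pow {m : RR} (hm : m ∈ Hd 1) (t : ℕ) : m ^ t ∈ Hd t := by
  refine ⟨?_, fun h => absurd h (by omega)⟩
  have h1 : m.IsHomogeneous 1 := hm.1
  have := h1.pow t
  simpa using this

theorem Fam.step {n r : ℕ} {e : Fin n → ℤ} {W : Submodule KK (Fin n → KK)} {b : Fin r → ℕ}
    {g : Fin r → Fin n → RR} (h : Fam e W b g) (hng : ¬ Good g) :
    ∃ (b' : Fin r → ℕ) (g' : Fin r → Fin n → RR), Fam e W b' g' ∧
      ∑ j, b' j = ∑ j, b j + 1 := by
  classical
  unfold Good at hng
  push Not at hng
  obtain ⟨p, hp, hli⟩ := hng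
  rw [Fintype.not_linearIndependent_iff] at hli
  obtain ⟨c, hcs, j1, hj1⟩ := hli
  obtain ⟨j0, hj0, hmin⟩ := Finset.exists_min_image (Finset.univ.filter (fun j => c j ≠ 0)) b
    ⟨j1, by simp [hj1]⟩
  simp only [Finset.mem_filter, Finset.mem_univ, true_and] at hj0 hmin
  obtain ⟨t, ht⟩ := exists_coord hp
  set m : RR := C (p t)⁻¹ * X t with hm
  have hm1 : m ∈ Hd 1 := ⟨isHomogeneous_C_mul_X _ _, fun h => absurd h (by norm_num)⟩
  have hm2 : eval p m = 1 := by
    rw [hm, map_mul, eval_C, eval_X, inv_mul_cancel₀ ht]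
  let w : Fin r → RR := fun j => C (c j) * m ^ (b j - b j0)
  have hw : ∀ j i, w j * g j i ∈ Hd (e i - b j0) := by
    intro j i
    by_cases hcj : c j = 0
    · simp only [w, hcj, C_0, zero_mul]
      exact Submodule.zero_mem _
    · have h1 := hmin j hcj
      have h2 : w j ∈ Hd ((b j - b j0 : ℕ) : ℤ) := by
        simp only [w]
        rw [← smul_eq_C_mul]
        exact Submodule.smul_mem _ _ (Hd_pow hm1 _)
      have h3 := Hd_mul h2 (h.1 j i)
      have h4 : ((b j - b j0 : ℕ) : ℤ) + (e i - b j) = e i - b j0 := by omega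
      rw [h4] at h3
      exact h3
  have hev : ∀ i, eval p (∑ j, w j * g j i) = 0 := by
    intro i
    have h1 := congrFun hcs i
    simp only [Finset.sum_apply, Pi.smul_apply, evp_apply, smul_eq_mul, Pi.zero_apply] at h1
    rw [map_sum, ← h1]
    apply Finset.sum_congr rfl
    intro j _
    simp only [w, map_mul, map_pow, hm2, one_pow, eval_C, mul_one]
  have hdiv : ∀ i, ∃ y ∈ Hd (e i - b j0 - 1), ∑ j, w j * g j i = ell p * y := fun i =>
    div_ell (Submodule.sum_mem _ (fun j _ => hw j i)) hp (hev i)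
  choose y hy hy' using hdiv
  have hkey : (algebraMap RR KK (ell p)) • io y =
      ∑ j, (algebraMap RR KK (w j)) • io (g j) := by
    funext i
    simp only [Finset.sum_apply, Pi.smul_apply, io_apply, smul_eq_mul]
    rw [← map_mul, ← hy' i, map_sum]
    apply Finset.sum_congr rfl
    intro j _
    rw [map_mul]
  have hl0 : (algebraMap RR KK (ell p)) ≠ 0 := by
    intro h0
    exact ell_ne hp (IsFractionRing.injective RR KK (by rw [h0, map_zero]))
  have hw0 : (algebraMap RR KK (w j0)) ≠ 0 := by
    intro h0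
    have h1 : w j0 = 0 := IsFractionRing.injective RR KK (by rw [h0, map_zero])
    simp only [w, Nat.sub_self, pow_zero, mul_one] at h1
    exact hj0 ((C_eq_zero).1 h1)
  have hgW : ∀ j, io (g j) ∈ W := by
    intro j
    rw [← h.2]
    exact Submodule.subset_span ⟨j, rfl⟩
  refine ⟨Function.update b j0 (b j0 + 1), Function.update g j0 y, ⟨?_, ?_⟩, ?_⟩
  · intro j
    by_cases hj : j = j0
    · subst hj
      rw [Function.update_self, Function.update_self]
      intro i
      have := hy i
      have h4 : e i - ((b j + 1 : ℕ) : ℤ) = e i - b j - 1 := by push_cast; ring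
      change y i ∈ Hd (e i - ((b j + 1 : ℕ) : ℤ))
      rw [h4]
      exact this
    · rw [Function.update_of_ne hj, Function.update_of_ne hj]
      exact h.1 j
  · apply le_antisymm
    · rw [Submodule.span_le]
      rintro _ ⟨j, rfl⟩
      by_cases hj : j = j0
      · subst hj
        change io (Function.update g j y j) ∈ W
        rw [Function.update_self]
        have h1 : io y = (algebraMap RR KK (ell p))⁻¹ •
            ∑ j, (algebraMap RR KK (w j)) • io (g j) := by
          rw [← hkey, smul_smul, inv_mul_cancel₀ hl0, one_smul]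
        rw [h1]
        exact Submodule.smul_mem _ _ (Submodule.sum_mem _ (fun j _ =>
          Submodule.smul_mem _ _ (hgW j)))
      · change io (Function.update g j0 y j) ∈ W
        rw [Function.update_of_ne hj]
        exact hgW j
    · rw [← h.2, Submodule.span_le]
      have hne : ∀ j, j ≠ j0 → io (g j) ∈
          Submodule.span KK (Set.range (fun j => io (Function.update g j0 y j))) := by
        intro j hj
        apply Submodule.subset_span
        refine ⟨j, ?_⟩
        change io (Function.update g j0 y j) = io (g j)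
        rw [Function.update_of_ne hj]
      rintro _ ⟨j, rfl⟩
      by_cases hj : j = j0
      · subst hj
        have h1 : io (g j) = (algebraMap RR KK (w j))⁻¹ •
            ((algebraMap RR KK (ell p)) • io y -
              ∑ i ∈ Finset.univ.erase j, (algebraMap RR KK (w i)) • io (g i)) := by
          rw [hkey, ← Finset.add_sum_erase Finset.univ _ (Finset.mem_univ j), add_sub_cancel_right,
            smul_smul, inv_mul_cancel₀ hw0, one_smul]
        change io (g j) ∈ _
        rw [h1]
        apply Submodule.smul_mem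
        apply Submodule.sub_mem
        · apply Submodule.smul_mem
          apply Submodule.subset_span
          refine ⟨j, ?_⟩
          change io (Function.update g j y j) = io y
          rw [Function.update_self]
        · apply Submodule.sum_mem
          intro i hi
          exact Submodule.smul_mem _ _ (hne i (Finset.ne_of_mem_erase hi))
      · exact hne j hj
  · rw [Finset.sum_update_of_mem (Finset.mem_univ _),
      ← Finset.add_sum_erase Finset.univ b (Finset.mem_univ j0), Finset.sdiff_singleton_eq_erase]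
    ring

theorem exists_good {n r : ℕ} {e : Fin n → ℤ} {W : Submodule KK (Fin n → KK)} {b : Fin r → ℕ}
    {g : Fin r → Fin n → RR} (h : Fam e W b g) (hr : Module.finrank KK W = r) :
    ∃ (b' : Fin r → ℕ) (g' : Fin r → Fin n → RR), Fam e W b' g' ∧ Good g' := by
  by_contra hcon
  push Not at hcon
  have key : ∀ N : ℕ, ∃ (b' : Fin r → ℕ) (g' : Fin r → Fin n → RR), Fam e W b' g' ∧
      N ≤ ∑ j, b' j := by
    intro N
    induction N with
    | zero => exact ⟨b, g, h, Nat.zero_le _⟩
    | succ N ih =>
      obtain ⟨b', g', h1, h2⟩ := ih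
      obtain ⟨b'', g'', h3, h4⟩ := h1.step (hcon b' g' h1)
      exact ⟨b'', g'', h3, by omega⟩
  obtain ⟨b', g', h1, h2⟩ := key (r * ∑ i, (e i).natAbs + 1)
  have := h1.bound hr
  omega

end Pool.Agent.L7h86.Coh
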