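import Mathlib
import Pool.Agent.L7h86.Br2

/-!
# The subsheaf generated by a space of sections
-/

set_option autoImplicit false

namespace Pool.Agent.L7h86.Coh

open MvPolynomial

theorem mulMap_apply {n m : ℕ} (M : Fin n → Fin m → RR) (u : Fin m → RR) (i : Fin n) :
    mulMap M u i = ∑ j, M i j * u j := rfl

theorem core {n : ℕ} {e : Fin n → ℤ} (UA UB : Submodule ℂ (Fin n → RR))
    (hA : UA ≤ HE (fun i => e i - 1)) (hB : UB ≤ HE e)
    (hAB : ∀ t : Fin 2, ∀ s ∈ UA, (X t : RR) • s ∈ UB) (hne : ∃ x ∈ UB, x ≠ 0) :
    ∃ (r : ℕ) (b : Fin r → ℕ) (g : Fin r → Fin n → RR), 1 ≤ r ∧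
      (∀ j, g j ∈ HE (fun i => e i - b j)) ∧ LinearIndependent RR g ∧
      UB ≤ (HE (fun j => (b j : ℤ))).map (mulMap (fun i j => g j i)) ∧
      Module.finrank ℂ UA ≤ ∑ j, b j ∧ r + Module.finrank ℂ UA ≤ Module.finrank ℂ UB := by
  classical
  have finB : FiniteDimensional ℂ UB := Submodule.finiteDimensional_of_le hB
  have finA : FiniteDimensional ℂ UA := Submodule.finiteDimensional_of_le hA
  set W : Submodule KK (Fin n → KK) := Submodule.span KK (io '' (UB : Set (Fin n → RR))) with hW
  obtain ⟨r, f, hr, hf1, hf2, hf3⟩ : ∃ (r : ℕ) (f : Fin r → Fin n → KK),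
      Module.finrank KK W = r ∧ (∀ i, f i ∈ io '' (UB : Set (Fin n → RR))) ∧
      Submodule.span KK (Set.range f) = W ∧ LinearIndependent KK f := by
    obtain ⟨f, hf1, hf2, hf3⟩ := Submodule.exists_fun_fin_finrank_span_eq KK
      (io '' (UB : Set (Fin n → RR)))
    exact ⟨_, f, rfl, hf1, hf2, hf3⟩
  choose v hv1 hv2 using hf1
  have hfv : f = fun k => io (v k) := funext (fun k => (hv2 k).symm)
  have hfam : Fam e W (fun _ : Fin r => 0) v := by
    refine ⟨fun j => ?_, ?_⟩
    · have := hB (hv1 j)
      simpa using this
    · rw [← hfv]; exact hf2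
  obtain ⟨b, g, hg, hgood⟩ := exists_good hfam hr
  have hli := hg.li hr
  have hBW : ∀ x ∈ UB, io x ∈ W := fun x hx => Submodule.subset_span ⟨x, hx, rfl⟩
  have hX : ∀ t : Fin 2, (algebraMap RR KK (X t)) ≠ 0 := by
    intro t h0
    exact X_ne_zero (R := ℂ) t (IsFractionRing.injective RR KK (by rw [h0, map_zero]))
  have hAW : ∀ s ∈ UA, io s ∈ W := by
    intro s hs
    have h1 := hBW _ (hAB 0 s hs)
    rw [io_smul] at h1
    have h2 := Submodule.smul_mem W (algebraMap RR KK (X 0))⁻¹ h1
    rwa [smul_smul, inv_mul_cancel₀ (hX 0), one_smul] at h2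
  have hgen : ∀ x ∈ UB, ∃ u : Fin r → RR, (∀ j, u j ∈ Hd (b j)) ∧
      ∀ i, x i = ∑ j, u j * g j i := by
    intro x hx
    have h1 := hBW x hx
    rw [← hg.2] at h1
    obtain ⟨q, hq, u, hu⟩ := exists_rel h1
    obtain ⟨u', h2, h3⟩ := claimB (e := e) (b := fun j => (b j : ℤ)) (s := 0) hgood hg.1
      (by have := hB hx; simpa using this) hq hu
    exact ⟨u', fun j => by have := h2 j; rwa [sub_zero] at this, h3⟩
  have hgenA : ∀ x ∈ UA, ∃ u : Fin r → RR, (∀ j, u j ∈ Hd (b j - 1)) ∧
      ∀ i, x i = ∑ j, u j * g j i := by
    intro x hx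
    have h1 := hAW x hx
    rw [← hg.2] at h1
    obtain ⟨q, hq, u, hu⟩ := exists_rel h1
    exact claimB (e := e) (b := fun j => (b j : ℤ)) (s := 1) hgood hg.1 (hA hx) hq hu
  have hliR : LinearIndependent RR g := by
    have h1 : LinearIndependent RR (fun j => io (g j)) :=
      (LinearIndependent.iff_fractionRing RR KK).2 hli
    exact LinearIndependent.of_comp io h1
  have hvliR : LinearIndependent RR v := by
    have h1 : LinearIndependent RR (fun j => io (v j)) := by
      rw [← hfv]
      exact (LinearIndependent.iff_fractionRing RR KK).2 hf3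
    exact LinearIndependent.of_comp io h1
  refine ⟨r, b, g, ?_, hg.1, hliR, ?_, ?_, ?_⟩
  · obtain ⟨x, hx, hx0⟩ := hne
    rw [Nat.one_le_iff_ne_zero]
    intro h0
    rw [← hr, Submodule.finrank_eq_zero] at h0
    have h1 := hBW x hx
    rw [h0, Submodule.mem_bot] at h1
    exact hx0 (io_inj (by rw [h1, map_zero]))
  · intro x hx
    obtain ⟨u, hu, hu'⟩ := hgen x hx
    refine ⟨u, hu, ?_⟩
    funext i
    rw [mulMap_apply, hu' i]
    exact Finset.sum_congr rfl (fun j _ => mul_comm _ _)
  · have h1 : UA ≤ (HE (fun j => (b j : ℤ) - 1)).map (mulMap (fun i j => g j i)) := by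
      intro x hx
      obtain ⟨u, hu, hu'⟩ := hgenA x hx
      refine ⟨u, hu, ?_⟩
      funext i
      rw [mulMap_apply, hu' i]
      exact Finset.sum_congr rfl (fun j _ => mul_comm _ _)
    have h2 := Submodule.finrank_mono h1
    have h3 := Submodule.finrank_map_le (mulMap (fun i j => g j i)) (HE (fun j => (b j : ℤ) - 1))
    rw [finrank_HE] at h3
    have h4 : ∑ j : Fin r, ((b j : ℤ) - 1 + 1).toNat = ∑ j, b j := by
      apply Finset.sum_congr rfl
      intro j _
      simp
    omega
  · -- evaluation at a generic point
    choose u hu hu' using fun k => hgen (v k) (hv1 k)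
    let U : Matrix (Fin r) (Fin r) RR := Matrix.of (fun j k => u k j)
    have hdet : U.det ≠ 0 := by
      intro h0
      rw [← Matrix.exists_mulVec_eq_zero_iff] at h0
      obtain ⟨w, hw0, hw⟩ := h0
      apply hw0
      rw [Fintype.linearIndependent_iff] at hvliR
      funext k
      apply hvliR w _ k
      funext i
      simp only [Finset.sum_apply, Pi.smul_apply, smul_eq_mul, Pi.zero_apply]
      calc ∑ k, w k * v k i = ∑ k, w k * ∑ j, u k j * g j i := by
            apply Finset.sum_congr rfl
            intro k _
            rw [hu' k i]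
        _ = ∑ j, (∑ k, u k j * w k) * g j i := by
            simp only [Finset.mul_sum, Finset.sum_mul]
            rw [Finset.sum_comm]
            apply Finset.sum_congr rfl
            intro j _
            apply Finset.sum_congr rfl
            intro k _
            ring
        _ = 0 := by
            apply Finset.sum_eq_zero
            intro j _
            have h1 := congrFun hw j
            simp only [Matrix.mulVec, dotProduct, U, Matrix.of_apply, Pi.zero_apply] at h1
            rw [h1, zero_mul]
    obtain ⟨p, hp, hpd⟩ := exists_nonzero hdet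
    have hvp : LinearIndependent ℂ (fun k => evp p (v k)) := by
      rw [Fintype.linearIndependent_iff]
      intro c hc
      have h1 : ∀ j, ∑ k, eval p (u k j) * c k = 0 := by
        have h2 := hgood p hp
        rw [Fintype.linearIndependent_iff] at h2
        apply h2
        funext i
        have h3 := congrFun hc i
        simp only [Finset.sum_apply, Pi.smul_apply, evp_apply, smul_eq_mul,
          Pi.zero_apply] at h3 ⊢
        rw [← h3]
        calc ∑ j, (∑ k, eval p (u k j) * c k) * eval p (g j i)
            = ∑ k, c k * ∑ j, eval p (u k j) * eval p (g j i) := by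
              simp only [Finset.mul_sum, Finset.sum_mul]
              rw [Finset.sum_comm]
              apply Finset.sum_congr rfl
              intro k _
              apply Finset.sum_congr rfl
              intro j _
              ring
          _ = ∑ k, c k * eval p (v k i) := by
              apply Finset.sum_congr rfl
              intro k _
              rw [hu' k i, map_sum]
              simp only [map_mul]
      have h4 : ((eval p : RR →+* ℂ).mapMatrix U).det ≠ 0 := by
        rw [← RingHom.map_det]
        exact hpd
      have h5 := Matrix.eq_zero_of_mulVec_eq_zero h4 (v := c) (by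
        funext j
        have := h1 j
        simpa [Matrix.mulVec, dotProduct, U] using this)
      intro k
      rw [h5]; rfl
    -- the linear map `evp p` on `UB`
    let L : UB →ₗ[ℂ] (Fin n → ℂ) := (evp p) ∘ₗ UB.subtype
    have h6 := LinearMap.finrank_range_add_finrank_ker L
    have h7 : r ≤ Module.finrank ℂ (LinearMap.range L) := by
      have h8 : LinearIndependent ℂ (fun k => (⟨evp p (v k), ⟨⟨v k, hv1 k⟩, rfl⟩⟩ :
          LinearMap.range L)) := by
        apply LinearIndependent.of_comp (LinearMap.range L).subtype
        exact hvp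
      have := h8.fintype_card_le_finrank
      simpa using this
    have h9 : Module.finrank ℂ UA ≤ Module.finrank ℂ (LinearMap.ker L) := by
      have hmem : ∀ s ∈ UA, (ell p) • s ∈ UB := by
        intro s hs
        have e1 : (ell p) • s = (p 1) • ((X 0 : RR) • s) - (p 0) • ((X 1 : RR) • s) := by
          funext i
          simp only [Pi.smul_apply, Pi.sub_apply, smul_eq_mul, smul_eq_C_mul, ell]
          ring
        rw [e1]
        exact Submodule.sub_mem _ (Submodule.smul_mem _ _ (hAB 0 s hs))
          (Submodule.smul_mem _ _ (hAB 1 s hs))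
      let Φ : UA →ₗ[ℂ] LinearMap.ker L :=
        { toFun := fun s => ⟨⟨(ell p) • s.1, hmem s.1 s.2⟩, by
            rw [LinearMap.mem_ker]
            funext i
            change eval p (ell p * s.1 i) = 0
            rw [map_mul, eval_ell]; ring⟩
          map_add' := fun s t => by
            apply Subtype.ext
            apply Subtype.ext
            exact smul_add _ _ _
          map_smul' := fun c s => by
            apply Subtype.ext
            apply Subtype.ext
            exact smul_comm _ _ _ }
      apply LinearMap.finrank_le_finrank_of_injective (f := Φ)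
      intro s t hst
      apply Subtype.ext
      have h10 : (ell p) • s.1 = (ell p) • t.1 := congrArg (fun z => z.1.1) hst
      funext i
      exact mul_left_cancel₀ (ell_ne hp) (congrFun h10 i)
    omega

end Pool.Agent.L7h86.Coh
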