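import Mathlib

/-!
# Types of coherent systems on the projective line: numerical definitions
-/

set_option autoImplicit false

namespace Pool.Agent.L7h86

/-- The Euler form of two types `(n₁, d₁, k₁)`, `(n₂, d₂, k₂)` of coherent systems on the
projective line: the alternating sum of the dimensions of the groups `Extⁱ`. -/
def euler (n₁ d₁ k₁ n₂ d₂ k₂ : ℤ) : ℤ :=
  k₁ * k₂ + n₁ * d₂ - n₂ * d₁ + n₁ * n₂ - k₁ * (d₂ + n₂)

/-- The recursive numerical criterion. The type `(n, d, k)` is tested against the types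
`(n', d', k')` with `1 ≤ n' < n`, with `k' (n' + d' - k') = n'^2 - 1` (that is, with Brill-Noether
number `0`) which satisfy the criterion themselves. -/
def Adm (α : ℝ) (n : ℕ) (d k : ℤ) : Prop :=
  0 ≤ d ∧ 0 ≤ k ∧ k ≤ n + d ∧ (n : ℤ) ^ 2 - 1 ≤ k * (n + d - k) ∧
  (k * (n + d - k) = (n : ℤ) ^ 2 → Int.gcd (Int.gcd n d) k = 1) ∧
  ∀ (n' : ℕ) (_ : 1 ≤ n') (h : n' < n) (d' k' : ℤ), k' * (n' + d' - k') = (n' : ℤ) ^ 2 - 1 →
    Adm α n' d' k' →
    (((d : ℝ) + α * k) / n ≤ ((d' : ℝ) + α * k') / n' → euler n' d' k' n d k ≤ 0) ∧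
    (((d' : ℝ) + α * k') / n' ≤ ((d : ℝ) + α * k) / n → euler n d k n' d' k' ≤ 0)
termination_by n

end Pool.Agent.L7h86
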