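import Mathlib
import Pool.Agent.L7h86.AR

/-!
# The isotropic cases of the numerical lemma
-/

set_option autoImplicit false

namespace Pool.Agent.L7h86

theorem cl_eq (M : Rep) (i : Vx) : M.cl i = (Module.finrank ℂ (M.V i) : ℤ) := rfl

/-- In a generic representation of positive rank the subrepresentations have positive rank. -/
theorem n_sub {M : Rep} (hG : G M) (hn : 1 ≤ M.cl .B - M.cl .A) (hm : 0 ≤ M.cl .B - M.cl .C)
    {X : Rep} (hX : X.Nz) (hs : Sb X M) : 1 ≤ X.cl .B - X.cl .A := by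
  obtain ⟨a, ha⟩ := hs
  by_contra hcon
  push Not at hcon
  have h0A := X.cl_nonneg .A
  have h0B := X.cl_nonneg .B
  have h0C := X.cl_nonneg .C
  have hle := cl_le_of_inj a ha
  by_cases hz : X.cl .A = 0 ∧ X.cl .B = 0
  · obtain ⟨h1, h2⟩ := hz
    have hC : 0 < X.cl .C := by
      obtain ⟨i, hi⟩ := Rep.nz_iff_cl.1 hX
      cases i <;> omega
    have hs := a.ses_of_inj ha
    have h3 := chi_nonneg_of (hG.ses hs)
    have hc := hs.cl
    have hcB := congrFun hc .B
    have hcC := congrFun hc .C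
    simp only [Pi.add_apply] at hcB hcC
    simp only [chi, h1, h2] at h3
    have h4 : 0 ≤ X.cl .C * (a.ran.quo.cl .C - a.ran.quo.cl .B) := by linarith
    have h5 : a.ran.quo.cl .C - a.ran.quo.cl .B < 0 := by omega
    have h6 := mul_neg_of_pos_of_neg hC h5
    omega
  · let Y : SubR X := ⟨fun i => match i with
      | .A => ⊤
      | .B => ⊤
      | .C => ⊥, by
        intro e v hv
        cases e
        · exact Submodule.mem_top
        · exact Submodule.mem_top
        · exact Submodule.mem_top⟩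
    have hYA : Y.rep.cl .A = X.cl .A := by
      rw [cl_eq, cl_eq]
      congr 1
      exact finrank_top ℂ (X.V .A)
    have hYB : Y.rep.cl .B = X.cl .B := by
      rw [cl_eq, cl_eq]
      congr 1
      exact finrank_top ℂ (X.V .B)
    have hYC : Y.rep.cl .C = 0 := by
      rw [cl_eq]
      have : Module.finrank ℂ (Y.rep.V .C) = 0 := finrank_bot ℂ (X.V .C)
      rw [this]; rfl
    have hb : (a.comp Y.i).Inj := ha.comp Y.ses.inj
    have hs := (a.comp Y.i).ses_of_inj hb
    have h3 := chi_nonneg_of (hG.ses hs)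
    have hc := hs.cl
    have hcA := congrFun hc .A
    have hcB := congrFun hc .B
    simp only [Pi.add_apply] at hcA hcB
    have hw := (a.comp Y.i).ran.quo.cl_nonneg .B
    simp only [chi, hYA, hYB, hYC] at h3
    have e1 : X.cl .A * (a.comp Y.i).ran.quo.cl .A + X.cl .B * (a.comp Y.i).ran.quo.cl .B +
        0 * (a.comp Y.i).ran.quo.cl .C - 2 * (X.cl .A * (a.comp Y.i).ran.quo.cl .B) -
        0 * (a.comp Y.i).ran.quo.cl .B =
        - (X.cl .A * ((a.comp Y.i).ran.quo.cl .B - (a.comp Y.i).ran.quo.cl .A)) +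
        (X.cl .B - X.cl .A) * (a.comp Y.i).ran.quo.cl .B := by ring
    rw [e1] at h3
    have h4 : 1 ≤ (a.comp Y.i).ran.quo.cl .B - (a.comp Y.i).ran.quo.cl .A := by omega
    have h5 : (X.cl .B - X.cl .A) * (a.comp Y.i).ran.quo.cl .B ≤ 0 :=
      mul_nonpos_of_nonpos_of_nonneg (by omega) hw
    have h6 : X.cl .A = 0 := by
      by_contra h7
      have h8 : 0 < X.cl .A := by omega
      have := mul_pos h8 (by omega : 0 < (a.comp Y.i).ran.quo.cl .B -
        (a.comp Y.i).ran.quo.cl .A)
      omega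
    omega

theorem inj_fz {M : Rep} (hG : G M) (hn : 1 ≤ M.cl .B - M.cl .A) (hm : 0 ≤ M.cl .B - M.cl .C) :
    Function.Injective M.fz := by
  rw [injective_iff_map_eq_zero]
  intro v hv
  by_contra hv0
  let Y : SubR M := ⟨fun i => match i with
      | .A => ⊥
      | .B => ⊥
      | .C => LinearMap.ker M.fz, by
        intro e v hv
        cases e
        · change M.f .x v = 0
          have : v = 0 := hv
          rw [this, map_zero]
        · change M.f .y v = 0
          have : v = 0 := hv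
          rw [this, map_zero]
        · exact hv⟩
  have h1 := n_sub hG hn hm (X := Y.rep) ⟨.C, ⟨v, hv⟩, fun h => hv0 (congrArg Subtype.val h)⟩
    ⟨Y.i, Y.ses.inj⟩
  have hB : Y.rep.cl .B = 0 := by
    rw [cl_eq]
    have : Module.finrank ℂ (Y.rep.V .B) = 0 := finrank_bot ℂ (M.V .B)
    rw [this]; rfl
  have := Y.rep.cl_nonneg .A
  omega

theorem inj_fxy {M : Rep} (hG : G M) (hn : 1 ≤ M.cl .B - M.cl .A) (hm : 0 ≤ M.cl .B - M.cl .C) :
    Function.Injective (M.fx.prod M.fy) := by
  rw [injective_iff_map_eq_zero]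
  intro v hv
  by_contra hv0
  let Y : SubR M := ⟨fun i => match i with
      | .A => LinearMap.ker (M.fx.prod M.fy)
      | .B => ⊥
      | .C => ⊥, by
        intro e v hv
        cases e
        · exact congrArg Prod.fst (show (M.fx.prod M.fy) v = 0 from hv)
        · exact congrArg Prod.snd (show (M.fx.prod M.fy) v = 0 from hv)
        · change M.f .z v = 0
          have : v = 0 := hv
          rw [this, map_zero]⟩
  have h1 := n_sub hG hn hm (X := Y.rep) ⟨.A, ⟨v, hv⟩, fun h => hv0 (congrArg Subtype.val h)⟩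
    ⟨Y.i, Y.ses.inj⟩
  have hB : Y.rep.cl .B = 0 := by
    rw [cl_eq]
    have : Module.finrank ℂ (Y.rep.V .B) = 0 := finrank_bot ℂ (M.V .B)
    rw [this]; rfl
  have := Y.rep.cl_nonneg .A
  omega

/-- Second case: the class of `S` is isotropic. -/
theorem caseIIb {S S' : Rep} (hG : G S) (hB : Brick S) (hcl : S'.cl = S.cl)
    (hq : chi S.cl S.cl = 0) (hn : 1 ≤ S.cl .B - S.cl .A) (hA : 0 < S.cl .A) (hE : E0 S S')
    (hst : St (chi S.cl) S) : False := by
  have hSS : ¬ E0 S S := by
    intro h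
    have := chi_pos_of h (not_H0_of_NZ (NZ_of_inj (Hm.id S) (Hm.id_inj S) hB.nz))
    omega
  obtain ⟨d, hd⟩ := exists_Dx hSS
  let KB : Submodule ℂ (S.V .B) := LinearMap.ker d.px ⊓ LinearMap.ker d.py ⊓ LinearMap.ker d.pz
  have hKB : ∀ v, v ∈ KB ↔ d.px v = 0 ∧ d.py v = 0 ∧ d.pz v = 0 := by
    intro v
    simp only [KB, Submodule.mem_inf, LinearMap.mem_ker, and_assoc]
  let K : SubR S := ⟨fun i => match i with
    | .A => KB.comap S.fx ⊓ KB.comap S.fy
    | .B => KB
    | .C => KB.comap S.fz, by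
      intro e v hv
      cases e
      · exact hv.1
      · exact hv.2
      · exact hv⟩
  have hK : ¬ K.rep.Nz := by
    intro hKn
    have hne : K.rep.cl ≠ S.cl := by
      intro h
      have h1 := sur_of_inj_cl K.i K.ses.inj (fun i => by rw [h])
      have h2 : ∀ v, v ∈ KB := by
        intro v
        obtain ⟨w, hw⟩ := h1 .B v
        rw [← hw]
        exact w.2
      rcases hd with ⟨v, hv⟩ | ⟨v, hv⟩ | ⟨v, hv⟩
      · exact hv ((hKB v).1 (h2 v)).1
      · exact hv ((hKB v).1 (h2 v)).2.1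
      · exact hv ((hKB v).1 (h2 v)).2.2
    have h1 := hst _ hKn ⟨K.i, K.ses.inj⟩ hne
    have h2 : 0 < chi S'.cl K.quo.cl := by
      rw [hcl]
      have h3 := hq
      nth_rewrite 2 [K.ses.cl] at h3
      rw [chi_add_right] at h3
      omega
    obtain ⟨g, hg⟩ := NZ_of_not_H0 (not_H0_of_chi h2)
    obtain ⟨qx, hqx⟩ := K.ses.desc .B d.px (fun w => ((hKB _).1 w.2).1)
    obtain ⟨qy, hqy⟩ := K.ses.desc .B d.py (fun w => ((hKB _).1 w.2).2.1)
    obtain ⟨qz, hqz⟩ := K.ses.desc .B d.pz (fun w => ((hKB _).1 w.2).2.2)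
    let d' : Dx S S' := ⟨qx ∘ₗ g.g .B, qy ∘ₗ g.g .B, qz ∘ₗ g.g .B, by
      intro v
      simp only [LinearMap.comp_apply]
      rw [← g.hx, ← g.hy]
      obtain ⟨w, hw⟩ := K.ses.sur .A (g.g .A v)
      rw [← hw, K.p.hx, K.p.hy, hqx, hqy]
      exact d.hA w, by
      intro v
      simp only [LinearMap.comp_apply]
      rw [← g.hz]
      obtain ⟨w, hw⟩ := K.ses.sur .C (g.g .C v)
      rw [← hw, K.p.hz, hqz]
      exact d.hC w, by
      intro v
      simp only [LinearMap.comp_apply]
      obtain ⟨w, hw⟩ := K.ses.sur .B (g.g .B v)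
      rw [← hw, hqx, hqy, hqz]
      exact d.hB w⟩
    have hd' := d'.zero hE
    unfold Dx.NZ at hd'
    push Not at hd'
    obtain ⟨k1, k2, k3⟩ := hd'
    have gB : ∀ v, g.g .B v = 0 := by
      intro v
      obtain ⟨w, hw⟩ := K.ses.sur .B (g.g .B v)
      have l1 := k1 v
      have l2 := k2 v
      have l3 := k3 v
      change qx (g.g .B v) = 0 at l1
      change qy (g.g .B v) = 0 at l2
      change qz (g.g .B v) = 0 at l3
      rw [← hw] at l1 l2 l3
      rw [hqx] at l1
      rw [hqy] at l2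
      rw [hqz] at l3
      rw [← hw]
      exact (K.ses.ex .B w).2 ⟨⟨w, (hKB w).2 ⟨l1, l2, l3⟩⟩, rfl⟩
    have gA : ∀ v, g.g .A v = 0 := by
      intro v
      obtain ⟨w, hw⟩ := K.ses.sur .A (g.g .A v)
      have l1 := g.hx v
      have l2 := g.hy v
      rw [gB, ← hw] at l1 l2
      rw [K.p.hx] at l1
      rw [K.p.hy] at l2
      obtain ⟨u1, hu1⟩ := (K.ses.ex .B _).1 l1
      obtain ⟨u2, hu2⟩ := (K.ses.ex .B _).1 l2
      rw [← hw]
      refine (K.ses.ex .A w).2 ⟨⟨w, ?_, ?_⟩, rfl⟩
      · change S.fx w ∈ KB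
        rw [← hu1]; exact u1.2
      · change S.fy w ∈ KB
        rw [← hu2]; exact u2.2
    have gC : ∀ v, g.g .C v = 0 := by
      intro v
      obtain ⟨w, hw⟩ := K.ses.sur .C (g.g .C v)
      have l1 := g.hz v
      rw [gB, ← hw, K.p.hz] at l1
      obtain ⟨u1, hu1⟩ := (K.ses.ex .B _).1 l1
      rw [← hw]
      refine (K.ses.ex .C w).2 ⟨⟨w, ?_⟩, rfl⟩
      change S.fz w ∈ KB
      rw [← hu1]; exact u1.2
    obtain ⟨j, v, hv⟩ := hg
    cases j
    · exact hv (gA v)
    · exact hv (gB v)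
    · exact hv (gC v)
  have hK' : ∀ i, ∀ v : K.rep.V i, v = 0 := by
    unfold Rep.Nz at hK
    push Not at hK
    exact hK
  have hKB0 : ∀ v, d.px v = 0 → d.py v = 0 → d.pz v = 0 → v = 0 := by
    intro v h1 h2 h3
    exact congrArg Subtype.val (hK' .B ⟨v, (hKB v).2 ⟨h1, h2, h3⟩⟩)
  have hKC0 : ∀ v : S.V .C, S.fz v ∈ KB → v = 0 := by
    intro v h1
    exact congrArg Subtype.val (hK' .C ⟨v, h1⟩)
  -- the first dimension count
  let κ : (S.V .A × S.V .A × S.V .C) →ₗ[ℂ] S.V .B :=
    S.fx.coprod (S.fy.coprod S.fz)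
  have hκ : Function.Surjective κ := by
    rw [← LinearMap.range_eq_top]
    by_contra h
    obtain ⟨L, hL0, hL⟩ := Submodule.exists_le_ker_of_lt_top _ (lt_top_iff_ne_top.2 h)
    have hL' : ∀ w, L (κ w) = 0 := fun w => LinearMap.mem_ker.1 (hL ⟨w, rfl⟩)
    have hh : H0 S sB := H0_sB hB hA
    let g : Hm S sB := Hm.mk3 (0 : S.V .A →ₗ[ℂ] PUnit) (L : S.V .B →ₗ[ℂ] ℂ)
      (0 : S.V .C →ₗ[ℂ] PUnit) (fun v => by
        have := hL' (v, 0, 0)
        simp only [κ, LinearMap.coprod_apply, map_zero, add_zero] at this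
        exact this.symm) (fun v => by
        have := hL' (0, v, 0)
        simp only [κ, LinearMap.coprod_apply, map_zero, add_zero, zero_add] at this
        exact this.symm) (fun v => by
        have := hL' (0, 0, v)
        simp only [κ, LinearMap.coprod_apply, map_zero, zero_add] at this
        exact this.symm)
    apply hL0
    ext v
    exact hh g .B v
  let ι : S.V .B →ₗ[ℂ] (S.V .A × S.V .A × S.V .C) := d.px.prod (d.py.prod d.pz)
  have hι : Function.Injective ι := by
    rw [injective_iff_map_eq_zero]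
    intro v hv
    have h1 : d.px v = 0 := congrArg Prod.fst hv
    have h2 : d.py v = 0 := congrArg (fun p => p.2.1) hv
    have h3 : d.pz v = 0 := congrArg (fun p => p.2.2) hv
    exact hKB0 v h1 h2 h3
  have hικ : LinearMap.range ι ≤ LinearMap.ker κ := by
    rintro _ ⟨v, rfl⟩
    rw [LinearMap.mem_ker]
    change S.fx (d.px v) + (S.fy (d.py v) + S.fz (d.pz v)) = 0
    rw [← add_assoc]
    exact d.hB v
  have n1 := Submodule.finrank_mono hικ
  have n2 := LinearMap.finrank_range_of_inj hι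
  have n3 := LinearMap.finrank_range_add_finrank_ker κ
  rw [LinearMap.range_eq_top.2 hκ, finrank_top, Module.finrank_prod, Module.finrank_prod] at n3
  have hd1 : 2 * S.cl .B ≤ 2 * S.cl .A + S.cl .C := by
    simp only [cl_eq]
    omega
  have hm0 : 0 ≤ S.cl .B - S.cl .C := cone_m S.cl_nonneg hq.le
  -- the second dimension count
  let κ2 : (S.V .A × S.V .A) →ₗ[ℂ] S.V .B := S.fx.coprod S.fy
  have hκ2 : Function.Surjective κ2 := by
    let U : SubR S := ⟨fun i => match i with
      | .A => ⊤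
      | .B => LinearMap.range κ2
      | .C => ⊥, by
        intro e v hv
        cases e
        · refine ⟨(v, 0), ?_⟩
          change S.fx v + S.fy 0 = S.f .x v
          rw [map_zero, add_zero]; rfl
        · refine ⟨(0, v), ?_⟩
          change S.fx 0 + S.fy v = S.f .y v
          rw [map_zero, zero_add]; rfl
        · have : v = 0 := hv
          rw [this, map_zero]
          exact Submodule.zero_mem _⟩
    have h1 := chi_nonneg_of (hG U)
    have hUA : U.rep.cl .A = S.cl .A := by
      rw [cl_eq, cl_eq]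
      congr 1
      exact finrank_top ℂ (S.V .A)
    have hUC : U.rep.cl .C = 0 := by
      rw [cl_eq]
      have : Module.finrank ℂ (U.rep.V .C) = 0 := finrank_bot ℂ (S.V .C)
      rw [this]; rfl
    have hc := U.ses.cl
    have hcA := congrFun hc .A
    have hcB := congrFun hc .B
    have hcC := congrFun hc .C
    simp only [Pi.add_apply] at hcA hcB hcC
    have hqA : U.quo.cl .A = 0 := by omega
    simp only [chi, hUA, hUC, hqA] at h1
    have h2 : 0 ≤ U.quo.cl .B * (U.rep.cl .B - 2 * S.cl .A) := by linarith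
    have h3 := U.quo.cl_nonneg .B
    have h4 : U.quo.cl .B = 0 := by
      by_contra h5
      have h6 : U.rep.cl .B - 2 * S.cl .A < 0 := by omega
      have := mul_neg_of_pos_of_neg (by omega : 0 < U.quo.cl .B) h6
      omega
    have h5 : Module.finrank ℂ (LinearMap.range κ2) = Module.finrank ℂ (S.V .B) := by
      have h6 : U.rep.cl .B = S.cl .B := by omega
      rw [cl_eq, cl_eq] at h6
      exact_mod_cast h6
    rw [← LinearMap.range_eq_top]
    exact Submodule.eq_top_of_finrank_eq h5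
  let ι2 : S.V .C →ₗ[ℂ] (S.V .A × S.V .A) := (d.px.prod d.py) ∘ₗ S.fz
  have hι2 : Function.Injective ι2 := by
    rw [injective_iff_map_eq_zero]
    intro v hv
    apply hKC0
    rw [hKB]
    exact ⟨congrArg Prod.fst hv, congrArg Prod.snd hv, d.hC v⟩
  have hικ2 : LinearMap.range ι2 ≤ LinearMap.ker κ2 := by
    rintro _ ⟨v, rfl⟩
    rw [LinearMap.mem_ker]
    change S.fx (d.px (S.fz v)) + S.fy (d.py (S.fz v)) = 0
    have := d.hB (S.fz v)
    rw [d.hC, map_zero, add_zero] at this
    exact this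
  have n1' := Submodule.finrank_mono hικ2
  have n2' := LinearMap.finrank_range_of_inj hι2
  have n3' := LinearMap.finrank_range_add_finrank_ker κ2
  rw [LinearMap.range_eq_top.2 hκ2, finrank_top, Module.finrank_prod] at n3'
  have hd2 : S.cl .C + S.cl .B ≤ 2 * S.cl .A := by
    simp only [cl_eq]
    omega
  -- the contradiction
  have hq' : (S.cl .B - S.cl .A) * (S.cl .B - S.cl .A) = S.cl .C * (S.cl .B - S.cl .C) := by
    unfold chi at hq; linarith
  have i1 : 2 * (S.cl .B - S.cl .A) ≤ S.cl .C := by omega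
  have i2 : 2 * (S.cl .B - S.cl .A) ≤ S.cl .B - S.cl .C := by omega
  have i3 : (2 * (S.cl .B - S.cl .A)) * (2 * (S.cl .B - S.cl .A)) ≤
      S.cl .C * (S.cl .B - S.cl .C) :=
    mul_le_mul i1 i2 (by omega) (by omega)
  have i4 : 0 < (S.cl .B - S.cl .A) * (S.cl .B - S.cl .A) := mul_pos (by omega) (by omega)
  nlinarith

end Pool.Agent.L7h86
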