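import Mathlib
import Pool.Agent.L7h86.NL3

/-!
# The isotropic cases of the numerical lemma, second part
-/

set_option autoImplicit false

namespace Pool.Agent.L7h86

section Tr

variable (T : Rep)

abbrev ZA : Type := (T.V .B × T.V .B) ⧸ LinearMap.range (T.fx.prod T.fy)
abbrev ZC : Type := (T.V .B) ⧸ LinearMap.range T.fz

noncomputable def tA : (T.V .B × T.V .B) →ₗ[ℂ] ZA T :=
  (LinearMap.range (T.fx.prod T.fy)).mkQ
noncomputable def tC : T.V .B →ₗ[ℂ] ZC T := (LinearMap.range T.fz).mkQ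

noncomputable def jB : T.V .B →ₗ[ℂ] (ZA T × ZA T × ZC T) :=
  ((tA T) ∘ₗ LinearMap.inl ℂ _ _).prod (((tA T) ∘ₗ LinearMap.inr ℂ _ _).prod (tC T))

abbrev ZB : Type := (ZA T × ZA T × ZC T) ⧸ LinearMap.range (jB T)

noncomputable def tB : (ZA T × ZA T × ZC T) →ₗ[ℂ] ZB T := (LinearMap.range (jB T)).mkQ

/-- the inverse Auslander-Reiten translate of `T` -/
noncomputable def Zr : Rep :=
  mk3 ((tB T) ∘ₗ LinearMap.inl ℂ (ZA T) (ZA T × ZC T))
    ((tB T) ∘ₗ LinearMap.inr ℂ (ZA T) (ZA T × ZC T) ∘ₗ LinearMap.inl ℂ (ZA T) (ZC T))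
    ((tB T) ∘ₗ LinearMap.inr ℂ (ZA T) (ZA T × ZC T) ∘ₗ LinearMap.inr ℂ (ZA T) (ZC T))

noncomputable def zA : (T.V .B × T.V .B) →ₗ[ℂ] (Zr T).V .A := tA T
noncomputable def zC : T.V .B →ₗ[ℂ] (Zr T).V .C := tC T

theorem zA_sur : Function.Surjective (zA T) := Submodule.mkQ_surjective _
theorem zC_sur : Function.Surjective (zC T) := Submodule.mkQ_surjective _

theorem zA_rel (v : T.V .A) : zA T (T.fx v, T.fy v) = 0 := by
  change (LinearMap.range (T.fx.prod T.fy)).mkQ (T.fx v, T.fy v) = 0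
  rw [Submodule.mkQ_apply, Submodule.Quotient.mk_eq_zero]
  exact ⟨v, rfl⟩

theorem zC_rel (v : T.V .C) : zC T (T.fz v) = 0 := by
  change (LinearMap.range T.fz).mkQ (T.fz v) = 0
  rw [Submodule.mkQ_apply, Submodule.Quotient.mk_eq_zero]
  exact ⟨v, rfl⟩

theorem zB_rel (b : T.V .B) :
    (Zr T).fx (zA T (b, 0)) + (Zr T).fy (zA T (0, b)) + (Zr T).fz (zC T b) = 0 := by
  have h : (Zr T).fx (zA T (b, 0)) + (Zr T).fy (zA T (0, b)) + (Zr T).fz (zC T b) =
      tB T (jB T b) := by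
    change tB T (tA T (b, 0), 0, 0) + tB T (0, tA T (0, b), 0) + tB T (0, 0, tC T b) =
      tB T (tA T (b, 0), tA T (0, b), tC T b)
    rw [← map_add, ← map_add]
    congr 1
    simp
  rw [h]
  change (LinearMap.range (jB T)).mkQ (jB T b) = 0
  rw [Submodule.mkQ_apply, Submodule.Quotient.mk_eq_zero]
  exact ⟨b, rfl⟩

theorem zB_gen (w : (Zr T).V .B) : ∃ (a a' : (Zr T).V .A) (c : (Zr T).V .C),
    w = (Zr T).fx a + (Zr T).fy a' + (Zr T).fz c := by
  obtain ⟨⟨a, a', c⟩, hw⟩ : ∃ p, tB T p = w := Submodule.mkQ_surjective _ w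
  refine ⟨a, a', c, ?_⟩
  rw [← hw]
  change tB T (a, a', c) = tB T (a, 0, 0) + tB T (0, a', 0) + tB T (0, 0, c)
  rw [← map_add, ← map_add]
  congr 1
  simp

theorem Zr_H0 {X : Rep} (h : E0 X T) : H0 (Zr T) X := by
  intro g
  let d : Dx X T := ⟨(g.g .A) ∘ₗ (zA T) ∘ₗ LinearMap.inl ℂ _ _,
    (g.g .A) ∘ₗ (zA T) ∘ₗ LinearMap.inr ℂ _ _, (g.g .C) ∘ₗ (zC T), by
      intro v
      change g.g .A (zA T (T.fx v, 0)) + g.g .A (zA T (0, T.fy v)) = 0
      rw [← map_add, ← map_add]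
      have : ((T.fx v, 0) + (0, T.fy v) : T.V .B × T.V .B) = (T.fx v, T.fy v) := by simp
      rw [this, zA_rel, map_zero], by
      intro v
      change g.g .C (zC T (T.fz v)) = 0
      rw [zC_rel, map_zero], by
      intro v
      change X.fx (g.g .A (zA T (v, 0))) + X.fy (g.g .A (zA T (0, v))) +
        X.fz (g.g .C (zC T v)) = 0
      rw [g.hx, g.hy, g.hz, ← map_add, ← map_add, zB_rel, map_zero]⟩
  have hd := d.zero h
  unfold Dx.NZ at hd
  push Not at hd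
  obtain ⟨h1, h2, h3⟩ := hd
  have gA : ∀ v, g.g .A v = 0 := by
    intro v
    obtain ⟨⟨b, b'⟩, rfl⟩ := zA_sur T v
    have : ((b, b') : T.V .B × T.V .B) = (b, 0) + (0, b') := by simp
    rw [this, map_add, map_add]
    have k1 := h1 b
    have k2 := h2 b'
    change g.g .A (zA T (b, 0)) = 0 at k1
    change g.g .A (zA T (0, b')) = 0 at k2
    rw [k1, k2, add_zero]
  have gC : ∀ v, g.g .C v = 0 := by
    intro v
    obtain ⟨b, rfl⟩ := zC_sur T v
    exact h3 b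
  intro i
  cases i
  · exact gA
  · intro v
    obtain ⟨a, a', c, rfl⟩ := zB_gen T v
    rw [map_add, map_add, ← g.hx, ← g.hy, ← g.hz, gA, gA, gC, map_zero, map_zero, map_zero,
      add_zero, add_zero]
  · exact gC

theorem Zr_not_H0 {X : Rep} (h : ¬ E0 X T) : ∃ g : Hm (Zr T) X, g.NZ := by
  obtain ⟨d, hd⟩ := exists_Dx h
  let gA : (Zr T).V .A →ₗ[ℂ] X.V .A :=
    (LinearMap.range (T.fx.prod T.fy)).liftQ (d.px.coprod d.py) (by
      rintro _ ⟨v, rfl⟩
      rw [LinearMap.mem_ker]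
      exact d.hA v)
  let gC : (Zr T).V .C →ₗ[ℂ] X.V .C :=
    (LinearMap.range T.fz).liftQ d.pz (by
      rintro _ ⟨v, rfl⟩
      rw [LinearMap.mem_ker]
      exact d.hC v)
  have hgA : ∀ b b', gA (zA T (b, b')) = d.px b + d.py b' := fun b b' => rfl
  have hgC : ∀ b, gC (zC T b) = d.pz b := fun b => rfl
  let k : ((Zr T).V .A × (Zr T).V .A × (Zr T).V .C) →ₗ[ℂ] X.V .B :=
    (X.fx ∘ₗ gA).coprod ((X.fy ∘ₗ gA).coprod (X.fz ∘ₗ gC))
  let gB : (Zr T).V .B →ₗ[ℂ] X.V .B :=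
    (LinearMap.range (jB T)).liftQ k (by
      rintro _ ⟨v, rfl⟩
      change X.fx (gA (zA T (v, 0))) + (X.fy (gA (zA T (0, v))) + X.fz (gC (zC T v))) = 0
      rw [hgA, hgA, hgC, map_zero, map_zero, add_zero, zero_add, ← add_assoc]
      exact d.hB v)
  have hgB : ∀ a a' c, gB (tB T (a, a', c)) = X.fx (gA a) + (X.fy (gA a') + X.fz (gC c)) :=
    fun a a' c => rfl
  refine ⟨Hm.mk3 gA gB gC ?_ ?_ ?_, ?_⟩
  · intro v
    have h1 : gB ((Zr T).fx v) = X.fx (gA v) + (X.fy (gA 0) + X.fz (gC 0)) := hgB v 0 0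
    rw [h1, map_zero, map_zero, map_zero, map_zero, add_zero, add_zero]
  · intro v
    have h1 : gB ((Zr T).fy v) = X.fx (gA 0) + (X.fy (gA v) + X.fz (gC 0)) := hgB 0 v 0
    rw [h1, map_zero, map_zero, map_zero, map_zero, add_zero, zero_add]
  · intro v
    have h1 : gB ((Zr T).fz v) = X.fx (gA 0) + (X.fy (gA 0) + X.fz (gC v)) := hgB 0 0 v
    rw [h1, map_zero, map_zero, map_zero, zero_add, zero_add]
  · rcases hd with ⟨v, hv⟩ | ⟨v, hv⟩ | ⟨v, hv⟩
    · refine ⟨.A, zA T (v, 0), ?_⟩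
      change gA (zA T (v, 0)) ≠ 0
      rw [hgA, map_zero, add_zero]
      exact hv
    · refine ⟨.A, zA T (0, v), ?_⟩
      change gA (zA T (0, v)) ≠ 0
      rw [hgA, map_zero, zero_add]
      exact hv
    · exact ⟨.C, zC T v, hv⟩

theorem Zr_clA (h : Function.Injective (T.fx.prod T.fy)) :
    (Zr T).cl .A = 2 * T.cl .B - T.cl .A := by
  have h1 : Module.finrank ℂ (ZA T) + Module.finrank ℂ (LinearMap.range (T.fx.prod T.fy)) =
      Module.finrank ℂ (T.V .B × T.V .B) :=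
    Submodule.finrank_quotient_add_finrank (LinearMap.range (T.fx.prod T.fy))
  rw [LinearMap.finrank_range_of_inj h, Module.finrank_prod] at h1
  have h2 : (Zr T).cl .A = ((Module.finrank ℂ (ZA T) : ℕ) : ℤ) := rfl
  rw [h2, cl_eq, cl_eq]
  omega

theorem Zr_clC (h : Function.Injective T.fz) :
    (Zr T).cl .C = T.cl .B - T.cl .C := by
  have h1 : Module.finrank ℂ (ZC T) + Module.finrank ℂ (LinearMap.range T.fz) =
      Module.finrank ℂ (T.V .B) :=
    Submodule.finrank_quotient_add_finrank (LinearMap.range T.fz)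
  rw [LinearMap.finrank_range_of_inj h] at h1
  have h2 : (Zr T).cl .C = ((Module.finrank ℂ (ZC T) : ℕ) : ℤ) := rfl
  rw [h2, cl_eq, cl_eq]
  omega

theorem Zr_clB : 2 * (Zr T).cl .A + (Zr T).cl .C - T.cl .B ≤ (Zr T).cl .B := by
  have h1 : Module.finrank ℂ (ZB T) + Module.finrank ℂ (LinearMap.range (jB T)) =
      Module.finrank ℂ (ZA T × ZA T × ZC T) :=
    Submodule.finrank_quotient_add_finrank (LinearMap.range (jB T))
  have h2 := LinearMap.finrank_range_le (jB T)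
  rw [Module.finrank_prod, Module.finrank_prod] at h1
  have hA : (Zr T).cl .A = ((Module.finrank ℂ (ZA T) : ℕ) : ℤ) := rfl
  have hB : (Zr T).cl .B = ((Module.finrank ℂ (ZB T) : ℕ) : ℤ) := rfl
  have hC : (Zr T).cl .C = ((Module.finrank ℂ (ZC T) : ℕ) : ℤ) := rfl
  rw [hA, hB, hC, cl_eq]
  omega

end Tr

theorem descent2 {T' S : Rep} (hE : E0 S T')
    (hst : ∀ X : Rep, X.Nz → Sb X S → X.cl ≠ S.cl → 0 < chi X.cl T'.cl) (hS : S.Nz)
    (hq : chi S.cl S.cl ≤ 0) (n : ℕ) :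
    ∀ N : Rep, N.dim ≤ n → H0 N T' → 0 < chi N.cl S.cl → False := by
  induction n with
  | zero =>
    intro N hN _ h
    have : N.Nz := by
      rw [Rep.nz_iff_ne]
      intro h1
      rw [h1] at h
      simp [chi] at h
    rw [Rep.nz_iff_dim] at this
    push_cast at hN
    omega
  | succ n ih =>
    intro N hN hH h
    obtain ⟨g, hg⟩ := NZ_of_not_H0 (not_H0_of_chi h)
    have hJ := Hm.ran_nz hg
    have h3 : g.ran.rep.cl = S.cl := by
      by_contra h3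
      have h4 := hst _ hJ ⟨g.ran.i, g.ran.ses.inj⟩ h3
      exact not_H0_of_chi h4 (H0.quol g.toRan g.toRan_sur hH)
    have h4 := Hm.sur_of_ran h3
    have hs := g.ses_of_sur h4
    have hd := hs.dim
    rw [Rep.nz_iff_dim] at hS
    push_cast at hN
    refine ih g.ker.rep (by omega) (H0.conn2 hs hH hE) ?_
    have h5 := h
    rw [hs.cl, chi_add_left] at h5
    omega

/-- Third case: the class of `T` is isotropic. -/
theorem caseIIa {S T T' : Rep} (hcl : T'.cl = T.cl) (hG : G T)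
    (hn : 1 ≤ T.cl .B - T.cl .A) (hm : 0 ≤ T.cl .B - T.cl .C) (hTn : T.Nz)
    (hq : chi T.cl T.cl = 0) (h1 : E0 T' T) (h2 : E0 T T') (h3 : E0 S T')
    (hstT : ∀ X : Rep, X.Nz → Sb X T → X.cl ≠ T.cl → 0 < chi X.cl T.cl)
    (hstS : ∀ X : Rep, X.Nz → Sb X S → X.cl ≠ S.cl → 0 < chi X.cl T.cl)
    (hS : S.Nz) (hqS : chi S.cl S.cl ≤ 0) (h0 : chi S.cl T.cl = 0) (hlt : chi T.cl S.cl < 0) :
    False := by
  have hTT : ¬ E0 T T := by
    intro h
    have := chi_pos_of h (not_H0_of_NZ (NZ_of_inj (Hm.id T) (Hm.id_inj T) hTn))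
    omega
  have hZ := Zr_H0 T h1
  obtain ⟨g, hg⟩ := Zr_not_H0 T hTT
  have hJ := Hm.ran_nz hg
  have h4 : g.ran.rep.cl = T.cl := by
    by_contra h4
    have h5 := hstT _ hJ ⟨g.ran.i, g.ran.ses.inj⟩ h4
    rw [← hcl] at h5
    exact not_H0_of_chi h5 (H0.quol g.toRan g.toRan_sur hZ)
  have h5 := Hm.sur_of_ran h4
  have hs := g.ses_of_sur h5
  have hK : H0 g.ker.rep T' := H0.conn2 hs hZ h2
  have hA := Zr_clA T (inj_fxy hG hn hm)
  have hC := Zr_clC T (inj_fz hG hn hm)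
  have hB := Zr_clB T
  have hSB := S.cl_nonneg .B
  have h6 : 0 ≤ chi (Zr T).cl S.cl := by
    have e1 : chi (Zr T).cl S.cl = - chi S.cl T.cl +
        ((Zr T).cl .B - (2 * (Zr T).cl .A + (Zr T).cl .C - T.cl .B)) * S.cl .B := by
      simp only [chi, hA, hC]; ring
    rw [e1, h0]
    have := mul_nonneg (by omega : 0 ≤ (Zr T).cl .B - (2 * (Zr T).cl .A + (Zr T).cl .C -
      T.cl .B)) hSB
    omega
  have h7 : 0 < chi g.ker.rep.cl S.cl := by
    rw [hs.cl, chi_add_left] at h6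
    omega
  refine descent2 h3 (fun X hX hXS hne => ?_) hS hqS g.ker.rep.dim.toNat g.ker.rep
    (by have := g.ker.rep.dim_nonneg; omega) hK h7
  rw [hcl]
  exact hstS X hX hXS hne

end Pool.Agent.L7h86
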