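import Mathlib
import Pool.Agent.H598R2.Deriv
import Pool.Agent.L7h86.NL4

/-!
# Generic representations

A family of representations is versal if all its first order deformations are induced by
derivations of the field of complex numbers.
-/

set_option autoImplicit false

namespace Pool.Agent.L7h86

def Versal {J : Type} (M : J → Rep) : Prop :=
  ∀ ξ : ∀ (j : J) (e : Ed), (M j).V e.s →ₗ[ℂ] (M j).V .B,
    ∃ (D : Derivation ℚ ℂ ℂ) (s : ∀ j i, (M j).V i →+ (M j).V i),
      (∀ j i (c : ℂ) v, s j i (c • v) = D c • v + c • s j i v) ∧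
      ∀ j e v, s j .B ((M j).f e v) - (M j).f e (s j e.s v) = ξ j e v

theorem Versal.G {J : Type} {M : J → Rep} (h : Versal M) (j : J) : G (M j) := by
  classical
  intro S η
  -- extend the cocycle to `M j`
  have h1 : ∀ e : Ed, ∃ ξ : (M j).V e.s →ₗ[ℂ] (M j).V .B,
      ∀ u : S.rep.V e.s, S.p.g .B (ξ (S.i.g e.s u)) = η e u := by
    intro e
    obtain ⟨r, hr⟩ := LinearMap.exists_rightInverse_of_surjective (S.p.g .B)
      (LinearMap.range_eq_top.2 (S.ses.sur .B))
    obtain ⟨l, hl⟩ := LinearMap.exists_leftInverse_of_injective (S.i.g e.s)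
      (LinearMap.ker_eq_bot.2 (S.ses.inj e.s))
    refine ⟨r ∘ₗ (η e) ∘ₗ l, fun u => ?_⟩
    simp only [LinearMap.comp_apply]
    have h2 : l (S.i.g e.s u) = u := LinearMap.congr_fun hl u
    have h3 : S.p.g .B (r (η e u)) = η e u := LinearMap.congr_fun hr _
    rw [h2, h3]
  choose ξ hξ using h1
  obtain ⟨D, s, hs1, hs2⟩ := h (Function.update
    (fun (j : J) (e : Ed) => (0 : (M j).V e.s →ₗ[ℂ] (M j).V .B)) j ξ)
  have hs2' : ∀ e v, s j .B ((M j).f e v) - (M j).f e (s j e.s v) = ξ e v := by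
    intro e v
    rw [hs2, Function.update_self]
  have hpz : ∀ i (u : S.rep.V i), S.p.g i (S.i.g i u) = 0 := fun i u => S.ses.zero i u
  let ψ : ∀ i, S.rep.V i →ₗ[ℂ] S.quo.V i := fun i =>
    { toFun := fun u => - S.p.g i (s j i (S.i.g i u))
      map_add' := fun u w => by
        simp only [map_add, neg_add]
      map_smul' := fun c u => by
        rw [map_smul, hs1, map_add, map_smul, map_smul, hpz, smul_zero, zero_add,
          RingHom.id_apply, smul_neg] }
  refine ⟨ψ, fun e u => ?_⟩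
  change S.quo.f e (- S.p.g e.s (s j e.s (S.i.g e.s u))) -
    (- S.p.g .B (s j .B (S.i.g .B (S.rep.f e u)))) = η e u
  rw [map_neg, S.p.h, ← S.i.h, ← hξ, ← hs2', map_sub]
  abel

theorem Versal.not_iso {J : Type} {M : J → Rep} (h : Versal M) {j j' : J} (hj : j ≠ j')
    (hE : ¬ E0 (M j) (M j)) (g : Hm (M j) (M j')) (h1 : g.Inj) (h2 : g.Sur) : False := by
  classical
  apply hE
  intro ξ
  obtain ⟨D, s, hs1, hs2⟩ := h (Function.update
    (fun (j : J) (e : Ed) => (0 : (M j).V e.s →ₗ[ℂ] (M j).V .B)) j ξ)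
  have hs2' : ∀ e v, s j .B ((M j).f e v) - (M j).f e (s j e.s v) = ξ e v := by
    intro e v
    rw [hs2, Function.update_self]
  have hs3 : ∀ e v, s j' .B ((M j').f e v) = (M j').f e (s j' e.s v) := by
    intro e v
    have := hs2 j' e v
    rw [Function.update_of_ne hj.symm] at this
    exact sub_eq_zero.1 this
  let k := g.inv h1 h2
  have hk : ∀ i v, k.g i (g.g i v) = v := g.inv_left h1 h2
  let ψ : ∀ i, (M j).V i →ₗ[ℂ] (M j).V i := fun i =>
    { toFun := fun u => k.g i (s j' i (g.g i u)) - s j i u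
      map_add' := fun u w => by
        simp only [map_add]; abel
      map_smul' := fun c u => by
        rw [map_smul, hs1, hs1, map_add, map_smul, map_smul, hk, RingHom.id_apply, smul_sub]
        abel }
  refine ⟨ψ, fun e v => ?_⟩
  change (M j).f e (k.g e.s (s j' e.s (g.g e.s v)) - s j e.s v) -
    (k.g .B (s j' .B (g.g .B ((M j).f e v))) - s j .B ((M j).f e v)) = ξ e v
  rw [← hs2', map_sub, k.h, ← g.h, hs3]
  abel

/-- Derivations with prescribed values. -/
theorem exists_free (ι : Type) [Finite ι] :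
    ∃ v : ι → ℂ, ∀ a : ι → ℂ, ∃ D : Derivation ℚ ℂ ℂ, ∀ c, D (v c) = a c := by
  classical
  obtain ⟨v, D, -, h, -⟩ := Pool.Agent.H598R2.exists_dual_system ι ∅ Set.countable_empty
  have := Fintype.ofFinite ι
  refine ⟨v, fun a => ⟨∑ c, a c • D c, fun c' => ?_⟩⟩
  rw [← Derivation.coeFnAddMonoidHom_apply, map_sum, Finset.sum_apply]
  simp only [Derivation.coeFnAddMonoidHom_apply, Derivation.smul_apply, h]
  simp

section Ex

variable {J : Type} (n : J → Vx → ℕ)

abbrev Idx : Type := Σ (j : J) (e : Ed), Fin (n j .B) × Fin (n j e.s)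

noncomputable def gRep (w : Idx n → ℂ) (j : J) : Rep where
  V i := Fin (n j i) → ℂ
  f e := (Matrix.of (fun p q => w ⟨j, e, p, q⟩)).mulVecLin

theorem gRep_f (w : Idx n → ℂ) (j : J) (e : Ed) (v : Fin (n j e.s) → ℂ) (p : Fin (n j .B)) :
    ((gRep n w j).f e v : Fin (n j .B) → ℂ) p = ∑ q, w ⟨j, e, p, q⟩ * v q := by
  change (Matrix.mulVec (Matrix.of (fun p q => w ⟨j, e, p, q⟩)) v) p = _
  simp [Matrix.mulVec, dotProduct]

theorem gRep_cl (w : Idx n → ℂ) (j : J) (i : Vx) : (gRep n w j).cl i = n j i := by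
  change ((Module.finrank ℂ (Fin (n j i) → ℂ) : ℕ) : ℤ) = _
  simp

theorem lin_coord {a b : ℕ} (L : (Fin a → ℂ) →ₗ[ℂ] (Fin b → ℂ)) (v : Fin a → ℂ) (p : Fin b) :
    L v p = ∑ q, v q * L (Pi.single q (1 : ℂ)) p := by
  have h : v = ∑ q, v q • (Pi.single q (1 : ℂ) : Fin a → ℂ) := by
    funext i
    simp [Finset.sum_apply, Pi.single_apply]
  conv_lhs => rw [h]
  rw [map_sum, Finset.sum_apply]
  simp

theorem versal_of_free {w : Idx n → ℂ} (hw : ∀ a : Idx n → ℂ, ∃ D : Derivation ℚ ℂ ℂ,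
    ∀ c, D (w c) = a c) : Versal (gRep n w) := by
  classical
  intro ξ
  obtain ⟨D, hD⟩ := hw (fun c => (ξ c.1 c.2.1 (Pi.single c.2.2.2 (1 : ℂ) :
    Fin (n c.1 c.2.1.s) → ℂ) : Fin (n c.1 .B) → ℂ) c.2.2.1)
  let s : ∀ j i, (gRep n w j).V i →+ (gRep n w j).V i := fun j i =>
    { toFun := fun (v : Fin (n j i) → ℂ) => (fun p => D (v p) : Fin (n j i) → ℂ)
      map_zero' := by funext p; exact map_zero D
      map_add' := fun (v v' : Fin (n j i) → ℂ) => by funext p; exact map_add D (v p) (v' p) }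
  refine ⟨D, s, ?_, ?_⟩
  · intro j i c v
    have h : ∀ (v : Fin (n j i) → ℂ), (fun p => D ((c • v) p) : Fin (n j i) → ℂ) =
        D c • v + c • (fun p => D (v p) : Fin (n j i) → ℂ) := by
      intro v
      funext p
      simp only [Pi.smul_apply, smul_eq_mul, Derivation.leibniz, Pi.add_apply]
      ring
    exact h v
  · intro j e v
    have h : ∀ (v : Fin (n j e.s) → ℂ) (p : Fin (n j .B)),
        D (((gRep n w j).f e v : Fin (n j .B) → ℂ) p) -
        ((gRep n w j).f e (fun q => D (v q) : Fin (n j e.s) → ℂ) : Fin (n j .B) → ℂ) p =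
        (ξ j e v : Fin (n j .B) → ℂ) p := by
      intro v p
      rw [gRep_f, gRep_f, map_sum]
      refine Eq.trans ?_ (lin_coord (ξ j e : (Fin (n j e.s) → ℂ) →ₗ[ℂ] (Fin (n j .B) → ℂ)) v p).symm
      rw [← Finset.sum_sub_distrib]
      apply Finset.sum_congr rfl
      intro q _
      rw [Derivation.leibniz, hD]
      simp only [smul_eq_mul]
      rw [add_sub_cancel_left]
      rfl
    exact funext (h v)

theorem exists_versal [Finite J] : ∃ M : J → Rep, Versal M ∧ ∀ j i, (M j).cl i = n j i := by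
  obtain ⟨w, hw⟩ := exists_free (Idx n)
  exact ⟨gRep n w, versal_of_free n hw, gRep_cl n w⟩

end Ex

/-- generic representations exist -/
theorem exists_G (z : Cls) (hz : ∀ i, 0 ≤ z i) : ∃ Z : Rep, G Z ∧ Z.cl = z := by
  obtain ⟨M, hM, hcl⟩ := exists_versal (J := Unit) (fun _ i => (z i).toNat)
  refine ⟨M (), hM.G (), ?_⟩
  funext i
  rw [hcl, Int.toNat_of_nonneg (hz i)]

/-- pairs of non-isomorphic generic representations -/
theorem exists_pair (z : Cls) (hz : ∀ i, 0 ≤ z i) (hq : chi z z ≤ 0) (hne : z ≠ 0) :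
    ∃ Z Z' : Rep, G Z ∧ G Z' ∧ Z.cl = z ∧ Z'.cl = z ∧
      ∀ g : Hm Z Z', g.Inj → g.Sur → False := by
  obtain ⟨M, hM, hcl⟩ := exists_versal (J := Bool) (fun _ i => (z i).toNat)
  have h1 : ∀ j, (M j).cl = z := by
    intro j
    funext i
    rw [hcl, Int.toNat_of_nonneg (hz i)]
  refine ⟨M true, M false, hM.G _, hM.G _, h1 _, h1 _, fun g a b => ?_⟩
  refine hM.not_iso (by decide : true ≠ false) ?_ g a b
  intro hE
  have hn : (M true).Nz := by rw [Rep.nz_iff_ne, h1]; exact hne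
  have h2 := chi_pos_of hE (not_H0_of_NZ (NZ_of_inj (Hm.id _) (Hm.id_inj _) hn))
  rw [h1] at h2
  omega

end Pool.Agent.L7h86
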