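import Mathlib
import Pool.Agent.L7h86.Gen

/-!
# Points all of whose first order deformations come from derivations
-/

set_option autoImplicit false

namespace Pool.Agent.L7h86

open MvPolynomial

/-- the elements killed by all derivations which kill `S` -/
def Kil (S : Set ℂ) : Subring ℂ where
  carrier := {a | ∀ D : Derivation ℚ ℂ ℂ, (∀ s ∈ S, D s = 0) → D a = 0}
  mul_mem' := by
    intro a b ha hb D hD
    rw [Derivation.leibniz, ha D hD, hb D hD, smul_zero, smul_zero, add_zero]
  one_mem' := by
    intro D _
    exact D.map_one_eq_zero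
  add_mem' := by
    intro a b ha hb D hD
    rw [map_add, ha D hD, hb D hD, add_zero]
  zero_mem' := by
    intro D _
    exact map_zero D
  neg_mem' := by
    intro a ha D hD
    rw [map_neg, ha D hD, neg_zero]

theorem der_aeval {I : Type} [Fintype I] {S : Set ℂ} (w : I → ℂ) (D : Derivation ℚ ℂ ℂ)
    (hD : ∀ s ∈ S, D s = 0) (P : MvPolynomial I (Kil S)) :
    D (aeval w P) = ∑ c, aeval w (pderiv c P) * D (w c) := by
  classical
  induction P using MvPolynomial.induction_on with
  | C a =>
    rw [aeval_C]
    have h1 : D (algebraMap (Kil S) ℂ a) = 0 := a.2 D hD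
    rw [h1]
    simp
  | add p q hp hq =>
    rw [map_add, map_add, hp, hq, ← Finset.sum_add_distrib]
    apply Finset.sum_congr rfl
    intro c _
    rw [map_add, map_add]; ring
  | mul_X p i hp =>
    rw [map_mul, aeval_X, Derivation.leibniz, hp]
    simp only [smul_eq_mul]
    have h1 : ∀ c, aeval w (pderiv c (p * X i)) * D (w c) =
        (w i) * (aeval w (pderiv c p) * D (w c)) + (if c = i then aeval w p * D (w i) else 0) := by
      intro c
      rw [pderiv_mul, map_add, map_mul, map_mul, aeval_X]
      by_cases h : c = i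
      · subst h
        rw [pderiv_X_self, map_one, if_pos rfl]; ring
      · rw [pderiv_X_of_ne (Ne.symm h), map_zero, if_neg h]; ring
    simp only [h1]
    rw [Finset.sum_add_distrib, ← Finset.mul_sum, Finset.sum_ite_eq' Finset.univ i
      (fun _ => aeval w p * D (w i)), if_pos (Finset.mem_univ _)]
    ring

/-- `w` is free over `S` -/
def FreeOver {I : Type} (S : Set ℂ) (w : I → ℂ) : Prop :=
  ∀ a : I → ℂ, ∃ D : Derivation ℚ ℂ ℂ, (∀ s ∈ S, D s = 0) ∧ ∀ c, D (w c) = a c

theorem FreeOver.ne_zero_aux {I : Type} [Fintype I] {S : Set ℂ} {w : I → ℂ} (hw : FreeOver S w)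
    (n : ℕ) : ∀ P : MvPolynomial I (Kil S), P.totalDegree ≤ n → aeval w P = 0 → P = 0 := by
  classical
  induction n with
  | zero =>
    intro P hP h0
    rw [Nat.le_zero, totalDegree_eq_zero_iff_eq_C] at hP
    rw [hP, aeval_C] at h0
    have h1 : coeff 0 P = 0 := Subtype.ext h0
    rw [hP, h1, map_zero]
  | succ n ih =>
    intro P hP h0
    have h1 : ∀ c, pderiv c P = 0 := by
      intro c
      apply ih
      · -- the degree drops
        unfold totalDegree
        apply Finset.sup_le
        intro m hm
        rw [mem_support_iff, coeff_pderiv] at hm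
        have h2 : coeff (m + Finsupp.single c 1) P ≠ 0 := left_ne_zero_of_mul hm
        have h3 := le_totalDegree (mem_support_iff.2 h2)
        have h4 : ((m + Finsupp.single c 1).sum fun _ e => e) = (m.sum fun _ e => e) + 1 := by
          rw [Finsupp.sum_add_index' (fun _ => rfl) (fun _ _ _ => rfl)]
          simp
        rw [h4] at h3
        omega
      · obtain ⟨D, hD, hDw⟩ := hw (Pi.single c 1)
        have h2 := der_aeval w D hD P
        rw [h0, map_zero] at h2
        simp only [hDw] at h2
        rw [Finset.sum_eq_single c] at h2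
        · rw [Pi.single_eq_same, mul_one] at h2
          exact h2.symm
        · intro b _ hb
          rw [Pi.single_eq_of_ne hb, mul_zero]
        · intro h; exact absurd (Finset.mem_univ _) h
    have h2 : P = C (coeff 0 P) := by
      ext m
      rw [coeff_C]
      split_ifs with h3
      · rw [← h3]
      · obtain ⟨c, hc⟩ : ∃ c, m c ≠ 0 := by
          by_contra h4
          push Not at h4
          exact h3 (Finsupp.ext h4).symm
        have h5 : m = (m - Finsupp.single c 1) + Finsupp.single c 1 := by
          rw [tsub_add_cancel_of_le]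
          rw [Finsupp.single_le_iff]
          omega
        have h6 := congrArg (coeff (m - Finsupp.single c 1)) (h1 c)
        rw [coeff_pderiv, ← h5, coeff_zero] at h6
        have h7 : ((((m - Finsupp.single c 1 : I →₀ ℕ) c : ℕ) : Kil S) + 1) ≠ 0 := by
          intro h8
          have h9 := congrArg (fun a : Kil S => (a : ℂ)) h8
          simp only [Subring.coe_add, Subring.coe_natCast, Subring.coe_one, Subring.coe_zero] at h9
          have h10 : ((((m - Finsupp.single c 1 : I →₀ ℕ) c + 1 : ℕ)) : ℂ) = 0 := by push_cast; exact h9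
          exact absurd (Nat.cast_eq_zero.1 h10) (Nat.succ_ne_zero _)
        exact congrArg Subtype.val ((mul_eq_zero.1 h6).resolve_right h7)
    rw [h2, aeval_C] at h0
    have h3 : coeff 0 P = 0 := Subtype.ext h0
    rw [h2, h3, map_zero]

theorem FreeOver.ne_zero {I : Type} [Fintype I] {S : Set ℂ} {w : I → ℂ} (hw : FreeOver S w)
    {P : MvPolynomial I (Kil S)} (hP : P ≠ 0) : aeval w P ≠ 0 := fun h =>
  hP (hw.ne_zero_aux _ P le_rfl h)

theorem exists_freeOver (ι : Type) [Finite ι] (S : Set ℂ) (hS : S.Countable) :
    ∃ v : ι → ℂ, FreeOver S v := by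
  classical
  obtain ⟨v, D, hk, h, -⟩ := Pool.Agent.H598R2.exists_dual_system ι S hS
  have := Fintype.ofFinite ι
  refine ⟨v, fun a => ⟨∑ c, a c • D c, fun s hs => ?_, fun c' => ?_⟩⟩
  · rw [← Derivation.coeFnAddMonoidHom_apply, map_sum, Finset.sum_apply]
    simp only [Derivation.coeFnAddMonoidHom_apply, Derivation.smul_apply]
    apply Finset.sum_eq_zero
    intro c _
    rw [hk c s hs, smul_zero]
  · rw [← Derivation.coeFnAddMonoidHom_apply, map_sum, Finset.sum_apply]
    simp only [Derivation.coeFnAddMonoidHom_apply, Derivation.smul_apply, h]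
    simp

theorem FreeOver.comp {I I' : Type} {S : Set ℂ} {w : I → ℂ} (hw : FreeOver S w) (f : I' → I)
    (hf : Function.Injective f) : FreeOver S (w ∘ f) := by
  classical
  intro a
  obtain ⟨D, h1, h2⟩ := hw (Function.extend f a 0)
  exact ⟨D, h1, fun c => by rw [Function.comp_apply, h2, hf.extend_apply]⟩

/-- Semicontinuity of the rank at free points. -/
theorem exists_set_rank {I : Type} [Fintype I] {V W : Type} [AddCommGroup V] [Module ℂ V]
    [FiniteDimensional ℂ V] [AddCommGroup W] [Module ℂ W] [FiniteDimensional ℂ W]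
    (L : I → (V →ₗ[ℂ] W)) (w : I → ℂ) :
    ∃ S : Set ℂ, S.Countable ∧ ∀ w' : I → ℂ, FreeOver S w' →
      Module.finrank ℂ (LinearMap.range (∑ c, w c • L c)) ≤
        Module.finrank ℂ (LinearMap.range (∑ c, w' c • L c)) := by
  classical
  set δ := ∑ c, w c • L c with hδ
  let r := Module.finrank ℂ (LinearMap.range δ)
  let b : Module.Basis (Fin r) ℂ (LinearMap.range δ) := Module.finBasis ℂ _
  have h1 : ∀ j, ∃ a : V, δ a = b j := fun j => (b j).2
  choose a ha using h1
  obtain ⟨l, hl⟩ := LinearMap.exists_leftInverse_of_injective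
    (LinearMap.range δ).subtype (Submodule.ker_subtype _)
  -- `β i` are functionals with `β i (δ (a j)) = δ_ij`
  let β : Fin r → (W →ₗ[ℂ] ℂ) := fun i => (b.coord i) ∘ₗ l
  have hβ : ∀ i j, β i (δ (a j)) = if i = j then 1 else 0 := by
    intro i j
    rw [ha]
    have h2 : l ((b j : LinearMap.range δ) : W) = b j := LinearMap.congr_fun hl (b j)
    simp only [β, LinearMap.comp_apply]
    rw [h2]
    simp [Finsupp.single_apply, eq_comm]
  refine ⟨Set.range (fun p : I × Fin r × Fin r => β p.2.1 (L p.1 (a p.2.2))),
    Set.countable_range _, ?_⟩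
  intro w' hw'
  let S : Set ℂ := Set.range (fun p : I × Fin r × Fin r => β p.2.1 (L p.1 (a p.2.2)))
  have hS : ∀ c i j, β i (L c (a j)) ∈ Kil S := fun c i j D hD => hD _ ⟨(c, i, j), rfl⟩
  let Q : Matrix (Fin r) (Fin r) (MvPolynomial I (Kil S)) :=
    Matrix.of (fun i j => ∑ c, C ⟨β i (L c (a j)), hS c i j⟩ * X c)
  have hQ : ∀ u : I → ℂ, aeval u Q.det = (Matrix.of (fun i j => β i ((∑ c, u c • L c) (a j)))).det := by
    intro u
    rw [AlgHom.map_det]
    congr 1
    ext i j
    simp only [Q, AlgHom.mapMatrix_apply, Matrix.map_apply, Matrix.of_apply, map_sum, map_mul,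
      aeval_C, aeval_X, LinearMap.sum_apply, LinearMap.smul_apply, map_smul, smul_eq_mul]
    apply Finset.sum_congr rfl
    intro c _
    rw [mul_comm]
    rfl
  have hne : Q.det ≠ 0 := by
    intro h
    have h2 := hQ w
    rw [h, map_zero, ← hδ] at h2
    have h3 : (Matrix.of (fun i j => β i (δ (a j)))) = (1 : Matrix (Fin r) (Fin r) ℂ) := by
      ext i j
      rw [Matrix.of_apply, hβ, Matrix.one_apply]
    rw [h3, Matrix.det_one] at h2
    exact zero_ne_one h2
  have h4 := hw'.ne_zero hne
  rw [hQ] at h4
  -- the vectors `δ' (a j)` are linearly independent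
  set δ' := ∑ c, w' c • L c with hδ'
  have h5 : LinearIndependent ℂ (fun j => (⟨δ' (a j), a j, rfl⟩ : LinearMap.range δ')) := by
    rw [Fintype.linearIndependent_iff]
    intro g hg
    have h6 : ∑ j, g j • δ' (a j) = 0 := by
      have := congrArg Subtype.val hg
      simpa using this
    have h7 : (Matrix.of (fun i j => β i (δ' (a j)))).mulVec g = 0 := by
      funext i
      have h8 := congrArg (β i) h6
      rw [map_sum, map_zero] at h8
      simp only [map_smul, smul_eq_mul] at h8
      simp only [Matrix.mulVec, dotProduct, Matrix.of_apply, Pi.zero_apply]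
      rw [← h8]
      apply Finset.sum_congr rfl
      intro j _
      ring
    have h9 := Matrix.eq_zero_of_mulVec_eq_zero h4 h7
    intro j
    rw [h9]; rfl
  have h6 := h5.fintype_card_le_finrank
  rw [Fintype.card_fin] at h6
  exact h6

end Pool.Agent.L7h86
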