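import Mathlib
import Pool.Agent.L7h86.Gen

/-!
# The numerical lemma
-/

set_option autoImplicit false

namespace Pool.Agent.L7h86

theorem qt_sA {S : Rep} (h : 0 < S.cl .A) : Qt sA S := by
  obtain ⟨φ, hφ⟩ := exists_functional ((Rep.cl_pos_iff (M := S) .A).1 h)
  let g : Hm S sA := Hm.mk3 (φ : S.V .A →ₗ[ℂ] ℂ) (0 : S.V .B →ₗ[ℂ] PUnit)
    (0 : S.V .C →ₗ[ℂ] PUnit) (fun v => rfl) (fun v => rfl) (fun v => rfl)
  refine ⟨g, fun i => ?_⟩
  cases i
  · exact hφ
  · intro v; exact ⟨0, rfl⟩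
  · intro v; exact ⟨0, rfl⟩

theorem qt_sC {S : Rep} (h : 0 < S.cl .C) : Qt sC S := by
  obtain ⟨φ, hφ⟩ := exists_functional ((Rep.cl_pos_iff (M := S) .C).1 h)
  let g : Hm S sC := Hm.mk3 (0 : S.V .A →ₗ[ℂ] PUnit) (0 : S.V .B →ₗ[ℂ] PUnit)
    (φ : S.V .C →ₗ[ℂ] ℂ) (fun v => rfl) (fun v => rfl) (fun v => rfl)
  refine ⟨g, fun i => ?_⟩
  cases i
  · intro v; exact ⟨0, rfl⟩
  · intro v; exact ⟨0, rfl⟩
  · exact hφ

theorem nz_sA : sA.Nz := by
  rw [Rep.nz_iff_cl]; exact ⟨.A, by rw [sA_cl.1]; exact one_pos⟩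

theorem nz_sC : sC.Nz := by
  rw [Rep.nz_iff_cl]; exact ⟨.C, by rw [sC_cl.2.2]; exact one_pos⟩

theorem cone_pos {x : Cls} (h0 : ∀ i, 0 ≤ x i) (hn : 1 ≤ x .B - x .A) (hq : chi x x ≤ 0) :
    0 < x .A ∧ 0 < x .B ∧ 0 < x .C ∧ 0 < x .B - x .C := by
  have hm := cone_m h0 hq
  have hA := h0 .A
  have hB := h0 .B
  have hC := h0 .C
  have h1 : (x .B - x .A) * (x .B - x .A) ≤ x .C * (x .B - x .C) := by
    unfold chi at hq; linarith
  have h2 : 0 < (x .B - x .A) * (x .B - x .A) := mul_pos (by omega) (by omega)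
  have h3 : 0 < x .C := by
    rcases lt_or_eq_of_le hC with h | h
    · exact h
    · rw [← h, zero_mul] at h1; omega
  have h4 : 0 < x .B - x .C := by
    rcases lt_or_eq_of_le hm with h | h
    · exact h
    · rw [← h, mul_zero] at h1; omega
  refine ⟨?_, by omega, h3, h4⟩
  rcases lt_or_eq_of_le hA with h | h
  · exact h
  · exfalso
    rw [← h] at h1
    nlinarith [sq_nonneg (x .B - 2 * x .C), mul_pos h3 h4]

theorem H0_of_not_iso {α : ℝ} (hα : 0 < α) {S T : Rep} (hS : Stable α S) (hT : Stable α T)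
    (h : S.cl = T.cl) (hn : ∀ g : Hm S T, g.Inj → g.Sur → False) : H0 S T := by
  by_contra h1
  obtain ⟨a, ha⟩ := NZ_of_not_H0 h1
  obtain ⟨h2, h3⟩ := schur hα hS hT (by rw [h, sg_self]) a ha
  exact hn a h2 h3

theorem par_sg {α : ℝ} {x y : Cls} (h : Par x y) : sg α x y = 0 := by
  have h1 : (x .A : ℝ) * y .B = x .B * y .A := by exact_mod_cast h .A .B
  have h2 : (x .A : ℝ) * y .C = x .C * y .A := by exact_mod_cast h .A .C
  have h3 : (x .B : ℝ) * y .C = x .C * y .B := by exact_mod_cast h .B .C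
  unfold sg
  push_cast
  linear_combination h1 + α * h2 - α * h3

theorem NL {α : ℝ} (hα : 0 < α) {x y : Cls} (hx0 : ∀ i, 0 ≤ x i) (hy0 : ∀ i, 0 ≤ y i)
    (hnx : 1 ≤ x .B - x .A) (hny : 1 ≤ y .B - y .A) (hqx : chi x x ≤ 0) (hqy : chi y y ≤ 0)
    (hGx : ∀ M : Rep, G M → M.cl = x → Stable α M) (hGy : ∀ M : Rep, G M → M.cl = y → Stable α M)
    (hs : 0 < sg α x y) (h0 : chi x y = 0) : False := by
  obtain ⟨xA, xB, xC, xm⟩ := cone_pos hx0 hnx hqx
  obtain ⟨yA, yB, yC, ym⟩ := cone_pos hy0 hny hqy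
  have hle : chi y x ≤ 0 := by
    have := cone_le hx0 hy0 hqx hqy
    omega
  obtain ⟨hlt, z, hzx, hzy, hzz, hz1, hz2⟩ := num_lemma hα hqx hqy h0 hs hle
  have hnx0 : x ≠ 0 := by
    intro h; rw [h] at xB; exact absurd xB (lt_irrefl _)
  have hny0 : y ≠ 0 := by
    intro h; rw [h] at yB; exact absurd yB (lt_irrefl _)
  obtain ⟨S, S', hGS, hGS', hSx, hSx', hSS⟩ := exists_pair x hx0 hqx hnx0
  obtain ⟨T, T', hGT, hGT', hTy, hTy', hTT⟩ := exists_pair y hy0 hqy hny0
  have sS := hGx S hGS hSx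
  have sS' := hGx S' hGS' hSx'
  have sT := hGy T hGT hTy
  have sT' := hGy T' hGT' hTy'
  have bS := sS.brick hα
  have bT := sT.brick hα
  have hnp : ¬ Par x y := by
    intro h
    rw [par_sg h] at hs
    exact absurd hs (lt_irrefl _)
  have stS : St (chi z) S := by
    intro X hX hXS hne
    apply hz1
    · rw [← hSx]; exact sS.st X hX hXS hne
    · rw [← hSx]; exact om_pos hGS bS hX hXS hne
  have stT : St (chi z) T := by
    intro X hX hXS hne
    apply hz2
    · rw [← hTy]; exact sT.st X hX hXS hne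
    · rw [← hTy]; exact om_pos hGT bT hX hXS hne
  have zA : 0 < z .A := by
    have h1 := stS.qt (by rw [hSx]; exact hzx) nz_sA (qt_sA (by rw [hSx]; exact xA)) (by
      intro h
      have h2 := congrFun h .A
      have h3 := congrFun h .B
      rw [sA_cl.1, hSx] at h2
      rw [sA_cl.2.1, hSx] at h3
      omega)
    simp only [chi, sA_cl.1, sA_cl.2.1, sA_cl.2.2] at h1
    linarith
  have zC : 0 < z .C := by
    have h1 := stS.qt (by rw [hSx]; exact hzx) nz_sC (qt_sC (by rw [hSx]; exact xC)) (by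
      intro h
      have h2 := congrFun h .B
      rw [sC_cl.2.1, hSx] at h2
      omega)
    simp only [chi, sC_cl.1, sC_cl.2.1, sC_cl.2.2] at h1
    linarith
  have zB : 0 < z .B := by
    have h1 : z .B * x .B = z .A * (2 * x .B - x .A) + z .C * (x .B - x .C) := by
      unfold chi at hzx; linarith
    have h2 : 0 < z .A * (2 * x .B - x .A) := mul_pos zA (by omega)
    have h3 : 0 < z .C * (x .B - x .C) := mul_pos zC xm
    exact (mul_pos_iff_of_pos_right xB).1 (by rw [h1]; omega)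
  rcases lt_or_eq_of_le hqx with hqx' | hqx'
  · rcases lt_or_eq_of_le hqy with hqy' | hqy'
    · -- the first case
      refine caseI (S := S) (T := T) (z := z) (fun i => by cases i <;> assumption)
        (by rw [hzz]; exact mul_pos_of_neg_of_neg hqx' hqy') (by rw [hSx]; exact hzx)
        (by rw [hTy]; exact hzy) stS stT (by rw [hSx, hTy]; exact hnp) sS.nz
        (by rw [hSx]; exact hqx) (by rw [hSx]; exact xB) (exists_G z (fun i => by
          cases i
          · exact zA.le
          · exact zB.le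
          · exact zC.le))
    · -- the third case
      have hpar : Par (rgt y) (lft z) := by
        apply par_fun hnp
        · rw [dot_rgt]; exact h0
        · rw [dot_rgt]; exact hqy'
        · rw [dot_lft]; exact hzx
        · rw [dot_lft]; exact hzy
      have hsgn : ∀ u, chi z u < 0 → 0 < chi u y := by
        intro u hu
        have h1 := par_dot hpar .A u
        rw [dot_rgt, dot_lft] at h1
        simp only [lft, rgt] at h1
        have h2 : 0 < (y .A - 2 * y .B) * chi z u := mul_pos_of_neg_of_neg (by omega) hu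
        rw [← h1] at h2
        exact (mul_pos_iff_of_pos_right zA).1 h2
      have e1 : H0 T T' := H0_of_not_iso hα sT sT' (by rw [hTy, hTy']) hTT
      have e2 : H0 T' T := H0_of_not_iso hα sT' sT (by rw [hTy, hTy']) (fun g h1 h2 =>
        hTT (g.inv h1 h2) (g.inv_inj h1 h2) (g.inv_sur h1 h2))
      have e3 : H0 S T' := H0_of_slope hα sS sT' (by rw [hSx, hTy']; exact hs.le) (by
        rw [hSx, hTy']
        intro h
        rw [h, sg_self] at hs
        exact absurd hs (lt_irrefl _))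
      refine caseIIa (S := S) (T := T) (T' := T') (by rw [hTy, hTy']) hGT (by rw [hTy]; exact hny)
        (by rw [hTy]; exact ym.le) sT.nz (by rw [hTy]; exact hqy')
        (E0_of_H0 e2 (by rw [hTy, hTy']; exact hqy')) (E0_of_H0 e1 (by rw [hTy, hTy']; exact hqy'))
        (E0_of_H0 e3 (by rw [hSx, hTy']; exact h0)) ?_ ?_ sS.nz (by rw [hSx]; exact hqx)
        (by rw [hSx, hTy]; exact h0) (by rw [hSx, hTy]; exact hlt)
      · intro X hX hXT hne
        rw [hTy]
        exact hsgn _ (stT X hX hXT hne)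
      · intro X hX hXS hne
        rw [hTy]
        exact hsgn _ (stS X hX hXS hne)
  · -- the second case
    have hpar : Par (lft x) (lft z) := by
      apply par_fun hnp
      · rw [dot_lft]; exact hqx'
      · rw [dot_lft]; exact h0
      · rw [dot_lft]; exact hzx
      · rw [dot_lft]; exact hzy
    have hst : St (chi x) S := St_of_par zA xA (par_lft hpar) stS
    have e1 : H0 S S' := H0_of_not_iso hα sS sS' (by rw [hSx, hSx']) hSS
    exact caseIIb (S := S) (S' := S') hGS bS (by rw [hSx, hSx']) (by rw [hSx]; exact hqx')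
      (by rw [hSx]; exact hnx) (by rw [hSx]; exact xA)
      (E0_of_H0 e1 (by rw [hSx, hSx']; exact hqx')) (by rw [hSx]; exact hst)

end Pool.Agent.L7h86
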