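import Mathlib
import Pool.Agent.L7h86.NL5
import Pool.Agent.L7h86.Free

/-!
# Multiples of isotropic classes
-/

set_option autoImplicit false

namespace Pool.Agent.L7h86

section GR

variable (ix : Vx → Type) [∀ i, Fintype (ix i)]

abbrev IxE : Type := Σ e : Ed, ix .B × ix e.s

noncomputable def gR (w : IxE ix → ℂ) : Rep where
  V i := ix i → ℂ
  f e := (Matrix.of (fun p q => w ⟨e, p, q⟩)).mulVecLin

theorem gR_cl (w : IxE ix → ℂ) (i : Vx) : (gR ix w).cl i = Fintype.card (ix i) := by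
  change ((Module.finrank ℂ (ix i → ℂ) : ℕ) : ℤ) = _
  simp

abbrev DomW : Type := ∀ i, (ix i → ℂ) →ₗ[ℂ] (ix i → ℂ)
abbrev CodW : Type := ∀ e : Ed, (ix e.s → ℂ) →ₗ[ℂ] (ix .B → ℂ)

/-- the complex as a linear function of the matrix entries -/
noncomputable def dW (w : IxE ix → ℂ) : DomW ix →ₗ[ℂ] CodW ix where
  toFun g := fun e => (Matrix.of (fun p q => w ⟨e, p, q⟩)).mulVecLin ∘ₗ (g e.s) -
    (g .B) ∘ₗ (Matrix.of (fun p q => w ⟨e, p, q⟩)).mulVecLin
  map_add' a b := by
    funext e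
    apply LinearMap.ext; intro v
    simp only [Pi.add_apply, LinearMap.sub_apply, LinearMap.comp_apply, LinearMap.add_apply,
      map_add]
    abel
  map_smul' c a := by
    funext e
    apply LinearMap.ext; intro v
    simp only [Pi.smul_apply, LinearMap.sub_apply, LinearMap.comp_apply, LinearMap.smul_apply,
      map_smul, RingHom.id_apply, smul_sub]

theorem dW_eq (w : IxE ix → ℂ) : dW ix w = dl (gR ix w) (gR ix w) := rfl

theorem dW_add (w w' : IxE ix → ℂ) : dW ix (w + w') = dW ix w + dW ix w' := by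
  have h : ∀ e : Ed, (Matrix.of (fun p q => (w + w') ⟨e, p, q⟩) : Matrix (ix .B) (ix e.s) ℂ) =
      Matrix.of (fun p q => w ⟨e, p, q⟩) + Matrix.of (fun p q => w' ⟨e, p, q⟩) := fun e => rfl
  apply LinearMap.ext; intro g
  funext e
  apply LinearMap.ext; intro v
  change (Matrix.of (fun p q => (w + w') ⟨e, p, q⟩)).mulVecLin (g e.s v) -
    g .B ((Matrix.of (fun p q => (w + w') ⟨e, p, q⟩)).mulVecLin v) =
    ((Matrix.of (fun p q => w ⟨e, p, q⟩)).mulVecLin (g e.s v) -
    g .B ((Matrix.of (fun p q => w ⟨e, p, q⟩)).mulVecLin v)) +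
    ((Matrix.of (fun p q => w' ⟨e, p, q⟩)).mulVecLin (g e.s v) -
    g .B ((Matrix.of (fun p q => w' ⟨e, p, q⟩)).mulVecLin v))
  rw [h, Matrix.mulVecLin_add, LinearMap.add_apply, LinearMap.add_apply, map_add]
  abel

theorem dW_smul (c : ℂ) (w : IxE ix → ℂ) : dW ix (c • w) = c • dW ix w := by
  have h : ∀ e : Ed, (Matrix.of (fun p q => (c • w) ⟨e, p, q⟩) : Matrix (ix .B) (ix e.s) ℂ) =
      c • Matrix.of (fun p q => w ⟨e, p, q⟩) := fun e => rfl
  have h2 : ∀ (e : Ed) (A : Matrix (ix .B) (ix e.s) ℂ) (v : ix e.s → ℂ),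
      (c • A).mulVecLin v = c • (A.mulVecLin v) := fun e A v => Matrix.smul_mulVec c A v
  apply LinearMap.ext; intro g
  funext e
  apply LinearMap.ext; intro v
  change (Matrix.of (fun p q => (c • w) ⟨e, p, q⟩)).mulVecLin (g e.s v) -
    g .B ((Matrix.of (fun p q => (c • w) ⟨e, p, q⟩)).mulVecLin v) =
    c • ((Matrix.of (fun p q => w ⟨e, p, q⟩)).mulVecLin (g e.s v) -
    g .B ((Matrix.of (fun p q => w ⟨e, p, q⟩)).mulVecLin v))
  rw [h, h2, h2, map_smul, smul_sub]

theorem dW_sum (w : IxE ix → ℂ) [DecidableEq (IxE ix)] :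
    dW ix w = ∑ c, w c • dW ix (Pi.single c 1) := by
  have h : w = ∑ c, w c • (Pi.single c (1 : ℂ) : IxE ix → ℂ) := by
    funext i
    simp [Finset.sum_apply, Pi.single_apply]
  let F : (IxE ix → ℂ) →ₗ[ℂ] (DomW ix →ₗ[ℂ] CodW ix) :=
    { toFun := dW ix, map_add' := dW_add ix, map_smul' := dW_smul ix }
  have h2 : F w = F (∑ c, w c • (Pi.single c (1 : ℂ) : IxE ix → ℂ)) := congrArg F h
  rw [map_sum] at h2
  simp only [map_smul] at h2
  exact h2

/-- every representation is given by matrices -/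
theorem exists_gR {N : Rep} (h : ∀ i, N.cl i = Fintype.card (ix i)) :
    ∃ (w : IxE ix → ℂ) (a : Hm N (gR ix w)), a.Inj ∧ a.Sur := by
  classical
  have hb : ∀ i, Nonempty (Module.Basis (ix i) ℂ (N.V i)) := by
    intro i
    have h1 : Module.finrank ℂ (N.V i) = Fintype.card (ix i) := by
      have := h i
      rw [cl_eq] at this
      exact_mod_cast this
    exact ⟨(Module.finBasisOfFinrankEq ℂ (N.V i) h1).reindex (Fintype.equivFin (ix i)).symm⟩
  let b : ∀ i, Module.Basis (ix i) ℂ (N.V i) := fun i => (hb i).some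
  let w : IxE ix → ℂ := fun c => LinearMap.toMatrix (b c.1.s) (b .B) (N.f c.1) c.2.1 c.2.2
  refine ⟨w, ⟨fun i => (b i).equivFun.toLinearMap, fun e v => ?_⟩, ?_, ?_⟩
  · have h1 := LinearMap.toMatrix_mulVec_repr (b e.s) (b .B) (N.f e) v
    exact h1
  · intro i; exact (b i).equivFun.injective
  · intro i; exact (b i).equivFun.surjective

theorem brick_iso {M N : Rep} (hM : Brick M) (a : Hm M N) (h1 : a.Inj) (h2 : a.Sur) :
    Brick N := by
  refine ⟨?_, fun g => ?_⟩
  · rw [Rep.nz_iff_ne, ← cl_eq_of_bij a h1 h2, ← Rep.nz_iff_ne]; exact hM.nz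
  · obtain ⟨c, hc⟩ := hM.sc ((a.inv h1 h2).comp (g.comp a))
    refine ⟨c, fun i v => ?_⟩
    obtain ⟨u, rfl⟩ := h2 i v
    have h3 := congrArg (a.g i) (hc i u)
    simp only [Hm.comp_g] at h3
    rw [a.inv_right, map_smul] at h3
    exact h3

/-- generic points have the smallest endomorphism algebras -/
theorem hom_le {N : Rep} (hN : Brick N) (h : ∀ i, N.cl i = Fintype.card (ix i)) :
    ∃ S : Set ℂ, S.Countable ∧ ∀ w' : IxE ix → ℂ, FreeOver S w' → hom (gR ix w') (gR ix w') ≤ 1 := by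
  classical
  obtain ⟨w, a, h1, h2⟩ := exists_gR ix h
  have hb := brick_iso hN a h1 h2
  obtain ⟨S, hS, h3⟩ := exists_set_rank (fun c => dW ix (Pi.single c 1)) w
  refine ⟨S, hS, fun w' hw' => ?_⟩
  have h4 := h3 w' hw'
  rw [← dW_sum, ← dW_sum] at h4
  have h5 := hb.hom_eq
  have h6 := LinearMap.finrank_range_add_finrank_ker (dW ix w)
  have h7 := LinearMap.finrank_range_add_finrank_ker (dW ix w')
  have h8 : Module.finrank ℂ (LinearMap.ker (dW ix w)) = 1 := h5
  have h9 : hom (gR ix w') (gR ix w') = Module.finrank ℂ (LinearMap.ker (dW ix w')) := rfl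
  rw [h9]
  omega

end GR

section Mat

variable {a b c : Type} [Fintype b]

theorem map_mul_der (D : Derivation ℚ ℂ ℂ) (A : Matrix a b ℂ) (B : Matrix b c ℂ) :
    (A * B).map D = A.map D * B + A * B.map D := by
  ext i j
  simp only [Matrix.map_apply, Matrix.mul_apply, Matrix.add_apply, map_sum]
  rw [← Finset.sum_add_distrib]
  apply Finset.sum_congr rfl
  intro k _
  rw [Derivation.leibniz]
  simp only [smul_eq_mul]
  ring

end Mat

section Blk

open Matrix

variable {m : ℕ} (n : Vx → ℕ)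

abbrev bix (m : ℕ) (n : Vx → ℕ) : Vx → Type := fun i => Fin m × Fin (n i)

/-- the block diagonal matrices of a direct sum -/
def Bd (w : Idx (fun _ : Fin m => n) → ℂ) (e : Ed) :
    Matrix (Fin m × Fin (n .B)) (Fin m × Fin (n e.s)) ℂ :=
  Matrix.of (fun p q => if p.1 = q.1 then w ⟨p.1, e, p.2, q.2⟩ else 0)

/-- the entries of the transformed direct sum -/
noncomputable def wst (w : Idx (fun _ : Fin m => n) → ℂ)
    (H G : ∀ i, Matrix (Fin m × Fin (n i)) (Fin m × Fin (n i)) ℂ) : IxE (bix m n) → ℂ :=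
  fun c => (H .B * Bd n w c.1 * G c.1.s) c.2.1 c.2.2

theorem blocks_exist {w : Idx (fun _ : Fin m => n) → ℂ}
    (hE : ∀ j j' : Fin m, j ≠ j' → E0 (gRep (fun _ => n) w j') (gRep (fun _ => n) w j))
    (ξ : ∀ e : Ed, Matrix (Fin m × Fin (n .B)) (Fin m × Fin (n e.s)) ℂ) :
    ∃ (Φ : ∀ i, Matrix (Fin m × Fin (n i)) (Fin m × Fin (n i)) ℂ),
      ∀ (e : Ed) (p : Fin m × Fin (n .B)) (q : Fin m × Fin (n e.s)), 
        (Φ .B * Bd n w e - Bd n w e * Φ e.s) p q = if p.1 = q.1 then 0 else ξ e p q := by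
  classical
  have h1 : ∀ j j' : Fin m, ∃ φ : ∀ i, Matrix (Fin (n i)) (Fin (n i)) ℂ,
      (j = j' → ∀ i, φ i = 0) ∧ (j ≠ j' → ∀ e p q,
        (φ .B * Matrix.of (fun p q => w ⟨j', e, p, q⟩) -
          Matrix.of (fun p q => w ⟨j, e, p, q⟩) * φ e.s : Matrix (Fin (n .B)) (Fin (n e.s)) ℂ) p q =
          ξ e (j, p) (j', q)) := by
    intro j j'
    by_cases h : j = j'
    · exact ⟨fun _ => 0, fun _ _ => rfl, fun h' => absurd h h'⟩
    · obtain ⟨g, hg⟩ := hE j j' h (fun e =>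
        (- Matrix.of (fun p q => ξ e (j, p) (j', q)) :
          Matrix (Fin (n .B)) (Fin (n e.s)) ℂ).mulVecLin)
      let g' : ∀ i, (Fin (n i) → ℂ) →ₗ[ℂ] (Fin (n i) → ℂ) := g
      refine ⟨fun i => LinearMap.toMatrix' (g' i), fun h' => absurd h' h, fun _ e p q => ?_⟩
      have h2 : (Matrix.of (fun p q => w ⟨j, e, p, q⟩)).mulVecLin ∘ₗ (g' e.s) -
          (g' .B) ∘ₗ (Matrix.of (fun p q => w ⟨j', e, p, q⟩)).mulVecLin =
          (- Matrix.of (fun p q => ξ e (j, p) (j', q)) :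
          Matrix (Fin (n .B)) (Fin (n e.s)) ℂ).mulVecLin := by
        apply LinearMap.ext
        intro v
        exact hg e v
      have h3 := congrArg LinearMap.toMatrix' h2
      rw [map_sub, LinearMap.toMatrix'_comp, LinearMap.toMatrix'_comp,
        ← Matrix.toLin'_apply', ← Matrix.toLin'_apply', ← Matrix.toLin'_apply',
        LinearMap.toMatrix'_toLin', LinearMap.toMatrix'_toLin',
        LinearMap.toMatrix'_toLin'] at h3
      have h4 := congrFun (congrFun h3 p) q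
      rw [Matrix.sub_apply] at h4 ⊢
      rw [Matrix.neg_apply, Matrix.of_apply] at h4
      linear_combination -h4
  choose φ hφ1 hφ2 using h1
  refine ⟨fun i => Matrix.of (fun p q => φ p.1 q.1 i p.2 q.2), ?_⟩
  rintro e ⟨j, p⟩ ⟨j', q⟩
  have e1 : (Matrix.of (fun (p : Fin m × Fin (n .B)) (q : Fin m × Fin (n .B)) =>
      φ p.1 q.1 .B p.2 q.2) * Bd n w e) (j, p) (j', q) =
      (φ j j' .B * Matrix.of (fun p q => w ⟨j', e, p, q⟩) :
        Matrix (Fin (n .B)) (Fin (n e.s)) ℂ) p q := by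
    rw [Matrix.mul_apply, Matrix.mul_apply, Fintype.sum_prod_type, Finset.sum_eq_single j']
    · apply Finset.sum_congr rfl
      intro k _
      simp [Bd]
    · intro b _ hb
      apply Finset.sum_eq_zero
      intro k _
      simp [Bd, hb]
    · intro h; exact absurd (Finset.mem_univ _) h
  have e2 : (Bd n w e * Matrix.of (fun (p : Fin m × Fin (n e.s)) (q : Fin m × Fin (n e.s)) =>
      φ p.1 q.1 e.s p.2 q.2)) (j, p) (j', q) =
      (Matrix.of (fun p q => w ⟨j, e, p, q⟩) * φ j j' e.s :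
        Matrix (Fin (n .B)) (Fin (n e.s)) ℂ) p q := by
    rw [Matrix.mul_apply, Matrix.mul_apply, Fintype.sum_prod_type, Finset.sum_eq_single j]
    · apply Finset.sum_congr rfl
      intro k _
      simp [Bd]
    · intro b _ hb
      apply Finset.sum_eq_zero
      intro k _
      simp [Bd, Ne.symm hb]
    · intro h; exact absurd (Finset.mem_univ _) h
  rw [Matrix.sub_apply]
  change (Matrix.of (fun (p : Fin m × Fin (n .B)) (q : Fin m × Fin (n .B)) =>
      φ p.1 q.1 .B p.2 q.2) * Bd n w e) (j, p) (j', q) -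
      (Bd n w e * Matrix.of (fun (p : Fin m × Fin (n e.s)) (q : Fin m × Fin (n e.s)) =>
      φ p.1 q.1 e.s p.2 q.2)) (j, p) (j', q) = _
  rw [e1, e2]
  by_cases h : j = j'
  · subst h
    rw [hφ1 j j rfl .B, hφ1 j j rfl e.s]
    simp
  · have h2 := hφ2 j j' h e p q
    rw [Matrix.sub_apply] at h2
    rw [h2, if_neg h]

theorem wst_free {S : Set ℂ} {w : Idx (fun _ : Fin m => n) → ℂ}
    (hE : ∀ j j' : Fin m, j ≠ j' → E0 (gRep (fun _ => n) w j') (gRep (fun _ => n) w j))
    {H G : ∀ i, Matrix (Fin m × Fin (n i)) (Fin m × Fin (n i)) ℂ}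
    (hHG : ∀ i, H i * G i = 1)
    (hfree : ∀ (a : Idx (fun _ : Fin m => n) → ℂ)
      (b : ∀ i, Matrix (Fin m × Fin (n i)) (Fin m × Fin (n i)) ℂ),
      ∃ D : Derivation ℚ ℂ ℂ, (∀ s ∈ S, D s = 0) ∧ (∀ c, D (w c) = a c) ∧
        ∀ i, (H i).map D = b i) :
    FreeOver S (wst n w H G) := by
  classical
  intro a
  have hGH : ∀ i, G i * H i = 1 := fun i => mul_eq_one_comm.1 (hHG i)
  let Ξ : ∀ e : Ed, Matrix (Fin m × Fin (n .B)) (Fin m × Fin (n e.s)) ℂ := fun e =>
    Matrix.of (fun p q => a ⟨e, p, q⟩)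
  let ξ : ∀ e : Ed, Matrix (Fin m × Fin (n .B)) (Fin m × Fin (n e.s)) ℂ := fun e =>
    G .B * Ξ e * H e.s
  obtain ⟨Φ, hΦ⟩ := blocks_exist n hE ξ
  obtain ⟨D, hD1, hD2, hD3⟩ := hfree (fun c => ξ c.2.1 (c.1, c.2.2.1) (c.1, c.2.2.2))
    (fun i => H i * Φ i)
  refine ⟨D, hD1, ?_⟩
  -- the derivative of the inverse
  have hG' : ∀ i, (G i).map D = - (Φ i * G i) := by
    intro i
    have h1 : (H i * G i).map D =
        (1 : Matrix (Fin m × Fin (n i)) (Fin m × Fin (n i)) ℂ).map D := by rw [hHG]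
    rw [map_mul_der, hD3] at h1
    have h2 : ((1 : Matrix (Fin m × Fin (n i)) (Fin m × Fin (n i)) ℂ)).map D = 0 := by
      ext p q
      rw [Matrix.map_apply, Matrix.one_apply]
      split_ifs
      · exact D.map_one_eq_zero
      · exact map_zero D
    rw [h2] at h1
    have h3 := congrArg (fun A => G i * A) h1
    simp only [mul_add, mul_zero] at h3
    rw [← mul_assoc, ← mul_assoc, ← mul_assoc, hGH, one_mul, one_mul] at h3
    exact eq_neg_of_add_eq_zero_right h3
  have hBd : ∀ e, Φ .B * Bd n w e + (Bd n w e).map D - Bd n w e * Φ e.s = ξ e := by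
    intro e
    ext ⟨j, p⟩ ⟨j', q⟩
    have h1 := hΦ e (j, p) (j', q)
    rw [Matrix.sub_apply] at h1
    have h2 : ((Bd n w e).map D) (j, p) (j', q) =
        if j = j' then ξ e (j, p) (j', q) else 0 := by
      rw [Matrix.map_apply]
      simp only [Bd, Matrix.of_apply]
      by_cases h : j = j'
      · subst h
        rw [if_pos rfl, if_pos rfl, hD2]
      · rw [if_neg h, if_neg h, map_zero]
    rw [Matrix.sub_apply, Matrix.add_apply, h2]
    by_cases h : j = j'
    · simp only [h, if_true] at h1 ⊢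
      linear_combination h1
    · simp only [h, if_false] at h1 ⊢
      linear_combination h1
  rintro ⟨e, p, q⟩
  have h1 : (H .B * Bd n w e * G e.s).map D = Ξ e := by
    rw [map_mul_der, map_mul_der, hD3, hG']
    have h2 : (H .B * Φ .B * Bd n w e + H .B * (Bd n w e).map D) * G e.s +
        H .B * Bd n w e * -(Φ e.s * G e.s) =
        H .B * (Φ .B * Bd n w e + (Bd n w e).map D - Bd n w e * Φ e.s) * G e.s := by
      simp only [Matrix.mul_add, Matrix.add_mul, Matrix.mul_sub, Matrix.sub_mul, Matrix.mul_neg,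
        Matrix.mul_assoc]
      abel
    rw [h2, hBd]
    change H .B * (G .B * Ξ e * H e.s) * G e.s = Ξ e
    rw [Matrix.mul_assoc (G .B), ← Matrix.mul_assoc (H .B), hHG, Matrix.one_mul,
      Matrix.mul_assoc, hHG, Matrix.mul_one]
  exact congrFun (congrFun h1 p) q

/-- the projection to a block -/
def Pj (j : Fin m) (k : ℕ) : Matrix (Fin m × Fin k) (Fin m × Fin k) ℂ :=
  Matrix.diagonal (fun p => if p.1 = j then 1 else 0)

theorem Bd_comm (w : Idx (fun _ : Fin m => n) → ℂ) (e : Ed) (j : Fin m) :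
    Bd n w e * Pj j (n e.s) = Pj j (n .B) * Bd n w e := by
  ext ⟨j1, p⟩ ⟨j2, q⟩
  rw [Pj, Pj, Matrix.mul_diagonal, Matrix.diagonal_mul]
  simp only [Bd, Matrix.of_apply]
  by_cases h : j1 = j2
  · subst h
    ring
  · simp [h]

theorem wst_not (hm : 2 ≤ m) {i0 : Vx} (hn : 0 < n i0) (w : Idx (fun _ : Fin m => n) → ℂ)
    {H G : ∀ i, Matrix (Fin m × Fin (n i)) (Fin m × Fin (n i)) ℂ}
    (hHG : ∀ i, H i * G i = 1) :
    ¬ hom (gR (bix m n) (wst n w H G)) (gR (bix m n) (wst n w H G)) ≤ 1 := by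
  classical
  intro hle
  have hGH : ∀ i, G i * H i = 1 := fun i => mul_eq_one_comm.1 (hHG i)
  let j0 : Fin m := ⟨0, by omega⟩
  let j1 : Fin m := ⟨1, by omega⟩
  rw [hom, finrank_le_one_iff] at hle
  obtain ⟨v, hv⟩ := hle
  have hid : (fun i => LinearMap.id : ∀ i, (gR (bix m n) (wst n w H G)).V i →ₗ[ℂ]
      (gR (bix m n) (wst n w H G)).V i) ∈ LinearMap.ker (dl (gR (bix m n) (wst n w H G))
      (gR (bix m n) (wst n w H G))) := mem_ker_dl.2 (fun _ _ => rfl)
  let g : ∀ i, (bix m n i → ℂ) →ₗ[ℂ] (bix m n i → ℂ) := fun i =>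
    (H i * Pj j0 (n i) * G i).mulVecLin
  have hg : (g : ∀ i, (gR (bix m n) (wst n w H G)).V i →ₗ[ℂ]
      (gR (bix m n) (wst n w H G)).V i) ∈ LinearMap.ker (dl (gR (bix m n) (wst n w H G))
      (gR (bix m n) (wst n w H G))) := by
    refine mem_ker_dl.2 (fun e u => ?_)
    have h1 : ∀ u : bix m n e.s → ℂ, (H .B * Bd n w e * G e.s).mulVec
        ((H e.s * Pj j0 (n e.s) * G e.s).mulVec u) =
        (H .B * Pj j0 (n .B) * G .B).mulVec ((H .B * Bd n w e * G e.s).mulVec u) := by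
      intro u
      rw [Matrix.mulVec_mulVec, Matrix.mulVec_mulVec]
      congr 1
      have e1 : H .B * Bd n w e * G e.s * (H e.s * Pj j0 (n e.s) * G e.s) =
          H .B * (Bd n w e * Pj j0 (n e.s)) * G e.s := by
        calc H .B * Bd n w e * G e.s * (H e.s * Pj j0 (n e.s) * G e.s)
            = H .B * Bd n w e * (G e.s * H e.s) * (Pj j0 (n e.s) * G e.s) := by
              simp only [Matrix.mul_assoc]
          _ = _ := by rw [hGH, Matrix.mul_one]; simp only [Matrix.mul_assoc]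
      have e2 : H .B * Pj j0 (n .B) * G .B * (H .B * Bd n w e * G e.s) =
          H .B * (Pj j0 (n .B) * Bd n w e) * G e.s := by
        calc H .B * Pj j0 (n .B) * G .B * (H .B * Bd n w e * G e.s)
            = H .B * Pj j0 (n .B) * (G .B * H .B) * (Bd n w e * G e.s) := by
              simp only [Matrix.mul_assoc]
          _ = _ := by rw [hGH, Matrix.mul_one]; simp only [Matrix.mul_assoc]
      rw [e1, e2, Bd_comm]
    exact h1 u
  obtain ⟨c1, hc1⟩ := hv ⟨_, hid⟩
  obtain ⟨c2, hc2⟩ := hv ⟨_, hg⟩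
  let q0 : bix m n i0 := (j0, ⟨0, hn⟩)
  let q1 : bix m n i0 := (j1, ⟨0, hn⟩)
  -- `g` is a multiple of the identity
  let v0 : (bix m n i0 → ℂ) →ₗ[ℂ] (bix m n i0 → ℂ) := v.1 i0
  have hc1' : ∀ u : bix m n i0 → ℂ, c1 • (v0 u) = u := by
    intro u
    have h1 := congrArg Subtype.val hc1
    have h2 := congrFun h1 i0
    exact LinearMap.congr_fun h2 u
  have hc2' : ∀ u : bix m n i0 → ℂ, c2 • (v0 u) = g i0 u := by
    intro u
    have h1 := congrArg Subtype.val hc2
    have h2 := congrFun h1 i0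
    exact LinearMap.congr_fun h2 u
  have hc10 : c1 ≠ 0 := by
    rintro rfl
    have h1 := hc1' (Pi.single q0 1)
    rw [zero_smul] at h1
    have h2 := congrFun h1 q0
    rw [Pi.single_eq_same] at h2
    exact zero_ne_one h2
  have hgc : ∀ u : bix m n i0 → ℂ, g i0 u = (c2 / c1) • u := by
    intro u
    rw [← hc2']
    conv_rhs => rw [← hc1' u]
    rw [smul_smul, div_mul_cancel₀ _ hc10]
  have hP : ∀ u : bix m n i0 → ℂ, (Pj j0 (n i0)).mulVec u = (c2 / c1) • u := by
    intro u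
    have h1 := hgc ((H i0).mulVec u)
    have h2 : g i0 ((H i0).mulVec u) = (H i0).mulVec ((Pj j0 (n i0)).mulVec u) := by
      change (H i0 * Pj j0 (n i0) * G i0).mulVec ((H i0).mulVec u) = _
      rw [Matrix.mulVec_mulVec, Matrix.mulVec_mulVec, Matrix.mul_assoc, hGH, Matrix.mul_one]
    rw [h2] at h1
    have h3 := congrArg ((G i0).mulVec) h1
    rw [Matrix.mulVec_mulVec, hGH, Matrix.one_mulVec, Matrix.mulVec_smul, Matrix.mulVec_mulVec,
      hGH, Matrix.one_mulVec] at h3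
    exact h3
  have h0 := congrFun (hP (Pi.single q0 1)) q0
  have h1 := congrFun (hP (Pi.single q1 1)) q1
  rw [Pj, Matrix.mulVec_diagonal, Pi.smul_apply, Pi.single_eq_same] at h0 h1
  have e0 : (q0 : Fin m × Fin (n i0)).1 = j0 := rfl
  have e1 : ¬ (q1 : Fin m × Fin (n i0)).1 = j0 := by
    intro h
    have := congrArg Fin.val h
    simp [q1, j0, j1] at this
  rw [if_pos e0] at h0
  rw [if_neg e1] at h1
  simp only [mul_one, smul_eq_mul, zero_mul] at h0 h1
  rw [← h0] at h1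
  exact zero_ne_one h1

end Blk

/-- A multiple of an isotropic class is not the class of a stable representation. -/
theorem iso_lemma {α : ℝ} (hα : 0 < α) {z : Cls} (hz : ∀ i, 0 ≤ z i) (hne : z ≠ 0)
    (hq : chi z z = 0) (hG : ∀ M : Rep, G M → M.cl = z → Stable α M) (m : ℕ) (hm : 2 ≤ m)
    {N : Rep} (hN : Brick N) (hcl : ∀ i, N.cl i = m * z i) : False := by
  classical
  let n : Vx → ℕ := fun i => (z i).toNat
  have hnz : ∀ i, ((n i : ℕ) : ℤ) = z i := fun i => Int.toNat_of_nonneg (hz i)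
  obtain ⟨S, hS, hle⟩ := hom_le (bix m n) hN (fun i => by
    rw [hcl, ← hnz, Fintype.card_prod, Fintype.card_fin, Fintype.card_fin]
    push_cast; rfl)
  let ι : Type := Idx (fun _ : Fin m => n) ⊕ (Σ i : Vx, (Fin m × Fin (n i)) × (Fin m × Fin (n i)))
  obtain ⟨v, hv⟩ := exists_freeOver ι S hS
  let w : Idx (fun _ : Fin m => n) → ℂ := fun c => v (Sum.inl c)
  let H : ∀ i, Matrix (Fin m × Fin (n i)) (Fin m × Fin (n i)) ℂ := fun i =>
    Matrix.of (fun p q => v (Sum.inr ⟨i, p, q⟩))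
  have hdet : ∀ i, (H i).det ≠ 0 := by
    intro i
    have h1 : FreeOver S (v ∘ (fun c : (Fin m × Fin (n i)) × (Fin m × Fin (n i)) =>
        (Sum.inr ⟨i, c⟩ : ι))) := hv.comp _ (by
      intro c c' h
      have h2 := Sum.inr_injective h
      simpa using h2)
    have h2 := h1.ne_zero (Matrix.det_mvPolynomialX_ne_zero (Fin m × Fin (n i)) (Kil S))
    rw [AlgHom.map_det] at h2
    change ((MvPolynomial.aeval fun p => H i p.1 p.2).mapMatrix
      (Matrix.mvPolynomialX (Fin m × Fin (n i)) (Fin m × Fin (n i)) (Kil S))).det ≠ 0 at h2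
    rw [Matrix.mvPolynomialX_mapMatrix_aeval (Kil S) (H i)] at h2
    exact h2
  let Gi : ∀ i, Matrix (Fin m × Fin (n i)) (Fin m × Fin (n i)) ℂ := fun i => (H i)⁻¹
  have hHG : ∀ i, H i * Gi i = 1 := fun i =>
    Matrix.mul_nonsing_inv _ (isUnit_iff_ne_zero.2 (hdet i))
  -- the summands
  have hver : Versal (gRep (fun _ : Fin m => n) w) := by
    apply versal_of_free
    intro a
    obtain ⟨D, _, hD⟩ := hv (Sum.elim a (fun _ => 0))
    exact ⟨D, fun c => hD (Sum.inl c)⟩
  have hTcl : ∀ j, (gRep (fun _ : Fin m => n) w j).cl = z := by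
    intro j
    funext i
    rw [gRep_cl, hnz]
  have hst : ∀ j, Stable α (gRep (fun _ : Fin m => n) w j) := fun j => hG _ (hver.G j) (hTcl j)
  have hEE : ∀ j, ¬ E0 (gRep (fun _ : Fin m => n) w j) (gRep (fun _ : Fin m => n) w j) := by
    intro j hE
    have h2 := chi_pos_of hE (not_H0_of_NZ (NZ_of_inj (Hm.id _) (Hm.id_inj _) (hst j).nz))
    rw [hTcl] at h2
    omega
  have hE : ∀ j j' : Fin m, j ≠ j' →
      E0 (gRep (fun _ : Fin m => n) w j') (gRep (fun _ : Fin m => n) w j) := by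
    intro j j' hjj
    apply E0_of_H0
    · refine H0_of_not_iso hα (hst j') (hst j) (by rw [hTcl, hTcl]) (fun g h1 h2 => ?_)
      exact hver.not_iso hjj.symm (hEE j') g h1 h2
    · rw [hTcl, hTcl]; exact hq
  have hfree := wst_free n (S := S) hE hHG (fun a b => by
    obtain ⟨D, h1, h2⟩ := hv (Sum.elim a (fun c => b c.1 c.2.1 c.2.2))
    refine ⟨D, h1, fun c => h2 (Sum.inl c), fun i => ?_⟩
    ext p q
    exact h2 (Sum.inr ⟨i, p, q⟩))
  obtain ⟨i0, hi0⟩ : ∃ i, 0 < n i := by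
    by_contra h
    push Not at h
    apply hne
    funext i
    rw [← hnz]
    have := h i
    simp only [Pi.zero_apply]
    omega
  exact wst_not n hm hi0 w hHG (hle _ hfree)

end Pool.Agent.L7h86
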