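import Mathlib
import Pool.Agent.L7h86.Defs
import Pool.Agent.L7h86.Iso

/-!
# The main induction
-/

set_option autoImplicit false

namespace Pool.Agent.L7h86

/-- the class of the representation attached to a coherent system of type `(n, d, k)` -/
def cls (n d k : ℤ) : Cls
  | .A => d
  | .B => n + d
  | .C => k

theorem chi_cls (n₁ d₁ k₁ n₂ d₂ k₂ : ℤ) :
    chi (cls n₁ d₁ k₁) (cls n₂ d₂ k₂) = euler n₁ d₁ k₁ n₂ d₂ k₂ := by
  simp only [chi, cls, euler]; ring

theorem sg_cls (α : ℝ) (n₁ d₁ k₁ n₂ d₂ k₂ : ℤ) :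
    sg α (cls n₁ d₁ k₁) (cls n₂ d₂ k₂) = n₂ * (d₁ + α * k₁) - n₁ * (d₂ + α * k₂) := by
  simp only [sg, cls]; push_cast; ring

theorem cls_eta (u : Cls) : cls (u .B - u .A) (u .A) (u .C) = u := by
  funext i
  cases i
  · rfl
  · simp [cls]
  · rfl

theorem slope_iff {α : ℝ} {n n' : ℕ} (hn : 1 ≤ n) (hn' : 1 ≤ n') (d k d' k' : ℤ) :
    ((d : ℝ) + α * k) / n ≤ ((d' : ℝ) + α * k') / n' ↔
      sg α (cls n d k) (cls n' d' k') ≤ 0 := by
  have h1 : (0 : ℝ) < n := by exact_mod_cast hn
  have h2 : (0 : ℝ) < n' := by exact_mod_cast hn'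
  rw [div_le_div_iff₀ h1 h2, sg_cls]
  push_cast
  constructor
  · intro h; linarith
  · intro h; linarith

theorem irr_zero {α : ℝ} (h : Irrational α) {a b : ℤ} (h0 : (a : ℝ) + α * b = 0) :
    a = 0 ∧ b = 0 := by
  by_cases hb : b = 0
  · rw [hb] at h0
    refine ⟨?_, hb⟩
    have : (a : ℝ) = 0 := by simpa using h0
    exact_mod_cast this
  · exfalso
    have hb' : (b : ℝ) ≠ 0 := by exact_mod_cast hb
    have h1 : α = ((-a : ℤ) : ℝ) / (b : ℝ) := by
      field_simp
      push_cast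
      linarith
    rw [irrational_iff_ne_rational] at h
    exact h (-a) b hb h1

/-- proportional classes for irrational parameters -/
theorem sg_zero {α : ℝ} (h : Irrational α) {x y : Cls} (h0 : sg α x y = 0) (i : Vx) :
    (y .B - y .A) * x i = (x .B - x .A) * y i := by
  have h1 : (((y .B - y .A) * x .A - (x .B - x .A) * y .A : ℤ) : ℝ) +
      α * (((y .B - y .A) * x .C - (x .B - x .A) * y .C : ℤ) : ℝ) = 0 := by
    rw [← h0]; unfold sg; push_cast; ring
  obtain ⟨h2, h3⟩ := irr_zero h h1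
  cases i
  · linarith
  · linarith
  · linarith

section Ind

variable {α : ℝ} (hα : 0 < α) (hirr : Irrational α)

/-- the statement proved by induction -/
def Stmt (α : ℝ) (n : ℕ) : Prop := ∀ d k : ℤ,
  (Adm α n d k → ∀ M : Rep, G M → M.cl = cls n d k → Stable α M) ∧
  (∀ M : Rep, Stable α M → M.cl = cls n d k → Adm α n d k)

include hα in
theorem C_le {n : ℕ} (hn : 1 ≤ n) {d k : ℤ} {M : Rep} (hM : Stable α M)
    (hcl : M.cl = cls n d k) : k ≤ n + d := by
  have hinj : Function.Injective M.fz := by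
    rw [injective_iff_map_eq_zero]
    intro v hv
    by_contra hv0
    let Y : SubR M := ⟨fun i => match i with
        | .A => ⊥
        | .B => ⊥
        | .C => LinearMap.ker M.fz, by
          intro e v hv
          cases e
          · change M.f .x v = 0
            have : v = 0 := hv
            rw [this, map_zero]
          · change M.f .y v = 0
            have : v = 0 := hv
            rw [this, map_zero]
          · exact hv⟩
    have hYn : Y.rep.Nz := ⟨.C, ⟨v, hv⟩, fun h => hv0 (congrArg Subtype.val h)⟩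
    have hA : Y.rep.cl .A = 0 := by
      rw [cl_eq]
      have : Module.finrank ℂ (Y.rep.V .A) = 0 := finrank_bot ℂ (M.V .A)
      rw [this]; rfl
    have hB : Y.rep.cl .B = 0 := by
      rw [cl_eq]
      have : Module.finrank ℂ (Y.rep.V .B) = 0 := finrank_bot ℂ (M.V .B)
      rw [this]; rfl
    have hC : 0 < Y.rep.cl .C := by
      obtain ⟨i, hi⟩ := Rep.nz_iff_cl.1 hYn
      cases i <;> omega
    have hMB : M.cl .B = n + d := by rw [hcl]; rfl
    have hMA : M.cl .A = d := by rw [hcl]; rfl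
    have h0 := M.cl_nonneg .A
    have h1 := hM.st Y.rep hYn ⟨Y.i, Y.ses.inj⟩ (by
      intro h
      have := congrFun h .B
      omega)
    unfold sg at h1
    rw [hA, hB, hMA, hMB] at h1
    push_cast at h1
    have h2 : (0 : ℝ) < Y.rep.cl .C := by exact_mod_cast hC
    have h3 : (0 : ℝ) < n := by exact_mod_cast hn
    have h4 := mul_pos h3 (mul_pos hα h2)
    nlinarith
  have h1 := LinearMap.finrank_le_finrank_of_injective hinj
  have h2 : M.cl .C ≤ M.cl .B := by
    rw [cl_eq, cl_eq]; exact_mod_cast h1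
  rw [hcl] at h2
  exact h2

/-- the tests of the criterion hold for stable representations -/
theorem tests (hα : 0 < α) {n : ℕ} (hn : 1 ≤ n) (ih : ∀ n' < n, 1 ≤ n' → Stmt α n') {d k : ℤ}
    {M : Rep} (hM : Stable α M) (hcl : M.cl = cls n d k) :
    ∀ (n' : ℕ) (_ : 1 ≤ n') (_ : n' < n) (d' k' : ℤ), k' * (n' + d' - k') = (n' : ℤ) ^ 2 - 1 →
    Adm α n' d' k' →
    (((d : ℝ) + α * k) / n ≤ ((d' : ℝ) + α * k') / n' → euler n' d' k' n d k ≤ 0) ∧
    (((d' : ℝ) + α * k') / n' ≤ ((d : ℝ) + α * k) / n → euler n d k n' d' k' ≤ 0) := by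
  intro n' h1 h2 d' k' _ h4
  have h5 := h4
  rw [Adm] at h5
  obtain ⟨a1, a2, a3, _⟩ := h5
  obtain ⟨E, hE, hEcl⟩ := exists_G (cls n' d' k') (fun i => by
    cases i
    · exact a1
    · change (0 : ℤ) ≤ n' + d'
      omega
    · exact a2)
  have sE := (ih n' h2 h1 d' k').1 h4 E hE hEcl
  have hne : E.cl ≠ M.cl := by
    intro h
    rw [hEcl, hcl] at h
    have e1 := congrFun h .A
    have e2 := congrFun h .B
    simp only [cls] at e1 e2
    omega
  constructor
  · intro h
    rw [slope_iff hn h1, ← hcl, ← hEcl, sg_swap] at h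
    have h6 := H0_of_slope hα sE hM (by linarith) hne
    rw [← chi_cls, ← hcl, ← hEcl]
    exact chi_nonpos_of h6
  · intro h
    rw [slope_iff h1 hn, ← hcl, ← hEcl, sg_swap] at h
    have h6 := H0_of_slope hα hM sE (by linarith) hne.symm
    rw [← chi_cls, ← hcl, ← hEcl]
    exact chi_nonpos_of h6

theorem nec (hα : 0 < α) {n : ℕ} (hn : 1 ≤ n) (ih : ∀ n' < n, 1 ≤ n' → Stmt α n') {d k : ℤ}
    {M : Rep} (hM : Stable α M) (hcl : M.cl = cls n d k) : Adm α n d k := by
  have hd : 0 ≤ d := by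
    have := M.cl_nonneg .A
    rw [hcl] at this; exact this
  have hk : 0 ≤ k := by
    have := M.cl_nonneg .C
    rw [hcl] at this; exact this
  have hle := C_le hα hn hM hcl
  have hq := (hM.brick hα).q_le
  rw [hcl, chi_cls] at hq
  have hq' : euler n d k n d k = (n : ℤ) ^ 2 - k * (n + d - k) := by unfold euler; ring
  have ht := tests hα hn ih hM hcl
  rw [Adm]
  refine ⟨hd, hk, hle, by rw [hq'] at hq; linarith, ?_, ht⟩
  intro hiso
  -- the isotropic case
  by_contra hg
  set g : ℕ := Int.gcd (Int.gcd n d) k with hgdef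
  have hg1 : (g : ℤ) ∣ n := by
    have h1 : (g : ℤ) ∣ ((Int.gcd n d : ℕ) : ℤ) := Int.gcd_dvd_left _ _
    exact h1.trans (Int.gcd_dvd_left _ _)
  have hg2 : (g : ℤ) ∣ d := by
    have h1 : (g : ℤ) ∣ ((Int.gcd n d : ℕ) : ℤ) := Int.gcd_dvd_left _ _
    exact h1.trans (Int.gcd_dvd_right _ _)
  have hg3 : (g : ℤ) ∣ k := Int.gcd_dvd_right _ _
  have hgpos : 0 < g := by
    rcases Nat.eq_zero_or_pos g with h | h
    · rw [h] at hg1
      have : (n : ℤ) = 0 := by simpa using hg1
      omega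
    · exact h
  have hg2' : 2 ≤ g := by omega
  obtain ⟨n0z, hn0⟩ := hg1
  obtain ⟨d0, hd0⟩ := hg2
  obtain ⟨k0, hk0⟩ := hg3
  have hn0pos : 0 < n0z := by
    have h1 : (0 : ℤ) < g * n0z := by rw [← hn0]; exact_mod_cast hn
    exact (mul_pos_iff_of_pos_left (by exact_mod_cast hgpos)).1 h1
  obtain ⟨n0, rfl⟩ := Int.eq_ofNat_of_zero_le hn0pos.le
  have hn0' : n = g * n0 := by exact_mod_cast hn0
  have hn01 : 1 ≤ n0 := by
    have : (0 : ℤ) < (n0 : ℤ) := hn0pos
    omega
  have hn0lt : n0 < n := by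
    rw [hn0']; nlinarith
  have hgZ : (0 : ℤ) < (g : ℤ) := by exact_mod_cast hgpos
  have hq0 : k0 * (n0 + d0 - k0) = (n0 : ℤ) ^ 2 := by
    have h1 : ((g : ℤ) * g) * (k0 * (n0 + d0 - k0)) = (g * g) * (n0 : ℤ) ^ 2 := by
      have h2 := hiso
      rw [hd0, hk0, hn0] at h2
      linarith
    exact mul_left_cancel₀ (mul_pos hgZ hgZ).ne' h1
  have hadm : Adm α n0 d0 k0 := by
    rw [Adm]
    refine ⟨?_, ?_, ?_, ?_, ?_, ?_⟩
    · rw [hd0] at hd; exact nonneg_of_mul_nonneg_right hd hgZ
    · rw [hk0] at hk; exact nonneg_of_mul_nonneg_right hk hgZ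
    · rw [hk0, hd0, hn0] at hle
      have h1 : 0 ≤ (g : ℤ) * (n0 + d0 - k0) := by linarith
      have h2 := nonneg_of_mul_nonneg_right h1 hgZ
      linarith
    · rw [hq0]; linarith
    · intro _
      have h1 : (g : ℤ) * ((Int.gcd (Int.gcd n0 d0) k0 : ℕ) : ℤ) = g := by
        have h2 : Int.gcd n d = g * Int.gcd n0 d0 := by
          rw [hn0', hd0]
          push_cast
          rw [Int.gcd_mul_left]
          simp
        have h3 : g = g * Int.gcd (Int.gcd n0 d0) k0 := by
          conv_lhs => rw [hgdef, h2, hk0]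
          push_cast
          rw [Int.gcd_mul_left]
          simp
        exact_mod_cast h3.symm
      have h4 : ((Int.gcd (Int.gcd n0 d0) k0 : ℕ) : ℤ) = 1 := by
        have h5 : (g : ℤ) * ((Int.gcd (Int.gcd n0 d0) k0 : ℕ) : ℤ) = g * 1 := by
          rw [h1, mul_one]
        exact mul_left_cancel₀ hgZ.ne' h5
      exact_mod_cast h4
    · intro n' h1 h2 d' k' h3 h4
      obtain ⟨t1, t2⟩ := ht n' h1 (h2.trans hn0lt) d' k' h3 h4
      have hs : ((d : ℝ) + α * k) / n = ((d0 : ℝ) + α * k0) / n0 := by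
        have e1 : (d : ℝ) = g * d0 := by exact_mod_cast hd0
        have e2 : (k : ℝ) = g * k0 := by exact_mod_cast hk0
        have e3 : (n : ℝ) = g * n0 := by exact_mod_cast hn0'
        have e4 : (g : ℝ) ≠ 0 := by exact_mod_cast hgpos.ne'
        have e5 : (n0 : ℝ) ≠ 0 := by
          have : n0 ≠ 0 := by omega
          exact_mod_cast this
        rw [e1, e2, e3]
        field_simp
      rw [hs] at t1 t2
      constructor
      · intro h
        have h5 := t1 h
        have h6 : euler n' d' k' n d k = g * euler n' d' k' n0 d0 k0 := by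
          rw [hn0, hd0, hk0]
          simp only [euler]; ring
        rw [h6] at h5
        by_contra h7
        push Not at h7
        have := mul_pos hgZ h7
        omega
      · intro h
        have h5 := t2 h
        have h6 : euler n d k n' d' k' = g * euler n0 d0 k0 n' d' k' := by
          rw [hn0, hd0, hk0]
          simp only [euler]; ring
        rw [h6] at h5
        by_contra h7
        push Not at h7
        have := mul_pos hgZ h7
        omega
  have hG0 := (ih n0 hn0lt hn01 d0 k0).1 hadm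
  refine iso_lemma hα (z := cls n0 d0 k0) ?_ ?_ ?_ hG0 g hg2' (hM.brick hα) ?_
  · intro i
    have h1 := hadm
    rw [Adm] at h1
    obtain ⟨a1, a2, _⟩ := h1
    cases i
    · exact a1
    · change (0 : ℤ) ≤ n0 + d0
      omega
    · exact a2
  · intro h
    have e1 := congrFun h .A
    have e2 := congrFun h .B
    simp only [cls, Pi.zero_apply] at e1 e2
    omega
  · rw [chi_cls]
    have : euler n0 d0 k0 n0 d0 k0 = (n0 : ℤ) ^ 2 - k0 * (n0 + d0 - k0) := by unfold euler; ring
    rw [this, hq0]; ring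
  · intro i
    rw [hcl]
    cases i
    · simp only [cls]; exact hd0
    · simp only [cls]; rw [hn0, hd0]; ring
    · simp only [cls]; exact hk0

theorem eq_of_bij {α : ℝ} {S M : Rep} (hS : Stable α S) (a : Hm S M) (h1 : a.Inj) (h2 : a.Sur) :
    Stable α M := by
  have hcl := cl_eq_of_bij a h1 h2
  refine ⟨?_, ?_⟩
  · rw [Rep.nz_iff_ne, ← hcl, ← Rep.nz_iff_ne]; exact hS.nz
  · rintro X hX ⟨b, hb⟩ hne
    rw [← hcl]
    exact hS.st X hX ⟨(a.inv h1 h2).comp b, (a.inv_inj h1 h2).comp hb⟩ (by rw [hcl]; exact hne)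

theorem test_q {n : ℕ} {d k : ℤ} (h : chi (cls n d k) (cls n d k) = 1) :
    k * (n + d - k) = (n : ℤ) ^ 2 - 1 := by
  rw [chi_cls] at h
  unfold euler at h
  linarith

theorem suff (hα : 0 < α) (hirr : Irrational α) {n : ℕ} (hn : 1 ≤ n)
    (ih : ∀ n' < n, 1 ≤ n' → Stmt α n') {d k : ℤ} (hadm : Adm α n d k)
    {M : Rep} (hG : G M) (hcl : M.cl = cls n d k) : Stable α M := by
  rw [Adm] at hadm
  obtain ⟨hd, hk, hkn, hβ, hgcd, ht⟩ := hadm
  have hMA : M.cl .A = d := by rw [hcl]; rfl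
  have hMB : M.cl .B = n + d := by rw [hcl]; rfl
  have hMC : M.cl .C = k := by rw [hcl]; rfl
  have hMn : M.Nz := by
    rw [Rep.nz_iff_cl]
    exact ⟨.B, by rw [hMB]; omega⟩
  have hnM : 1 ≤ M.cl .B - M.cl .A := by omega
  have hmM : 0 ≤ M.cl .B - M.cl .C := by omega
  by_contra hnst
  obtain ⟨S, hSM, sS, hmax⟩ := exists_max_sub hα hMn
  obtain ⟨T, hTM, sT, hmin⟩ := exists_min_quo hα hMn
  have rM := rk_pos hα hMn
  have rS := rk_pos hα sS.nz
  have rT := rk_pos hα sT.nz
  obtain ⟨a, ha⟩ := hSM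
  -- a destabilizing subrepresentation
  have hex : ∃ X : Rep, X.Nz ∧ Sb X M ∧ X.cl ≠ M.cl ∧ 0 ≤ sg α X.cl M.cl := by
    by_contra h
    push Not at h
    exact hnst ⟨hMn, fun X h1 h2 h3 => h X h1 h2 h3⟩
  obtain ⟨X, hXn, hXM, hXne, hX⟩ := hex
  have rX := rk_pos hα hXn
  have hSM0 : 0 ≤ sg α S.cl M.cl := by
    have h1 : sg α M.cl X.cl ≤ 0 := by rw [sg_swap]; linarith
    have h2 := sg_le_trans rM rX rS h1 (hmax X hXn hXM)
    rw [sg_swap] at h2
    linarith
  have hSne : S.cl ≠ M.cl := by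
    intro h
    exact hnst (eq_of_bij sS a ha (sur_of_inj_cl a ha (fun i => by rw [h])))
  have hses := a.ses_of_inj ha
  have hsum := hses.cl
  have hnS : 1 ≤ S.cl .B - S.cl .A := n_sub hG hnM hmM sS.nz ⟨a, ha⟩
  have hleS := cl_le_of_inj a ha
  have hESQ := hG.ses hses
  have hQn : a.ran.quo.Nz := by
    rw [Rep.nz_iff_ne]
    intro h
    rw [h, add_zero] at hsum
    exact hSne hsum.symm
  -- the invariant p
  have pS : (S.cl .A : ℝ) + α * S.cl .C ≤ M.cl .A + α * M.cl .C := by
    have h1 : (S.cl .A : ℝ) ≤ M.cl .A := by exact_mod_cast hleS .A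
    have h2 : (S.cl .C : ℝ) ≤ M.cl .C := by exact_mod_cast hleS .C
    have h3 := mul_le_mul_of_nonneg_left h2 hα.le
    linarith
  have pS0 : 0 ≤ (S.cl .A : ℝ) + α * S.cl .C := by
    have h1 : (0 : ℝ) ≤ S.cl .A := by exact_mod_cast S.cl_nonneg .A
    have h2 : (0 : ℝ) ≤ S.cl .C := by exact_mod_cast S.cl_nonneg .C
    have := mul_nonneg hα.le h2
    linarith
  have hnSr : (1 : ℝ) ≤ ((S.cl .B - S.cl .A : ℤ) : ℝ) := by exact_mod_cast hnS
  have hnMr : (1 : ℝ) ≤ ((M.cl .B - M.cl .A : ℤ) : ℝ) := by exact_mod_cast hnM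
  have pM : 0 < (M.cl .A : ℝ) + α * M.cl .C := by
    by_contra h
    push Not at h
    have h1 : (0 : ℝ) ≤ M.cl .A := by exact_mod_cast M.cl_nonneg .A
    have h2 : (0 : ℝ) ≤ M.cl .C := by exact_mod_cast M.cl_nonneg .C
    have h3 := mul_nonneg hα.le h2
    have h4 : (M.cl .A : ℝ) = 0 := by linarith
    have h5 : α * (M.cl .C : ℝ) = 0 := by linarith
    have h6 : (M.cl .C : ℝ) = 0 := (mul_eq_zero.1 h5).resolve_left hα.ne'
    have h4' : M.cl .A = 0 := by exact_mod_cast h4
    have h6' : M.cl .C = 0 := by exact_mod_cast h6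
    have hd0 : d = 0 := by omega
    have hk0 : k = 0 := by omega
    rw [hd0, hk0, zero_mul] at hβ
    have hn1 : (n : ℤ) = 1 := by nlinarith
    apply hSne
    have hA := hleS .A
    have hB := hleS .B
    have hC := hleS .C
    have gA := S.cl_nonneg .A
    have gC := S.cl_nonneg .C
    funext i
    cases i <;> omega
  have hnlt : S.cl .B - S.cl .A < M.cl .B - M.cl .A := by
    by_contra h
    push Not at h
    have h1 : ((M.cl .B - M.cl .A : ℤ) : ℝ) ≤ ((S.cl .B - S.cl .A : ℤ) : ℝ) := by exact_mod_cast h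
    unfold sg at hSM0
    have h2 : ((M.cl .B - M.cl .A : ℤ) : ℝ) * ((S.cl .A : ℝ) + α * S.cl .C) ≤
        ((S.cl .B - S.cl .A : ℤ) : ℝ) * ((S.cl .A : ℝ) + α * S.cl .C) :=
      mul_le_mul_of_nonneg_right h1 pS0
    have h3 : 0 ≤ ((S.cl .B - S.cl .A : ℤ) : ℝ) *
        (((S.cl .A : ℝ) + α * S.cl .C) - (M.cl .A + α * M.cl .C)) := by
      rw [mul_sub]; linarith
    have h4 : 0 ≤ ((S.cl .A : ℝ) + α * S.cl .C) - (M.cl .A + α * M.cl .C) := by
      by_contra h5
      push Not at h5
      have := mul_neg_of_pos_of_neg (by linarith : (0 : ℝ) < ((S.cl .B - S.cl .A : ℤ) : ℝ)) h5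
      linarith
    have h5 : (S.cl .A : ℝ) ≤ M.cl .A := by exact_mod_cast hleS .A
    have h6 : (S.cl .C : ℝ) ≤ M.cl .C := by exact_mod_cast hleS .C
    have h7 := mul_le_mul_of_nonneg_left h6 hα.le
    have h8 : (S.cl .A : ℝ) = M.cl .A := by linarith
    have h9 : α * (S.cl .C : ℝ) = α * M.cl .C := by linarith
    have h10 : (S.cl .C : ℝ) = M.cl .C := mul_left_cancel₀ hα.ne' h9
    have h8' : S.cl .A = M.cl .A := by exact_mod_cast h8
    have h10' : S.cl .C = M.cl .C := by exact_mod_cast h10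
    apply hSne
    have hB := hleS .B
    funext i
    cases i <;> omega
  obtain ⟨nS, hnS'⟩ := Int.eq_ofNat_of_zero_le (by omega : 0 ≤ S.cl .B - S.cl .A)
  have eS : S.cl = cls nS (S.cl .A) (S.cl .C) := by
    rw [← hnS', cls_eta]
  have nS1 : 1 ≤ nS := by omega
  have nSlt : nS < n := by omega
  have admS : Adm α nS (S.cl .A) (S.cl .C) := (ih nS nSlt nS1 _ _).2 S sS eS
  rcases lt_or_eq_of_le hSM0 with hlt | heq
  swap
  · -- semistable case
    have hpar := sg_zero hirr heq.symm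
    have hpar' : ∀ i, (n : ℤ) * S.cl i = nS * M.cl i := by
      intro i
      have := hpar i
      rw [hnS'] at this
      have h2 : M.cl .B - M.cl .A = n := by omega
      rw [h2] at this
      exact this
    have hχ := chi_nonneg_of hESQ
    have hq : (n : ℤ) * (n * chi S.cl a.ran.quo.cl) = nS * ((n - nS) * chi M.cl M.cl) := by
      have hQ : ∀ i, (n : ℤ) * a.ran.quo.cl i = (n - nS) * M.cl i := by
        intro i
        have h1 := congrFun hsum i
        simp only [Pi.add_apply] at h1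
        have h2 := hpar' i
        have h3 : a.ran.quo.cl i = M.cl i - S.cl i := by omega
        rw [h3, mul_sub, h2]; ring
      have sA := hpar' .A
      have sB := hpar' .B
      have sC := hpar' .C
      have qA := hQ .A
      have qB := hQ .B
      have qC := hQ .C
      have e1 : (n : ℤ) * (n * chi S.cl a.ran.quo.cl) =
          (n * S.cl .A) * (n * a.ran.quo.cl .A) + (n * S.cl .B) * (n * a.ran.quo.cl .B) +
          (n * S.cl .C) * (n * a.ran.quo.cl .C) - 2 * ((n * S.cl .A) * (n * a.ran.quo.cl .B)) -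
          (n * S.cl .C) * (n * a.ran.quo.cl .B) := by unfold chi; ring
      rw [e1, sA, sB, sC, qA, qB, qC]
      unfold chi; ring
    have hqM : 0 ≤ chi M.cl M.cl := by
      by_contra h
      push Not at h
      have h1 : (0 : ℤ) ≤ n * (n * chi S.cl a.ran.quo.cl) := by positivity
      rw [hq] at h1
      have h2 : (nS : ℤ) * ((n - nS) * chi M.cl M.cl) < 0 :=
        mul_neg_of_pos_of_neg (by exact_mod_cast nS1) (mul_neg_of_pos_of_neg (by omega) h)
      omega
    have hqe : chi M.cl M.cl = (n : ℤ) ^ 2 - k * (n + d - k) := by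
      rw [hcl, chi_cls]; unfold euler; ring
    have hq1 : chi M.cl M.cl ≤ 1 := by rw [hqe]; linarith
    have hSq : (n : ℤ) * (n * chi S.cl S.cl) = nS * (nS * chi M.cl M.cl) := by
      have sA := hpar' .A
      have sB := hpar' .B
      have sC := hpar' .C
      have e1 : (n : ℤ) * (n * chi S.cl S.cl) =
          (n * S.cl .A) * (n * S.cl .A) + (n * S.cl .B) * (n * S.cl .B) +
          (n * S.cl .C) * (n * S.cl .C) - 2 * ((n * S.cl .A) * (n * S.cl .B)) -
          (n * S.cl .C) * (n * S.cl .B) := by unfold chi; ring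
      rw [e1, sA, sB, sC]
      unfold chi; ring
    have hnpos : (0 : ℤ) < n := by omega
    have hnSpos : (0 : ℤ) < nS := by omega
    have hnSlt : (nS : ℤ) < n := by omega
    rcases lt_or_eq_of_le hqM with h1 | h1
    · have h2 : chi M.cl M.cl = 1 := by omega
      rw [h2, mul_one] at hSq
      have h3 : 0 < chi S.cl S.cl := by
        by_contra h
        push Not at h
        have : (n : ℤ) * (n * chi S.cl S.cl) ≤ 0 :=
          mul_nonpos_of_nonneg_of_nonpos hnpos.le (mul_nonpos_of_nonneg_of_nonpos hnpos.le h)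
        have := mul_pos hnSpos hnSpos
        omega
      have h4 : (n : ℤ) * n ≤ n * (n * chi S.cl S.cl) := by
        rw [← mul_assoc]
        have := mul_pos hnpos hnpos
        nlinarith
      have h5 : (nS : ℤ) * nS < n * n := by nlinarith
      omega
    · have h2 : k * (n + d - k) = (n : ℤ) ^ 2 := by rw [← h1] at hqe; linarith
      have h3 := hgcd h2
      have h4 : (n : ℤ) ∣ nS := by
        have e1 : (n : ℤ) ∣ nS * n := Dvd.intro_left _ rfl
        have e2 : (n : ℤ) ∣ nS * d := by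
          have := hpar' .A
          rw [hMA] at this
          exact ⟨_, this.symm⟩
        have e3 : (n : ℤ) ∣ nS * k := by
          have := hpar' .C
          rw [hMC] at this
          exact ⟨_, this.symm⟩
        have e4 : (n : ℤ) ∣ nS * (Int.gcd n d : ℤ) := by
          rw [Int.gcd_eq_gcd_ab, mul_add, ← mul_assoc, ← mul_assoc]
          exact dvd_add (Dvd.dvd.mul_right e1 _) (Dvd.dvd.mul_right e2 _)
        have e5 : (n : ℤ) ∣ nS * (Int.gcd (Int.gcd n d) k : ℤ) := by
          rw [Int.gcd_eq_gcd_ab, mul_add, ← mul_assoc, ← mul_assoc]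
          exact dvd_add (Dvd.dvd.mul_right e4 _) (Dvd.dvd.mul_right e3 _)
        rw [h3] at e5
        simpa using e5
      have h5 := Int.le_of_dvd hnSpos h4
      omega
  -- unstable case
  have hQM : sg α a.ran.quo.cl M.cl < 0 := by
    have h1 : sg α M.cl M.cl = sg α S.cl M.cl + sg α a.ran.quo.cl M.cl := by
      rw [← sg_add_left, ← hsum]
    rw [sg_self] at h1
    linarith
  have hTMlt : sg α T.cl M.cl < 0 :=
    sg_lt_trans rT (rk_pos hα hQn) rM (hmin _ hQn ⟨a.ran.p, hses.sur⟩) hQM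
  obtain ⟨b, hb⟩ := hTM
  have hses2 := b.ses_of_sur hb
  have hsum2 := hses2.cl
  have hleT := cl_le_of_sur b hb
  have hTne : T.cl ≠ M.cl := by
    intro h
    rw [h, sg_self] at hTMlt
    exact absurd hTMlt (lt_irrefl _)
  have hUn : b.ker.rep.Nz := by
    rw [Rep.nz_iff_ne]
    intro h
    rw [h, zero_add] at hsum2
    exact hTne hsum2.symm
  have hnU : 1 ≤ b.ker.rep.cl .B - b.ker.rep.cl .A := n_sub hG hnM hmM hUn ⟨b.ker.i, hses2.inj⟩
  have pT0 : 0 ≤ (T.cl .A : ℝ) + α * T.cl .C := by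
    have h1 : (0 : ℝ) ≤ T.cl .A := by exact_mod_cast T.cl_nonneg .A
    have h2 : (0 : ℝ) ≤ T.cl .C := by exact_mod_cast T.cl_nonneg .C
    have := mul_nonneg hα.le h2
    linarith
  have hnT : 1 ≤ T.cl .B - T.cl .A := by
    have h1 : 0 < ((T.cl .B - T.cl .A : ℤ) : ℝ) := by
      unfold sg at hTMlt
      have h2 : 0 ≤ ((M.cl .B - M.cl .A : ℤ) : ℝ) * ((T.cl .A : ℝ) + α * T.cl .C) :=
        mul_nonneg (by linarith) pT0
      have h3 : 0 < ((T.cl .B - T.cl .A : ℤ) : ℝ) * ((M.cl .A : ℝ) + α * M.cl .C) := by linarith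
      exact (mul_pos_iff_of_pos_right pM).1 h3
    have h2 : 0 < T.cl .B - T.cl .A := by exact_mod_cast h1
    omega
  have hcB := congrFun hsum2 .B
  have hcA := congrFun hsum2 .A
  simp only [Pi.add_apply] at hcA hcB
  obtain ⟨nT, hnT'⟩ := Int.eq_ofNat_of_zero_le (by omega : 0 ≤ T.cl .B - T.cl .A)
  have eT : T.cl = cls nT (T.cl .A) (T.cl .C) := by
    rw [← hnT', cls_eta]
  have nT1 : 1 ≤ nT := by omega
  have nTlt : nT < n := by omega
  have admT : Adm α nT (T.cl .A) (T.cl .C) := (ih nT nTlt nT1 _ _).2 T sT eT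
  have bS := sS.brick hα
  have bT := sT.brick hα
  -- slopes
  have hST : 0 < sg α S.cl T.cl := by
    have h1 : sg α M.cl S.cl < 0 := by rw [sg_swap]; linarith
    have h2 := sg_lt_trans rT rM rS hTMlt.le h1
    rw [sg_swap] at h2
    linarith
  -- `S` exceptional
  have qS : chi S.cl S.cl ≤ 0 := by
    by_contra h
    push Not at h
    have h1 : chi S.cl S.cl = 1 := by
      have := bS.q_le
      omega
    have h2 : E0 S M := E0.extr hses (bS.rigid h) hESQ
    have h3 := chi_pos_of h2 (not_H0_of_NZ (NZ_of_inj a ha sS.nz))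
    rw [eS] at h1
    have h4 := (ht nS nS1 nSlt _ _ (test_q h1) admS).1 (by
      rw [slope_iff hn nS1, ← hcl, ← eS, sg_swap]; linarith)
    rw [← chi_cls, ← hcl, ← eS] at h4
    omega
  have qT : chi T.cl T.cl ≤ 0 := by
    by_contra h
    push Not at h
    have h1 : chi T.cl T.cl = 1 := by
      have := bT.q_le
      omega
    have h2 : E0 M T := E0.extl hses2 (hG.ses hses2) (bT.rigid h)
    have h3 := chi_pos_of h2 (not_H0_of_NZ (NZ_of_sur b hb sT.nz))
    rw [eT] at h1
    have h4 := (ht nT nT1 nTlt _ _ (test_q h1) admT).2 (by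
      rw [slope_iff nT1 hn, ← hcl, ← eT]; exact hTMlt.le)
    rw [← chi_cls, ← hcl, ← eT] at h4
    omega
  -- both not exceptional
  have hH : H0 S T := H0_of_slope hα sS sT hST.le (by
    intro h
    rw [h, sg_self] at hST
    exact absurd hST (lt_irrefl _))
  have hE : E0 S T := by
    obtain ⟨ψ, hψ⟩ := hses.desc_hm b (fun j w => hH (b.comp a) j w)
    refine E0.quor ψ ?_ hESQ
    intro j v
    obtain ⟨w, rfl⟩ := hb j v
    exact ⟨_, hψ j w⟩
  refine NL hα S.cl_nonneg T.cl_nonneg hnS hnT qS qT ?_ ?_ hST (chi_zero_of hH hE)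
  · intro N hN hNcl
    exact (ih nS nSlt nS1 _ _).1 admS N hN (by rw [hNcl]; exact eS)
  · intro N hN hNcl
    exact (ih nT nTlt nT1 _ _).1 admT N hN (by rw [hNcl]; exact eT)

theorem stmt_all (hα : 0 < α) (hirr : Irrational α) (n : ℕ) : 1 ≤ n → Stmt α n := by
  induction n using Nat.strong_induction_on with
  | _ n ih =>
    intro hn d k
    exact ⟨fun h M hM hcl => suff hα hirr hn ih h hM hcl, fun M hM hcl => nec hα hn ih hM hcl⟩

end Ind

end Pool.Agent.L7h86
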