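import Mathlib
import Pool.Agent.L7h86.Br3
import Pool.Agent.L7h86.Main

/-!
# Coherent systems and representations
-/

set_option autoImplicit false

namespace Pool.Agent.L7h86.Coh

open MvPolynomial Pool.Agent.L7h86

theorem X_mem (t : Fin 2) : (X t : RR) ∈ Hd 1 :=
  ⟨isHomogeneous_X _ _, fun h => absurd h (by norm_num)⟩

theorem X_smul_mem {ι : Type} {e : ι → ℤ} (t : Fin 2) {v : ι → RR}
    (hv : v ∈ HE (fun i => e i - 1)) : (X t : RR) • v ∈ HE e := by
  intro i
  have h := Hd_mul (X_mem t) (hv i)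
  have h2 : 1 + (e i - 1) = e i := by ring
  rw [h2] at h
  exact h

noncomputable def mulX {ι : Type} (e : ι → ℤ) (t : Fin 2) :
    HE (fun i => e i - 1) →ₗ[ℂ] HE e where
  toFun v := ⟨(X t : RR) • v.1, X_smul_mem t v.2⟩
  map_add' _ _ := Subtype.ext (smul_add _ _ _)
  map_smul' _ _ := Subtype.ext (smul_comm _ _ _)

theorem mulX_apply {ι : Type} (e : ι → ℤ) (t : Fin 2) (v : HE (fun i => e i - 1)) :
    (mulX e t v).1 = (X t : RR) • v.1 := rfl

/-- the representation attached to a bundle and a space of sections -/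
noncomputable def RE {n : ℕ} (e : Fin n → ℤ) (V : Submodule ℂ (Fin n → RR)) (hV : V ≤ HE e) :
    Rep :=
  haveI : FiniteDimensional ℂ V := Submodule.finiteDimensional_of_le hV
  mk3 (A := HE (fun i => e i - 1)) (B := HE e) (C := V) (mulX e 0) (mulX e 1)
    (Submodule.inclusion hV)

theorem RE_cl {n : ℕ} {d : ℤ} {k : ℕ} (S : CohSys n d k) (he : ∀ i, 0 ≤ S.e i) :
    (RE S.e S.V S.le).cl = cls n d k := by
  have hA : (RE S.e S.V S.le).cl .A = d := by
    change ((Module.finrank ℂ (HE (fun i => S.e i - 1)) : ℕ) : ℤ) = d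
    rw [finrank_HE]
    refine Eq.trans ?_ S.degE
    push_cast
    apply Finset.sum_congr rfl
    intro i _
    have := he i
    rw [sub_add_cancel, Int.toNat_of_nonneg this]
  have hB : (RE S.e S.V S.le).cl .B = n + d := by
    change ((Module.finrank ℂ (HE S.e) : ℕ) : ℤ) = n + d
    rw [finrank_HE]
    push_cast
    have : ∀ i ∈ Finset.univ, ((S.e i + 1).toNat : ℤ) = S.e i + 1 := by
      intro i _
      have := he i
      exact Int.toNat_of_nonneg (by omega)
    rw [Finset.sum_congr rfl this, Finset.sum_add_distrib, S.degE]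
    simp
    ring
  have hC : (RE S.e S.V S.le).cl .C = k := by
    change ((Module.finrank ℂ S.V : ℕ) : ℤ) = k
    rw [S.dim]
  exact Rep.ext_cl hA hB hC

/-- the splitting type of a stable system is non-negative -/
theorem e_nonneg {n : ℕ} {d : ℤ} {k : ℕ} (S : CohSys n d k) {α : ℝ} (hα : 0 < α) (hk : 1 ≤ k)
    (hS : S.IsStable α) : ∀ i, 0 ≤ S.e i := by
  classical
  by_contra hcon
  push Not at hcon
  obtain ⟨i0, hi0⟩ := hcon
  set J : Finset (Fin n) := Finset.univ.filter (fun i => 0 ≤ S.e i) with hJ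
  have hmJ : ∀ i, i ∈ J ↔ 0 ≤ S.e i := by intro i; simp [hJ]
  let σ := J.orderEmbOfFin rfl
  have hσ : ∀ j, σ j ∈ J := fun j => Finset.orderEmbOfFin_mem J rfl j
  have hσ' : ∀ i ∈ J, ∃ j, σ j = i := by
    intro i hi
    have h1 : i ∈ Set.range σ := by
      have := Finset.range_orderEmbOfFin J rfl
      rw [this]; exact hi
    exact h1
  have hVz : ∀ v ∈ S.V, ∀ i, i ∉ J → v i = 0 := by
    intro v hv i hi
    have h1 := S.le hv i
    exact h1.2 (by rw [hmJ] at hi; push Not at hi; exact hi)
  have hpos : 1 ≤ J.card := by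
    rw [Nat.one_le_iff_ne_zero]
    intro h0
    rw [Finset.card_eq_zero] at h0
    have h1 : S.V = ⊥ := by
      rw [eq_bot_iff]
      intro v hv
      rw [Submodule.mem_bot]
      funext i
      exact hVz v hv i (by rw [h0]; simp)
    have h2 := S.dim
    rw [h1, finrank_bot] at h2
    omega
  have hlt : J.card < n := by
    have h1 : J ⊂ Finset.univ := by
      rw [Finset.ssubset_univ_iff]
      intro h2
      have h3 : i0 ∈ J := by rw [h2]; simp
      rw [hmJ] at h3
      omega
    have := Finset.card_lt_card h1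
    simpa using this
  let M : Fin n → Fin J.card → RR := fun i j => if i = σ j then 1 else 0
  have hle : S.V ≤ S.V ⊓ (HE (fun j => S.e (σ j))).map (mulMap M) := by
    refine le_inf (le_refl _) ?_
    intro v hv
    refine ⟨fun j => v (σ j), fun j => S.le hv (σ j), ?_⟩
    funext i
    rw [mulMap_apply]
    by_cases hi : i ∈ J
    · obtain ⟨j, rfl⟩ := hσ' i hi
      rw [Finset.sum_eq_single j]
      · simp [M]
      · intro j' _ hj'
        have : σ j ≠ σ j' := fun h => hj' (σ.injective h).symm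
        simp only [M, if_neg this, zero_mul]
      · intro h; exact absurd (Finset.mem_univ _) h
    · rw [hVz v hv i hi]
      apply Finset.sum_eq_zero
      intro j _
      have : i ≠ σ j := by
        rintro rfl
        exact hi (hσ j)
      simp only [M, if_neg this, zero_mul]
  let T : SubSys S :=
    { m := J.card
      b := fun j => S.e (σ j)
      M := M
      pos := hpos
      degM := by
        intro i j
        simp only [M]
        split_ifs with h
        · rw [h, sub_self]
          exact ⟨isHomogeneous_one _ _, fun h => absurd h (by norm_num)⟩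
        · exact Submodule.zero_mem _
      inj := by
        rw [Fintype.linearIndependent_iff]
        intro c hc j
        have h1 := congrFun hc (σ j)
        simp only [Finset.sum_apply, Pi.smul_apply, smul_eq_mul, Pi.zero_apply] at h1
        rw [Finset.sum_eq_single j] at h1
        · simpa [M] using h1
        · intro j' _ hj'
          have : σ j ≠ σ j' := fun h => hj' (σ.injective h).symm
          simp only [M, if_neg this, mul_zero]
        · intro h; exact absurd (Finset.mem_univ _) h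
      V' := S.V
      le := hle }
  have hw : ¬ T.IsWhole := by
    intro h
    have : J.card = n := h.1
    omega
  have h1 := hS T hw
  have hdeg : d ≤ T.deg := by
    have h2 : T.deg = ∑ i ∈ J, S.e i := by
      change ∑ j, S.e (σ j) = _
      have h3 : J = Finset.univ.map σ.toEmbedding := by
        have := Finset.map_orderEmbOfFin_univ J rfl
        exact this.symm
      conv_rhs => rw [h3]
      rw [Finset.sum_map]
      rfl
    have h3 := Finset.sum_filter_add_sum_filter_not Finset.univ (fun i => 0 ≤ S.e i) S.e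
    rw [← hJ, S.degE] at h3
    rw [h2]
    have h4 : ∑ i ∈ Finset.univ.filter (fun i => ¬ 0 ≤ S.e i), S.e i ≤ 0 := by
      apply Finset.sum_nonpos
      intro i hi
      simp at hi
      omega
    linarith
  have hdeg0 : 0 ≤ T.deg := by
    apply Finset.sum_nonneg
    intro j _
    exact (hmJ _).1 (hσ j)
  have h2 : Module.finrank ℂ T.V' = k := S.dim
  rw [h2] at h1
  have hm : (T.m : ℝ) = J.card := rfl
  have h3 : (0 : ℝ) < T.m := by rw [hm]; exact_mod_cast hpos
  have h4 : (T.m : ℝ) ≤ n := by rw [hm]; exact_mod_cast hlt.le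
  have h5 : (0 : ℝ) < n := by linarith
  have h6 : (0 : ℝ) < α * k := mul_pos hα (by exact_mod_cast hk)
  have h7 : (0 : ℝ) ≤ T.deg := by exact_mod_cast hdeg0
  have h8 : (d : ℝ) ≤ T.deg := by exact_mod_cast hdeg
  rw [div_lt_div_iff₀ h3 h5] at h1
  have h9 : ((d : ℝ) + α * k) * T.m ≤ ((T.deg : ℝ) + α * k) * T.m :=
    mul_le_mul_of_nonneg_right (by linarith) h3.le
  have h10 : ((T.deg : ℝ) + α * k) * T.m ≤ ((T.deg : ℝ) + α * k) * n :=
    mul_le_mul_of_nonneg_left h4 (by linarith)
  linarith

/-- `RE` of a stable system is stable -/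
theorem RE_stable {n : ℕ} {d : ℤ} {k : ℕ} (S : CohSys n d k) {α : ℝ} (hα : 0 < α) (hn : 1 ≤ n)
    (hk : 1 ≤ k) (hS : S.IsStable α) : Stable α (RE S.e S.V S.le) := by
  have he := e_nonneg S hα hk hS
  have hcl := RE_cl S he
  have hd : 0 ≤ d := by
    rw [← S.degE]; exact Finset.sum_nonneg (fun i _ => he i)
  refine ⟨?_, ?_⟩
  · rw [Rep.nz_iff_cl]
    refine ⟨.B, ?_⟩
    rw [hcl]
    simp only [cls]
    omega
  intro N hN hsb hne
  obtain ⟨a, ha⟩ := hsb
  let gA : N.V .A →ₗ[ℂ] HE (fun i => S.e i - 1) := a.g .A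
  let gB : N.V .B →ₗ[ℂ] HE S.e := a.g .B
  let gC : N.V .C →ₗ[ℂ] S.V := a.g .C
  let φA : N.V .A →ₗ[ℂ] (Fin n → RR) := (HE (fun i => S.e i - 1)).subtype ∘ₗ gA
  let φB : N.V .B →ₗ[ℂ] (Fin n → RR) := (HE S.e).subtype ∘ₗ gB
  let φC : N.V .C →ₗ[ℂ] (Fin n → RR) := S.V.subtype ∘ₗ gC
  have iA : Function.Injective φA := Subtype.val_injective.comp (ha .A)
  have iB : Function.Injective φB := Subtype.val_injective.comp (ha .B)
  have iC : Function.Injective φC := Subtype.val_injective.comp (ha .C)
  have h0 : ∀ x, (X 0 : RR) • φA x = φB (N.f .x x) := fun x => congrArg Subtype.val (a.h .x x)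
  have h1 : ∀ x, (X 1 : RR) • φA x = φB (N.f .y x) := fun x => congrArg Subtype.val (a.h .y x)
  have h2 : ∀ x, φC x = φB (N.f .z x) := fun x => congrArg Subtype.val (a.h .z x)
  have fA : Module.finrank ℂ (LinearMap.range φA) = Module.finrank ℂ (N.V .A) :=
    LinearMap.finrank_range_of_inj iA
  have fB : Module.finrank ℂ (LinearMap.range φB) = Module.finrank ℂ (N.V .B) :=
    LinearMap.finrank_range_of_inj iB
  have fC : Module.finrank ℂ (LinearMap.range φC) = Module.finrank ℂ (N.V .C) :=
    LinearMap.finrank_range_of_inj iC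
  have hAle : LinearMap.range φA ≤ HE (fun i => S.e i - 1) := by
    rintro _ ⟨x, rfl⟩
    exact (gA x).2
  have hBle : LinearMap.range φB ≤ HE S.e := by
    rintro _ ⟨x, rfl⟩
    exact (gB x).2
  have hCle : LinearMap.range φC ≤ S.V := by
    rintro _ ⟨x, rfl⟩
    exact (gC x).2
  have hCB : LinearMap.range φC ≤ LinearMap.range φB := by
    rintro _ ⟨x, rfl⟩
    exact ⟨_, (h2 x).symm⟩
  have hAB : ∀ t : Fin 2, ∀ s ∈ LinearMap.range φA, (X t : RR) • s ∈ LinearMap.range φB := by
    rintro t _ ⟨x, rfl⟩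
    fin_cases t
    · exact ⟨_, (h0 x).symm⟩
    · exact ⟨_, (h1 x).symm⟩
  have hexB : ∃ x ∈ LinearMap.range φB, x ≠ 0 := by
    by_contra hcon
    push Not at hcon
    obtain ⟨i, v, hv⟩ := hN
    cases i
    · apply hv
      apply iA
      rw [map_zero]
      have h3 := hcon _ (hAB 0 _ ⟨v, rfl⟩)
      funext i
      have h4 := congrFun h3 i
      simp only [Pi.smul_apply, smul_eq_mul, Pi.zero_apply] at h4
      exact (mul_eq_zero.1 h4).resolve_left (X_ne_zero 0)
    · apply hv
      apply iB
      rw [map_zero]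
      exact hcon _ ⟨v, rfl⟩
    · apply hv
      apply iC
      rw [map_zero]
      exact hcon _ (hCB ⟨v, rfl⟩)
  obtain ⟨r, b, g, hr1, hg, hli, hgen, hdim1, hdim2⟩ := core _ _ hAle hBle hAB hexB
  rw [fA] at hdim1 hdim2
  rw [fB] at hdim2
  let T : SubSys S :=
    { m := r
      b := fun j => b j
      M := fun i j => g j i
      pos := hr1
      degM := fun i j => hg j i
      inj := hli
      V' := LinearMap.range φC
      le := le_inf hCle (hCB.trans hgen) }
  have hTdeg : T.deg = ((∑ j, b j : ℕ) : ℤ) := by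
    change ∑ j, (b j : ℤ) = _
    push_cast
    rfl
  have clA : N.cl .A = (Module.finrank ℂ (N.V .A) : ℤ) := rfl
  have clB : N.cl .B = (Module.finrank ℂ (N.V .B) : ℤ) := rfl
  have clC : N.cl .C = (Module.finrank ℂ (N.V .C) : ℤ) := rfl
  have hnr : (1 : ℝ) ≤ n := by exact_mod_cast hn
  have hp : (0 : ℝ) < d + α * k := by
    have e1 : (0 : ℝ) ≤ d := by exact_mod_cast hd
    have e2 : (0 : ℝ) < α * k := mul_pos hα (by exact_mod_cast hk)
    linarith
  have hdA : N.cl .A ≤ T.deg := by rw [hTdeg, clA]; exact_mod_cast hdim1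
  have hrB : (r : ℤ) ≤ N.cl .B - N.cl .A := by
    rw [clA, clB]
    have : ((r + Module.finrank ℂ (N.V .A) : ℕ) : ℤ) ≤ (Module.finrank ℂ (N.V .B) : ℕ) := by
      exact_mod_cast hdim2
    push_cast at this
    linarith
  have hdA' : (N.cl .A : ℝ) ≤ T.deg := by exact_mod_cast hdA
  have hrB' : (r : ℝ) ≤ ((N.cl .B - N.cl .A : ℤ) : ℝ) := by exact_mod_cast hrB
  have hcC : (Module.finrank ℂ T.V' : ℝ) = (N.cl .C : ℝ) := by
    rw [clC]
    have : Module.finrank ℂ T.V' = Module.finrank ℂ (N.V .C) := fC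
    rw [this]
    norm_cast
  have hsg : sg α N.cl (RE S.e S.V S.le).cl =
      n * ((N.cl .A : ℝ) + α * N.cl .C) - ((N.cl .B - N.cl .A : ℤ) : ℝ) * (d + α * k) := by
    rw [hcl]
    unfold sg cls
    push_cast
    ring
  rw [hsg]
  have hm1 : ((d : ℝ) + α * k) * r ≤ ((N.cl .B - N.cl .A : ℤ) : ℝ) * (d + α * k) := by
    rw [mul_comm]
    exact mul_le_mul_of_nonneg_right hrB' hp.le
  by_cases hw : T.IsWhole
  · obtain ⟨w1, w2, w3⟩ := hw
    have w1' : r = n := w1
    have w3' : LinearMap.range φC = S.V := w3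
    have hc : N.cl .C = k := by
      rw [clC, ← fC, w3', S.dim]
    rw [w2] at hdA hdA'
    have hcr : (N.cl .C : ℝ) = k := by rw [hc]; norm_cast
    rw [hcr]
    rw [w1'] at hrB hrB' hm1
    rcases lt_or_eq_of_le hdA with hlt | heq
    · have e1 : (N.cl .A : ℝ) < d := by exact_mod_cast hlt
      have e2 : (n : ℝ) * ((N.cl .A : ℝ) + α * k) < n * (d + α * k) :=
        mul_lt_mul_of_pos_left (by linarith) (by linarith)
      nlinarith
    · have hlt2 : (n : ℤ) < N.cl .B - N.cl .A := by
        rcases lt_or_eq_of_le hrB with h | h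
        · exact h
        · exfalso
          apply hne
          rw [hcl]
          apply Rep.ext_cl
          · exact heq
          · simp only [cls]; omega
          · exact hc
      have e1 : (n : ℝ) < ((N.cl .B - N.cl .A : ℤ) : ℝ) := by exact_mod_cast hlt2
      have e2 := mul_lt_mul_of_pos_right e1 hp
      have e3 : (N.cl .A : ℝ) = d := by exact_mod_cast heq
      rw [e3]
      linarith
  · have h3 := hS T hw
    have hTm : (T.m : ℝ) = r := rfl
    rw [hcC, hTm, div_lt_div_iff₀ (by exact_mod_cast hr1) (by linarith)] at h3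
    have e1 : (n : ℝ) * ((N.cl .A : ℝ) + α * N.cl .C) ≤ ((T.deg : ℝ) + α * N.cl .C) * n := by
      rw [mul_comm]
      exact mul_le_mul_of_nonneg_right (by linarith) (by linarith)
    linarith

end Pool.Agent.L7h86.Coh
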