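import Mathlib
import Pool.Agent.L7h86.Br4

/-!
# Stability of coherent systems from stability of representations
-/

set_option autoImplicit false

namespace Pool.Agent.L7h86.Coh

open MvPolynomial Pool.Agent.L7h86

theorem mulMap_mem {n m : ℕ} {e : Fin n → ℤ} {b : Fin m → ℤ} {M : Fin n → Fin m → RR}
    (hM : ∀ i j, M i j ∈ Hd (e i - b j)) {u : Fin m → RR} (hu : u ∈ HE b) :
    mulMap M u ∈ HE e := by
  intro i
  rw [mulMap_apply]
  apply Submodule.sum_mem
  intro j _
  have h := Hd_mul (hM i j) (hu j)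
  rw [sub_add_cancel] at h
  exact h

theorem mulMap_smul {n m : ℕ} (M : Fin n → Fin m → RR) (a : RR) (u : Fin m → RR) :
    mulMap M (a • u) = a • mulMap M u := by
  funext i
  rw [Pi.smul_apply, mulMap_apply, mulMap_apply, smul_eq_mul, Finset.mul_sum]
  apply Finset.sum_congr rfl
  intro j _
  simp only [Pi.smul_apply, smul_eq_mul]
  ring

theorem coh_stable {n : ℕ} {d : ℤ} {k : ℕ} (S : CohSys n d k) {α : ℝ} (hα : 0 < α) (hn : 1 ≤ n)
    (hk : 1 ≤ k) (he : ∀ i, 0 ≤ S.e i) (hR : Stable α (RE S.e S.V S.le)) : S.IsStable α := by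
  intro T hw
  have hcl := RE_cl S he
  have hd : 0 ≤ d := by
    rw [← S.degE]; exact Finset.sum_nonneg (fun i _ => he i)
  set PA : Submodule ℂ (Fin n → RR) := (HE (fun j => T.b j - 1)).map (mulMap T.M) with hPA
  set PB : Submodule ℂ (Fin n → RR) := (HE T.b).map (mulMap T.M) with hPB
  have hinj := mulMap_inj T.M T.inj
  have hPAle : PA ≤ HE (fun i => S.e i - 1) := by
    rintro _ ⟨u, hu, rfl⟩
    refine mulMap_mem (b := fun j => T.b j - 1) (fun i j => ?_) hu
    have := T.degM i j
    have e1 : S.e i - 1 - (T.b j - 1) = S.e i - T.b j := by ring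
    change T.M i j ∈ Hd (S.e i - 1 - (T.b j - 1))
    rw [e1]
    exact this
  have hPBle : PB ≤ HE S.e := by
    rintro _ ⟨u, hu, rfl⟩
    exact mulMap_mem T.degM hu
  have hX : ∀ t : Fin 2, ∀ v ∈ PA, (X t : RR) • v ∈ PB := by
    rintro t _ ⟨u, hu, rfl⟩
    exact ⟨(X t : RR) • u, X_smul_mem t hu, mulMap_smul _ _ _⟩
  let U : ∀ i, Submodule ℂ ((RE S.e S.V S.le).V i) := fun i => match i with
    | .A => (Submodule.comap (HE (fun i => S.e i - 1)).subtype PA :
        Submodule ℂ (HE (fun i => S.e i - 1)))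
    | .B => (Submodule.comap (HE S.e).subtype PB : Submodule ℂ (HE S.e))
    | .C => (Submodule.comap S.V.subtype T.V' : Submodule ℂ S.V)
  let Y : SubR (RE S.e S.V S.le) := ⟨U, by
    intro e v hv
    cases e
    · exact hX 0 _ hv
    · exact hX 1 _ hv
    · exact (T.le.trans inf_le_right) hv⟩
  have fA : Y.rep.cl .A = (Module.finrank ℂ PA : ℤ) := by
    change ((Module.finrank ℂ (Submodule.comap (HE (fun i => S.e i - 1)).subtype PA) : ℕ) : ℤ) = _
    rw [LinearEquiv.finrank_eq (Submodule.comapSubtypeEquivOfLe hPAle)]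
  have fB : Y.rep.cl .B = (Module.finrank ℂ PB : ℤ) := by
    change ((Module.finrank ℂ (Submodule.comap (HE S.e).subtype PB) : ℕ) : ℤ) = _
    rw [LinearEquiv.finrank_eq (Submodule.comapSubtypeEquivOfLe hPBle)]
  have fC : Y.rep.cl .C = (Module.finrank ℂ T.V' : ℤ) := by
    change ((Module.finrank ℂ (Submodule.comap S.V.subtype T.V') : ℕ) : ℤ) = _
    rw [LinearEquiv.finrank_eq (Submodule.comapSubtypeEquivOfLe (T.le.trans inf_le_left))]
  have dA : Module.finrank ℂ PA = ∑ j, (T.b j).toNat := by
    rw [hPA, LinearEquiv.finrank_eq (Submodule.equivMapOfInjective _ hinj _).symm, finrank_HE]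
    apply Finset.sum_congr rfl
    intro j _
    rw [sub_add_cancel]
  have dB : Module.finrank ℂ PB = ∑ j, (T.b j + 1).toNat := by
    rw [hPB, LinearEquiv.finrank_eq (Submodule.equivMapOfInjective _ hinj _).symm, finrank_HE]
  have hdeg : T.deg ≤ Y.rep.cl .A := by
    rw [fA, dA]
    push_cast
    apply Finset.sum_le_sum
    intro j _
    exact Int.self_le_toNat _
  have hBA : Y.rep.cl .B - Y.rep.cl .A ≤ T.m := by
    rw [fA, fB, dA, dB]
    push_cast
    rw [← Finset.sum_sub_distrib]
    calc ∑ j, (((T.b j + 1).toNat : ℤ) - ((T.b j).toNat : ℤ)) ≤ ∑ _j : Fin T.m, 1 := by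
          apply Finset.sum_le_sum
          intro j _
          omega
      _ = T.m := by simp
  have hp : (0 : ℝ) < d + α * k := by
    have e1 : (0 : ℝ) ≤ d := by exact_mod_cast hd
    have e2 : (0 : ℝ) < α * k := mul_pos hα (by exact_mod_cast hk)
    linarith
  have hnr : (1 : ℝ) ≤ n := by exact_mod_cast hn
  have hmr : (1 : ℝ) ≤ T.m := by exact_mod_cast T.pos
  have hdeg' : (T.deg : ℝ) ≤ Y.rep.cl .A := by exact_mod_cast hdeg
  have hBA' : ((Y.rep.cl .B - Y.rep.cl .A : ℤ) : ℝ) ≤ T.m := by exact_mod_cast hBA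
  have hC' : (Y.rep.cl .C : ℝ) = Module.finrank ℂ T.V' := by rw [fC]; norm_cast
  rw [div_lt_div_iff₀ (by linarith) (by linarith)]
  by_cases hz : Y.rep.Nz
  · by_cases hne : Y.rep.cl = (RE S.e S.V S.le).cl
    · -- the whole system
      exfalso
      rw [hcl] at hne
      have cA : Y.rep.cl .A = d := by rw [hne]; rfl
      have cB : Y.rep.cl .B = n + d := by rw [hne]; rfl
      have cC : Y.rep.cl .C = k := by rw [hne]; rfl
      have hmn : T.m ≤ n := by
        have := T.inj.fintype_card_le_finrank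
        simpa using this
      have hmn' : T.m = n := by
        have : (n : ℤ) ≤ T.m := by rw [cA, cB] at hBA; linarith
        omega
      apply hw
      refine ⟨hmn', ?_, ?_⟩
      · have hall : ∀ j, ((T.b j).toNat : ℤ) + 1 - ((T.b j + 1).toNat : ℤ) = 0 := by
          have h1 : ∑ j, (((T.b j).toNat : ℤ) + 1 - ((T.b j + 1).toNat : ℤ)) = 0 := by
            rw [Finset.sum_sub_distrib, Finset.sum_add_distrib]
            rw [fA, dA] at cA
            rw [fB, dB] at cB
            push_cast at cA cB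
            rw [cA, cB]
            simp [hmn']
            ring
          have h2 := (Finset.sum_eq_zero_iff_of_nonneg (fun j _ => by
            change (0 : ℤ) ≤ ((T.b j).toNat : ℤ) + 1 - ((T.b j + 1).toNat : ℤ)
            omega)).1 h1
          exact fun j => h2 j (Finset.mem_univ j)
        rw [fA, dA] at cA
        refine Eq.trans ?_ cA
        push_cast
        apply Finset.sum_congr rfl
        intro j _
        have := hall j
        omega
      · have hVle : T.V' ≤ S.V := T.le.trans inf_le_left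
        have : FiniteDimensional ℂ S.V := Submodule.finiteDimensional_of_le S.le
        apply Submodule.eq_of_le_of_finrank_eq hVle
        rw [S.dim]
        rw [fC] at cC
        exact_mod_cast cC
    · have h1 := hR.st Y.rep hz ⟨Y.i, Y.ses.inj⟩ hne
      rw [hcl] at h1
      unfold sg cls at h1
      push_cast at h1
      rw [hC'] at h1
      push_cast at hBA'
      have e1 : ((Y.rep.cl .B : ℝ) - Y.rep.cl .A) * (d + α * k) ≤ T.m * (d + α * k) :=
        mul_le_mul_of_nonneg_right hBA' hp.le
      have e2 : ((T.deg : ℝ) + α * (Module.finrank ℂ T.V' : ℝ)) * n ≤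
          ((Y.rep.cl .A : ℝ) + α * (Module.finrank ℂ T.V' : ℝ)) * n :=
        mul_le_mul_of_nonneg_right (by linarith) (by linarith)
      linarith
  · rw [Rep.nz_iff_cl] at hz
    push Not at hz
    have zA := le_antisymm (hz .A) (Y.rep.cl_nonneg .A)
    have zC := le_antisymm (hz .C) (Y.rep.cl_nonneg .C)
    have zC' : (Module.finrank ℂ T.V' : ℝ) = 0 := by rw [← hC', zC]; norm_cast
    rw [zC', mul_zero, add_zero]
    have zA' : (T.deg : ℝ) ≤ 0 := by
      rw [zA] at hdeg'
      exact_mod_cast hdeg'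
    have e1 : (T.deg : ℝ) * n ≤ 0 := mul_nonpos_of_nonpos_of_nonneg zA' (by linarith)
    have e2 : 0 < ((d : ℝ) + α * k) * T.m := mul_pos hp (by linarith)
    linarith

end Pool.Agent.L7h86.Coh
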