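import Mathlib
import Pool.Agent.L7h86.Br5

/-!
# Rigidity of balanced bundles
-/

set_option autoImplicit false

namespace Pool.Agent.L7h86.Coh

open MvPolynomial Pool.Agent.L7h86

noncomputable def mo (s a : ℕ) : Fin 2 →₀ ℕ := Finsupp.single 0 a + Finsupp.single 1 (s - a)

theorem mo_monomial (s a : ℕ) : (X 0 ^ a * X 1 ^ (s - a) : RR) = monomial (mo s a) 1 := by
  rw [X_pow_eq_monomial, X_pow_eq_monomial, monomial_mul, one_mul, mo]

theorem mo_zero (s a : ℕ) : mo s a 0 = a := by simp [mo]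
theorem mo_one (s a : ℕ) : mo s a 1 = s - a := by simp [mo]

theorem expand {s : ℕ} {f : RR} (hf : f.IsHomogeneous s) :
    f = ∑ a ∈ Finset.range (s + 1), coeff (mo s a) f • (X 0 ^ a * X 1 ^ (s - a) : RR) := by
  ext m
  rw [coeff_sum]
  simp only [mo_monomial, coeff_smul, coeff_monomial, smul_eq_mul, mul_ite, mul_one, mul_zero]
  by_cases hm : m.degree = s
  · have h1 : m 0 + m 1 = s := by
      rw [← hm, Finsupp.degree_eq_sum, Fin.sum_univ_two]
    have h2 : mo s (m 0) = m := by
      ext i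
      fin_cases i
      · exact mo_zero _ _
      · change mo s (m 0) 1 = m 1
        rw [mo_one]; omega
    rw [Finset.sum_eq_single (m 0)]
    · rw [if_pos h2, h2]
    · intro a _ ha
      rw [if_neg]
      intro h3
      apply ha
      rw [← h3, mo_zero]
    · intro h3
      exfalso
      apply h3
      rw [Finset.mem_range]; omega
  · rw [hf.coeff_eq_zero hm]
    symm
    apply Finset.sum_eq_zero
    intro a ha
    rw [Finset.mem_range] at ha
    rw [if_neg]
    rintro rfl
    apply hm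
    rw [Finsupp.degree_eq_sum, Fin.sum_univ_two, mo_zero, mo_one]
    omega

theorem mono_hom {s a : ℕ} (ha : a ≤ s) : (X 0 ^ a * X 1 ^ (s - a) : RR).IsHomogeneous s := by
  have h := (isHomogeneous_X_pow (R := ℂ) (0 : Fin 2) a).mul
    (isHomogeneous_X_pow (R := ℂ) (1 : Fin 2) (s - a))
  rwa [Nat.add_sub_cancel' ha] at h

theorem Hd_of_mul {a g : RR} {t s : ℤ} (ha : a ∈ Hd t) (ha0 : a ≠ 0) (h : a * g ∈ Hd s) :
    g ∈ Hd (s - t) := by
  by_cases hg : g = 0
  · rw [hg]; exact Submodule.zero_mem _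
  have hne : a * g ≠ 0 := mul_ne_zero ha0 hg
  have hs : 0 ≤ s := by
    by_contra hcon
    push Not at hcon
    exact hne (h.2 hcon)
  have ht : 0 ≤ t := by
    by_contra hcon
    push Not at hcon
    exact ha0 (ha.2 hcon)
  obtain ⟨x, y, hxy, hx, hy⟩ := hom_of_mul h.1 hne
  have h1 : x = t.toNat := hx.inj_right ha.1 ha0
  refine ⟨?_, fun h2 => ?_⟩
  · have : (s - t).toNat = y := by omega
    rw [this]; exact hy
  · omega

section Bal

variable {n : ℕ} (e : Fin n → ℤ)

/-- monomial sections -/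
noncomputable def monv (j : Fin n) (a b : ℕ) : Fin n → RR := Pi.single j (X 0 ^ a * X 1 ^ b)

theorem monv_mem {e : Fin n → ℤ} {j : Fin n} {a b : ℕ} (h : ((a + b : ℕ) : ℤ) = e j) :
    monv j a b ∈ HE e := by
  intro i
  unfold monv
  by_cases hij : i = j
  · subst hij
    rw [Pi.single_eq_same, ← h]
    refine ⟨?_, fun h2 => absurd h2 (by omega)⟩
    have h3 := (isHomogeneous_X_pow (R := ℂ) (0 : Fin 2) a).mul
      (isHomogeneous_X_pow (R := ℂ) (1 : Fin 2) b)
    rw [Int.toNat_natCast]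
    exact h3
  · rw [Pi.single_eq_of_ne hij]
    exact Submodule.zero_mem _

theorem X0_monv (j : Fin n) (a b : ℕ) : (X 0 : RR) • monv j a b = monv j (a + 1) b := by
  unfold monv
  rw [← Pi.single_smul, smul_eq_mul]
  congr 1
  ring

theorem X1_monv (j : Fin n) (a b : ℕ) : (X 1 : RR) • monv j a b = monv j a (b + 1) := by
  unfold monv
  rw [← Pi.single_smul, smul_eq_mul]
  congr 1
  ring

theorem expand_HE {e : Fin n → ℤ} {v : Fin n → RR} (hv : v ∈ HE e) :
    v = ∑ j, ∑ a ∈ Finset.range ((e j).toNat + 1),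
      coeff (mo (e j).toNat a) (v j) • monv j a ((e j).toNat - a) := by
  funext i
  rw [Finset.sum_apply, Finset.sum_eq_single i]
  · rw [Finset.sum_apply]
    conv_lhs => rw [expand (hv i).1]
    apply Finset.sum_congr rfl
    intro a _
    rw [Pi.smul_apply, monv, Pi.single_eq_same]
  · intro j _ hj
    rw [Finset.sum_apply]
    apply Finset.sum_eq_zero
    intro a _
    rw [Pi.smul_apply, monv, Pi.single_eq_of_ne hj.symm, smul_zero]
  · intro h; exact absurd (Finset.mem_univ _) h

/-- the Kronecker module of a bundle -/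
noncomputable def KE : Rep :=
  mk3 (A := HE (fun i => e i - 1)) (B := HE e) (C := PUnit) (mulX e 0) (mulX e 1) 0

theorem KE_cl (he : ∀ i, 0 ≤ e i) : (KE e).cl = cls n (∑ i, e i) 0 := by
  apply Rep.ext_cl
  · change ((Module.finrank ℂ (HE (fun i => e i - 1)) : ℕ) : ℤ) = ∑ i, e i
    rw [finrank_HE]
    push_cast
    apply Finset.sum_congr rfl
    intro i _
    have := he i
    rw [sub_add_cancel, Int.toNat_of_nonneg this]
  · change ((Module.finrank ℂ (HE e) : ℕ) : ℤ) = n + ∑ i, e i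
    rw [finrank_HE]
    push_cast
    have : ∀ i ∈ Finset.univ, ((e i + 1).toNat : ℤ) = e i + 1 := by
      intro i _
      have := he i
      exact Int.toNat_of_nonneg (by omega)
    rw [Finset.sum_congr rfl this, Finset.sum_add_distrib]
    simp
    ring
  · change ((Module.finrank ℂ PUnit : ℕ) : ℤ) = 0
    rw [Module.finrank_zero_of_subsingleton]; rfl

/-- the key divisibility for endomorphisms of the Kronecker module -/
theorem key_div {e : Fin n → ℤ} (he : ∀ i, 0 ≤ e i)
    (gA : HE (fun i => e i - 1) →ₗ[ℂ] HE (fun i => e i - 1)) (gB : HE e →ₗ[ℂ] HE e)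
    (h0 : ∀ v, mulX e 0 (gA v) = gB (mulX e 0 v)) (h1 : ∀ v, mulX e 1 (gA v) = gB (mulX e 1 v))
    (j : Fin n) (a : ℕ) (ha : a ≤ (e j).toNat) :
    (X 1 ^ a : RR) • (gB ⟨monv j a ((e j).toNat - a), monv_mem (by
      have := he j; omega)⟩).1 =
    (X 0 ^ a : RR) • (gB ⟨monv j 0 (e j).toNat, monv_mem (by
      have := he j; omega)⟩).1 := by
  induction a with
  | zero => simp
  | succ a ih =>
    have ih' := ih (by omega)
    have hej := he j
    let s : HE (fun i => e i - 1) := ⟨monv j a ((e j).toNat - (a + 1)), monv_mem (by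
      omega)⟩
    have e0 : mulX e 0 s = ⟨monv j (a + 1) ((e j).toNat - (a + 1)), monv_mem (by omega)⟩ := by
      apply Subtype.ext
      rw [mulX_apply]
      exact X0_monv _ _ _
    have e1 : mulX e 1 s = ⟨monv j a ((e j).toNat - a), monv_mem (by omega)⟩ := by
      apply Subtype.ext
      rw [mulX_apply]
      change (X 1 : RR) • monv j a ((e j).toNat - (a + 1)) = monv j a ((e j).toNat - a)
      rw [X1_monv]
      congr 1
      omega
    have h3 : (X 1 : RR) • (gB ⟨monv j (a + 1) ((e j).toNat - (a + 1)),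
        monv_mem (by omega)⟩).1 =
        (X 0 : RR) • (gB ⟨monv j a ((e j).toNat - a), monv_mem (by omega)⟩).1 := by
      rw [← e0, ← e1, ← h0, ← h1, mulX_apply, mulX_apply, smul_smul, smul_smul, mul_comm]
    calc (X 1 ^ (a + 1) : RR) • (gB ⟨monv j (a + 1) ((e j).toNat - (a + 1)),
          monv_mem (by omega)⟩).1
        = (X 1 ^ a : RR) • ((X 1 : RR) • (gB ⟨monv j (a + 1) ((e j).toNat - (a + 1)),
          monv_mem (by omega)⟩).1) := by rw [smul_smul, pow_succ]
      _ = (X 0 : RR) • ((X 1 ^ a : RR) •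
          (gB ⟨monv j a ((e j).toNat - a), monv_mem (by omega)⟩).1) := by
          rw [h3, smul_smul, smul_smul, mul_comm]
      _ = _ := by rw [ih', smul_smul, pow_succ, mul_comm]

theorem X1_not_dvd (s : ℕ) : ¬ (X 1 : RR) ∣ X 0 ^ s := by
  intro h
  have h1 := (X_prime (R := ℂ) (i := (1 : Fin 2))).dvd_of_dvd_pow h
  rw [X_dvd_X] at h1
  exact absurd h1 (by decide)

/-- endomorphisms of the Kronecker module of a balanced bundle -/
theorem hom_KE (he : ∀ i, 0 ≤ e i) (hb : ∀ i j, e i ≤ e j + 1) : hom (KE e) (KE e) ≤ n ^ 2 := by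
  classical
  let m0 : ∀ j, HE e := fun j => ⟨monv j 0 (e j).toNat, monv_mem (by have := he j; omega)⟩
  let Θ : LinearMap.ker (dl (KE e) (KE e)) →ₗ[ℂ] (Fin n → Fin n → RR) :=
    { toFun := fun φ => fun j => ((φ.1 .B : HE e →ₗ[ℂ] HE e) (m0 j)).1
      map_add' := fun _ _ => rfl
      map_smul' := fun _ _ => rfl }
  let Ψ : (∀ j : Fin n, HE (fun i => e i - e j)) →ₗ[ℂ] (Fin n → Fin n → RR) :=
    { toFun := fun u => fun j => (X 1 ^ (e j).toNat : RR) • (u j).1
      map_add' := fun u w => by funext j; exact smul_add _ _ _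
      map_smul' := fun c u => by funext j; exact smul_comm _ _ _ }
  have hΘinj : Function.Injective Θ := by
    rw [injective_iff_map_eq_zero]
    intro φ hφ
    have hk := mem_ker_dl.1 φ.2
    let gA : HE (fun i => e i - 1) →ₗ[ℂ] HE (fun i => e i - 1) := φ.1 .A
    let gB : HE e →ₗ[ℂ] HE e := φ.1 .B
    have h0 : ∀ v, mulX e 0 (gA v) = gB (mulX e 0 v) := hk .x
    have h1 : ∀ v, mulX e 1 (gA v) = gB (mulX e 1 v) := hk .y
    have hz : ∀ (j : Fin n) (a : ℕ) (ha : a ≤ (e j).toNat),
        gB ⟨monv j a ((e j).toNat - a), monv_mem (by have := he j; omega)⟩ = 0 := by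
      intro j a ha
      have h2 := key_div he gA gB h0 h1 j a ha
      have h3 : (gB (m0 j)).1 = 0 := congrFun hφ j
      rw [h3, smul_zero] at h2
      apply Subtype.ext
      funext i
      have h4 := congrFun h2 i
      exact (mul_eq_zero.1 h4).resolve_left (pow_ne_zero _ (X_ne_zero 1))
    have hB : ∀ v, gB v = 0 := by
      intro v
      have h2 : v = ∑ j, ∑ a : Fin ((e j).toNat + 1), coeff (mo (e j).toNat a) (v.1 j) •
          (⟨monv j a ((e j).toNat - a), monv_mem (by
            have := he j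
            have := a.2
            omega)⟩ : HE e) := by
        apply Subtype.ext
        conv_lhs => rw [expand_HE v.2]
        rw [Submodule.coe_sum]
        apply Finset.sum_congr rfl
        intro j _
        rw [Submodule.coe_sum, Finset.sum_range]
        rfl
      rw [h2, map_sum]
      apply Finset.sum_eq_zero
      intro j _
      rw [map_sum]
      apply Finset.sum_eq_zero
      intro a _
      rw [map_smul, hz j a (by have := a.2; omega), smul_zero]
    have hA : ∀ v, gA v = 0 := by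
      intro v
      have h2 := h0 v
      rw [hB] at h2
      apply Subtype.ext
      funext i
      have h3 := congrFun (congrArg Subtype.val h2) i
      exact (mul_eq_zero.1 h3).resolve_left (X_ne_zero 0)
    apply Subtype.ext
    funext i
    cases i
    · exact LinearMap.ext hA
    · exact LinearMap.ext hB
    · exact LinearMap.ext (fun v => rfl)
  have hrange : LinearMap.range Θ ≤ LinearMap.range Ψ := by
    rintro _ ⟨φ, rfl⟩
    have hk := mem_ker_dl.1 φ.2
    let gA : HE (fun i => e i - 1) →ₗ[ℂ] HE (fun i => e i - 1) := φ.1 .A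
    let gB : HE e →ₗ[ℂ] HE e := φ.1 .B
    have h0 : ∀ v, mulX e 0 (gA v) = gB (mulX e 0 v) := hk .x
    have h1 : ∀ v, mulX e 1 (gA v) = gB (mulX e 1 v) := hk .y
    have hd : ∀ j i, ∃ y ∈ Hd (e i - e j), (gB (m0 j)).1 i = X 1 ^ (e j).toNat * y := by
      intro j i
      have h2 := congrFun (key_div he gA gB h0 h1 j (e j).toNat le_rfl) i
      have h3 : (X 1 ^ (e j).toNat : RR) ∣ X 0 ^ (e j).toNat * (gB (m0 j)).1 i :=
        ⟨_, h2.symm⟩
      obtain ⟨y, hy⟩ := (X_prime (R := ℂ) (i := (1 : Fin 2))).pow_dvd_of_dvd_mul_left _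
        (X1_not_dvd _) h3
      refine ⟨y, ?_, hy⟩
      have h4 : (X 1 ^ (e j).toNat : RR) ∈ Hd (e j) := by
        have := Hd_pow (X_mem 1) (e j).toNat
        rwa [Int.toNat_of_nonneg (he j)] at this
      apply Hd_of_mul h4 (pow_ne_zero _ (X_ne_zero 1))
      rw [← hy]
      exact (gB (m0 j)).2 i
    choose y hy hy' using hd
    refine ⟨fun j => ⟨fun i => y j i, fun i => hy j i⟩, ?_⟩
    funext j i
    exact (hy' j i).symm
  have h1 : hom (KE e) (KE e) = Module.finrank ℂ (LinearMap.range Θ) :=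
    (LinearMap.finrank_range_of_inj hΘinj).symm
  have h2 := Submodule.finrank_mono hrange
  have h3 := LinearMap.finrank_range_le Ψ
  have h4 : Module.finrank ℂ (∀ j : Fin n, HE (fun i => e i - e j)) = n ^ 2 := by
    rw [Module.finrank_pi_fintype]
    simp only [finrank_HE]
    have h5 : ((∑ j, ∑ i, (e i - e j + 1).toNat : ℕ) : ℤ) = (n : ℤ) ^ 2 := by
      push_cast
      have h6 : ∀ j ∈ Finset.univ, ∀ i ∈ Finset.univ,
          ((e i - e j + 1).toNat : ℤ) = e i - e j + 1 := by
        intro j _ i _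
        have := hb j i
        exact Int.toNat_of_nonneg (by omega)
      rw [Finset.sum_congr rfl (fun j hj => Finset.sum_congr rfl (h6 j hj))]
      simp only [Finset.sum_add_distrib, Finset.sum_sub_distrib, Finset.sum_const,
        Finset.card_univ, Fintype.card_fin]
      simp only [nsmul_eq_mul, mul_one]
      rw [← Finset.mul_sum]
      ring
    exact_mod_cast h5
  omega

theorem E0_KE (he : ∀ i, 0 ≤ e i) (hb : ∀ i j, e i ≤ e j + 1) : E0 (KE e) (KE e) := by
  rw [E0_iff_ext]
  have h1 := chi_hom_ext (KE e) (KE e)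
  have h2 := hom_KE e he hb
  rw [KE_cl e he, chi_cls] at h1
  have h3 : euler n (∑ i, e i) 0 n (∑ i, e i) 0 = (n : ℤ) ^ 2 := by unfold euler; ring
  rw [h3] at h1
  have h4 : ((hom (KE e) (KE e) : ℕ) : ℤ) ≤ (n : ℤ) ^ 2 := by exact_mod_cast h2
  omega

theorem kron_surj (he : ∀ i, 0 ≤ e i) (hb : ∀ i j, e i ≤ e j + 1)
    (ξx ξy : HE (fun i => e i - 1) →ₗ[ℂ] HE e) :
    ∃ (gA : HE (fun i => e i - 1) →ₗ[ℂ] HE (fun i => e i - 1)) (gB : HE e →ₗ[ℂ] HE e),
      (∀ v, gB (mulX e 0 v) - mulX e 0 (gA v) = ξx v) ∧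
      (∀ v, gB (mulX e 1 v) - mulX e 1 (gA v) = ξy v) := by
  have h1 := (E0_iff3 _ _).1 (E0_KE e he hb)
  obtain ⟨⟨gA', gB', gC⟩, hg⟩ := h1 ((-ξx : HE (fun i => e i - 1) →ₗ[ℂ] HE e),
    (-ξy : HE (fun i => e i - 1) →ₗ[ℂ] HE e), 0)
  let gA : HE (fun i => e i - 1) →ₗ[ℂ] HE (fun i => e i - 1) := gA'
  let gB : HE e →ₗ[ℂ] HE e := gB'
  refine ⟨gA, gB, fun v => ?_, fun v => ?_⟩
  · have h2 : mulX e 0 (gA v) - gB (mulX e 0 v) = - ξx v :=
      LinearMap.congr_fun (congrArg Prod.fst hg) v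
    rw [← neg_sub, h2, neg_neg]
  · have h2 : mulX e 1 (gA v) - gB (mulX e 1 v) = - ξy v :=
      LinearMap.congr_fun (congrArg (fun p => p.2.1) hg) v
    rw [← neg_sub, h2, neg_neg]

end Bal

end Pool.Agent.L7h86.Coh
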