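import Mathlib
import Pool.Agent.L7h86.Br6

/-!
# Generic coherent systems
-/

set_option autoImplicit false

namespace Pool.Agent.L7h86.Coh

open MvPolynomial Pool.Agent.L7h86

/-- an additive map applied to the coefficients -/
noncomputable def Dc (δ : ℂ →+ ℂ) : RR →+ RR where
  toFun f := (basisMonomials (Fin 2) ℂ).repr.symm
    (Finsupp.mapRange δ (map_zero δ) ((basisMonomials (Fin 2) ℂ).repr f))
  map_zero' := by simp
  map_add' f g := by
    rw [← map_add]
    congr 1
    rw [map_add, Finsupp.mapRange_add (map_add δ)]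

theorem coeff_eq_repr (m : Fin 2 →₀ ℕ) (f : RR) :
    coeff m f = (basisMonomials (Fin 2) ℂ).repr f m := rfl

theorem coeff_Dc (δ : ℂ →+ ℂ) (m : Fin 2 →₀ ℕ) (f : RR) : coeff m (Dc δ f) = δ (coeff m f) := by
  rw [coeff_eq_repr, coeff_eq_repr]
  change ((basisMonomials (Fin 2) ℂ).repr ((basisMonomials (Fin 2) ℂ).repr.symm _)) m = _
  rw [LinearEquiv.apply_symm_apply, Finsupp.mapRange_apply]

theorem Dc_smul (D : Derivation ℚ ℂ ℂ) (c : ℂ) (f : RR) :
    Dc (D : ℂ →+ ℂ) (c • f) = D c • f + c • Dc (D : ℂ →+ ℂ) f := by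
  ext m
  rw [coeff_Dc, coeff_smul, coeff_add, coeff_smul, coeff_smul, coeff_Dc]
  simp only [smul_eq_mul, AddMonoidHom.coe_coe]
  rw [Derivation.leibniz]
  simp only [smul_eq_mul]
  ring

theorem Dc_X (δ : ℂ →+ ℂ) (t : Fin 2) (f : RR) : Dc δ (X t * f) = X t * Dc δ f := by
  ext m
  rw [coeff_Dc, coeff_X_mul', coeff_X_mul', coeff_Dc]
  split_ifs
  · rfl
  · rw [map_zero]

theorem Dc_Hd (δ : ℂ →+ ℂ) {s : ℤ} {f : RR} (hf : f ∈ Hd s) : Dc δ f ∈ Hd s := by
  refine ⟨?_, fun h => ?_⟩
  · intro m hm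
    apply hf.1
    intro h
    apply hm
    rw [coeff_Dc, h, map_zero]
  · rw [hf.2 h, map_zero]

theorem Dc_mono (D : Derivation ℚ ℂ ℂ) (m : Fin 2 →₀ ℕ) :
    Dc (D : ℂ →+ ℂ) (monomial m 1) = 0 := by
  ext m'
  rw [coeff_Dc, coeff_monomial, coeff_zero]
  split_ifs
  · exact D.map_one_eq_zero
  · exact map_zero _

/-- coefficientwise derivation on sections -/
noncomputable def DH (δ : ℂ →+ ℂ) {n : ℕ} (e : Fin n → ℤ) : HE e →+ HE e where
  toFun v := ⟨fun i => Dc δ (v.1 i), fun i => Dc_Hd δ (v.2 i)⟩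
  map_zero' := by
    apply Subtype.ext
    funext i
    exact map_zero (Dc δ)
  map_add' u v := by
    apply Subtype.ext
    funext i
    exact map_add (Dc δ) _ _

theorem DH_smul (D : Derivation ℚ ℂ ℂ) {n : ℕ} (e : Fin n → ℤ) (c : ℂ) (v : HE e) :
    DH (D : ℂ →+ ℂ) e (c • v) = D c • v + c • DH (D : ℂ →+ ℂ) e v := by
  apply Subtype.ext
  funext i
  exact Dc_smul D c (v.1 i)

theorem DH_mulX (δ : ℂ →+ ℂ) {n : ℕ} (e : Fin n → ℤ) (t : Fin 2) (v : HE (fun i => e i - 1)) :
    DH δ e (mulX e t v) = mulX e t (DH δ _ v) := by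
  apply Subtype.ext
  funext i
  exact Dc_X δ t (v.1 i)

section

variable {n : ℕ} (e : Fin n → ℤ) (k : ℕ)

abbrev CI : Type := Fin k × (Σ i : Fin n, Fin ((e i).toNat + 1))

/-- a section with prescribed coefficients -/
noncomputable def secv (he : ∀ i, 0 ≤ e i) (w : CI e k → ℂ) (c : Fin k) : HE e :=
  ∑ i : Fin n, ∑ a : Fin ((e i).toNat + 1), w (c, ⟨i, a⟩) •
    (⟨monv i a ((e i).toNat - a), monv_mem (by
      have := he i
      have := a.2
      omega)⟩ : HE e)

theorem sec_expand (he : ∀ i, 0 ≤ e i) (v : HE e) :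
    v = ∑ i : Fin n, ∑ a : Fin ((e i).toNat + 1), coeff (mo (e i).toNat a) (v.1 i) •
    (⟨monv i a ((e i).toNat - a), monv_mem (by
      have := he i
      have := a.2
      omega)⟩ : HE e) := by
  apply Subtype.ext
  conv_lhs => rw [expand_HE v.2]
  rw [Submodule.coe_sum]
  apply Finset.sum_congr rfl
  intro j _
  rw [Submodule.coe_sum, Finset.sum_range]
  rfl

theorem DH_monv (D : Derivation ℚ ℂ ℂ) (i : Fin n) (a b : ℕ) (h : monv i a b ∈ HE e) :
    DH (D : ℂ →+ ℂ) e ⟨monv i a b, h⟩ = 0 := by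
  apply Subtype.ext
  funext j
  change Dc (D : ℂ →+ ℂ) (monv i a b j) = 0
  unfold monv
  by_cases hij : j = i
  · subst hij
    rw [Pi.single_eq_same, X_pow_eq_monomial, X_pow_eq_monomial, monomial_mul, one_mul, Dc_mono]
  · rw [Pi.single_eq_of_ne hij, map_zero]

theorem DH_sec (he : ∀ i, 0 ≤ e i) (w : CI e k → ℂ) (D : Derivation ℚ ℂ ℂ) (c : Fin k)
    (y : HE e) (hD : ∀ i a, D (w (c, ⟨i, a⟩)) = coeff (mo (e i).toNat a) (y.1 i)) :
    DH (D : ℂ →+ ℂ) e (secv e k he w c) = y := by
  conv_rhs => rw [sec_expand e he y]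
  unfold secv
  rw [map_sum]
  apply Finset.sum_congr rfl
  intro i _
  rw [map_sum]
  apply Finset.sum_congr rfl
  intro a _
  rw [DH_smul, DH_monv, smul_zero, add_zero, hD]

/-- the map given by a family of sections -/
noncomputable def fzv (v : Fin k → HE e) : (Fin k → ℂ) →ₗ[ℂ] HE e where
  toFun t := ∑ c, t c • v c
  map_add' s t := by
    simp only [Pi.add_apply, add_smul, Finset.sum_add_distrib]
  map_smul' a t := by
    simp only [Pi.smul_apply, smul_eq_mul, RingHom.id_apply, Finset.smul_sum, smul_smul]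

theorem fzv_apply (v : Fin k → HE e) (t : Fin k → ℂ) : fzv e k v t = ∑ c, t c • v c := rfl

noncomputable def GE (v : Fin k → HE e) : Rep :=
  mk3 (A := HE (fun i => e i - 1)) (B := HE e) (C := Fin k → ℂ) (mulX e 0) (mulX e 1) (fzv e k v)

theorem GE_versal (he : ∀ i, 0 ≤ e i) (hb : ∀ i j, e i ≤ e j + 1) (w : CI e k → ℂ)
    (hw : ∀ a : CI e k → ℂ, ∃ D : Derivation ℚ ℂ ℂ, ∀ c, D (w c) = a c) :
    Versal (fun _ : Unit => GE e k (secv e k he w)) := by
  classical
  intro ξ
  obtain ⟨gA, gB, hA, hB⟩ := kron_surj e he hb (ξ () .x) (ξ () .y)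
  let ξz : (Fin k → ℂ) →ₗ[ℂ] HE e := ξ () .z
  obtain ⟨D, hD⟩ := hw (fun c => coeff (mo (e c.2.1).toNat c.2.2)
    ((ξz (Pi.single c.1 1) - gB (secv e k he w c.1)).1 c.2.1))
  have hsec : ∀ c, DH (D : ℂ →+ ℂ) e (secv e k he w c) =
      ξz (Pi.single c 1) - gB (secv e k he w c) := by
    intro c
    apply DH_sec
    intro i a
    exact hD (c, ⟨i, a⟩)
  let sA : HE (fun i => e i - 1) →+ HE (fun i => e i - 1) :=
    DH (D : ℂ →+ ℂ) (fun i => e i - 1) + gA.toAddMonoidHom
  let sB : HE e →+ HE e := DH (D : ℂ →+ ℂ) e + gB.toAddMonoidHom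
  let sC : (Fin k → ℂ) →+ (Fin k → ℂ) :=
    { toFun := fun t => fun c => D (t c)
      map_zero' := by funext c; exact map_zero D
      map_add' := fun s t => by funext c; exact map_add D (s c) (t c) }
  have hsA : ∀ v, sA v = DH (D : ℂ →+ ℂ) (fun i => e i - 1) v + gA v := fun v => rfl
  have hsB : ∀ v, sB v = DH (D : ℂ →+ ℂ) e v + gB v := fun v => rfl
  have hsC : ∀ t c, sC t c = D (t c) := fun t c => rfl
  let s : ∀ i, (GE e k (secv e k he w)).V i →+ (GE e k (secv e k he w)).V i := fun i =>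
    match i with
    | .A => sA
    | .B => sB
    | .C => sC
  refine ⟨D, fun _ i => s i, ?_, ?_⟩
  · intro _ i c v
    cases i
    · have h : ∀ v : HE (fun i => e i - 1), sA (c • v) = D c • v + c • sA v := by
        intro v
        rw [hsA, hsA, DH_smul, map_smul, smul_add, add_assoc]
      exact h v
    · have h : ∀ v : HE e, sB (c • v) = D c • v + c • sB v := by
        intro v
        rw [hsB, hsB, DH_smul, map_smul, smul_add, add_assoc]
      exact h v
    · have h : ∀ v : Fin k → ℂ, sC (c • v) = D c • v + c • sC v := by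
        intro v
        funext j
        rw [hsC, Pi.add_apply, Pi.smul_apply, Pi.smul_apply, Pi.smul_apply, hsC]
        simp only [smul_eq_mul, Derivation.leibniz]
        ring
      exact h v
  · intro _ ed v
    cases ed
    · have h : ∀ v : HE (fun i => e i - 1), sB (mulX e 0 v) - mulX e 0 (sA v) =
          gB (mulX e 0 v) - mulX e 0 (gA v) := by
        intro v
        rw [hsA, hsB, DH_mulX, map_add]
        abel
      exact (h v).trans (hA v)
    · have h : ∀ v : HE (fun i => e i - 1), sB (mulX e 1 v) - mulX e 1 (sA v) =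
          gB (mulX e 1 v) - mulX e 1 (gA v) := by
        intro v
        rw [hsA, hsB, DH_mulX, map_add]
        abel
      exact (h v).trans (hB v)
    · have h : ∀ t : Fin k → ℂ, sB (fzv e k (secv e k he w) t) -
          fzv e k (secv e k he w) (sC t) = ξz t := by
        intro t
        have h1 : t = ∑ c, t c • (Pi.single c (1 : ℂ) : Fin k → ℂ) := by
          funext i
          simp [Finset.sum_apply, Pi.single_apply]
        conv_rhs => rw [h1]
        rw [fzv_apply, fzv_apply, map_sum, map_sum, ← Finset.sum_sub_distrib]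
        apply Finset.sum_congr rfl
        intro c _
        rw [hsB, DH_smul, hsec, map_smul, map_smul, hsC, smul_sub]
        abel
      exact h v

theorem GE_cl (he : ∀ i, 0 ≤ e i) (v : Fin k → HE e) :
    (GE e k v).cl = cls n (∑ i, e i) k := by
  have h1 := KE_cl e he
  apply Rep.ext_cl
  · exact congrFun h1 .A
  · exact congrFun h1 .B
  · change ((Module.finrank ℂ (Fin k → ℂ) : ℕ) : ℤ) = k
    simp

end

/-- balanced splitting types -/
theorem exists_bal {n : ℕ} (hn : 1 ≤ n) (d : ℕ) : ∃ e : Fin n → ℤ, (∀ i, 0 ≤ e i) ∧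
    (∀ i j, e i ≤ e j + 1) ∧ ∑ i, e i = d := by
  classical
  induction d with
  | zero => exact ⟨fun _ => 0, fun _ => le_rfl, fun _ _ => by norm_num, by simp⟩
  | succ d ih =>
    obtain ⟨e, h1, h2, h3⟩ := ih
    obtain ⟨i0, -, hmin⟩ := Finset.exists_min_image (Finset.univ : Finset (Fin n)) e
      ⟨⟨0, by omega⟩, Finset.mem_univ _⟩
    refine ⟨Function.update e i0 (e i0 + 1), ?_, ?_, ?_⟩
    · intro i
      by_cases hi : i = i0
      · subst hi; rw [Function.update_self]; have := h1 i; omega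
      · rw [Function.update_of_ne hi]; exact h1 i
    · intro i j
      have hmi := hmin i (Finset.mem_univ _)
      have hmj := hmin j (Finset.mem_univ _)
      have h4 := h2 i j
      have h5 := h2 i i0
      by_cases hi : i = i0
      · subst hi
        rw [Function.update_self]
        by_cases hj : j = i
        · subst hj; rw [Function.update_self]; omega
        · rw [Function.update_of_ne hj]; omega
      · rw [Function.update_of_ne hi]
        by_cases hj : j = i0
        · subst hj; rw [Function.update_self]; omega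
        · rw [Function.update_of_ne hj]; omega
    · rw [Finset.sum_update_of_mem (Finset.mem_univ _), Finset.sdiff_singleton_eq_erase]
      rw [← Finset.add_sum_erase Finset.univ e (Finset.mem_univ i0)] at h3
      push_cast
      linarith

/-- generic sections of a balanced bundle -/
theorem exists_GE {n : ℕ} (hn : 1 ≤ n) {d : ℤ} (hd : 0 ≤ d) (k : ℕ) :
    ∃ (e : Fin n → ℤ) (v : Fin k → HE e), (∀ i, 0 ≤ e i) ∧ ∑ i, e i = d ∧
      G (GE e k v) ∧ (GE e k v).cl = cls n d k := by
  obtain ⟨e, h1, h2, h3⟩ := exists_bal hn d.toNat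
  rw [Int.toNat_of_nonneg hd] at h3
  obtain ⟨w, hw⟩ := exists_free (CI e k)
  refine ⟨e, secv e k h1 w, h1, h3, (GE_versal e k h1 h2 w hw).G (), ?_⟩
  rw [GE_cl e k h1, h3]

end Pool.Agent.L7h86.Coh
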