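import Mathlib
import Pool.Agent.L7h86.Br7

/-!
# The criterion for coherent systems
-/

set_option autoImplicit false

namespace Pool.Agent.L7h86.Coh

open MvPolynomial Pool.Agent.L7h86

theorem fz_inj {α : ℝ} (hα : 0 < α) {n : ℕ} (hn : 1 ≤ n) {d k : ℤ} {M : Rep} (hM : Stable α M)
    (hcl : M.cl = cls n d k) : Function.Injective M.fz := by
  rw [injective_iff_map_eq_zero]
  intro v hv
  by_contra hv0
  let Y : SubR M := ⟨fun i => match i with
      | .A => ⊥
      | .B => ⊥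
      | .C => LinearMap.ker M.fz, by
        intro e v hv
        cases e
        · change M.f .x v = 0
          have : v = 0 := hv
          rw [this, map_zero]
        · change M.f .y v = 0
          have : v = 0 := hv
          rw [this, map_zero]
        · exact hv⟩
  have hYn : Y.rep.Nz := ⟨.C, ⟨v, hv⟩, fun h => hv0 (congrArg Subtype.val h)⟩
  have hA : Y.rep.cl .A = 0 := by
    rw [cl_eq]
    have : Module.finrank ℂ (Y.rep.V .A) = 0 := finrank_bot ℂ (M.V .A)
    rw [this]; rfl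
  have hB : Y.rep.cl .B = 0 := by
    rw [cl_eq]
    have : Module.finrank ℂ (Y.rep.V .B) = 0 := finrank_bot ℂ (M.V .B)
    rw [this]; rfl
  have hC : 0 < Y.rep.cl .C := by
    obtain ⟨i, hi⟩ := Rep.nz_iff_cl.1 hYn
    cases i <;> omega
  have hMB : M.cl .B = n + d := by rw [hcl]; rfl
  have hMA : M.cl .A = d := by rw [hcl]; rfl
  have h0 := M.cl_nonneg .A
  have h1 := hM.st Y.rep hYn ⟨Y.i, Y.ses.inj⟩ (by
    intro h
    have := congrFun h .B
    omega)
  unfold sg at h1
  rw [hA, hB, hMA, hMB] at h1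
  push_cast at h1
  have h2 : (0 : ℝ) < Y.rep.cl .C := by exact_mod_cast hC
  have h3 : (0 : ℝ) < n := by exact_mod_cast hn
  have h4 := mul_pos h3 (mul_pos hα h2)
  nlinarith

/-- stable generic sections give stable coherent systems -/
theorem exists_coh {α : ℝ} (hα : 0 < α) {n : ℕ} (hn : 1 ≤ n) {d : ℤ} {k : ℕ} (hk : 1 ≤ k)
    {e : Fin n → ℤ} {v : Fin k → HE e} (he : ∀ i, 0 ≤ e i) (hd : ∑ i, e i = d)
    (hst : Stable α (GE e k v)) : ∃ S : CohSys n d k, S.IsStable α := by
  have hcl : (GE e k v).cl = cls n d k := by rw [GE_cl e k he, hd]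
  have hinj : Function.Injective (fzv e k v) := fz_inj hα hn hst hcl
  let L : (Fin k → ℂ) →ₗ[ℂ] (Fin n → RR) := (HE e).subtype ∘ₗ fzv e k v
  have hLinj : Function.Injective L := Subtype.val_injective.comp hinj
  let S : CohSys n d k :=
    { e := e
      degE := hd
      V := LinearMap.range L
      le := by
        rintro _ ⟨t, rfl⟩
        exact (fzv e k v t).2
      dim := by
        rw [LinearMap.finrank_range_of_inj hLinj]
        simp }
  refine ⟨S, coh_stable S hα hn hk he ?_⟩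
  let a : Hm (GE e k v) (RE S.e S.V S.le) :=
    Hm.mk3 (M := GE e k v) (N := RE S.e S.V S.le)
      (LinearMap.id : HE (fun i => e i - 1) →ₗ[ℂ] HE (fun i => e i - 1))
      (LinearMap.id : HE e →ₗ[ℂ] HE e) L.rangeRestrict (fun _ => rfl) (fun _ => rfl) (fun _ => rfl)
  refine eq_of_bij hst a ?_ ?_
  · intro i
    cases i
    · exact fun _ _ h => h
    · exact fun _ _ h => h
    · intro s t h
      have h' : L.rangeRestrict s = L.rangeRestrict t := h
      have h'' := congrArg (fun z : LinearMap.range L => (z : Fin n → RR)) h'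
      exact hLinj h''
  · intro i
    cases i
    · exact fun s => ⟨s, rfl⟩
    · exact fun s => ⟨s, rfl⟩
    · exact LinearMap.surjective_rangeRestrict L

/-- stability is an open condition -/
theorem open_st {α : ℝ} {M : Rep} (hM : Stable α M) :
    ∃ ε > 0, ∀ β : ℝ, |β - α| < ε → Stable β M := by
  let F : Set Cls := {u | ∃ X : Rep, X.Nz ∧ Sb X M ∧ X.cl ≠ M.cl ∧ X.cl = u}
  have hF : F.Finite := by
    apply (finite_cls M).subset
    rintro u ⟨X, _, hX, _, rfl⟩ i
    exact ⟨X.cl_nonneg i, hX.cl_le i⟩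
  have h1 : ∀ᶠ β in nhds α, ∀ u ∈ F, sg β u M.cl < 0 := by
    rw [Filter.eventually_all_finite hF]
    rintro u ⟨X, h1, h2, h3, rfl⟩
    have h4 : Continuous (fun β => sg β X.cl M.cl) := by
      unfold sg
      fun_prop
    exact (h4.tendsto α).eventually_lt_const (hM.st X h1 h2 h3)
  rw [Metric.eventually_nhds_iff] at h1
  obtain ⟨ε, hε, h2⟩ := h1
  refine ⟨ε, hε, fun β hβ => ⟨hM.nz, fun X h3 h4 h5 => ?_⟩⟩
  exact h2 (by rw [Real.dist_eq]; exact hβ) X.cl ⟨X, h3, h4, h5, rfl⟩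

/-- stability is a convex condition -/
theorem convex_st {α₁ α₂ α : ℝ} (h1 : α₁ < α) (h2 : α < α₂) {M : Rep} (hM1 : Stable α₁ M)
    (hM2 : Stable α₂ M) : Stable α M := by
  refine ⟨hM1.nz, fun X h3 h4 h5 => ?_⟩
  have e1 := hM1.st X h3 h4 h5
  have e2 := hM2.st X h3 h4 h5
  have e3 : (α₂ - α₁) * sg α X.cl M.cl =
      (α₂ - α) * sg α₁ X.cl M.cl + (α - α₁) * sg α₂ X.cl M.cl := by
    unfold sg; ring
  have e4 : (α₂ - α₁) * sg α X.cl M.cl < 0 := by
    rw [e3]
    have := mul_neg_of_pos_of_neg (sub_pos.2 h2) e1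
    have := mul_neg_of_pos_of_neg (sub_pos.2 h1) e2
    linarith
  exact neg_of_mul_neg_right e4 (by linarith)

theorem main {n k : ℕ} (hn : 1 ≤ n) (hk : 1 ≤ k) (d : ℤ) {α : ℝ} (hα : 0 < α) :
    α ∈ stabilitySet n d k ↔ ∃ α₁ α₂ : ℝ, Irrational α₁ ∧ Irrational α₂ ∧
      0 < α₁ ∧ α₁ < α ∧ α < α₂ ∧ Adm α₁ n d k ∧ Adm α₂ n d k := by
  constructor
  · rintro ⟨S, hS⟩
    have he := e_nonneg S hα hk hS
    have hcl := RE_cl S he
    have hst := RE_stable S hα hn hk hS
    obtain ⟨ε, hε, hop⟩ := open_st hst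
    obtain ⟨α₁, i1, l1, u1⟩ := exists_irrational_btwn (show max 0 (α - ε) < α by
      rw [max_lt_iff]; constructor <;> linarith)
    obtain ⟨α₂, i2, l2, u2⟩ := exists_irrational_btwn (show α < α + ε by linarith)
    rw [max_lt_iff] at l1
    have p1 : 0 < α₁ := l1.1
    have p2 : 0 < α₂ := by linarith
    have s1 := hop α₁ (by rw [abs_lt]; constructor <;> linarith [l1.2])
    have s2 := hop α₂ (by rw [abs_lt]; constructor <;> linarith)
    exact ⟨α₁, α₂, i1, i2, p1, u1, l2, (stmt_all p1 i1 n hn d k).2 _ s1 hcl,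
      (stmt_all p2 i2 n hn d k).2 _ s2 hcl⟩
  · rintro ⟨α₁, α₂, i1, i2, p1, l1, l2, a1, a2⟩
    have hd : 0 ≤ d := by
      have := a1
      rw [Adm] at this
      exact this.1
    obtain ⟨e, v, h1, h2, h3, h4⟩ := exists_GE hn hd k
    have s1 := (stmt_all p1 i1 n hn d k).1 a1 _ h3 h4
    have s2 := (stmt_all (by linarith) i2 n hn d k).1 a2 _ h3 h4
    exact exists_coh hα hn hk h1 h2 (convex_st l1 l2 s1 s2)

end Pool.Agent.L7h86.Coh
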