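import Mathlib
import Pool.Agent.L7h86.Defs

/-!
# Computation of the stability intervals

`ival n d k` computes an open interval with rational end points (the upper end point may be
infinite), using rational arithmetic and a table of the intervals of the types of smaller rank
with Brill-Noether number `0`.
-/

set_option autoImplicit false

namespace Pool.Agent.L7h86

/-- An open interval `(a, b)`, where `a` is rational and `b` is rational or infinite; `none` stands
for the empty set. -/
abbrev Intv := Option (ℚ × WithTop ℚ)

/-- The set of real numbers of the interval. -/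
def Intv.toSet (J : Intv) : Set ℝ :=
  {x | ∃ (a : ℚ) (b : WithTop ℚ), J = some (a, b) ∧ (a : ℝ) < x ∧ ∀ c : ℚ, b = c → x < c}

/-- The rational number `q` lies in the interval. -/
def Intv.Has (J : Intv) (q : ℚ) : Prop :=
  match J with
  | none => False
  | some (a, b) => a < q ∧ (q : WithTop ℚ) < b

instance (J : Intv) (q : ℚ) : Decidable (J.Has q) :=
  match J with
  | none => inferInstanceAs (Decidable False)
  | some (a, b) => inferInstanceAs (Decidable (a < q ∧ (q : WithTop ℚ) < b))

/-- The end points of the interval (those that are finite). -/
def Intv.ends (J : Intv) : List ℚ :=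
  match J with
  | none => []
  | some (a, ⊤) => [a]
  | some (a, (b : ℚ)) => [a, b]

/-- A type `(n, d, k)` together with an interval. -/
structure Entry where
  n : ℕ
  d : ℤ
  k : ℤ
  J : Intv

/-- The numerical conditions on the type `(n, d, k)`. -/
def Num (n : ℕ) (d k : ℤ) : Prop :=
  0 ≤ d ∧ 0 ≤ k ∧ k ≤ n + d ∧ (n : ℤ) ^ 2 - 1 ≤ k * (n + d - k) ∧
  (k * (n + d - k) = (n : ℤ) ^ 2 → Int.gcd (Int.gcd n d) k = 1)

instance (n : ℕ) (d k : ℤ) : Decidable (Num n d k) := by unfold Num; infer_instance

/-- The tests of the type `(n, d, k)` at the parameter `q` against the types `t` of the table whose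
interval contains `q`. The inequalities of slopes are written without denominators. -/
def Test (T : List Entry) (n : ℕ) (d k : ℤ) (q : ℚ) : Prop :=
  ∀ t ∈ T, t.J.Has q →
    ((t.n : ℚ) * (d + q * k) ≤ n * (t.d + q * t.k) → euler t.n t.d t.k n d k ≤ 0) ∧
    ((n : ℚ) * (t.d + q * t.k) ≤ t.n * (d + q * k) → euler n d k t.n t.d t.k ≤ 0)

instance (T : List Entry) (n : ℕ) (d k : ℤ) (q : ℚ) : Decidable (Test T n d k q) := by
  unfold Test; infer_instance

/-- The finite set of non-negative rational numbers at which a test can change: `0`, the end points
of the intervals of the table, and the parameters at which the slopes agree. -/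
def walls (T : List Entry) (n : ℕ) (d k : ℤ) : Finset ℚ :=
  insert 0 (T.flatMap (fun t => (t.J.ends ++
    [((n : ℚ) * t.d - t.n * d) / (t.n * k - n * t.k)]).map (fun c => max 0 c))).toFinset

/-- The next larger element of `P`, or infinity. -/
def nxt (P : Finset ℚ) (p : ℚ) : WithTop ℚ := (P.filter (fun x => p < x)).min

/-- A sample point between `p` and the next larger element of `P`. -/
def smp (P : Finset ℚ) (p : ℚ) : ℚ :=
  match nxt P p with
  | ⊤ => p + 1
  | (x : ℚ) => (p + x) / 2

/-- The interval of the type `(n, d, k)`, computed from a table: if the numerical conditions hold,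
the walls `p` are selected for which the tests hold just to the right of `p`; the interval begins at
the smallest of them and ends at the wall that follows the largest of them. -/
def solve (T : List Entry) (n : ℕ) (d k : ℤ) : Intv :=
  if Num n d k then
    if h : ((walls T n d k).filter
        (fun p => Test T n d k (smp (walls T n d k) p))).Nonempty then
      some (((walls T n d k).filter (fun p => Test T n d k (smp (walls T n d k) p))).min' h,
        nxt (walls T n d k)
          (((walls T n d k).filter (fun p => Test T n d k (smp (walls T n d k) p))).max' h))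
    else none
  else none

/-- The types of rank one used for the type `(n, d, k)`: line bundles of degree `i ≤ d + 1` with no
sections or all sections, with interval `(0, ∞)`. -/
def lines (n : ℕ) (d : ℤ) : List Entry :=
  if 1 < n then
    (List.range (d.toNat + 2)).flatMap (fun i : ℕ =>
      [⟨1, i, 0, some (0, ⊤)⟩, ⟨1, i, i + 1, some (0, ⊤)⟩])
  else []

/-- The table of the types `(n', d', k')` with `2 ≤ n' < n` and `k' (n' + d' - k') = n'^2 - 1`, with
their intervals. -/
def tab : ℕ → List Entry
  | 0 => []
  | n + 1 => tab n ++ ((List.range (n ^ 2)).filter (fun k : ℕ => 1 ≤ k ∧ k ∣ n ^ 2 - 1)).map (fun k : ℕ =>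
      ⟨n, ((n ^ 2 - 1) / k + k : ℕ) - n, k,
        solve (lines n (((n ^ 2 - 1) / k + k : ℕ) - n) ++ tab n) n
          (((n ^ 2 - 1) / k + k : ℕ) - n) k⟩)

/-- The stability interval of the type `(n, d, k)`. -/
def ival (n : ℕ) (d k : ℤ) : Intv := solve (lines n d ++ tab n) n d k

end Pool.Agent.L7h86
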