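import Mathlib
import Pool.Agent.L7h86.NL5

/-!
# The numerical lemma for equal slopes
-/

set_option autoImplicit false

namespace Pool.Agent.L7h86

theorem num_lemma' {α : ℝ} (hα : 0 < α) {x y : Cls} (hq : chi x x ≤ 0) (hq' : chi y y ≤ 0)
    (h0 : chi x y = 0) (hs : 0 ≤ sg α x y) (hlt : chi y x < 0) :
    ∃ z : Cls, chi z x = 0 ∧ chi z y = 0 ∧ chi z z = chi x x * chi y y ∧
      (∀ u, sg α u x < 0 → 0 < chi u x - chi x u → chi z u < 0) ∧
      (∀ u, sg α u y < 0 → 0 < chi u y - chi y u → chi z u < 0) := by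
  have e3 := id3 α x y
  have hB : sg α y x ≤ 0 := by rw [sg_swap]; linarith
  have hA : om y x < 0 := by
    unfold om
    rw [h0, sub_zero]
    exact_mod_cast hlt
  have hAe : om y x = ((chi y x : ℤ) : ℝ) := by
    unfold om
    rw [h0, sub_zero]
  have hqr : ((chi x x : ℤ) : ℝ) ≤ 0 := by exact_mod_cast hq
  have hqr' : ((chi y y : ℤ) : ℝ) ≤ 0 := by exact_mod_cast hq'
  have h1 : 0 < PP α x * PP α y * (- om y x) := by
    have e4 : PP α x * PP α y * (((chi x y + chi y x : ℤ)) : ℝ) = PP α x * PP α y * om y x := by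
      rw [hAe, h0, zero_add]
    rw [e4] at e3
    have t1 : 0 < (om y x) ^ 2 * (1 + α) := mul_pos (by nlinarith) (by linarith)
    have t2 : 0 ≤ om y x * sg α y x := mul_nonneg_of_nonpos_of_nonpos hA.le hB
    have t3 : 0 ≤ om y x * sg α y x * (4 + 2 * α) := mul_nonneg t2 (by linarith)
    have t4 : 0 ≤ (sg α y x) ^ 2 := sq_nonneg _
    have t5 : (PP α y) ^ 2 * ((chi x x : ℤ) : ℝ) ≤ 0 :=
      mul_nonpos_of_nonneg_of_nonpos (sq_nonneg _) hqr
    have t6 : (PP α x) ^ 2 * ((chi y y : ℤ) : ℝ) ≤ 0 :=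
      mul_nonpos_of_nonneg_of_nonpos (sq_nonneg _) hqr'
    nlinarith
  have h2 : 0 < PP α x * PP α y := by
    by_contra h
    push Not at h
    have := mul_nonpos_of_nonpos_of_nonneg h (by linarith : 0 ≤ - om y x)
    linarith
  have hTS : ∀ u, sg α u x < 0 → 0 < chi u x - chi x u → PP α x * ((chi (z0 x y) u : ℤ) : ℝ) < 0 := by
    intro u h3 h4
    rw [← id1]
    have h4' : 0 < om u x := by unfold om; exact_mod_cast h4
    have t1 : - om y x * sg α u x < 0 :=
      mul_neg_of_pos_of_neg (by linarith) h3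
    have t2 : 0 ≤ (- sg α y x) * om u x := mul_nonneg (by linarith) h4'.le
    linarith
  have hTT : ∀ u, sg α u y < 0 → 0 < chi u y - chi y u → PP α y * ((chi (z0 x y) u : ℤ) : ℝ) < 0 := by
    intro u h3 h4
    rw [← id2]
    have h4' : 0 < om u y := by unfold om; exact_mod_cast h4
    have t1 : - om y x * sg α u y < 0 :=
      mul_neg_of_pos_of_neg (by linarith) h3
    have t2 : 0 ≤ (- sg α y x) * om u y := mul_nonneg (by linarith) h4'.le
    linarith
  rcases pos_and_pos_or_neg_and_neg_of_mul_pos h2 with ⟨hx, hy⟩ | ⟨hx, hy⟩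
  · refine ⟨z0 x y, chi_z0_x x y, chi_z0_y x y, by rw [chi_z0_z0, h0]; ring, ?_, ?_⟩
    · intro u h3 h4
      have h5 := hTS u h3 h4
      have h6 : ((chi (z0 x y) u : ℤ) : ℝ) < 0 := neg_of_mul_neg_right h5 hx.le
      exact_mod_cast h6
    · intro u h3 h4
      have h5 := hTT u h3 h4
      have h6 : ((chi (z0 x y) u : ℤ) : ℝ) < 0 := neg_of_mul_neg_right h5 hy.le
      exact_mod_cast h6
  · have hneg : ∀ u, chi (- z0 x y) u = - chi (z0 x y) u := by
      intro u
      simp only [chi, Pi.neg_apply]; ring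
    have hneg2 : chi (- z0 x y) (- z0 x y) = chi (z0 x y) (z0 x y) := by
      simp only [chi, Pi.neg_apply]; ring
    refine ⟨- z0 x y, by rw [hneg, chi_z0_x, neg_zero], by rw [hneg, chi_z0_y, neg_zero],
      by rw [hneg2, chi_z0_z0, h0]; ring, ?_, ?_⟩
    · intro u h3 h4
      have h5 := hTS u h3 h4
      have h6 : 0 < ((chi (z0 x y) u : ℤ) : ℝ) := by
        by_contra h
        push Not at h
        have := mul_nonneg_of_nonpos_of_nonpos hx.le h
        linarith
      rw [hneg]
      have h7 : 0 < chi (z0 x y) u := by exact_mod_cast h6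
      omega
    · intro u h3 h4
      have h5 := hTT u h3 h4
      have h6 : 0 < ((chi (z0 x y) u : ℤ) : ℝ) := by
        by_contra h
        push Not at h
        have := mul_nonneg_of_nonpos_of_nonpos hy.le h
        linarith
      rw [hneg]
      have h7 : 0 < chi (z0 x y) u := by exact_mod_cast h6
      omega

/-- proportional classes with vanishing form -/
theorem par_chi {x y : Cls} (hx : 0 < x .A) (hy : 0 < y .A) (h : Par x y) (h0 : chi x y = 0) :
    chi y x = 0 := by
  have hB := h .B .A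
  have hC := h .C .A
  have e1 : x .A * chi x y = y .A * chi x x := by
    simp only [chi]
    linear_combination (-x .B) * hB + (2 * x .A) * hB + (-x .C) * hC + (x .C) * hB
  have e2 : y .A * chi y x * x .A = y .A * (y .A * chi x x) := by
    simp only [chi]
    linear_combination (-y .A * x .B) * hB + (-y .A * x .C) * hC + (y .A * x .B) * hC
  rw [h0, mul_zero] at e1
  rw [← e1, mul_zero] at e2
  have h1 := (mul_eq_zero.1 e2).resolve_right hx.ne'
  exact (mul_eq_zero.1 h1).resolve_left hy.ne'

theorem NL' {α : ℝ} (hα : 0 < α) {x y : Cls} (hx0 : ∀ i, 0 ≤ x i) (hy0 : ∀ i, 0 ≤ y i)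
    (hnx : 1 ≤ x .B - x .A) (hny : 1 ≤ y .B - y .A) (hqx : chi x x ≤ 0) (hqy : chi y y ≤ 0)
    (hGx : ∀ M : Rep, G M → M.cl = x → Stable α M) (hGy : ∀ M : Rep, G M → M.cl = y → Stable α M)
    (hs : 0 ≤ sg α x y) (h0 : chi x y = 0) (hlt : chi y x < 0) : False := by
  obtain ⟨xA, xB, xC, xm⟩ := cone_pos hx0 hnx hqx
  obtain ⟨yA, yB, yC, ym⟩ := cone_pos hy0 hny hqy
  obtain ⟨z, hzx, hzy, hzz, hz1, hz2⟩ := num_lemma' hα hqx hqy h0 hs hlt
  have hnx0 : x ≠ 0 := by
    intro h; rw [h] at xB; exact absurd xB (lt_irrefl _)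
  have hny0 : y ≠ 0 := by
    intro h; rw [h] at yB; exact absurd yB (lt_irrefl _)
  obtain ⟨S, S', hGS, hGS', hSx, hSx', hSS⟩ := exists_pair x hx0 hqx hnx0
  obtain ⟨T, T', hGT, hGT', hTy, hTy', hTT⟩ := exists_pair y hy0 hqy hny0
  have sS := hGx S hGS hSx
  have sS' := hGx S' hGS' hSx'
  have sT := hGy T hGT hTy
  have sT' := hGy T' hGT' hTy'
  have bS := sS.brick hα
  have bT := sT.brick hα
  have hnp : ¬ Par x y := by
    intro h
    have h1 := par_chi xA yA h h0
    omega
  have stS : St (chi z) S := by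
    intro X hX hXS hne
    apply hz1
    · rw [← hSx]; exact sS.st X hX hXS hne
    · rw [← hSx]; exact om_pos hGS bS hX hXS hne
  have stT : St (chi z) T := by
    intro X hX hXS hne
    apply hz2
    · rw [← hTy]; exact sT.st X hX hXS hne
    · rw [← hTy]; exact om_pos hGT bT hX hXS hne
  have zA : 0 < z .A := by
    have h1 := stS.qt (by rw [hSx]; exact hzx) nz_sA (qt_sA (by rw [hSx]; exact xA)) (by
      intro h
      have h2 := congrFun h .A
      have h3 := congrFun h .B
      rw [sA_cl.1, hSx] at h2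
      rw [sA_cl.2.1, hSx] at h3
      omega)
    simp only [chi, sA_cl.1, sA_cl.2.1, sA_cl.2.2] at h1
    linarith
  have zC : 0 < z .C := by
    have h1 := stS.qt (by rw [hSx]; exact hzx) nz_sC (qt_sC (by rw [hSx]; exact xC)) (by
      intro h
      have h2 := congrFun h .B
      rw [sC_cl.2.1, hSx] at h2
      omega)
    simp only [chi, sC_cl.1, sC_cl.2.1, sC_cl.2.2] at h1
    linarith
  have zB : 0 < z .B := by
    have h1 : z .B * x .B = z .A * (2 * x .B - x .A) + z .C * (x .B - x .C) := by
      unfold chi at hzx; linarith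
    have h2 : 0 < z .A * (2 * x .B - x .A) := mul_pos zA (by omega)
    have h3 : 0 < z .C * (x .B - x .C) := mul_pos zC xm
    exact (mul_pos_iff_of_pos_right xB).1 (by rw [h1]; omega)
  rcases lt_or_eq_of_le hqx with hqx' | hqx'
  · rcases lt_or_eq_of_le hqy with hqy' | hqy'
    · -- the first case
      refine caseI (S := S) (T := T) (z := z) (fun i => by cases i <;> assumption)
        (by rw [hzz]; exact mul_pos_of_neg_of_neg hqx' hqy') (by rw [hSx]; exact hzx)
        (by rw [hTy]; exact hzy) stS stT (by rw [hSx, hTy]; exact hnp) sS.nz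
        (by rw [hSx]; exact hqx) (by rw [hSx]; exact xB) (exists_G z (fun i => by
          cases i
          · exact zA.le
          · exact zB.le
          · exact zC.le))
    · -- the third case
      have hpar : Par (rgt y) (lft z) := by
        apply par_fun hnp
        · rw [dot_rgt]; exact h0
        · rw [dot_rgt]; exact hqy'
        · rw [dot_lft]; exact hzx
        · rw [dot_lft]; exact hzy
      have hsgn : ∀ u, chi z u < 0 → 0 < chi u y := by
        intro u hu
        have h1 := par_dot hpar .A u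
        rw [dot_rgt, dot_lft] at h1
        simp only [lft, rgt] at h1
        have h2 : 0 < (y .A - 2 * y .B) * chi z u := mul_pos_of_neg_of_neg (by omega) hu
        rw [← h1] at h2
        exact (mul_pos_iff_of_pos_right zA).1 h2
      have e1 : H0 T T' := H0_of_not_iso hα sT sT' (by rw [hTy, hTy']) hTT
      have e2 : H0 T' T := H0_of_not_iso hα sT' sT (by rw [hTy, hTy']) (fun g h1 h2 =>
        hTT (g.inv h1 h2) (g.inv_inj h1 h2) (g.inv_sur h1 h2))
      have e3 : H0 S T' := H0_of_slope hα sS sT' (by rw [hSx, hTy']; exact hs) (by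
        rw [hSx, hTy']
        intro h
        apply hnp
        rw [h]
        exact fun i j => mul_comm _ _)
      refine caseIIa (S := S) (T := T) (T' := T') (by rw [hTy, hTy']) hGT (by rw [hTy]; exact hny)
        (by rw [hTy]; exact ym.le) sT.nz (by rw [hTy]; exact hqy')
        (E0_of_H0 e2 (by rw [hTy, hTy']; exact hqy')) (E0_of_H0 e1 (by rw [hTy, hTy']; exact hqy'))
        (E0_of_H0 e3 (by rw [hSx, hTy']; exact h0)) ?_ ?_ sS.nz (by rw [hSx]; exact hqx)
        (by rw [hSx, hTy]; exact h0) (by rw [hSx, hTy]; exact hlt)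
      · intro X hX hXT hne
        rw [hTy]
        exact hsgn _ (stT X hX hXT hne)
      · intro X hX hXS hne
        rw [hTy]
        exact hsgn _ (stS X hX hXS hne)
  · -- the second case
    have hpar : Par (lft x) (lft z) := by
      apply par_fun hnp
      · rw [dot_lft]; exact hqx'
      · rw [dot_lft]; exact h0
      · rw [dot_lft]; exact hzx
      · rw [dot_lft]; exact hzy
    have hst : St (chi x) S := St_of_par zA xA (par_lft hpar) stS
    have e1 : H0 S S' := H0_of_not_iso hα sS sS' (by rw [hSx, hSx']) hSS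
    exact caseIIb (S := S) (S' := S') hGS bS (by rw [hSx, hSx']) (by rw [hSx]; exact hqx')
      (by rw [hSx]; exact hnx) (by rw [hSx]; exact xA)
      (E0_of_H0 e1 (by rw [hSx, hSx']; exact hqx')) (by rw [hSx]; exact hst)


end Pool.Agent.L7h86
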