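import Mathlib
import Pool.Agent.L7h86.Main
import Pool.Agent.L7h86.NL6

/-!
# Strictly semistable generic representations
-/

set_option autoImplicit false

namespace Pool.Agent.L7h86

theorem cone_eq {u w : Cls} (h0 : ∀ i, 0 ≤ u i) (h0' : ∀ i, 0 ≤ w i) (hn : 1 ≤ u .B - u .A)
    (hn' : 1 ≤ w .B - w .A) (h : chi u u ≤ 0) (h' : chi w w ≤ 0)
    (h1 : chi u w + chi w u = 0) : Par u w ∧ chi u u = 0 ∧ chi w w = 0 := by
  obtain ⟨-, -, uC, um⟩ := cone_pos h0 hn h
  obtain ⟨-, -, wC, wm⟩ := cone_pos h0' hn' h'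
  obtain ⟨n, hn0⟩ : ∃ n, n = u .B - u .A := ⟨_, rfl⟩
  obtain ⟨m, hm0⟩ : ∃ m, m = u .B - u .C := ⟨_, rfl⟩
  obtain ⟨k, hk0⟩ : ∃ k, k = u .C := ⟨_, rfl⟩
  obtain ⟨n', hn0'⟩ : ∃ n, n = w .B - w .A := ⟨_, rfl⟩
  obtain ⟨m', hm0'⟩ : ∃ m, m = w .B - w .C := ⟨_, rfl⟩
  obtain ⟨k', hk0'⟩ : ∃ k, k = w .C := ⟨_, rfl⟩
  rw [← hn0] at hn
  rw [← hn0'] at hn'
  rw [← hm0] at um
  rw [← hm0'] at wm
  rw [← hk0] at uC
  rw [← hk0'] at wC
  have e1 : chi u u = n ^ 2 - k * m := by rw [hn0, hk0, hm0]; unfold chi; ring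
  have e2 : chi w w = n' ^ 2 - k' * m' := by rw [hn0', hk0', hm0']; unfold chi; ring
  have e3 : chi u w + chi w u = 2 * (n * n') - (k * m' + k' * m) := by
    rw [hn0, hk0, hm0, hn0', hk0', hm0']; unfold chi; ring
  rw [e1] at h
  rw [e2] at h'
  rw [e3] at h1
  have a1 : 0 < n ^ 2 := by positivity
  have a2 : 0 < n' ^ 2 := by positivity
  have a3 : n ^ 2 * n' ^ 2 ≤ (k * m) * (k' * m') := mul_le_mul (by linarith) (by linarith)
    a2.le (by linarith)
  have a4 : (k * m' - k' * m) ^ 2 = 4 * (n ^ 2 * n' ^ 2) - 4 * ((k * m) * (k' * m')) := by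
    have : k * m' + k' * m = 2 * (n * n') := by linarith
    have e : (k * m' - k' * m) ^ 2 = (k * m' + k' * m) ^ 2 - 4 * ((k * m) * (k' * m')) := by ring
    rw [e, this]; ring
  have a5 : (k * m' - k' * m) ^ 2 = 0 := le_antisymm (by linarith) (sq_nonneg _)
  have a6 : k * m' - k' * m = 0 := by
    rcases lt_trichotomy (k * m' - k' * m) 0 with h | h | h
    · nlinarith
    · exact h
    · nlinarith
  have a7 : k * m' = n * n' := by linarith
  have a8 : k' * m = n * n' := by linarith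
  have a9 : (k * m) * (k' * m') = n ^ 2 * n' ^ 2 := by
    have : (k * m) * (k' * m') = (k * m') * (k' * m) := by ring
    rw [this, a7, a8]; ring
  have b1 : k * m = n ^ 2 := by
    by_contra hne
    have hlt : n ^ 2 < k * m := lt_of_le_of_ne (by linarith) (Ne.symm hne)
    have : n ^ 2 * n' ^ 2 < (k * m) * (k' * m') :=
      mul_lt_mul hlt (by linarith) a2 (by linarith)
    linarith
  have b2 : k' * m' = n' ^ 2 := by
    have h3 : n ^ 2 * (k' * m') = n ^ 2 * n' ^ 2 := by rw [← a9, b1]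
    exact mul_left_cancel₀ a1.ne' h3
  have c1 : n * k' - n' * k = 0 := by
    have : m' * (n * k' - n' * k) = 0 := by linear_combination n * b2 - n' * a7
    exact (mul_eq_zero.1 this).resolve_left wm.ne'
  have c2 : n * m' - n' * m = 0 := by
    have : k' * (n * m' - n' * m) = 0 := by linear_combination n * b2 - n' * a8
    exact (mul_eq_zero.1 this).resolve_left wC.ne'
  have dA : u .A = k + m - n := by rw [hn0, hk0, hm0]; ring
  have dB : u .B = k + m := by rw [hk0, hm0]; ring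
  have dA' : w .A = k' + m' - n' := by rw [hn0', hk0', hm0']; ring
  have dB' : w .B = k' + m' := by rw [hk0', hm0']; ring
  have p1 : u .A * w .B = u .B * w .A := by
    rw [dA, dB, dA', dB']; linear_combination -c1 - c2
  have p2 : u .A * w .C = u .C * w .A := by
    rw [dA, dA', ← hk0, ← hk0']; linear_combination -a6 - c1
  have p3 : u .B * w .C = u .C * w .B := by
    rw [dB, dB', ← hk0, ← hk0']; linear_combination -a6
  refine ⟨?_, by rw [e1, b1]; ring, by rw [e2, b2]; ring⟩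
  intro i j
  cases i <;> cases j <;> first | ring1 | linarith

theorem Ses.split {K L Q : Rep} {i : Hm K L} {p : Hm L Q} (h : Ses i p) (hE : E0 Q K) :
    ∃ s : Hm Q L, ∀ j v, p.g j (s.g j v) = v := by
  have hr : ∀ j, ∃ r : Q.V j →ₗ[ℂ] L.V j, (p.g j) ∘ₗ r = LinearMap.id := fun j =>
    LinearMap.exists_rightInverse_of_surjective (p.g j) (LinearMap.range_eq_top.2 (h.sur j))
  choose r hr using hr
  have hr' : ∀ j v, p.g j (r j v) = v := fun j v => LinearMap.congr_fun (hr j) v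
  have h3 : ∀ e : Ed, ∃ ψ : Q.V e.s →ₗ[ℂ] K.V .B, ∀ w, i.g .B (ψ w) =
      ((L.f e) ∘ₗ (r e.s) - (r .B) ∘ₗ (Q.f e)) w := by
    intro e
    apply h.lift
    intro w
    simp only [LinearMap.sub_apply, LinearMap.comp_apply, map_sub]
    rw [← p.h, hr', hr', sub_self]
  choose ψ hψ using h3
  obtain ⟨g, hg⟩ := hE ψ
  refine ⟨⟨fun j => r j - (i.g j) ∘ₗ (g j), fun e v => ?_⟩, fun j v => ?_⟩
  · have h4 := hψ e v
    rw [← hg, map_sub, ← i.h] at h4
    simp only [LinearMap.sub_apply, LinearMap.comp_apply, map_sub] at h4 ⊢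
    rw [sub_eq_sub_iff_add_eq_add] at h4 ⊢
    rw [add_comm, add_comm (r .B (Q.f e v))]
    rw [← sub_eq_zero] at h4 ⊢
    rw [← neg_eq_zero, ← h4]
    abel
  · change p.g j (r j v - i.g j (g j v)) = v
    rw [map_sub, hr', h.zero, sub_zero]

/-- generic semistable representations all of whose stable subrepresentations have the same
isotropic class -/
theorem semi_dec {α : ℝ} (hα : 0 < α) {z : Cls} (hzr : 0 < rk α z) (hzz : chi z z = 0) (m : ℕ) :
    ∀ M : Rep, M.dim ≤ m → G M → M.Nz →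
      (∀ X : Rep, X.Nz → Sb X M → sg α X.cl z ≤ 0) → sg α M.cl z = 0 →
      (∀ S : Rep, Stable α S → Sb S M → sg α S.cl z = 0 → S.cl = z) → chi M.cl z = 0 →
      ∃ l : ℕ, ∀ i, M.cl i = l * z i := by
  induction m with
  | zero =>
    intro M hd _ hM
    rw [Rep.nz_iff_dim] at hM
    push_cast at hd
    omega
  | succ m ih =>
    intro M hd hG hM hsemi h0 hst hχ
    obtain ⟨S, hSM, sS, hmax⟩ := exists_max_sub hα hM
    have rM := rk_pos hα hM
    have rS := rk_pos hα sS.nz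
    have hSz : sg α S.cl z = 0 := by
      have h1 := sg_trans α M.cl S.cl z
      rw [h0, mul_zero] at h1
      have h2 := hmax M hM ⟨Hm.id M, Hm.id_inj M⟩
      have h3 := hsemi S sS.nz hSM
      have h4 := mul_nonpos_of_nonneg_of_nonpos hzr.le h2
      have h5 := mul_nonpos_of_nonneg_of_nonpos rM.le h3
      have h6 : rk α M.cl * sg α S.cl z = 0 := by linarith
      exact (mul_eq_zero.1 h6).resolve_left rM.ne'
    have hScl := hst S sS hSM hSz
    obtain ⟨a, ha⟩ := hSM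
    have hses := a.ses_of_inj ha
    have hsum := hses.cl
    by_cases hQ : a.ran.quo.Nz
    · have hE := hG.ses hses
      have bS := sS.brick hα
      have hSS : ¬ E0 S S := by
        intro h
        have := chi_pos_of h (not_H0_of_NZ (NZ_of_inj (Hm.id S) (Hm.id_inj S) sS.nz))
        rw [hScl, hzz] at this
        exact absurd this (lt_irrefl _)
      have hH : H0 a.ran.quo S := by
        by_contra hcon
        obtain ⟨g, hg⟩ := NZ_of_not_H0 hcon
        have hJn := Hm.ran_nz hg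
        have hJS : Sb g.ran.rep S := ⟨g.ran.i, g.ran.ses.inj⟩
        have hJcl : g.ran.rep.cl = S.cl := by
          by_contra hne
          have h1 := sS.st _ hJn hJS hne
          -- `J` is a quotient of `M`
          have hsur : (g.toRan.comp a.ran.p).Sur := g.toRan_sur.comp hses.sur
          have hs2 := (g.toRan.comp a.ran.p).ses_of_sur hsur
          have h2 := hs2.cl
          have h3 : sg α (g.toRan.comp a.ran.p).ker.rep.cl z ≤ 0 := by
            by_cases hk : (g.toRan.comp a.ran.p).ker.rep.Nz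
            · exact hsemi _ hk ⟨_, hs2.inj⟩
            · rw [Rep.nz_iff_ne, not_not] at hk
              rw [hk]
              simp [sg]
          have h4 : sg α M.cl z = sg α (g.toRan.comp a.ran.p).ker.rep.cl z +
              sg α g.ran.rep.cl z := by
            rw [← sg_add_left, ← h2]
          rw [hScl] at h1
          linarith
        have hgs : g.Sur := Hm.sur_of_ran hJcl
        exact hSS (E0.quor g hgs hE)
      have hχQ : chi a.ran.quo.cl z = 0 := by
        rw [hsum, chi_add_left, hScl, hzz, zero_add] at hχ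
        exact hχ
      have hE2 : E0 a.ran.quo S := E0_of_H0 hH (by rw [hScl]; exact hχQ)
      obtain ⟨s, hs⟩ := hses.split hE2
      have hsinj : s.Inj := fun j x y hxy => by
        have := congrArg (a.ran.p.g j) hxy
        rwa [hs, hs] at this
      have hGQ : G a.ran.quo := hG.retract s a.ran.p hs
      have hdQ : a.ran.quo.dim ≤ m := by
        have h1 := hses.dim
        have h2 := Rep.nz_iff_dim.1 sS.nz
        push_cast at hd
        omega
      obtain ⟨l, hl⟩ := ih a.ran.quo hdQ hGQ hQ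
        (fun X hX ⟨b, hb⟩ => hsemi X hX ⟨s.comp b, hsinj.comp hb⟩)
        (by
          rw [hsum, sg_add_left, hSz, zero_add] at h0
          exact h0)
        (fun X hX ⟨b, hb⟩ => hst X hX ⟨s.comp b, hsinj.comp hb⟩) hχQ
      refine ⟨l + 1, fun i => ?_⟩
      rw [hsum, Pi.add_apply, hl i, hScl]
      push_cast
      ring
    · rw [Rep.nz_iff_ne, not_not] at hQ
      refine ⟨1, fun i => ?_⟩
      rw [hsum, hQ, hScl]
      simp

theorem rank_lt {α : ℝ} (hα : 0 < α) {u v : Cls} (hle : ∀ i, u i ≤ v i) (hne : u ≠ v)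
    (hu0 : ∀ i, 0 ≤ u i) (hnu : 1 ≤ u .B - u .A) (hs : 0 ≤ sg α u v) :
    u .B - u .A < v .B - v .A := by
  by_contra h
  push Not at h
  have pS0 : 0 ≤ (u .A : ℝ) + α * u .C := by
    have h1 : (0 : ℝ) ≤ u .A := by exact_mod_cast hu0 .A
    have h2 : (0 : ℝ) ≤ u .C := by exact_mod_cast hu0 .C
    have := mul_nonneg hα.le h2
    linarith
  have hnSr : (1 : ℝ) ≤ ((u .B - u .A : ℤ) : ℝ) := by exact_mod_cast hnu
  have h1 : ((v .B - v .A : ℤ) : ℝ) ≤ ((u .B - u .A : ℤ) : ℝ) := by exact_mod_cast h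
  unfold sg at hs
  have h2 : ((v .B - v .A : ℤ) : ℝ) * ((u .A : ℝ) + α * u .C) ≤
      ((u .B - u .A : ℤ) : ℝ) * ((u .A : ℝ) + α * u .C) :=
    mul_le_mul_of_nonneg_right h1 pS0
  have h3 : 0 ≤ ((u .B - u .A : ℤ) : ℝ) *
      (((u .A : ℝ) + α * u .C) - (v .A + α * v .C)) := by
    rw [mul_sub]; linarith
  have h4 : 0 ≤ ((u .A : ℝ) + α * u .C) - (v .A + α * v .C) := by
    by_contra h5
    push Not at h5
    have := mul_neg_of_pos_of_neg (by linarith : (0 : ℝ) < ((u .B - u .A : ℤ) : ℝ)) h5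
    linarith
  have h5 : (u .A : ℝ) ≤ v .A := by exact_mod_cast hle .A
  have h6 : (u .C : ℝ) ≤ v .C := by exact_mod_cast hle .C
  have h7 := mul_le_mul_of_nonneg_left h6 hα.le
  have h8 : (u .A : ℝ) = v .A := by linarith
  have h9 : α * (u .C : ℝ) = α * v .C := by linarith
  have h10 : (u .C : ℝ) = v .C := mul_left_cancel₀ hα.ne' h9
  have h8' : u .A = v .A := by exact_mod_cast h8
  have h10' : u .C = v .C := by exact_mod_cast h10
  apply hne
  have hB := hle .B
  funext i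
  cases i <;> omega

theorem rank_T {α : ℝ} (hα : 0 < α) {u v : Cls} (hu0 : ∀ i, 0 ≤ u i) (hne : u ≠ 0)
    (hnv : 1 ≤ v .B - v .A) (hpv : 0 < (v .A : ℝ) + α * v .C) (hs : sg α u v ≤ 0) :
    1 ≤ u .B - u .A := by
  by_contra h
  push Not at h
  have hA : (0 : ℝ) ≤ u .A := by exact_mod_cast hu0 .A
  have hC : (0 : ℝ) ≤ u .C := by exact_mod_cast hu0 .C
  have hαC := mul_nonneg hα.le hC
  have h1 : ((u .B - u .A : ℤ) : ℝ) ≤ 0 := by
    have : u .B - u .A ≤ 0 := by omega
    exact_mod_cast this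
  have h2 : (1 : ℝ) ≤ ((v .B - v .A : ℤ) : ℝ) := by exact_mod_cast hnv
  unfold sg at hs
  have h3 : ((u .B - u .A : ℤ) : ℝ) * ((v .A : ℝ) + α * v .C) ≤ 0 :=
    mul_nonpos_of_nonpos_of_nonneg h1 hpv.le
  have h4 : 0 ≤ ((v .B - v .A : ℤ) : ℝ) * ((u .A : ℝ) + α * u .C) :=
    mul_nonneg (by linarith) (by linarith)
  have h5 : ((v .B - v .A : ℤ) : ℝ) * ((u .A : ℝ) + α * u .C) = 0 := by linarith
  have h6 : (u .A : ℝ) + α * u .C = 0 :=
    (mul_eq_zero.1 h5).resolve_left (by linarith)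
  have h7 : (u .A : ℝ) = 0 := by linarith
  have h8 : α * (u .C : ℝ) = 0 := by linarith
  have h9 : (u .C : ℝ) = 0 := (mul_eq_zero.1 h8).resolve_left hα.ne'
  have h7' : u .A = 0 := by exact_mod_cast h7
  have h9' : u .C = 0 := by exact_mod_cast h9
  apply hne
  have hB := hu0 .B
  funext i
  simp only [Pi.zero_apply]
  cases i <;> omega

theorem dvd_of_gcd {a b : ℕ} {d k x y : ℤ} (h : Int.gcd (Int.gcd a d) k = 1)
    (h1 : (b : ℤ) * d = a * x) (h2 : (b : ℤ) * k = a * y) : (a : ℤ) ∣ b := by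
  have e1 : (a : ℤ) ∣ b * a := Dvd.intro_left _ rfl
  have e2 : (a : ℤ) ∣ b * d := ⟨_, h1⟩
  have e3 : (a : ℤ) ∣ b * k := ⟨_, h2⟩
  have e4 : (a : ℤ) ∣ b * (Int.gcd a d : ℤ) := by
    rw [Int.gcd_eq_gcd_ab, mul_add, ← mul_assoc, ← mul_assoc]
    exact dvd_add (Dvd.dvd.mul_right e1 _) (Dvd.dvd.mul_right e2 _)
  have e5 : (a : ℤ) ∣ b * (Int.gcd (Int.gcd a d) k : ℤ) := by
    rw [Int.gcd_eq_gcd_ab, mul_add, ← mul_assoc, ← mul_assoc]
    exact dvd_add (Dvd.dvd.mul_right e4 _) (Dvd.dvd.mul_right e3 _)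
  rw [h] at e5
  simpa using e5

theorem par_gcd {a b : ℕ} {d k x y : ℤ} (ha : 1 ≤ a) (hb : 1 ≤ b)
    (h : Int.gcd (Int.gcd a d) k = 1) (h' : Int.gcd (Int.gcd b x) y = 1)
    (hp : Par (cls a d k) (cls b x y)) : cls a d k = cls b x y := by
  have p1 := hp .A .B
  have p2 := hp .A .C
  have p3 := hp .B .C
  simp only [cls] at p1 p2 p3
  have e1 : (b : ℤ) * d = a * x := by linarith
  have e2 : (b : ℤ) * k = a * y := by linarith
  have d1 := dvd_of_gcd h e1 e2
  have d2 := dvd_of_gcd h' e1.symm e2.symm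
  have l1 := Int.le_of_dvd (by omega) d1
  have l2 := Int.le_of_dvd (by omega) d2
  have hab : a = b := by omega
  subst hab
  have ha0 : (a : ℤ) ≠ 0 := by omega
  have f1 : d = x := mul_left_cancel₀ ha0 e1
  have f2 : k = y := mul_left_cancel₀ ha0 e2
  rw [f1, f2]

end Pool.Agent.L7h86
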