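import Mathlib
import Pool.Agent.L7h86.Semi

/-!
# The main induction for all real parameters
-/

set_option autoImplicit false

namespace Pool.Agent.L7h86

/-- two stable constituents of equal slope -/
theorem key_semi {α : ℝ} (hα : 0 < α) {n : ℕ} (hn : 1 ≤ n)
    (ih : ∀ n' < n, 1 ≤ n' → Stmt α n') {d k : ℤ}
    (ht : ∀ (n' : ℕ) (_ : 1 ≤ n') (_ : n' < n) (d' k' : ℤ),
      k' * (n' + d' - k') = (n' : ℤ) ^ 2 - 1 → Adm α n' d' k' →
      (((d : ℝ) + α * k) / n ≤ ((d' : ℝ) + α * k') / n' → euler n' d' k' n d k ≤ 0) ∧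
      (((d' : ℝ) + α * k') / n' ≤ ((d : ℝ) + α * k) / n → euler n d k n' d' k' ≤ 0))
    {M : Rep} (hG : G M) (hcl : M.cl = cls n d k) (pM : 0 < (M.cl .A : ℝ) + α * M.cl .C)
    (hnM : 1 ≤ M.cl .B - M.cl .A) (hmM : 0 ≤ M.cl .B - M.cl .C)
    {S T : Rep} (sS : Stable α S) (sT : Stable α T) (a : Hm S M) (ha : a.Inj) (b : Hm M T)
    (hb : b.Sur) (hab : ∀ j w, b.g j (a.g j w) = 0) (hS0 : sg α S.cl M.cl = 0)
    (hT0 : sg α T.cl M.cl = 0) : S.cl = T.cl ∧ chi T.cl T.cl = 0 := by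
  have hMA : M.cl .A = d := by rw [hcl]; rfl
  have hMB : M.cl .B = n + d := by rw [hcl]; rfl
  have hMn : M.Nz := by
    rw [Rep.nz_iff_cl]
    refine ⟨.B, ?_⟩
    have := M.cl_nonneg .A
    omega
  have rM := rk_pos hα hMn
  have rS := rk_pos hα sS.nz
  have rT := rk_pos hα sT.nz
  have hSne : S.cl ≠ M.cl := by
    intro h
    have h1 := sur_of_inj_cl a ha (fun i => by rw [h])
    obtain ⟨j, v, hv⟩ := sT.nz
    obtain ⟨w, rfl⟩ := hb j v
    obtain ⟨u, rfl⟩ := h1 j w
    exact hv (hab j u)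
  have hTne : T.cl ≠ M.cl := by
    intro h
    have h1 := inj_of_sur_cl b hb (fun i => by rw [h])
    obtain ⟨j, v, hv⟩ := sS.nz
    apply hv
    apply ha j
    apply h1 j
    rw [hab, map_zero, map_zero]
  have hses := a.ses_of_inj ha
  have hsum := hses.cl
  have hleS := cl_le_of_inj a ha
  have hses2 := b.ses_of_sur hb
  have hsum2 := hses2.cl
  have hnS : 1 ≤ S.cl .B - S.cl .A := n_sub hG hnM hmM sS.nz ⟨a, ha⟩
  have hnlt := rank_lt hα hleS hSne S.cl_nonneg hnS hS0.ge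
  have hnT : 1 ≤ T.cl .B - T.cl .A :=
    rank_T hα T.cl_nonneg (Rep.nz_iff_ne.1 sT.nz) hnM pM hT0.le
  have hUn : b.ker.rep.Nz := by
    rw [Rep.nz_iff_ne]
    intro h
    rw [h, zero_add] at hsum2
    exact hTne hsum2.symm
  have hnU : 1 ≤ b.ker.rep.cl .B - b.ker.rep.cl .A := n_sub hG hnM hmM hUn ⟨b.ker.i, hses2.inj⟩
  have hcB := congrFun hsum2 .B
  have hcA := congrFun hsum2 .A
  simp only [Pi.add_apply] at hcA hcB
  obtain ⟨nS, hnS'⟩ := Int.eq_ofNat_of_zero_le (by omega : 0 ≤ S.cl .B - S.cl .A)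
  have eS : S.cl = cls nS (S.cl .A) (S.cl .C) := by
    rw [← hnS', cls_eta]
  have nS1 : 1 ≤ nS := by omega
  have nSlt : nS < n := by omega
  have admS : Adm α nS (S.cl .A) (S.cl .C) := (ih nS nSlt nS1 _ _).2 S sS eS
  obtain ⟨nT, hnT'⟩ := Int.eq_ofNat_of_zero_le (by omega : 0 ≤ T.cl .B - T.cl .A)
  have eT : T.cl = cls nT (T.cl .A) (T.cl .C) := by
    rw [← hnT', cls_eta]
  have nT1 : 1 ≤ nT := by omega
  have nTlt : nT < n := by omega
  have admT : Adm α nT (T.cl .A) (T.cl .C) := (ih nT nTlt nT1 _ _).2 T sT eT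
  have bS := sS.brick hα
  have bT := sT.brick hα
  have hESQ := hG.ses hses
  have qS : chi S.cl S.cl ≤ 0 := by
    by_contra h
    push Not at h
    have h1 : chi S.cl S.cl = 1 := by
      have := bS.q_le
      omega
    have h2 : E0 S M := E0.extr hses (bS.rigid h) hESQ
    have h3 := chi_pos_of h2 (not_H0_of_NZ (NZ_of_inj a ha sS.nz))
    rw [eS] at h1
    have h4 := (ht nS nS1 nSlt _ _ (test_q h1) admS).1 (by
      rw [slope_iff hn nS1, ← hcl, ← eS, sg_swap, hS0, neg_zero])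
    rw [← chi_cls, ← hcl, ← eS] at h4
    omega
  have qT : chi T.cl T.cl ≤ 0 := by
    by_contra h
    push Not at h
    have h1 : chi T.cl T.cl = 1 := by
      have := bT.q_le
      omega
    have h2 : E0 M T := E0.extl hses2 (hG.ses hses2) (bT.rigid h)
    have h3 := chi_pos_of h2 (not_H0_of_NZ (NZ_of_sur b hb sT.nz))
    rw [eT] at h1
    have h4 := (ht nT nT1 nTlt _ _ (test_q h1) admT).2 (by
      rw [slope_iff nT1 hn, ← hcl, ← eT, hT0])
    rw [← chi_cls, ← hcl, ← eT] at h4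
    omega
  have hE : E0 S T := by
    obtain ⟨ψ, hψ⟩ := hses.desc_hm b hab
    refine E0.quor ψ ?_ hESQ
    intro j v
    obtain ⟨w, rfl⟩ := hb j v
    exact ⟨_, hψ j w⟩
  have hST0 : sg α S.cl T.cl = 0 := by
    have h1 := sg_trans α S.cl M.cl T.cl
    rw [hS0, sg_swap α M.cl, hT0, neg_zero, mul_zero, mul_zero, add_zero] at h1
    exact (mul_eq_zero.1 h1).resolve_left rM.ne'
  have hH : H0 S T := by
    by_contra hcon
    obtain ⟨g, hg⟩ := NZ_of_not_H0 hcon
    obtain ⟨g1, g2⟩ := schur hα sS sT hST0.ge g hg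
    have h1 : E0 S S := E0.quor (g.inv g1 g2) (g.inv_sur g1 g2) hE
    have h2 := chi_pos_of h1 (not_H0_of_NZ (NZ_of_inj (Hm.id S) (Hm.id_inj S) sS.nz))
    omega
  have h0 := chi_zero_of hH hE
  have hle := cone_le S.cl_nonneg T.cl_nonneg qS qT
  have h0' : chi T.cl S.cl = 0 := by
    by_contra hne
    have hlt : chi T.cl S.cl < 0 := by omega
    refine NL' hα S.cl_nonneg T.cl_nonneg hnS hnT qS qT ?_ ?_ hST0.ge h0 hlt
    · intro N hN hNcl
      exact (ih nS nSlt nS1 _ _).1 admS N hN (by rw [hNcl]; exact eS)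
    · intro N hN hNcl
      exact (ih nT nTlt nT1 _ _).1 admT N hN (by rw [hNcl]; exact eT)
  obtain ⟨hpar, hqS0, hqT0⟩ := cone_eq S.cl_nonneg T.cl_nonneg hnS hnT qS qT (by omega)
  refine ⟨?_, hqT0⟩
  have gS : Int.gcd (Int.gcd nS (S.cl .A)) (S.cl .C) = 1 := by
    rw [Adm] at admS
    apply admS.2.2.2.2.1
    have h1 := hqS0
    rw [eS, chi_cls] at h1
    unfold euler at h1
    linarith
  have gT : Int.gcd (Int.gcd nT (T.cl .A)) (T.cl .C) = 1 := by
    rw [Adm] at admT
    apply admT.2.2.2.2.1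
    have h1 := hqT0
    rw [eT, chi_cls] at h1
    unfold euler at h1
    linarith
  rw [eS, eT] at hpar
  have h1 := par_gcd nS1 nT1 gS gT hpar
  rw [← eS, ← eT] at h1
  exact h1

theorem suff' {α : ℝ} (hα : 0 < α) {n : ℕ} (hn : 1 ≤ n)
    (ih : ∀ n' < n, 1 ≤ n' → Stmt α n') {d k : ℤ} (hadm : Adm α n d k)
    {M : Rep} (hG : G M) (hcl : M.cl = cls n d k) : Stable α M := by
  rw [Adm] at hadm
  obtain ⟨hd, hk, hkn, hβ, hgcd, ht⟩ := hadm
  have hMA : M.cl .A = d := by rw [hcl]; rfl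
  have hMB : M.cl .B = n + d := by rw [hcl]; rfl
  have hMC : M.cl .C = k := by rw [hcl]; rfl
  have hMn : M.Nz := by
    rw [Rep.nz_iff_cl]
    exact ⟨.B, by rw [hMB]; omega⟩
  have hnM : 1 ≤ M.cl .B - M.cl .A := by omega
  have hmM : 0 ≤ M.cl .B - M.cl .C := by omega
  by_contra hnst
  obtain ⟨S, hSM, sS, hmax⟩ := exists_max_sub hα hMn
  obtain ⟨T, hTM, sT, hmin⟩ := exists_min_quo hα hMn
  have rM := rk_pos hα hMn
  have rS := rk_pos hα sS.nz
  have rT := rk_pos hα sT.nz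
  obtain ⟨a, ha⟩ := hSM
  -- a destabilizing subrepresentation
  have hex : ∃ X : Rep, X.Nz ∧ Sb X M ∧ X.cl ≠ M.cl ∧ 0 ≤ sg α X.cl M.cl := by
    by_contra h
    push Not at h
    exact hnst ⟨hMn, fun X h1 h2 h3 => h X h1 h2 h3⟩
  obtain ⟨X, hXn, hXM, hXne, hX⟩ := hex
  have rX := rk_pos hα hXn
  have hSM0 : 0 ≤ sg α S.cl M.cl := by
    have h1 : sg α M.cl X.cl ≤ 0 := by rw [sg_swap]; linarith
    have h2 := sg_le_trans rM rX rS h1 (hmax X hXn hXM)
    rw [sg_swap] at h2
    linarith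
  have hSne : S.cl ≠ M.cl := by
    intro h
    exact hnst (eq_of_bij sS a ha (sur_of_inj_cl a ha (fun i => by rw [h])))
  have hses := a.ses_of_inj ha
  have hsum := hses.cl
  have hnS : 1 ≤ S.cl .B - S.cl .A := n_sub hG hnM hmM sS.nz ⟨a, ha⟩
  have hleS := cl_le_of_inj a ha
  have hESQ := hG.ses hses
  have hQn : a.ran.quo.Nz := by
    rw [Rep.nz_iff_ne]
    intro h
    rw [h, add_zero] at hsum
    exact hSne hsum.symm
  -- the invariant p
  have pS : (S.cl .A : ℝ) + α * S.cl .C ≤ M.cl .A + α * M.cl .C := by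
    have h1 : (S.cl .A : ℝ) ≤ M.cl .A := by exact_mod_cast hleS .A
    have h2 : (S.cl .C : ℝ) ≤ M.cl .C := by exact_mod_cast hleS .C
    have h3 := mul_le_mul_of_nonneg_left h2 hα.le
    linarith
  have pS0 : 0 ≤ (S.cl .A : ℝ) + α * S.cl .C := by
    have h1 : (0 : ℝ) ≤ S.cl .A := by exact_mod_cast S.cl_nonneg .A
    have h2 : (0 : ℝ) ≤ S.cl .C := by exact_mod_cast S.cl_nonneg .C
    have := mul_nonneg hα.le h2
    linarith
  have hnSr : (1 : ℝ) ≤ ((S.cl .B - S.cl .A : ℤ) : ℝ) := by exact_mod_cast hnS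
  have hnMr : (1 : ℝ) ≤ ((M.cl .B - M.cl .A : ℤ) : ℝ) := by exact_mod_cast hnM
  have pM : 0 < (M.cl .A : ℝ) + α * M.cl .C := by
    by_contra h
    push Not at h
    have h1 : (0 : ℝ) ≤ M.cl .A := by exact_mod_cast M.cl_nonneg .A
    have h2 : (0 : ℝ) ≤ M.cl .C := by exact_mod_cast M.cl_nonneg .C
    have h3 := mul_nonneg hα.le h2
    have h4 : (M.cl .A : ℝ) = 0 := by linarith
    have h5 : α * (M.cl .C : ℝ) = 0 := by linarith
    have h6 : (M.cl .C : ℝ) = 0 := (mul_eq_zero.1 h5).resolve_left hα.ne'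
    have h4' : M.cl .A = 0 := by exact_mod_cast h4
    have h6' : M.cl .C = 0 := by exact_mod_cast h6
    have hd0 : d = 0 := by omega
    have hk0 : k = 0 := by omega
    rw [hd0, hk0, zero_mul] at hβ
    have hn1 : (n : ℤ) = 1 := by nlinarith
    apply hSne
    have hA := hleS .A
    have hB := hleS .B
    have hC := hleS .C
    have gA := S.cl_nonneg .A
    have gC := S.cl_nonneg .C
    funext i
    cases i <;> omega
  have hnlt : S.cl .B - S.cl .A < M.cl .B - M.cl .A := by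
    by_contra h
    push Not at h
    have h1 : ((M.cl .B - M.cl .A : ℤ) : ℝ) ≤ ((S.cl .B - S.cl .A : ℤ) : ℝ) := by exact_mod_cast h
    unfold sg at hSM0
    have h2 : ((M.cl .B - M.cl .A : ℤ) : ℝ) * ((S.cl .A : ℝ) + α * S.cl .C) ≤
        ((S.cl .B - S.cl .A : ℤ) : ℝ) * ((S.cl .A : ℝ) + α * S.cl .C) :=
      mul_le_mul_of_nonneg_right h1 pS0
    have h3 : 0 ≤ ((S.cl .B - S.cl .A : ℤ) : ℝ) *
        (((S.cl .A : ℝ) + α * S.cl .C) - (M.cl .A + α * M.cl .C)) := by
      rw [mul_sub]; linarith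
    have h4 : 0 ≤ ((S.cl .A : ℝ) + α * S.cl .C) - (M.cl .A + α * M.cl .C) := by
      by_contra h5
      push Not at h5
      have := mul_neg_of_pos_of_neg (by linarith : (0 : ℝ) < ((S.cl .B - S.cl .A : ℤ) : ℝ)) h5
      linarith
    have h5 : (S.cl .A : ℝ) ≤ M.cl .A := by exact_mod_cast hleS .A
    have h6 : (S.cl .C : ℝ) ≤ M.cl .C := by exact_mod_cast hleS .C
    have h7 := mul_le_mul_of_nonneg_left h6 hα.le
    have h8 : (S.cl .A : ℝ) = M.cl .A := by linarith
    have h9 : α * (S.cl .C : ℝ) = α * M.cl .C := by linarith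
    have h10 : (S.cl .C : ℝ) = M.cl .C := mul_left_cancel₀ hα.ne' h9
    have h8' : S.cl .A = M.cl .A := by exact_mod_cast h8
    have h10' : S.cl .C = M.cl .C := by exact_mod_cast h10
    apply hSne
    have hB := hleS .B
    funext i
    cases i <;> omega
  obtain ⟨nS, hnS'⟩ := Int.eq_ofNat_of_zero_le (by omega : 0 ≤ S.cl .B - S.cl .A)
  have eS : S.cl = cls nS (S.cl .A) (S.cl .C) := by
    rw [← hnS', cls_eta]
  have nS1 : 1 ≤ nS := by omega
  have nSlt : nS < n := by omega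
  have admS : Adm α nS (S.cl .A) (S.cl .C) := (ih nS nSlt nS1 _ _).2 S sS eS
  rcases lt_or_eq_of_le hSM0 with hlt | heq
  swap
  · -- strictly semistable case
    have hqM : chi M.cl M.cl ≤ 1 := by
      have hqe : chi M.cl M.cl = (n : ℤ) ^ 2 - k * (n + d - k) := by
        rw [hcl, chi_cls]; unfold euler; ring
      rw [hqe]; linarith
    have hsemi : ∀ X : Rep, X.Nz → Sb X M → sg α X.cl M.cl ≤ 0 := by
      intro X hX hXM
      exact sg_le_trans (rk_pos hα hX) rS rM (hmax X hX hXM) heq.symm.le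
    obtain ⟨T, hTQ, sT, hmin⟩ := exists_min_quo hα hQn
    obtain ⟨b0, hb0⟩ := hTQ
    have rT := rk_pos hα sT.nz
    have rQ := rk_pos hα hQn
    have hb : (b0.comp a.ran.p).Sur := hb0.comp hses.sur
    have hses2 := (b0.comp a.ran.p).ses_of_sur hb
    have hsum2 := hses2.cl
    have hQM : sg α a.ran.quo.cl M.cl = 0 := by
      have h1 : sg α M.cl M.cl = sg α S.cl M.cl + sg α a.ran.quo.cl M.cl := by
        rw [← sg_add_left, ← hsum]
      rw [sg_self, ← heq] at h1
      linarith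
    have hTle : sg α T.cl M.cl ≤ 0 :=
      sg_le_trans rT rQ rM (hmin _ hQn ⟨Hm.id _, Hm.id_sur _⟩) hQM.le
    have hT0 : sg α T.cl M.cl = 0 := by
      apply le_antisymm hTle
      have h1 : sg α M.cl M.cl = sg α (b0.comp a.ran.p).ker.rep.cl M.cl + sg α T.cl M.cl := by
        rw [← sg_add_left, ← hsum2]
      rw [sg_self] at h1
      by_cases hk : (b0.comp a.ran.p).ker.rep.Nz
      · have h2 := hsemi _ hk ⟨_, hses2.inj⟩
        linarith
      · rw [Rep.nz_iff_ne, not_not] at hk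
        have h2 : sg α (b0.comp a.ran.p).ker.rep.cl M.cl = 0 := by rw [hk]; simp [sg]
        linarith
    have hab : ∀ j w, (b0.comp a.ran.p).g j (a.g j w) = 0 := by
      intro j w
      simp only [Hm.comp_g]
      rw [hses.zero, map_zero]
    obtain ⟨hST, hzz⟩ := key_semi hα hn ih ht hG hcl pM hnM hmM sS sT a ha
      (b0.comp a.ran.p) hb hab heq.symm hT0
    have hall : ∀ S' : Rep, Stable α S' → Sb S' M → sg α S'.cl T.cl = 0 → S'.cl = T.cl := by
      rintro S' sS' ⟨a', ha'⟩ h0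
      have rS' := rk_pos hα sS'.nz
      have hS'M : sg α S'.cl M.cl = 0 := by
        have h1 := sg_trans α S'.cl T.cl M.cl
        rw [h0, hT0, mul_zero, mul_zero, add_zero] at h1
        exact (mul_eq_zero.1 h1).resolve_left rT.ne'
      by_cases hz : ((b0.comp a.ran.p).comp a').NZ
      · obtain ⟨h1, h2⟩ := schur hα sS' sT (by rw [h0]) _ hz
        exact cl_eq_of_bij _ h1 h2
      · unfold Hm.NZ at hz
        push Not at hz
        exact (key_semi hα hn ih ht hG hcl pM hnM hmM sS' sT a' ha'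
          (b0.comp a.ran.p) hb hz hS'M hT0).1
    have c1 : 0 ≤ chi T.cl M.cl := by
      have h1 := chi_nonneg_of hESQ
      have h2 : chi S.cl M.cl = chi S.cl S.cl + chi S.cl a.ran.quo.cl := by
        rw [← chi_add_right, ← hsum]
      rw [hST] at h1 h2
      rw [h2, hzz, zero_add]
      exact h1
    have c2 : 0 ≤ chi M.cl T.cl := by
      have h1 := chi_nonneg_of (hG.ses hses2)
      have h2 : chi M.cl T.cl = chi (b0.comp a.ran.p).ker.rep.cl T.cl + chi T.cl T.cl := by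
        rw [← chi_add_left, ← hsum2]
      rw [h2, hzz, add_zero]
      exact h1
    have c3 : chi T.cl M.cl + chi M.cl T.cl ≤ 0 := by
      by_contra hcon
      push Not at hcon
      let r : Cls := a.ran.quo.cl - T.cl
      have hr0 : ∀ i, 0 ≤ r i := by
        intro i
        have := cl_le_of_sur b0 hb0 i
        simp only [r, Pi.sub_apply]
        omega
      have hM : M.cl = T.cl + T.cl + r := by
        rw [hsum, hST]
        simp only [r]
        abel
      have e1 : chi T.cl M.cl = chi T.cl r := by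
        rw [hM, chi_add_right, chi_add_right, hzz]; ring
      have e2 : chi M.cl T.cl = chi r T.cl := by
        rw [hM, chi_add_left, chi_add_left, hzz]; ring
      have e3 : chi M.cl M.cl = 2 * (chi T.cl r + chi r T.cl) + chi r r := by
        rw [hM]
        simp only [chi_add_left, chi_add_right, hzz]
        ring
      have h1 := cone_le T.cl_nonneg hr0 hzz.le (by omega)
      omega
    have c4 : chi M.cl T.cl = 0 := by omega
    obtain ⟨l, hl⟩ := semi_dec hα rT hzz M.dim.toNat M (by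
        have := M.dim_nonneg
        omega) hG hMn (fun X hX hXM => by
        have h1 := hsemi X hX hXM
        exact sg_le_trans (rk_pos hα hX) rM rT h1 (by rw [sg_swap, hT0, neg_zero]))
      (by rw [sg_swap, hT0, neg_zero]) hall c4
    have hl2 : 2 ≤ l := by
      by_contra hcon
      have h1 : l = 0 ∨ l = 1 := by omega
      rcases h1 with h1 | h1
      · apply Rep.nz_iff_ne.1 hMn
        funext i
        rw [hl, h1]; simp
      · apply hSne
        funext i
        rw [hl, h1, hST]; simp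
    have hq0 : k * (n + d - k) = (n : ℤ) ^ 2 := by
      have h1 : chi M.cl M.cl = 0 := by
        have : M.cl = fun i => (l : ℤ) * T.cl i := funext hl
        rw [this]
        have h2 : chi (fun i => (l : ℤ) * T.cl i) (fun i => (l : ℤ) * T.cl i) =
            l * l * chi T.cl T.cl := by simp only [chi]; ring
        rw [h2, hzz, mul_zero]
      have h2 : chi M.cl M.cl = (n : ℤ) ^ 2 - k * (n + d - k) := by
        rw [hcl, chi_cls]; unfold euler; ring
      rw [h1] at h2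
      linarith
    have hg := hgcd hq0
    have d1 : (l : ℤ) ∣ n := by
      have h1 := hl .A
      have h2 := hl .B
      rw [hMA] at h1
      rw [hMB] at h2
      refine ⟨T.cl .B - T.cl .A, ?_⟩
      rw [mul_sub, ← h1, ← h2]; ring
    have d2 : (l : ℤ) ∣ d := ⟨_, by rw [← hMA]; exact hl .A⟩
    have d3 : (l : ℤ) ∣ k := ⟨_, by rw [← hMC]; exact hl .C⟩
    have d4 : (l : ℤ) ∣ ((Int.gcd (Int.gcd n d) k : ℕ) : ℤ) :=
      Int.dvd_coe_gcd (Int.dvd_coe_gcd d1 d2) d3
    rw [hg] at d4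
    have := Int.le_of_dvd (by norm_num) d4
    omega
  -- unstable case
  have hQM : sg α a.ran.quo.cl M.cl < 0 := by
    have h1 : sg α M.cl M.cl = sg α S.cl M.cl + sg α a.ran.quo.cl M.cl := by
      rw [← sg_add_left, ← hsum]
    rw [sg_self] at h1
    linarith
  have hTMlt : sg α T.cl M.cl < 0 :=
    sg_lt_trans rT (rk_pos hα hQn) rM (hmin _ hQn ⟨a.ran.p, hses.sur⟩) hQM
  obtain ⟨b, hb⟩ := hTM
  have hses2 := b.ses_of_sur hb
  have hsum2 := hses2.cl
  have hleT := cl_le_of_sur b hb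
  have hTne : T.cl ≠ M.cl := by
    intro h
    rw [h, sg_self] at hTMlt
    exact absurd hTMlt (lt_irrefl _)
  have hUn : b.ker.rep.Nz := by
    rw [Rep.nz_iff_ne]
    intro h
    rw [h, zero_add] at hsum2
    exact hTne hsum2.symm
  have hnU : 1 ≤ b.ker.rep.cl .B - b.ker.rep.cl .A := n_sub hG hnM hmM hUn ⟨b.ker.i, hses2.inj⟩
  have pT0 : 0 ≤ (T.cl .A : ℝ) + α * T.cl .C := by
    have h1 : (0 : ℝ) ≤ T.cl .A := by exact_mod_cast T.cl_nonneg .A
    have h2 : (0 : ℝ) ≤ T.cl .C := by exact_mod_cast T.cl_nonneg .C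
    have := mul_nonneg hα.le h2
    linarith
  have hnT : 1 ≤ T.cl .B - T.cl .A := by
    have h1 : 0 < ((T.cl .B - T.cl .A : ℤ) : ℝ) := by
      unfold sg at hTMlt
      have h2 : 0 ≤ ((M.cl .B - M.cl .A : ℤ) : ℝ) * ((T.cl .A : ℝ) + α * T.cl .C) :=
        mul_nonneg (by linarith) pT0
      have h3 : 0 < ((T.cl .B - T.cl .A : ℤ) : ℝ) * ((M.cl .A : ℝ) + α * M.cl .C) := by linarith
      exact (mul_pos_iff_of_pos_right pM).1 h3
    have h2 : 0 < T.cl .B - T.cl .A := by exact_mod_cast h1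
    omega
  have hcB := congrFun hsum2 .B
  have hcA := congrFun hsum2 .A
  simp only [Pi.add_apply] at hcA hcB
  obtain ⟨nT, hnT'⟩ := Int.eq_ofNat_of_zero_le (by omega : 0 ≤ T.cl .B - T.cl .A)
  have eT : T.cl = cls nT (T.cl .A) (T.cl .C) := by
    rw [← hnT', cls_eta]
  have nT1 : 1 ≤ nT := by omega
  have nTlt : nT < n := by omega
  have admT : Adm α nT (T.cl .A) (T.cl .C) := (ih nT nTlt nT1 _ _).2 T sT eT
  have bS := sS.brick hα
  have bT := sT.brick hα
  -- slopes
  have hST : 0 < sg α S.cl T.cl := by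
    have h1 : sg α M.cl S.cl < 0 := by rw [sg_swap]; linarith
    have h2 := sg_lt_trans rT rM rS hTMlt.le h1
    rw [sg_swap] at h2
    linarith
  -- `S` exceptional
  have qS : chi S.cl S.cl ≤ 0 := by
    by_contra h
    push Not at h
    have h1 : chi S.cl S.cl = 1 := by
      have := bS.q_le
      omega
    have h2 : E0 S M := E0.extr hses (bS.rigid h) hESQ
    have h3 := chi_pos_of h2 (not_H0_of_NZ (NZ_of_inj a ha sS.nz))
    rw [eS] at h1
    have h4 := (ht nS nS1 nSlt _ _ (test_q h1) admS).1 (by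
      rw [slope_iff hn nS1, ← hcl, ← eS, sg_swap]; linarith)
    rw [← chi_cls, ← hcl, ← eS] at h4
    omega
  have qT : chi T.cl T.cl ≤ 0 := by
    by_contra h
    push Not at h
    have h1 : chi T.cl T.cl = 1 := by
      have := bT.q_le
      omega
    have h2 : E0 M T := E0.extl hses2 (hG.ses hses2) (bT.rigid h)
    have h3 := chi_pos_of h2 (not_H0_of_NZ (NZ_of_sur b hb sT.nz))
    rw [eT] at h1
    have h4 := (ht nT nT1 nTlt _ _ (test_q h1) admT).2 (by
      rw [slope_iff nT1 hn, ← hcl, ← eT]; exact hTMlt.le)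
    rw [← chi_cls, ← hcl, ← eT] at h4
    omega
  -- both not exceptional
  have hH : H0 S T := H0_of_slope hα sS sT hST.le (by
    intro h
    rw [h, sg_self] at hST
    exact absurd hST (lt_irrefl _))
  have hE : E0 S T := by
    obtain ⟨ψ, hψ⟩ := hses.desc_hm b (fun j w => hH (b.comp a) j w)
    refine E0.quor ψ ?_ hESQ
    intro j v
    obtain ⟨w, rfl⟩ := hb j v
    exact ⟨_, hψ j w⟩
  refine NL hα S.cl_nonneg T.cl_nonneg hnS hnT qS qT ?_ ?_ hST (chi_zero_of hH hE)
  · intro N hN hNcl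
    exact (ih nS nSlt nS1 _ _).1 admS N hN (by rw [hNcl]; exact eS)
  · intro N hN hNcl
    exact (ih nT nTlt nT1 _ _).1 admT N hN (by rw [hNcl]; exact eT)

theorem stmt_all' {α : ℝ} (hα : 0 < α) (n : ℕ) : 1 ≤ n → Stmt α n := by
  induction n using Nat.strong_induction_on with
  | _ n ih =>
    intro hn d k
    exact ⟨fun h M hM hcl => suff' hα hn ih h hM hcl, fun M hM hcl => nec hα hn ih hM hcl⟩

end Pool.Agent.L7h86
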