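import Mathlib
import Pool.Agent.L7h86.Main2
import Pool.Agent.L7h86.Br8

/-!
# The criterion for coherent systems, all real parameters
-/

set_option autoImplicit false

namespace Pool.Agent.L7h86.Coh

open MvPolynomial Pool.Agent.L7h86

theorem criterion {n k : ℕ} (hn : 1 ≤ n) (hk : 1 ≤ k) (d : ℤ) {α : ℝ} (hα : 0 < α) :
    α ∈ stabilitySet n d k ↔ Adm α n d k := by
  constructor
  · rintro ⟨S, hS⟩
    have he := e_nonneg S hα hk hS
    exact (stmt_all' hα n hn d k).2 _ (RE_stable S hα hn hk hS) (RE_cl S he)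
  · intro h
    have hd : 0 ≤ d := by
      have h' := h
      rw [Adm] at h'
      exact h'.1
    obtain ⟨e, v, h1, h2, h3, h4⟩ := exists_GE hn hd k
    exact exists_coh hα hn hk h1 h2 ((stmt_all' hα n hn d k).1 h _ h3 h4)

/-- the admissible parameters form an open set -/
theorem adm_open {n : ℕ} {k : ℕ} (hn : 1 ≤ n) (hk : 1 ≤ k) (d : ℤ) {α : ℝ} (hα : 0 < α)
    (h : Adm α n d k) : ∃ ε > 0, ∀ β : ℝ, |β - α| < ε → 0 < β → Adm β n d k := by
  obtain ⟨S, hS⟩ := (criterion hn hk d hα).2 h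
  have he := e_nonneg S hα hk hS
  have hcl := RE_cl S he
  obtain ⟨ε, hε, hop⟩ := open_st (RE_stable S hα hn hk hS)
  exact ⟨ε, hε, fun β hβ hβ0 => (stmt_all' hβ0 n hn d k).2 _ (hop β hβ) hcl⟩

/-- the admissible parameters form a convex set -/
theorem adm_convex {n : ℕ} {k : ℕ} (hn : 1 ≤ n) (d : ℤ) {α₁ α₂ α : ℝ} (hα : 0 < α₁)
    (h1 : α₁ < α) (h2 : α < α₂) (a1 : Adm α₁ n d k) (a2 : Adm α₂ n d k) : Adm α n d k := by
  have hd : 0 ≤ d := by
    have h' := a1
    rw [Adm] at h'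
    exact h'.1
  obtain ⟨e, v, _, _, h3, h4⟩ := exists_GE hn hd k
  have s1 := (stmt_all' hα n hn d k).1 a1 _ h3 h4
  have s2 := (stmt_all' (by linarith) n hn d k).1 a2 _ h3 h4
  exact (stmt_all' (by linarith) n hn d k).2 _ (convex_st h1 h2 s1 s2) h4

end Pool.Agent.L7h86.Coh
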