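import Mathlib
import Pool.Agent.L7h86.EndDefs
import Pool.Agent.L7h86.Final

/-!
# Correctness of the computation of the stability intervals
-/

set_option autoImplicit false

namespace Pool.Agent.L7h86

theorem Adm.num {α : ℝ} {n : ℕ} {d k : ℤ} (h : Adm α n d k) : Num n d k := by
  rw [Adm] at h
  obtain ⟨h1, h2, h3, h4, h5, _⟩ := h
  exact ⟨h1, h2, h3, h4, h5⟩

theorem cls_nonneg {n : ℕ} {d k : ℤ} (h : Num n d k) (i : Vx) : 0 ≤ cls n d k i := by
  obtain ⟨h1, h2, h3, _⟩ := h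
  cases i
  · exact h1
  · change (0 : ℤ) ≤ n + d
    omega
  · exact h2

theorem adm_open {n : ℕ} (hn : 1 ≤ n) {d k : ℤ} {α : ℝ} (hα : 0 < α) (h : Adm α n d k) :
    ∃ ε > 0, ∀ β : ℝ, |β - α| < ε → 0 < β → Adm β n d k := by
  obtain ⟨M, hM, hcl⟩ := exists_G (cls n d k) (cls_nonneg h.num)
  obtain ⟨ε, hε, hop⟩ := Coh.open_st ((stmt_all' hα n hn d k).1 h M hM hcl)
  exact ⟨ε, hε, fun β hβ hβ0 => (stmt_all' hβ0 n hn d k).2 _ (hop β hβ) hcl⟩

theorem adm_convex {n : ℕ} (hn : 1 ≤ n) {d k : ℤ} {α₁ α₂ α : ℝ} (hα : 0 < α₁)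
    (h1 : α₁ < α) (h2 : α < α₂) (a1 : Adm α₁ n d k) (a2 : Adm α₂ n d k) : Adm α n d k := by
  obtain ⟨M, hM, hcl⟩ := exists_G (cls n d k) (cls_nonneg a1.num)
  have s1 := (stmt_all' hα n hn d k).1 a1 M hM hcl
  have s2 := (stmt_all' (by linarith) n hn d k).1 a2 M hM hcl
  exact (stmt_all' (by linarith) n hn d k).2 _ (Coh.convex_st h1 h2 s1 s2) hcl

/-- the real form of the tests -/
def TestR (α : ℝ) (n : ℕ) (d k : ℤ) (n' : ℕ) (d' k' : ℤ) : Prop :=
  ((n' : ℝ) * (d + α * k) ≤ n * (d' + α * k') → euler n' d' k' n d k ≤ 0) ∧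
  ((n : ℝ) * (d' + α * k') ≤ n' * (d + α * k) → euler n d k n' d' k' ≤ 0)

theorem testR_iff {α : ℝ} {n n' : ℕ} (hn : 1 ≤ n) (hn' : 1 ≤ n') {d k d' k' : ℤ} :
    TestR α n d k n' d' k' ↔
    ((((d : ℝ) + α * k) / n ≤ ((d' : ℝ) + α * k') / n' → euler n' d' k' n d k ≤ 0) ∧
    (((d' : ℝ) + α * k') / n' ≤ ((d : ℝ) + α * k) / n → euler n d k n' d' k' ≤ 0)) := by
  have h1 : (0 : ℝ) < n := by exact_mod_cast hn
  have h2 : (0 : ℝ) < n' := by exact_mod_cast hn'
  unfold TestR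
  rw [div_le_div_iff₀ h1 h2, div_le_div_iff₀ h2 h1, mul_comm ((d : ℝ) + α * k),
    mul_comm ((d' : ℝ) + α * k')]

theorem adm_iff {α : ℝ} {n : ℕ} (hn : 1 ≤ n) {d k : ℤ} : Adm α n d k ↔ Num n d k ∧
    ∀ (n' : ℕ) (_ : 1 ≤ n') (_ : n' < n) (d' k' : ℤ),
      k' * (n' + d' - k') = (n' : ℤ) ^ 2 - 1 → Adm α n' d' k' → TestR α n d k n' d' k' := by
  rw [Adm]
  constructor
  · rintro ⟨h1, h2, h3, h4, h5, h6⟩
    exact ⟨⟨h1, h2, h3, h4, h5⟩, fun n' a b d' k' c e =>
      (testR_iff hn a).2 (h6 n' a b d' k' c e)⟩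
  · rintro ⟨⟨h1, h2, h3, h4, h5⟩, h6⟩
    exact ⟨h1, h2, h3, h4, h5, fun n' a b d' k' c e =>
      (testR_iff hn a).1 (h6 n' a b d' k' c e)⟩

theorem adm_one {α : ℝ} {d k : ℤ} : Adm α 1 d k ↔ 0 ≤ d ∧ 0 ≤ k ∧ k ≤ 1 + d := by
  rw [adm_iff le_rfl]
  constructor
  · rintro ⟨⟨h1, h2, h3, _⟩, _⟩
    push_cast at h3
    exact ⟨h1, h2, h3⟩
  · rintro ⟨h1, h2, h3⟩
    refine ⟨⟨h1, h2, by push_cast; exact h3, ?_, ?_⟩, fun n' h4 h5 => by omega⟩
    · have : 0 ≤ k * (1 + d - k) := mul_nonneg h2 (by linarith)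
      push_cast
      linarith
    · intro h4
      push_cast at h4
      simp

/-- The interval `J` is the interval of the type `(n, d, k)`. -/
def Spec (J : Intv) (n : ℕ) (d k : ℤ) : Prop :=
  (∀ α : ℝ, 0 < α → (α ∈ J.toSet ↔ Adm α n d k)) ∧ ∀ a b, J = some (a, b) → 0 ≤ a

/-- two parameters which are not separated by `P` -/
def Same (P : Finset ℚ) (α β : ℝ) : Prop :=
  ∀ p ∈ P, ((p : ℝ) < α ↔ (p : ℝ) < β) ∧ (p : ℝ) ≠ α ∧ (p : ℝ) ≠ β

theorem Same.symm {P : Finset ℚ} {α β : ℝ} (h : Same P α β) : Same P β α := fun p hp =>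
  ⟨(h p hp).1.symm, (h p hp).2.2, (h p hp).2.1⟩

theorem Same.lt {P : Finset ℚ} {α β : ℝ} (h : Same P α β) (h1 : 0 < α) (h2 : 0 < β) {c : ℚ}
    (hc : max 0 c ∈ P) : ((c : ℝ) < α ↔ (c : ℝ) < β) ∧ (c : ℝ) ≠ α ∧ (c : ℝ) ≠ β := by
  obtain ⟨e1, e2, e3⟩ := h _ hc
  push_cast at e1 e2 e3
  by_cases hc0 : c ≤ 0
  · have : (c : ℝ) ≤ 0 := by exact_mod_cast hc0
    refine ⟨⟨fun _ => by linarith, fun _ => by linarith⟩, by linarith, by linarith⟩
  · push Not at hc0
    have : (0 : ℝ) < c := by exact_mod_cast hc0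
    rw [max_eq_right this.le] at e1 e2 e3
    exact ⟨e1, e2, e3⟩

theorem Same.ge {P : Finset ℚ} {α β : ℝ} (h : Same P α β) (h1 : 0 < α) (h2 : 0 < β) {c : ℚ}
    (hc : max 0 c ∈ P) : (α < (c : ℝ) ↔ β < (c : ℝ)) := by
  obtain ⟨e1, e2, e3⟩ := h.lt h1 h2 hc
  constructor
  · intro h3
    rcases lt_trichotomy β (c : ℝ) with h4 | h4 | h4
    · exact h4
    · exact absurd h4.symm e3
    · exact absurd (e1.2 h4) (by linarith)
  · intro h3
    rcases lt_trichotomy α (c : ℝ) with h4 | h4 | h4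
    · exact h4
    · exact absurd h4.symm e2
    · exact absurd (e1.1 h4) (by linarith)

/-- signs of affine functions do not change -/
theorem Same.aff {P : Finset ℚ} {α β : ℝ} (h : Same P α β) (h1 : 0 < α) (h2 : 0 < β) {u v : ℤ}
    (hc : max 0 ((u : ℚ) / v) ∈ P) : (0 ≤ (u : ℝ) - α * v ↔ 0 ≤ (u : ℝ) - β * v) ∧
      ((u : ℝ) - α * v ≤ 0 ↔ (u : ℝ) - β * v ≤ 0) := by
  by_cases hv : v = 0
  · subst hv; simp
  have e1 := h.lt h1 h2 hc
  have e2 := h.ge h1 h2 hc
  obtain ⟨l1, n1, n2⟩ := e1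
  push_cast at l1 n1 n2 e2
  have hvr : (v : ℝ) ≠ 0 := by exact_mod_cast hv
  have key : ∀ x : ℝ, (u : ℝ) - x * v = v * ((u : ℝ) / v - x) := by
    intro x; field_simp
  rw [key, key]
  rcases lt_or_gt_of_ne hvr with hneg | hpos
  · have s1 : ∀ x : ℝ, (u : ℝ) / v ≠ x → (0 ≤ (v : ℝ) * ((u : ℝ) / v - x) ↔ (u : ℝ) / v < x) := by
      intro x hx
      constructor
      · intro h3
        by_contra h4
        push Not at h4
        have h5 : 0 < (u : ℝ) / v - x := by
          rcases lt_or_eq_of_le h4 with h | h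
          · linarith
          · exact absurd h.symm hx
        have := mul_neg_of_neg_of_pos hneg h5
        linarith
      · intro h3
        exact mul_nonneg_of_nonpos_of_nonpos hneg.le (by linarith)
    have s2 : ∀ x : ℝ, (u : ℝ) / v ≠ x → ((v : ℝ) * ((u : ℝ) / v - x) ≤ 0 ↔ x < (u : ℝ) / v) := by
      intro x hx
      constructor
      · intro h3
        by_contra h4
        push Not at h4
        have h5 : (u : ℝ) / v - x < 0 := by
          rcases lt_or_eq_of_le h4 with h | h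
          · linarith
          · exact absurd h hx
        have := mul_pos_of_neg_of_neg hneg h5
        linarith
      · intro h3
        exact mul_nonpos_of_nonpos_of_nonneg hneg.le (by linarith)
    rw [s1 _ n1, s1 _ n2, s2 _ n1, s2 _ n2]
    exact ⟨l1, e2⟩
  · have s1 : ∀ x : ℝ, (u : ℝ) / v ≠ x → (0 ≤ (v : ℝ) * ((u : ℝ) / v - x) ↔ x < (u : ℝ) / v) := by
      intro x hx
      constructor
      · intro h3
        by_contra h4
        push Not at h4
        have h5 : (u : ℝ) / v - x < 0 := by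
          rcases lt_or_eq_of_le h4 with h | h
          · linarith
          · exact absurd h hx
        have := mul_neg_of_pos_of_neg hpos h5
        linarith
      · intro h3
        exact mul_nonneg hpos.le (by linarith)
    have s2 : ∀ x : ℝ, (u : ℝ) / v ≠ x → ((v : ℝ) * ((u : ℝ) / v - x) ≤ 0 ↔ (u : ℝ) / v < x) := by
      intro x hx
      constructor
      · intro h3
        by_contra h4
        push Not at h4
        have h5 : 0 < (u : ℝ) / v - x := by
          rcases lt_or_eq_of_le h4 with h | h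
          · linarith
          · exact absurd h.symm hx
        have := mul_pos hpos h5
        linarith
      · intro h3
        exact mul_nonpos_of_nonneg_of_nonpos hpos.le (by linarith)
    rw [s1 _ n1, s1 _ n2, s2 _ n1, s2 _ n2]
    exact ⟨e2, l1⟩

theorem Intv.has_iff {J : Intv} {q : ℚ} : J.Has q ↔ (q : ℝ) ∈ J.toSet := by
  cases J with
  | none =>
    constructor
    · intro h; exact h.elim
    · rintro ⟨a, b, h, _⟩
      exact absurd h (by simp)
  | some ab =>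
    obtain ⟨a, b⟩ := ab
    constructor
    · rintro ⟨h1, h2⟩
      refine ⟨a, b, rfl, by exact_mod_cast h1, fun c hc => ?_⟩
      subst hc
      have : q < c := WithTop.coe_lt_coe.1 h2
      exact_mod_cast this
    · rintro ⟨a', b', h, h1, h2⟩
      simp only [Option.some.injEq, Prod.mk.injEq] at h
      obtain ⟨rfl, rfl⟩ := h
      refine ⟨by exact_mod_cast h1, ?_⟩
      cases b with
      | top => exact WithTop.coe_lt_top _
      | coe c =>
        have := h2 c rfl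
        exact WithTop.coe_lt_coe.2 (by exact_mod_cast this)

theorem Same.mem {P : Finset ℚ} {α β : ℝ} (h : Same P α β) (h1 : 0 < α) (h2 : 0 < β) {J : Intv}
    (hJ : ∀ c ∈ J.ends, max 0 c ∈ P) : α ∈ J.toSet ↔ β ∈ J.toSet := by
  have key : ∀ {α β : ℝ}, Same P α β → 0 < α → 0 < β → α ∈ J.toSet → β ∈ J.toSet := by
    rintro α β h h1 h2 ⟨a, b, hab, h3, h4⟩
    refine ⟨a, b, hab, ?_, ?_⟩
    · have ha : a ∈ J.ends := by
        rw [hab]
        cases b <;> simp [Intv.ends]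
      exact (h.lt h1 h2 (hJ a ha)).1.1 h3
    · rintro c rfl
      have hc : c ∈ J.ends := by
        rw [hab]
        simp [Intv.ends]
      exact (h.ge h1 h2 (hJ c hc)).1 (h4 c rfl)
  exact ⟨key h h1 h2, key h.symm h2 h1⟩

/-! ### cells -/

theorem nxt_cases (P : Finset ℚ) (p : ℚ) : (nxt P p = ⊤ ∧ ∀ y ∈ P, y ≤ p) ∨
    ∃ x ∈ P, nxt P p = (x : WithTop ℚ) ∧ p < x ∧ ∀ y ∈ P, p < y → x ≤ y := by
  rcases Finset.eq_empty_or_nonempty (P.filter (fun x => p < x)) with h | h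
  · left
    refine ⟨by unfold nxt; rw [h, Finset.min_empty], fun y hy => ?_⟩
    by_contra hcon
    push Not at hcon
    have : y ∈ P.filter (fun x => p < x) := Finset.mem_filter.2 ⟨hy, hcon⟩
    rw [h] at this
    simp at this
  · right
    obtain ⟨x, hx⟩ := Finset.min_of_nonempty h
    have h1 := Finset.mem_of_min hx
    rw [Finset.mem_filter] at h1
    refine ⟨x, h1.1, hx, h1.2, fun y hy hpy => ?_⟩
    exact Finset.min_le_of_eq (Finset.mem_filter.2 ⟨hy, hpy⟩) hx

/-- `α` lies between `p` and the next element of `P` -/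
def InCell (P : Finset ℚ) (p : ℚ) (α : ℝ) : Prop :=
  (p : ℝ) < α ∧ ∀ y ∈ P, p < y → α < (y : ℝ)

theorem smp_cell (P : Finset ℚ) (p : ℚ) : InCell P p (smp P p) := by
  rcases nxt_cases P p with ⟨h1, h2⟩ | ⟨x, hx, h1, h2, h3⟩
  · have e : smp P p = p + 1 := by unfold smp; rw [h1]
    rw [e]
    refine ⟨by push_cast; linarith, fun y hy hpy => ?_⟩
    exact absurd (h2 y hy) (not_le.2 hpy)
  · have e : smp P p = (p + x) / 2 := by unfold smp; rw [h1]
    rw [e]
    have h2' : (p : ℝ) < x := by exact_mod_cast h2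
    refine ⟨by push_cast; linarith, fun y hy hpy => ?_⟩
    have : (x : ℝ) ≤ y := by exact_mod_cast h3 y hy hpy
    push_cast
    linarith

theorem same_of_cell {P : Finset ℚ} {p : ℚ} {α β : ℝ} (h1 : InCell P p α) (h2 : InCell P p β) :
    Same P α β := by
  intro y hy
  rcases le_or_gt y p with h | h
  · have : (y : ℝ) ≤ p := by exact_mod_cast h
    have a := h1.1
    have b := h2.1
    exact ⟨⟨fun _ => by linarith, fun _ => by linarith⟩, by linarith, by linarith⟩
  · have a := h1.2 y hy h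
    have b := h2.2 y hy h
    exact ⟨⟨fun h3 => absurd h3 (by linarith), fun h3 => absurd h3 (by linarith)⟩,
      a.ne', b.ne'⟩

theorem exists_left {P : Finset ℚ} (h0 : 0 ∈ P) {α ε : ℝ} (hα : 0 < α) (hε : 0 < ε) :
    ∃ p ∈ P, (p : ℝ) < α ∧ ∃ β : ℝ, 0 < β ∧ |β - α| < ε ∧ InCell P p β := by
  classical
  have hne : (P.filter (fun p : ℚ => (p : ℝ) < α)).Nonempty :=
    ⟨0, Finset.mem_filter.2 ⟨h0, by push_cast; exact hα⟩⟩
  let p := (P.filter (fun p : ℚ => (p : ℝ) < α)).max' hne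
  have hp := Finset.max'_mem _ hne
  rw [Finset.mem_filter] at hp
  have hmax : ∀ y ∈ P, (y : ℝ) < α → y ≤ p := fun y hy hyα =>
    Finset.le_max' _ y (Finset.mem_filter.2 ⟨hy, hyα⟩)
  have hp0 : (0 : ℝ) ≤ p := by
    have := hmax 0 h0 (by push_cast; exact hα)
    exact_mod_cast this
  have hpα : (p : ℝ) < α := hp.2
  obtain ⟨β, h1, h2⟩ := exists_between (show max (p : ℝ) (α - ε) < α by
    rw [max_lt_iff]; exact ⟨hpα, by linarith⟩)
  rw [max_lt_iff] at h1
  refine ⟨p, hp.1, hpα, β, by linarith [h1.1], by rw [abs_lt]; constructor <;> linarith [h1.2],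
    h1.1, fun y hy hpy => ?_⟩
  by_contra hcon
  push Not at hcon
  exact absurd (hmax y hy (by linarith)) (not_le.2 hpy)

theorem exists_right {P : Finset ℚ} (h0 : 0 ∈ P) {α ε : ℝ} (hα : 0 < α) (hε : 0 < ε) :
    ∃ p ∈ P, (∀ y ∈ P, p < y → α < (y : ℝ)) ∧
      ∃ β : ℝ, 0 < β ∧ |β - α| < ε ∧ InCell P p β := by
  classical
  have hne : (P.filter (fun p : ℚ => (p : ℝ) ≤ α)).Nonempty :=
    ⟨0, Finset.mem_filter.2 ⟨h0, by push_cast; exact hα.le⟩⟩
  let p := (P.filter (fun p : ℚ => (p : ℝ) ≤ α)).max' hne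
  have hp := Finset.max'_mem _ hne
  rw [Finset.mem_filter] at hp
  have hmax : ∀ y ∈ P, p < y → α < (y : ℝ) := by
    intro y hy hpy
    by_contra hcon
    push Not at hcon
    exact absurd (Finset.le_max' _ y (Finset.mem_filter.2 ⟨hy, hcon⟩)) (not_le.2 hpy)
  have hpα : (p : ℝ) ≤ α := hp.2
  have key : ∃ β : ℝ, α < β ∧ β < α + ε ∧ ∀ y ∈ P, p < y → β < (y : ℝ) := by
    rcases nxt_cases P p with ⟨h1, h2⟩ | ⟨x, hx, h1, h2, h3⟩
    · exact ⟨α + ε / 2, by linarith, by linarith, fun y hy hpy =>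
        absurd (h2 y hy) (not_le.2 hpy)⟩
    · have h4 := hmax x hx h2
      obtain ⟨β, h5, h6⟩ := exists_between (show α < min (x : ℝ) (α + ε) by
        rw [lt_min_iff]; exact ⟨h4, by linarith⟩)
      rw [lt_min_iff] at h6
      refine ⟨β, h5, h6.2, fun y hy hpy => ?_⟩
      have : (x : ℝ) ≤ y := by exact_mod_cast h3 y hy hpy
      linarith [h6.1]
  obtain ⟨β, h5, h6, h7⟩ := key
  exact ⟨p, hp.1, hmax, β, by linarith, by rw [abs_lt]; constructor <;> linarith,
    by linarith, h7⟩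

/-! ### the computation from a table -/

theorem mem_walls {T : List Entry} {n : ℕ} {d k : ℤ} {t : Entry} (ht : t ∈ T) {c : ℚ}
    (hc : c ∈ t.J.ends ∨ c = ((n : ℚ) * t.d - t.n * d) / (t.n * k - n * t.k)) :
    max 0 c ∈ walls T n d k := by
  unfold walls
  rw [Finset.mem_insert, List.mem_toFinset, List.mem_flatMap]
  right
  refine ⟨t, ht, ?_⟩
  rw [List.mem_map]
  refine ⟨c, ?_, rfl⟩
  rw [List.mem_append, List.mem_singleton]
  exact hc

theorem zero_mem_walls (T : List Entry) (n : ℕ) (d k : ℤ) : 0 ∈ walls T n d k := by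
  unfold walls
  exact Finset.mem_insert_self _ _

theorem walls_nonneg {T : List Entry} {n : ℕ} {d k : ℤ} {p : ℚ} (hp : p ∈ walls T n d k) :
    0 ≤ p := by
  unfold walls at hp
  rw [Finset.mem_insert, List.mem_toFinset, List.mem_flatMap] at hp
  rcases hp with rfl | ⟨t, _, h⟩
  · exact le_rfl
  · rw [List.mem_map] at h
    obtain ⟨c, _, rfl⟩ := h
    exact le_max_left _ _

/-- the real form of `Test` -/
def TT (T : List Entry) (n : ℕ) (d k : ℤ) (α : ℝ) : Prop :=
  ∀ t ∈ T, α ∈ t.J.toSet → TestR α n d k t.n t.d t.k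

theorem test_iff {T : List Entry} {n : ℕ} {d k : ℤ} {q : ℚ} :
    Test T n d k q ↔ TT T n d k (q : ℝ) := by
  unfold Test TT TestR
  have key : ∀ t : Entry, (((t.n : ℚ) * (d + q * k) ≤ n * (t.d + q * t.k)) ↔
      ((t.n : ℝ) * (d + (q : ℝ) * k) ≤ n * (t.d + (q : ℝ) * t.k))) ∧
      (((n : ℚ) * (t.d + q * t.k) ≤ t.n * (d + q * k)) ↔
      ((n : ℝ) * (t.d + (q : ℝ) * t.k) ≤ t.n * (d + (q : ℝ) * k))) := by
    intro t
    constructor
    · rw [← Rat.cast_le (K := ℝ)]; push_cast; rfl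
    · rw [← Rat.cast_le (K := ℝ)]; push_cast; rfl
  constructor
  · intro h t ht hq
    have := h t ht (Intv.has_iff.2 hq)
    rw [(key t).1, (key t).2] at this
    exact this
  · intro h t ht hq
    have := h t ht (Intv.has_iff.1 hq)
    rw [(key t).1, (key t).2]
    exact this

theorem TT_same {T : List Entry} {n : ℕ} {d k : ℤ} {α β : ℝ} (hα : 0 < α) (hβ : 0 < β)
    (h : Same (walls T n d k) α β) (h1 : TT T n d k α) : TT T n d k β := by
  intro t ht hβJ
  have hαJ : α ∈ t.J.toSet := (h.mem hα hβ (fun c hc => mem_walls ht (Or.inl hc))).2 hβJ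
  obtain ⟨h2, h3⟩ := h1 t ht hαJ
  have hc : max 0 ((((n : ℤ) * t.d - t.n * d : ℤ) : ℚ) / ((t.n * k - n * t.k : ℤ) : ℚ)) ∈
      walls T n d k := by
    push_cast
    exact mem_walls ht (Or.inr rfl)
  obtain ⟨e1, e2⟩ := h.aff hα hβ hc
  push_cast at e1 e2
  constructor
  · intro h4
    apply h2
    have : 0 ≤ (n : ℝ) * t.d - t.n * d - α * (t.n * k - n * t.k) := e1.2 (by linarith)
    linarith
  · intro h4
    apply h3
    have : (n : ℝ) * t.d - t.n * d - α * (t.n * k - n * t.k) ≤ 0 := e2.2 (by linarith)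
    linarith

theorem solve_spec {T : List Entry} {n : ℕ} (hn : 1 ≤ n) {d k : ℤ}
    (h : ∀ α : ℝ, 0 < α → Num n d k → (Adm α n d k ↔ TT T n d k α)) :
    Spec (solve T n d k) n d k := by
  by_cases hnum : Num n d k
  swap
  · have e : solve T n d k = none := by unfold solve; rw [if_neg hnum]
    rw [e]
    refine ⟨fun α _ => ⟨?_, fun h1 => absurd h1.num hnum⟩, fun a b h1 => by simp at h1⟩
    rintro ⟨a, b, h1, _⟩
    simp at h1
  obtain ⟨P, hP⟩ : ∃ P, P = walls T n d k := ⟨_, rfl⟩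
  have hP0 : (0 : ℚ) ∈ P := by rw [hP]; exact zero_mem_walls T n d k
  have hPn : ∀ p ∈ P, 0 ≤ p := by
    intro p hp
    rw [hP] at hp
    exact walls_nonneg hp
  have hcell : ∀ p ∈ P, ∀ α β : ℝ, InCell P p α → InCell P p β → TT T n d k α →
      TT T n d k β := by
    intro p hp α β h1 h2 h3
    have hp0 : (0 : ℝ) ≤ p := by exact_mod_cast hPn p hp
    exact TT_same (by linarith [h1.1]) (by linarith [h2.1]) (by
      rw [← hP]; exact same_of_cell h1 h2) h3
  -- good walls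
  have hgood : ∀ p ∈ P, (∃ β : ℝ, InCell P p β ∧ Adm β n d k) →
      p ∈ P.filter (fun p => Test T n d k (smp P p)) := by
    rintro p hp ⟨β, h1, h2⟩
    have hp0 : (0 : ℝ) ≤ p := by exact_mod_cast hPn p hp
    rw [Finset.mem_filter]
    refine ⟨hp, ?_⟩
    rw [test_iff]
    exact hcell p hp β _ h1 (smp_cell P p) ((h β (by linarith [h1.1]) hnum).1 h2)
  have hL : ∀ α : ℝ, 0 < α → Adm α n d k →
      ∃ p ∈ P.filter (fun p => Test T n d k (smp P p)), (p : ℝ) < α := by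
    intro α hα hadm
    obtain ⟨ε, hε, hop⟩ := adm_open hn hα hadm
    obtain ⟨p, hp, hpα, β, hβ0, hβ, hc⟩ := exists_left hP0 hα hε
    exact ⟨p, hgood p hp ⟨β, hc, hop β hβ hβ0⟩, hpα⟩
  have hR : ∀ α : ℝ, 0 < α → Adm α n d k →
      ∃ p ∈ P.filter (fun p => Test T n d k (smp P p)), ∀ y ∈ P, p < y → α < (y : ℝ) := by
    intro α hα hadm
    obtain ⟨ε, hε, hop⟩ := adm_open hn hα hadm
    obtain ⟨p, hp, hpα, β, hβ0, hβ, hc⟩ := exists_right hP0 hα hε
    exact ⟨p, hgood p hp ⟨β, hc, hop β hβ hβ0⟩, hpα⟩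
  by_cases hne : (P.filter (fun p => Test T n d k (smp P p))).Nonempty
  · have e : solve T n d k =
        some ((P.filter (fun p => Test T n d k (smp P p))).min' hne,
          nxt P ((P.filter (fun p => Test T n d k (smp P p))).max' hne)) := by
      subst hP
      unfold solve
      rw [if_pos hnum, dif_pos hne]
    rw [e]
    have hmin := Finset.min'_mem _ hne
    have hmax := Finset.max'_mem _ hne
    obtain ⟨lo, hlo⟩ : ∃ lo, lo = (P.filter (fun p => Test T n d k (smp P p))).min' hne :=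
      ⟨_, rfl⟩
    obtain ⟨la, hla⟩ : ∃ la, la = (P.filter (fun p => Test T n d k (smp P p))).max' hne :=
      ⟨_, rfl⟩
    have hmin' : ∀ p ∈ P.filter (fun p => Test T n d k (smp P p)), lo ≤ p := by
      intro p hp; rw [hlo]; exact Finset.min'_le _ p hp
    have hmax' : ∀ p ∈ P.filter (fun p => Test T n d k (smp P p)), p ≤ la := by
      intro p hp; rw [hla]; exact Finset.le_max' _ p hp
    rw [← hlo] at hmin ⊢
    rw [← hla] at hmax ⊢
    rw [Finset.mem_filter, test_iff] at hmin hmax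
    have hlo0 : (0 : ℝ) ≤ lo := by exact_mod_cast hPn lo hmin.1
    have hla0 : (0 : ℝ) ≤ la := by exact_mod_cast hPn la hmax.1
    have c1 := smp_cell P lo
    have c2 := smp_cell P la
    refine ⟨fun α hα => ⟨?_, fun hadm => ?_⟩, ?_⟩
    · rintro ⟨a, b, hab, h1, h2⟩
      simp only [Option.some.injEq, Prod.mk.injEq] at hab
      obtain ⟨rfl, rfl⟩ := hab
      have a1 : Adm (smp P lo : ℝ) n d k := (h _ (by linarith [c1.1]) hnum).2 hmin.2
      have a2 : Adm (smp P la : ℝ) n d k := (h _ (by linarith [c2.1]) hnum).2 hmax.2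
      rcases le_or_gt α (smp P lo : ℝ) with h3 | h3
      · refine (h α hα hnum).2 (hcell lo hmin.1 _ α c1 ⟨h1, fun y hy hpy => ?_⟩ hmin.2)
        linarith [c1.2 y hy hpy]
      rcases le_or_gt (smp P la : ℝ) α with h4 | h4
      · refine (h α hα hnum).2 (hcell la hmax.1 _ α c2 ⟨by linarith [c2.1],
          fun y hy hpy => ?_⟩ hmax.2)
        rcases nxt_cases P la with ⟨_, h6⟩ | ⟨x, hx, h5, h6, h7⟩
        · exact absurd (h6 y hy) (not_le.2 hpy)
        · have h8 := h2 x h5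
          have : (x : ℝ) ≤ y := by exact_mod_cast h7 y hy hpy
          linarith
      · exact adm_convex hn (by linarith [c1.1]) h3 h4 a1 a2
    · refine ⟨lo, nxt P la, rfl, ?_, ?_⟩
      · obtain ⟨p, hp, hpα⟩ := hL α hα hadm
        have : (lo : ℝ) ≤ p := by exact_mod_cast hmin' p hp
        linarith
      · intro c hc
        obtain ⟨p, hp, hpα⟩ := hR α hα hadm
        rcases nxt_cases P la with ⟨h5, _⟩ | ⟨x, hx, h5, h6, h7⟩
        · rw [h5] at hc; exact absurd hc (by simp)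
        · rw [h5] at hc
          have hcx : x = c := WithTop.coe_injective hc
          subst hcx
          exact hpα x hx (lt_of_le_of_lt (hmax' p hp) h6)
    · intro a b hab
      simp only [Option.some.injEq, Prod.mk.injEq] at hab
      rw [← hab.1]
      exact hPn lo hmin.1
  · have e : solve T n d k = none := by
      subst hP
      unfold solve
      rw [if_pos hnum, dif_neg hne]
    rw [e]
    refine ⟨fun α hα => ⟨?_, fun hadm => ?_⟩, fun a b h1 => by simp at h1⟩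
    · rintro ⟨a, b, h1, _⟩
      simp at h1
    · obtain ⟨p, hp, _⟩ := hL α hα hadm
      exact absurd ⟨p, hp⟩ hne

end Pool.Agent.L7h86
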