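import Mathlib
import Pool.Agent.L7h86.Ends

/-!
# Correctness of the computation of the stability intervals, second part
-/

set_option autoImplicit false

namespace Pool.Agent.L7h86

theorem full_mem {α : ℝ} (hα : 0 < α) : α ∈ Intv.toSet (some (0, ⊤)) := by
  refine ⟨0, ⊤, rfl, by push_cast; exact hα, fun c hc => absurd hc (by simp)⟩

/-- the tests against line bundles of large degree follow from those of small degree -/
theorem lines_suff {α : ℝ} (hα : 0 < α) {n : ℕ} (hn : 1 ≤ n) {d k : ℤ} (hnum : Num n d k)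
    (h : ∀ i : ℕ, i < d.toNat + 2 → TestR α n d k 1 i 0 ∧ TestR α n d k 1 i (i + 1)) {d' k' : ℤ}
    (hq : k' * (1 + d' - k') = 0) (hd' : 0 ≤ d') : TestR α n d k 1 d' k' := by
  obtain ⟨hd, hk, hkn, _⟩ := hnum
  have hn' : (1 : ℤ) ≤ n := by exact_mod_cast hn
  have hnr : (1 : ℝ) ≤ n := by exact_mod_cast hn
  by_cases hsmall : d' < d + 2
  · obtain ⟨i, hi⟩ := Int.eq_ofNat_of_zero_le hd'
    subst hi
    obtain ⟨t1, t2⟩ := h i (by omega)
    rcases mul_eq_zero.1 hq with h1 | h1
    · rw [h1]; exact t1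
    · have : k' = (i : ℤ) + 1 := by linarith
      rw [this]; exact t2
  · push Not at hsmall
    obtain ⟨t1, t2⟩ := h (d.toNat + 1) (by omega)
    have hcast : ((d.toNat + 1 : ℕ) : ℤ) = d + 1 := by omega
    rw [hcast] at t1 t2
    have hnd : (n : ℤ) * (d + 2) ≤ n * d' := mul_le_mul_of_nonneg_left hsmall (by omega)
    have hnd2 : d ≤ n * d := by nlinarith
    have hdr : ((d + 1 : ℤ) : ℝ) ≤ d' := by exact_mod_cast (by omega : d + 1 ≤ d')
    rcases mul_eq_zero.1 hq with h1 | h1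
    · subst h1
      constructor
      · intro _
        unfold euler
        push_cast
        linarith
      · intro h3
        have h4 : (n : ℝ) * (((d + 1 : ℤ) : ℝ) + α * ((0 : ℤ) : ℝ)) ≤ ((1 : ℕ) : ℝ) * (d + α * k) := by
          have : (n : ℝ) * (((d + 1 : ℤ) : ℝ) + α * ((0 : ℤ) : ℝ)) ≤
              n * ((d' : ℝ) + α * ((0 : ℤ) : ℝ)) :=
            mul_le_mul_of_nonneg_left (by linarith) (by linarith)
          linarith
        have h5 := t1.2 h4
        unfold euler at h5 ⊢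
        push_cast at h5 ⊢
        rcases le_or_gt (n : ℤ) k with h6 | h6
        · have : ((n : ℤ) - k) * (d' + 1) ≤ 0 :=
            mul_nonpos_of_nonpos_of_nonneg (by omega) (by omega)
          linarith
        · exfalso
          have : (1 : ℤ) * (d + 2) ≤ ((n : ℤ) - k) * (d + 2) :=
            mul_le_mul_of_nonneg_right (by omega) (by omega)
          linarith
    · have hk' : k' = d' + 1 := by linarith
      subst hk'
      constructor
      · intro _
        unfold euler
        push_cast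
        have : 0 ≤ (d' + 1) * (n + d - k) := mul_nonneg (by omega) (by omega)
        linarith
      · intro h3
        exfalso
        have h4 : (n : ℝ) * (((d + 1 : ℤ) : ℝ) + α * ((d + 1 + 1 : ℤ) : ℝ)) ≤
            ((1 : ℕ) : ℝ) * (d + α * k) := by
          have e1 : ((d + 1 + 1 : ℤ) : ℝ) ≤ ((d' + 1 : ℤ) : ℝ) := by
            exact_mod_cast (by omega : d + 1 + 1 ≤ d' + 1)
          have e2 := mul_le_mul_of_nonneg_left e1 hα.le
          have : (n : ℝ) * (((d + 1 : ℤ) : ℝ) + α * ((d + 1 + 1 : ℤ) : ℝ)) ≤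
              n * ((d' : ℝ) + α * ((d' + 1 : ℤ) : ℝ)) :=
            mul_le_mul_of_nonneg_left (by linarith) (by linarith)
          linarith
        have h5 := t2.2 h4
        unfold euler at h5
        push_cast at h5
        linarith

theorem mem_lines {n : ℕ} {d : ℤ} {t : Entry} : t ∈ lines n d ↔ 1 < n ∧ ∃ i : ℕ,
    i < d.toNat + 2 ∧ (t = ⟨1, i, 0, some (0, ⊤)⟩ ∨ t = ⟨1, i, i + 1, some (0, ⊤)⟩) := by
  unfold lines
  split_ifs with h
  · rw [List.mem_flatMap]
    constructor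
    · rintro ⟨i, hi, ht⟩
      rw [List.mem_range] at hi
      simp only [List.mem_cons, List.not_mem_nil, or_false] at ht
      exact ⟨h, i, hi, ht⟩
    · rintro ⟨_, i, hi, ht⟩
      refine ⟨i, List.mem_range.2 hi, ?_⟩
      simp only [List.mem_cons, List.not_mem_nil, or_false]
      exact ht
  · constructor
    · intro h1; simp at h1
    · rintro ⟨h1, _⟩; exact absurd h1 h

/-- the entry of the table attached to `(n, k)` -/
def ent (n k : ℕ) : Entry :=
  ⟨n, ((n ^ 2 - 1) / k + k : ℕ) - n, k,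
    solve (lines n (((n ^ 2 - 1) / k + k : ℕ) - n) ++ tab n) n (((n ^ 2 - 1) / k + k : ℕ) - n) k⟩

theorem mem_tab {n : ℕ} {t : Entry} : t ∈ tab n ↔ ∃ m < n, ∃ k, k < m ^ 2 ∧ 1 ≤ k ∧
    k ∣ m ^ 2 - 1 ∧ t = ent m k := by
  induction n with
  | zero =>
    constructor
    · intro h; simp [tab] at h
    · rintro ⟨m, hm, _⟩; omega
  | succ n ih =>
    rw [tab, List.mem_append, ih, List.mem_map]
    constructor
    · rintro (⟨m, hm, h⟩ | ⟨k, hk, h⟩)
      · exact ⟨m, by omega, h⟩
      · rw [List.mem_filter, List.mem_range] at hk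
        have h2 : 1 ≤ k ∧ k ∣ n ^ 2 - 1 := by simpa using hk.2
        exact ⟨n, by omega, k, hk.1, h2.1, h2.2, h.symm⟩
    · rintro ⟨m, hm, k, h1, h2, h3, h4⟩
      rcases lt_or_eq_of_le (Nat.lt_succ_iff.1 hm) with h5 | h5
      · exact Or.inl ⟨m, h5, k, h1, h2, h3, h4⟩
      · subst h5
        right
        refine ⟨k, ?_, h4.symm⟩
        rw [List.mem_filter, List.mem_range]
        exact ⟨h1, by simpa using ⟨h2, h3⟩⟩

theorem ent_eq {n k : ℕ} (hn : 1 ≤ n) (h2 : 1 ≤ k) (h3 : k ∣ n ^ 2 - 1) :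
    (ent n k).k * ((ent n k).n + (ent n k).d - (ent n k).k) = ((ent n k).n : ℤ) ^ 2 - 1 := by
  obtain ⟨c, hc⟩ := h3
  have h4 : (n ^ 2 - 1) / k = c := by rw [hc]; exact Nat.mul_div_cancel_left c (by omega)
  have h5 : (ent n k).d = ((c + k : ℕ) : ℤ) - n := by
    change (((n ^ 2 - 1) / k + k : ℕ) : ℤ) - n = _
    rw [h4]
  have h6 : (ent n k).k = k := rfl
  have h7 : (ent n k).n = n := rfl
  rw [h5, h6, h7]
  have h8 : ((n ^ 2 - 1 : ℕ) : ℤ) = (n : ℤ) ^ 2 - 1 := by
    have : 1 ≤ n ^ 2 := Nat.one_le_pow _ _ hn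
    push_cast [Nat.cast_sub this]
    ring
  rw [← h8, hc]
  push_cast
  ring

theorem exists_ent {n : ℕ} (hn : 2 ≤ n) {d k : ℤ} (hk : 0 ≤ k)
    (h : k * (n + d - k) = (n : ℤ) ^ 2 - 1) :
    ∃ K : ℕ, K < n ^ 2 ∧ 1 ≤ K ∧ K ∣ n ^ 2 - 1 ∧ (ent n K).k = k ∧ (ent n K).d = d := by
  obtain ⟨K, rfl⟩ := Int.eq_ofNat_of_zero_le hk
  have hn2 : (4 : ℤ) ≤ (n : ℤ) ^ 2 := by
    have : (2 : ℤ) ≤ n := by exact_mod_cast hn
    nlinarith
  have hK0 : K ≠ 0 := by
    rintro rfl
    simp at h
    linarith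
  have hK1 : (1 : ℤ) ≤ K := by omega
  have hpos : 0 < (n : ℤ) + d - K := by
    have h1 : 0 < (K : ℤ) * (n + d - K) := by rw [h]; linarith
    exact (mul_pos_iff_of_pos_left (by omega)).1 h1
  obtain ⟨c, hc⟩ := Int.eq_ofNat_of_zero_le hpos.le
  have h8 : ((n ^ 2 - 1 : ℕ) : ℤ) = (n : ℤ) ^ 2 - 1 := by
    have : 1 ≤ n ^ 2 := Nat.one_le_pow _ _ (by omega)
    push_cast [Nat.cast_sub this]
    ring
  have h9 : n ^ 2 - 1 = K * c := by
    rw [hc, ← h8] at h
    exact_mod_cast h.symm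
  have hc1 : 1 ≤ c := by omega
  have h10 : (n ^ 2 - 1) / K = c := by rw [h9]; exact Nat.mul_div_cancel_left c (by omega)
  have h11 : (ent n K).d = ((c + K : ℕ) : ℤ) - n := by
    change (((n ^ 2 - 1) / K + K : ℕ) : ℤ) - n = _
    rw [h10]
  refine ⟨K, ?_, by omega, ⟨c, h9⟩, rfl, ?_⟩
  · have h12 : K ≤ K * c := Nat.le_mul_of_pos_right K (by omega)
    have h13 : 1 ≤ n ^ 2 := Nat.one_le_pow _ _ (by omega)
    omega
  · rw [h11]
    push_cast
    linarith

theorem ival_spec (n : ℕ) : 1 ≤ n → ∀ d k : ℤ, Spec (ival n d k) n d k := by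
  induction n using Nat.strong_induction_on with
  | _ n ih =>
    intro hn d k
    unfold ival
    apply solve_spec hn
    intro α hα hnum
    have hent : ∀ m < n, ∀ K, K < m ^ 2 → 1 ≤ K → (α ∈ (ent m K).J.toSet ↔
        Adm α (ent m K).n (ent m K).d (ent m K).k) := by
      intro m hm K hK1 hK2
      have hm1 : 1 ≤ m := by
        rcases Nat.eq_zero_or_pos m with h | h
        · rw [h] at hK1; simp at hK1
        · exact h
      exact (ih m hm hm1 _ _).1 α hα
    constructor
    · intro hadm t ht hJ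
      rw [adm_iff hn] at hadm
      rw [List.mem_append, mem_lines, mem_tab] at ht
      rcases ht with ⟨h1, i, hi, rfl | rfl⟩ | ⟨m, hm, K, h1, h2, h3, rfl⟩
      · refine hadm.2 1 le_rfl h1 i 0 (by push_cast; ring) (adm_one.2 ⟨by omega, by omega, by omega⟩)
      · refine hadm.2 1 le_rfl h1 i (i + 1) (by push_cast; ring)
          (adm_one.2 ⟨by omega, by omega, by omega⟩)
      · have hm1 : 1 ≤ m := by
          rcases Nat.eq_zero_or_pos m with h | h
          · rw [h] at h1; simp at h1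
          · exact h
        exact hadm.2 (ent m K).n hm1 hm (ent m K).d (ent m K).k (ent_eq hm1 h2 h3)
          ((hent m hm K h1 h2).1 hJ)
    · intro hTT
      rw [adm_iff hn]
      refine ⟨hnum, fun n' h1 h2 d' k' h3 h4 => ?_⟩
      rcases lt_or_eq_of_le h1 with h5 | h5
      · -- rank at least two
        obtain ⟨K, e1, e2, e3, e4, e5⟩ := exists_ent (by omega) (h4.num).2.1 h3
        have h6 := hTT (ent n' K) (by
          rw [List.mem_append, mem_tab]
          exact Or.inr ⟨n', h2, K, e1, e2, e3, rfl⟩) ((hent n' h2 K e1 e2).2 (by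
            rw [e4, e5]; exact h4))
        rw [e4, e5] at h6
        exact h6
      · subst h5
        refine lines_suff hα hn hnum (fun i hi => ⟨?_, ?_⟩) (by push_cast at h3; linarith)
          (h4.num).1
        · exact hTT ⟨1, i, 0, some (0, ⊤)⟩ (by
            rw [List.mem_append, mem_lines]
            exact Or.inl ⟨h2, i, hi, Or.inl rfl⟩) (full_mem hα)
        · exact hTT ⟨1, i, i + 1, some (0, ⊤)⟩ (by
            rw [List.mem_append, mem_lines]
            exact Or.inl ⟨h2, i, hi, Or.inr rfl⟩) (full_mem hα)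

/-- The stability intervals of all types. -/
theorem interval {n k : ℕ} (hn : 1 ≤ n) (hk : 1 ≤ k) (d : ℤ) :
    {α : ℝ | 0 < α ∧ α ∈ Coh.stabilitySet n d k} = (ival n d k).toSet := by
  obtain ⟨h1, h2⟩ := ival_spec n hn d k
  ext α
  constructor
  · rintro ⟨hα, h⟩
    exact (h1 α hα).2 ((Coh.criterion hn hk d hα).1 h)
  · intro h
    have hα : 0 < α := by
      obtain ⟨a, b, hab, h3, _⟩ := h
      have : (0 : ℝ) ≤ a := by exact_mod_cast h2 a b hab
      linarith
    exact ⟨hα, (Coh.criterion hn hk d hα).2 ((h1 α hα).1 h)⟩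

end Pool.Agent.L7h86
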